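import Pool.Agent.Lib.MP_79dc3a_pr.Surg

/-! Deterministic chain (J17, first half). -/

namespace Pool.Agent.Lib.MP_79dc3a_pr

open Finset

theorem lapS_hom {d : ℕ} {M N : Type} [AddCommGroup M] [AddCommGroup N] (φ : M →+ N)
    (A : Set (Sym2 (V d))) (u : V d → M) (x : V d) :
    lapS A (fun y => φ (u y)) x = φ (lapS A u x) := by
  unfold lapS
  rw [map_sum]
  refine Finset.sum_congr rfl (fun i _ => ?_)
  split_ifs
  · rw [map_sub]
  · rw [map_zero]

theorem lap_hom {d : ℕ} {M N : Type} [AddCommGroup M] [AddCommGroup N] (φ : M →+ N)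
    (E : Finset (Sym2 (V d))) (u : V d → M) (x : V d) :
    lap E (fun y => φ (u y)) x = φ (lap E u x) := by
  unfold lap
  rw [map_sum]
  refine Finset.sum_congr rfl (fun e _ => ?_)
  induction e using Sym2.ind with
  | _ a b =>
    simp only [ctr_mk]
    rw [map_add]
    congr 1
    · split_ifs
      · rw [map_sub]
      · rw [map_zero]
    · split_ifs
      · rw [map_sub]
      · rw [map_zero]

theorem rad_cast (K m : ℕ) : ((rad K m : ℕ) : ℤ) = (2 * K + 4) * (m + 1) - 1 := by
  unfold rad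
  have : 1 ≤ (2 * K + 4) * (m + 1) := Nat.succ_le_of_lt (Nat.mul_pos (by omega) (by omega))
  rw [Nat.cast_sub this]
  push_cast
  ring

theorem Bx_cen_subset {d K : ℕ} {z v : V d} {m m' k : ℕ} (hz : z ∈ Bx v k) (hk : k + m ≤ m') :
    Bx (cen K z) (rad K m) ⊆ Bx (cen K v) (rad K m') := by
  intro x hx
  rw [mem_Bx] at *
  intro i
  have h1 := hx i
  have h2 := hz i
  rw [rad_cast] at *
  have hc : ∀ y : V d, cen K y i = (2 * (K:ℤ) + 4) * y i := by
    intro y
    unfold cen
    rw [Pi.smul_apply, smul_eq_mul]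
    push_cast
    ring
  rw [hc] at *
  have e : x i - (2 * (K:ℤ) + 4) * v i =
      (x i - (2 * (K:ℤ) + 4) * z i) + (2 * (K:ℤ) + 4) * (z i - v i) := by ring
  have hN : (0:ℤ) ≤ 2 * (K:ℤ) + 4 := by positivity
  have h3 : |(2 * (K:ℤ) + 4) * (z i - v i)| ≤ (2 * (K:ℤ) + 4) * k := by
    rw [abs_mul, abs_of_nonneg hN]
    exact mul_le_mul_of_nonneg_left h2 hN
  have h4 : (k:ℤ) + m ≤ m' := by exact_mod_cast hk
  calc |x i - (2 * (K:ℤ) + 4) * v i|
      ≤ |x i - (2 * (K:ℤ) + 4) * z i| + |(2 * (K:ℤ) + 4) * (z i - v i)| := by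
        rw [e]; exact abs_add_le _ _
    _ ≤ ((2 * (K:ℤ) + 4) * (m + 1) - 1) + (2 * (K:ℤ) + 4) * k := by linarith
    _ = (2 * (K:ℤ) + 4) * (k + m + 1) - 1 := by ring
    _ ≤ (2 * (K:ℤ) + 4) * (m' + 1) - 1 := by
        have := mul_le_mul_of_nonneg_left (show (k:ℤ) + m + 1 ≤ m' + 1 by linarith) hN
        linarith

theorem cen_zero {d K : ℕ} : cen K (0 : V d) = 0 := by
  unfold cen
  rw [smul_zero]

theorem chain {d : ℕ} (Sc : Scale d) (l : ℕ) (m1 m2 m3 : ℕ) (w : Cfg d)
    (h1 : ∀ z ∈ Bx (0 : V d) (m2 + m3), ∀ t, w ∉ F1 Sc l t z z m1)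
    (h2 : ∀ z ∈ Bx (0 : V d) m3, ∀ t, w ∉ F2 Sc l t z z m2)
    (h3 : w ∉ F3 Sc l 0 0 m3) (u : V d → ℤ)
    (hu : HarmB (opn w) 0 (rad Sc.K (m1 + m2 + m3)) u) (f : Ed d) (hf : f ∈ Wd Sc.K 0)
    (hw : w f = true) : (l : ℤ) ∣ u (f.1 + bv f.2) - u f.1 := by
  set φ : ℤ →+ ZMod l := (Int.castAddHom (ZMod l)) with hφ
  have hφa : ∀ n : ℤ, φ n = (n : ZMod l) := fun n => rfl
  set ub : V d → ZMod l := fun y => φ (u y) with hub
  have hharm : HarmB (opn w) (cen Sc.K 0) (rad Sc.K (m1 + m2 + m3)) ub := by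
    intro x hx
    rw [cen_zero] at hx
    rw [hub, lapS_hom, hu x hx, map_zero]
  have hsub : ∀ z : V d, ∀ k m : ℕ, z ∈ Bx (0 : V d) k → k + m ≤ m1 + m2 + m3 →
      ∀ x ∈ Bx (cen Sc.K z) (rad Sc.K m), x ∈ Bx (0 : V d) (rad Sc.K (m1 + m2 + m3)) := by
    intro z k m hz hk x hx
    have := Bx_cen_subset hz hk hx
    rwa [cen_zero] at this
  -- currents vanish
  have hcur : ∀ z ∈ Bx (0 : V d) (m2 + m3), ∀ t, Pat Sc.K (cen Sc.K z) (Sc.E t) (Sc.S t) (opn w) →
      cur (Sc.E t) (Sc.a t) (cen Sc.K z) ub = 0 := by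
    intro z hz t hP
    have h := h1 z hz t
    have hd : (l : ℤ) ∣ cur (Sc.E t) (Sc.a t) (cen Sc.K z) u := by
      by_contra hcon
      refine h ⟨hP, u, ?_, hcon⟩
      intro x hx
      exact hu x (hsub z (m2 + m3) m1 hz (by omega) x hx)
    have : cur (Sc.E t) (Sc.a t) (cen Sc.K z) ub = φ (cur (Sc.E t) (Sc.a t) (cen Sc.K z) u) := by
      unfold cur
      rw [hub]
      exact lap_hom φ (Sc.E t) (fun y => u (y + cen Sc.K z)) (Sc.a t)
    rw [this, hφa]
    exact (ZMod.intCast_zmod_eq_zero_iff_dvd _ _).2 hd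
  have hX3 : X3 Sc l 0 m3 w ub := by
    refine ⟨?_, ?_⟩
    · intro x hx
      refine hharm x ?_
      have h0 : (0 : V d) ∈ Bx (0 : V d) 0 := by
        rw [mem_Bx]; intro i; simp
      exact Bx_cen_subset h0 (by omega) hx
    · intro z hz hP
      have hX2 : X2 Sc l z m2 w ub := by
        refine ⟨?_, ?_⟩
        · intro x hx
          rw [hub, lapS_hom, hu x (hsub z m3 m2 hz (by omega) x hx), map_zero]
        · intro z' hz' t hP'
          refine hcur z' ?_ t hP'
          rw [mem_Bx] at *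
          intro i
          have a1 := hz i
          have a2 := hz' i
          have : z' i - (0 : V d) i = (z' i - z i) + (z i - (0 : V d) i) := by ring
          rw [this]
          refine (abs_add_le _ _).trans ?_
          push_cast
          linarith
      have hab : ∀ t, ub (Sc.a t + cen Sc.K z) = ub (Sc.b t + cen Sc.K z) := by
        intro t
        by_contra hne
        exact h2 z hz t ⟨hP, ub, hX2, hne⟩
      intro x hx
      have := Sc.kill (ZMod l) (fun y => ub (y + cen Sc.K z)) hab (by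
        intro j s hs hs'
        refine hline hP ub j s hs hs' ?_
        refine hX2.1 _ ?_
        have hin : inQ Sc.K (s • bv j + cen Sc.K z - cen Sc.K z) := by
          rw [add_sub_cancel_right]
          constructor
          · intro i
            rw [Pi.smul_apply, smul_eq_mul]
            unfold bv
            by_cases hij : i = j
            · subst hij
              rw [Pi.single_eq_same, mul_one]
              linarith
            · rw [Pi.single_eq_of_ne hij, mul_zero, abs_zero]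
              positivity
          · intro i i' hi hi'
            exfalso
            rw [Pi.smul_apply, smul_eq_mul] at hi
            unfold bv at hi
            by_cases hij : i = j
            · subst hij
              rw [Pi.single_eq_same, mul_one] at hi
              linarith
            · rw [Pi.single_eq_of_ne hij, mul_zero, abs_zero] at hi
              linarith [Int.natCast_nonneg Sc.K]
        have hzz : z ∈ Bx z m2 := by
          rw [mem_Bx]; intro i; simp
        exact site_in_box hzz hin) x hx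
      simpa using this
  have hfin : ub (f.1 + bv f.2) = ub f.1 := by
    by_contra hne
    exact h3 ⟨ub, hX3, f, hf, hw, hne⟩
  have h5 : (((u (f.1 + bv f.2) - u f.1 : ℤ)) : ZMod l) = 0 := by
    push_cast
    have : (u (f.1 + bv f.2) : ZMod l) = (u f.1 : ZMod l) := hfin
    rw [this, sub_self]
  exact (ZMod.intCast_zmod_eq_zero_iff_dvd _ _).1 h5

end Pool.Agent.Lib.MP_79dc3a_pr
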