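import Pool.Agent.Lib.MP_79dc3a_pr.Defs

/-!
Networks as digit expansions, and a lower bound for the number of primes.
-/

namespace Pool.Agent.Lib.MP_79dc3a_pr

open Finset

theorem digits_S4_succ (m : ℕ) : S4 (m + 1) = 4 * S4 m + 1 := by
  unfold S4
  have h : ∃ k, 4 ^ m = 3 * k + 1 := by
    induction m with
    | zero => exact ⟨0, rfl⟩
    | succ m ih =>
      obtain ⟨k, hk⟩ := ih
      exact ⟨4 * k + 1, by rw [pow_succ, hk]; ring⟩
  obtain ⟨k, hk⟩ := h
  rw [pow_succ, hk]
  omega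

theorem digits_S4_zero : S4 0 = 0 := rfl

/-- the effect of one letter -/
theorem digits_letter {x z r e c : ℚ} (hr : 0 < r) (he : e = 16800 * r)
    (hc : c = 16800 * (1 + 1 / r)) (hz : z ≠ 0) (hz' : (1 + r) ^ 2 * z + r ≠ 0)
    (hx : x = 16800 * (1 + 1 / z)) :
    (c * (x + e)) / (c + (x + e)) = 16800 * (1 + 1 / ((1 + r) ^ 2 * z + r)) := by
  have hr' : r ≠ 0 := hr.ne'
  have h1 : c + (x + e) = 16800 * ((1 + r) ^ 2 * z + r) / (r * z) := by
    rw [hc, hx, he]; field_simp; ring
  have h2 : c * (x + e) = 16800 ^ 2 * ((1 + r) * ((1 + r) * z + 1)) / (r * z) := by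
    rw [hc, hx, he]; field_simp; ring
  rw [h1, h2]
  have h3 : (16800 : ℚ) * ((1 + r) ^ 2 * z + r) ≠ 0 := mul_ne_zero (by norm_num) hz'
  rw [div_div_div_cancel_right₀ (mul_ne_zero hr' hz)]
  rw [div_eq_iff h3]
  field_simp
  ring

/-- the blocks -/
def digits_blk : ℕ → List (ℕ × ℕ)
  | 19 => [(4200, 84000), (10080, 44800)]
  | 20 => [(8400, 50400), (5600, 67200)]
  | 21 => [(4200, 84000), (3360, 100800), (5600, 67200)]
  | 22 => [(4200, 84000), (3360, 100800), (2800, 117600), (2400, 134400)]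
  | _ => []

theorem digits_blk_len (δ : ℕ) : (digits_blk δ).length ≤ 4 := by
  unfold digits_blk
  split <;> simp

theorem digits_blk_ok (δ : ℕ) : ∀ l ∈ digits_blk δ, LetterOK l := by
  unfold digits_blk
  split <;> simp [LetterOK]

theorem digits_res (b : ℚ) (δ : ℕ) (h1 : 19 ≤ δ) (h2 : δ ≤ 22) (w : List (ℕ × ℕ)) (z : ℚ)
    (hz : 0 < z ∨ z ≤ -(24 / 16)) (hw : res b w = 16800 * (1 + 1 / z)) :
    res b (digits_blk δ ++ w) = 16800 * (1 + 1 / (4 * z + δ / 16)) := by
  have key : ∀ (x z r : ℚ) (e c : ℕ), 0 < r → r ≤ 3 / 5 → (e : ℚ) = 16800 * r →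
      (c : ℚ) = 16800 * (1 + 1 / r) → (0 < z ∨ z ≤ -(24 / 16)) → x = 16800 * (1 + 1 / z) →
      ((c : ℚ) * (x + e)) / (c + (x + e)) = 16800 * (1 + 1 / ((1 + r) ^ 2 * z + r)) ∧
      (0 < (1 + r) ^ 2 * z + r ∨ (1 + r) ^ 2 * z + r ≤ -(24 / 16)) := by
    intro x z r e c hr hr' he hc hz hx
    have hz' : 0 < (1 + r) ^ 2 * z + r ∨ (1 + r) ^ 2 * z + r ≤ -(24 / 16) := by
      rcases hz with h | h
      · left; positivity
      · right
        nlinarith [sq_nonneg r]
    refine ⟨digits_letter hr he hc ?_ ?_ hx, hz'⟩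
    · rcases hz with h | h
      · exact h.ne'
      · intro h0; rw [h0] at h; norm_num at h
    · rcases hz' with h | h
      · exact h.ne'
      · intro h0; rw [h0] at h; norm_num at h
  have hc : δ = 19 ∨ δ = 20 ∨ δ = 21 ∨ δ = 22 := by omega
  rcases hc with rfl | rfl | rfl | rfl
  · obtain ⟨e1, z1⟩ := key _ z (3 / 5) 10080 44800 (by norm_num) (by norm_num) (by norm_num)
      (by norm_num) hz hw
    obtain ⟨e2, z2⟩ := key _ _ (1 / 4) 4200 84000 (by norm_num) (by norm_num) (by norm_num)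
      (by norm_num) z1 e1
    simp only [digits_blk, List.cons_append, List.nil_append, res]
    rw [e2]
    congr 3
    push_cast
    ring
  · obtain ⟨e1, z1⟩ := key _ z (1 / 3) 5600 67200 (by norm_num) (by norm_num) (by norm_num)
      (by norm_num) hz hw
    obtain ⟨e2, z2⟩ := key _ _ (1 / 2) 8400 50400 (by norm_num) (by norm_num) (by norm_num)
      (by norm_num) z1 e1
    simp only [digits_blk, List.cons_append, List.nil_append, res]
    rw [e2]
    congr 3
    push_cast
    ring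
  · obtain ⟨e1, z1⟩ := key _ z (1 / 3) 5600 67200 (by norm_num) (by norm_num) (by norm_num)
      (by norm_num) hz hw
    obtain ⟨e2, z2⟩ := key _ _ (1 / 5) 3360 100800 (by norm_num) (by norm_num) (by norm_num)
      (by norm_num) z1 e1
    obtain ⟨e3, z3⟩ := key _ _ (1 / 4) 4200 84000 (by norm_num) (by norm_num) (by norm_num)
      (by norm_num) z2 e2
    simp only [digits_blk, List.cons_append, List.nil_append, res]
    rw [e3]
    congr 3
    push_cast
    ring
  · obtain ⟨e1, z1⟩ := key _ z (1 / 7) 2400 134400 (by norm_num) (by norm_num) (by norm_num)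
      (by norm_num) hz hw
    obtain ⟨e2, z2⟩ := key _ _ (1 / 6) 2800 117600 (by norm_num) (by norm_num) (by norm_num)
      (by norm_num) z1 e1
    obtain ⟨e3, z3⟩ := key _ _ (1 / 5) 3360 100800 (by norm_num) (by norm_num) (by norm_num)
      (by norm_num) z2 e2
    obtain ⟨e4, z4⟩ := key _ _ (1 / 4) 4200 84000 (by norm_num) (by norm_num) (by norm_num)
      (by norm_num) z3 e3
    simp only [digits_blk, List.cons_append, List.nil_append, res]
    rw [e4]
    congr 3
    push_cast
    ring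

theorem digits_x (m Z : ℕ) (h1 : 49 * S4 m + 10 ≤ Z) (h2 : Z ≤ 52 * S4 m + 10) :
    ∃ w : List (ℕ × ℕ), w.length ≤ 4 * m ∧ (∀ l ∈ w, LetterOK l) ∧
      res 43680 w = 16800 * (1 + 16 / (Z : ℚ)) := by
  induction m generalizing Z with
  | zero =>
    rw [digits_S4_zero] at h1 h2
    have : Z = 10 := by omega
    subst this
    refine ⟨[], by simp, by simp, ?_⟩
    show (43680 : ℚ) = _
    norm_num
  | succ m ih =>
    rw [digits_S4_succ] at h1 h2
    obtain ⟨δ, Z', e1, e2, e3, e4, e5⟩ : ∃ δ Z', 19 ≤ δ ∧ δ ≤ 22 ∧ Z = 4 * Z' + δ ∧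
        49 * S4 m + 10 ≤ Z' ∧ Z' ≤ 52 * S4 m + 10 := by
      obtain ⟨q, r, hr, hq⟩ : ∃ q r, r < 4 ∧ Z = 4 * q + r :=
        ⟨Z / 4, Z % 4, Nat.mod_lt _ (by norm_num), by omega⟩
      interval_cases r
      · exact ⟨20, q - 5, by norm_num, by norm_num, by omega, by omega, by omega⟩
      · exact ⟨21, q - 5, by norm_num, by norm_num, by omega, by omega, by omega⟩
      · exact ⟨22, q - 5, by norm_num, by norm_num, by omega, by omega, by omega⟩
      · exact ⟨19, q - 4, by norm_num, by norm_num, by omega, by omega, by omega⟩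
    obtain ⟨w, hw1, hw2, hw3⟩ := ih Z' e4 e5
    have hZ : (0 : ℚ) < Z' := by
      have : 0 < Z' := by omega
      exact_mod_cast this
    have h3 := digits_res 43680 δ e1 e2 w ((Z' : ℚ) / 16) (Or.inl (by positivity)) (by
      rw [hw3, one_div_div])
    refine ⟨digits_blk δ ++ w, ?_, fun l hl => ?_, ?_⟩
    · rw [List.length_append]
      have := digits_blk_len δ
      omega
    · rcases List.mem_append.1 hl with h | h
      · exact digits_blk_ok δ l h
      · exact hw2 l h
    · rw [h3, e3]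
      have : 4 * ((Z' : ℚ) / 16) + (δ : ℚ) / 16 = ((4 * Z' + δ : ℕ) : ℚ) / 16 := by
        push_cast; ring
      rw [this, one_div_div]

theorem digits_y (m Z : ℕ) (h1 : 50 * S4 m + 24 ≤ Z) (h2 : Z ≤ 53 * S4 m + 24) :
    ∃ w : List (ℕ × ℕ), w.length ≤ 4 * m ∧ (∀ l ∈ w, LetterOK l) ∧
      res 5600 w = 16800 * (1 - 16 / (Z : ℚ)) := by
  induction m generalizing Z with
  | zero =>
    rw [digits_S4_zero] at h1 h2
    have : Z = 24 := by omega
    subst this
    refine ⟨[], by simp, by simp, ?_⟩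
    show (5600 : ℚ) = _
    norm_num
  | succ m ih =>
    rw [digits_S4_succ] at h1 h2
    obtain ⟨δ, Z', e1, e2, e3, e4, e5⟩ : ∃ δ Z', 19 ≤ δ ∧ δ ≤ 22 ∧ Z + δ = 4 * Z' ∧
        50 * S4 m + 24 ≤ Z' ∧ Z' ≤ 53 * S4 m + 24 := by
      obtain ⟨q, r, hr, hq⟩ : ∃ q r, r < 4 ∧ Z = 4 * q + r :=
        ⟨Z / 4, Z % 4, Nat.mod_lt _ (by norm_num), by omega⟩
      interval_cases r
      · exact ⟨20, q + 5, by norm_num, by norm_num, by omega, by omega, by omega⟩
      · exact ⟨19, q + 5, by norm_num, by norm_num, by omega, by omega, by omega⟩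
      · exact ⟨22, q + 6, by norm_num, by norm_num, by omega, by omega, by omega⟩
      · exact ⟨21, q + 6, by norm_num, by norm_num, by omega, by omega, by omega⟩
    obtain ⟨w, hw1, hw2, hw3⟩ := ih Z' e4 e5
    have hZ : (24 : ℚ) ≤ Z' := by
      have : 24 ≤ Z' := by omega
      exact_mod_cast this
    have h3 := digits_res 5600 δ e1 e2 w (-((Z' : ℚ) / 16)) (Or.inr (by linarith)) (by
      rw [hw3, one_div_neg_eq_neg_one_div, one_div_div]; ring)
    refine ⟨digits_blk δ ++ w, ?_, fun l hl => ?_, ?_⟩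
    · rw [List.length_append]
      have := digits_blk_len δ
      omega
    · rcases List.mem_append.1 hl with h | h
      · exact digits_blk_ok δ l h
      · exact hw2 l h
    · rw [h3]
      have h4 : (Z : ℚ) = 4 * Z' - δ := by
        have : ((Z + δ : ℕ) : ℚ) = ((4 * Z' : ℕ) : ℚ) := by rw [e3]
        push_cast at this
        linarith
      have : 4 * (-((Z' : ℚ) / 16)) + (δ : ℚ) / 16 = -((Z : ℚ) / 16) := by
        rw [h4]; ring
      rw [this, one_div_neg_eq_neg_one_div, one_div_div]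
      ring

theorem primes_lower (m : ℕ) (hm : 20 ≤ m) :
    2 ^ m ≤ ((Finset.Icc 1 (2 * S4 m - 14)).filter Nat.Prime).card := by
  set n := S4 m - 7 with hn
  set P := (Finset.Icc 1 (2 * S4 m - 14)).filter Nat.Prime with hP
  have hpow : 4 ^ m = 3 * S4 m + 1 := by
    clear_value n P
    clear hn hP hm
    induction m with
    | zero => rfl
    | succ m ih => rw [digits_S4_succ, pow_succ, ih]; ring
  have h4 : 4 ^ m = 2 ^ m * 2 ^ m := by
    rw [← mul_pow]
    norm_num
  have h20 : 2 ^ 20 ≤ 2 ^ m := Nat.pow_le_pow_right (by norm_num) hm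
  have hm2 : m < 2 ^ m := Nat.lt_two_pow_self
  have hmm : 1000 * m ≤ 2 ^ m := by
    have : ∀ k, 1000 * (20 + k) ≤ 2 ^ (20 + k) := by
      intro k
      induction k with
      | zero => norm_num
      | succ k ih =>
        rw [show 20 + (k + 1) = (20 + k) + 1 by ring, pow_succ]
        omega
    obtain ⟨k, rfl⟩ := Nat.exists_eq_add_of_le hm
    exact this k
  have hbig : m * (2 ^ m + 1) ≤ n := by
    have e1 : 1000 * m * 2 ^ m ≤ 2 ^ m * 2 ^ m := Nat.mul_le_mul_right _ hmm
    have e2 : m * (2 ^ m + 1) = m * 2 ^ m + m := by ring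
    have e3 : m ≤ m * 2 ^ m := Nat.le_mul_of_pos_right _ (by positivity)
    have e4 : 1000 * m * 2 ^ m = 1000 * (m * 2 ^ m) := by ring
    omega
  have hn4 : 4 ≤ n := by
    have : 20 ≤ m * (2 ^ m + 1) := hm.trans (Nat.le_mul_of_pos_right _ (by positivity))
    omega
  have h2n : 2 * n = 2 * S4 m - 14 := by omega
  -- the central binomial coefficient
  have hc := Nat.four_pow_lt_mul_centralBinom n hn4
  have hprod : n.centralBinom ≤ (2 * n) ^ P.card := by
    have h5 := Nat.prod_pow_factorization_centralBinom n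
    rw [← h5]
    have h6 : ∏ p ∈ Finset.range (2 * n + 1), p ^ (n.centralBinom.factorization p) =
        ∏ p ∈ P, p ^ (n.centralBinom.factorization p) := by
      symm
      apply Finset.prod_subset
      · intro p hp
        rw [hP, Finset.mem_filter, Finset.mem_Icc, ← h2n] at hp
        rw [Finset.mem_range]
        omega
      · intro p hp hp'
        rw [Finset.mem_range] at hp
        by_cases hpr : p.Prime
        · exfalso
          apply hp'
          rw [hP, Finset.mem_filter, Finset.mem_Icc, ← h2n]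
          exact ⟨⟨hpr.one_le, by omega⟩, hpr⟩
        · rw [Nat.factorization_eq_zero_of_not_prime _ hpr, pow_zero]
    rw [h6]
    refine (Finset.prod_le_pow_card _ _ (2 * n) fun p hp => ?_)
    unfold Nat.centralBinom
    exact Nat.pow_factorization_choose_le (by omega)
  by_contra hcon
  push Not at hcon
  have h7 : 4 ^ n < n * (2 * n) ^ 2 ^ m := by
    refine hc.trans_le (Nat.mul_le_mul_left _ (hprod.trans ?_))
    exact Nat.pow_le_pow_right (by omega) hcon.le
  have h8 : n * (2 * n) ^ 2 ^ m ≤ 4 ^ n := by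
    calc n * (2 * n) ^ 2 ^ m ≤ 4 ^ m * (4 ^ m) ^ 2 ^ m := by
          refine Nat.mul_le_mul (by omega) (Nat.pow_le_pow_left (by omega) _)
      _ = 4 ^ (m * (2 ^ m + 1)) := by rw [← pow_mul, ← pow_add]; congr 1; ring
      _ ≤ 4 ^ n := Nat.pow_le_pow_right (by norm_num) hbig
  omega

end Pool.Agent.Lib.MP_79dc3a_pr
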