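import Pool.Agent.Lib.MP_79dc3a_pr.Ladder
import Pool.Agent.Lib.MP_79dc3a_pr.Digits

/-!
# The core nets

`core_net`: a net inside a rectangle with integral resistance forcing a prime `l`,
`core_path`: a path with the same length.
-/

set_option autoImplicit false

namespace Pool.Agent.Lib.MP_79dc3a_pr

open Finset

namespace Cor

open Lad

/-- there is a network of resistance `x` forcing `l`, with all vertices in the region `R` -/
def NF (a b : ℤ × ℤ) (x : ℚ) (l : ℕ) (R : ℤ → ℤ → Prop) : Prop :=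
  ∃ (E : Finset (Sym2 (ℤ × ℤ))) (S : Finset (ℤ × ℤ)), Net grid2 E S a b x ∧ Forces E S a b l ∧
    ∀ v ∈ S, R v.1 v.2

section
variable {a b a' b' m : ℤ × ℤ} {l : ℕ} {x x' x1 x2 : ℚ} {R R' R1 R2 : ℤ → ℤ → Prop}

lemma NF.mono (h : NF a b x l R) (hR : ∀ x y, R x y → R' x y) : NF a b x l R' := by
  obtain ⟨E, S, h1, h3, h2⟩ := h
  exact ⟨E, S, h1, h3, fun v hv => hR _ _ (h2 v hv)⟩

lemma NF.cast (h : NF a b x l R) (ha : a = a') (hb : b = b') (hL : x = x') : NF a' b' x' l R := by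
  subst ha hb hL; exact h

lemma NF.series_left (h1 : NF a m x1 l R1) (h2 : NN m b x2 R2)
    (h : ∀ x y, R1 x y → R2 x y → x = m.1 ∧ y = m.2) :
    NF a b (x1 + x2) l (fun x y => R1 x y ∨ R2 x y) := by
  obtain ⟨E1, S1, h1, f1, g1⟩ := h1
  obtain ⟨E2, S2, h2, g2⟩ := h2
  have hS : ∀ v ∈ S1, v ∈ S2 → v = m := by
    intro v hv1 hv2
    have := h _ _ (g1 v hv1) (g2 v hv2)
    exact Prod.ext this.1 this.2
  refine ⟨E1 ∪ E2, S1 ∪ S2, h1.series h2 hS, Forces.series_left h1.toSub h2.toSub hS f1, ?_⟩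
  intro v hv
  rcases Finset.mem_union.mp hv with hv | hv
  · exact Or.inl (g1 v hv)
  · exact Or.inr (g2 v hv)

lemma NF.series_right (h1 : NN a m x1 R1) (h2 : NF m b x2 l R2)
    (h : ∀ x y, R1 x y → R2 x y → x = m.1 ∧ y = m.2) :
    NF a b (x1 + x2) l (fun x y => R1 x y ∨ R2 x y) := by
  obtain ⟨E1, S1, h1, g1⟩ := h1
  obtain ⟨E2, S2, h2, f2, g2⟩ := h2
  have hS : ∀ v ∈ S1, v ∈ S2 → v = m := by
    intro v hv1 hv2
    have := h _ _ (g1 v hv1) (g2 v hv2)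
    exact Prod.ext this.1 this.2
  refine ⟨E1 ∪ E2, S1 ∪ S2, h1.series h2 hS, Forces.series_right h1.toSub h2.toSub hS f2, ?_⟩
  intro v hv
  rcases Finset.mem_union.mp hv with hv | hv
  · exact Or.inl (g1 v hv)
  · exact Or.inr (g2 v hv)

/-- shift up by `d` -/
lemma nn_shift (h : NN a b x R) (d : ℤ) :
    NN (a.1, a.2 + d) (b.1, b.2 + d) x (fun x y => R x (y - d)) := by
  obtain ⟨E, S, h1, h2⟩ := h
  refine ⟨_, _, h1.map (G' := grid2) (fun v : ℤ × ℤ => (v.1, v.2 + d)) ?_ ?_, ?_⟩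
  · intro u _ v _ huv
    simp only [Prod.mk.injEq] at huv
    exact Prod.ext (by omega) (by omega)
  · intro u _ v _ huv
    simp only [grid2] at huv ⊢
    omega
  · intro v hv
    obtain ⟨u, hu, rfl⟩ := Finset.mem_image.mp hv
    simpa using h2 u hu

end

end Cor

open Lad Cor in
theorem core_net (k J m l : ℕ) (hk : 1 ≤ k) (hJ : 1 ≤ J) (hm : 4 * m + 1 ≤ k * J)
    (hl : l.Prime) (h1 : 268800 < l) (h2 : l ≤ 2 * S4 m - 14) :
    ∃ (E : Finset (Sym2 (ℤ × ℤ))) (S : Finset (ℤ × ℤ)),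
      Net grid2 E S (0, 0) (0, 401 * (k : ℤ) + 400) ((401 * k + 33208 : ℕ) : ℚ) ∧
      Forces E S (0, 0) (0, 401 * (k : ℤ) + 400) l ∧
      ∀ v ∈ S, 0 ≤ v.1 ∧ v.1 ≤ 798 * (J : ℤ) + 3 ∧ 0 ≤ v.2 ∧ v.2 < 802 * (k : ℤ) := by
  -- a multiple of `l`
  obtain ⟨Z, hZl, hZ1, hZ2⟩ : ∃ Z : ℕ, l ∣ Z ∧ 50 * S4 m + 24 ≤ Z ∧ Z ≤ 52 * S4 m + 10 := by
    refine ⟨l * ((52 * S4 m + 10) / l), dvd_mul_right _ _, ?_, Nat.mul_div_le _ _⟩
    have h3 := Nat.lt_mul_div_succ (52 * S4 m + 10) hl.pos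
    rw [mul_add, mul_one] at h3
    omega
  have hZ0 : 0 < Z := by omega
  have hZQ : (Z : ℚ) ≠ 0 := by exact_mod_cast hZ0.ne'
  obtain ⟨wx, hwx1, hwx2, hwx3⟩ := digits_x m Z (by omega) hZ2
  obtain ⟨wy, hwy1, hwy2, hwy3⟩ := digits_y m Z hZ1 (by omega)
  obtain ⟨Ex, Sx, hx, hxS⟩ := ladder k J hk hJ 43680 (by norm_num) (by norm_num) (by norm_num)
    wx hwx2 (by omega)
  obtain ⟨Ey, Sy, hy, hyS⟩ := ladder k J hk hJ 5600 (by norm_num) (by norm_num) (by norm_num)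
    wy hwy2 (by omega)
  have hFx : Forces Ex Sx (2, 0) (2, 400) l := by
    refine Forces.of_res hx (Z : ℤ) (16800 * ((Z : ℤ) + 16)) ?_ hl (by exact_mod_cast hZl) ?_
    · push_cast at hwx3 ⊢
      rw [hwx3]
      field_simp
    · intro hdvd
      have h3 : (l : ℤ) ∣ 16800 * 16 := by
        have h4 : (16800 * 16 : ℤ) = 16800 * ((Z : ℤ) + 16) - 16800 * Z := by ring
        rw [h4]
        exact dvd_sub hdvd (Dvd.dvd.mul_left (by exact_mod_cast hZl) _)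
      have h5 := Int.le_of_dvd (by norm_num) h3
      omega
  have nx : NF (2, 0) (2, 400) (res (43680 : ℕ) wx) l (fun x y => 1 ≤ x ∧ x ≤ 798 * (J : ℤ) + 3 ∧
      0 ≤ y ∧ y < 401 * (k : ℤ) ∧ (y < 401 → 2 ≤ x)) := ⟨Ex, Sx, hx, hFx, hxS⟩
  have ny0 : NN (2, 0) (2, 400) (res (5600 : ℕ) wy) (fun x y => 1 ≤ x ∧ x ≤ 798 * (J : ℤ) + 3 ∧
      0 ≤ y ∧ y < 401 * (k : ℤ) ∧ (y < 401 → 2 ≤ x)) := ⟨Ey, Sy, hy, hyS⟩
  have ny := (nn_shift ny0 (401 * k)).cast (a' := (2, 401 * (k : ℤ)))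
    (b' := (2, 401 * (k : ℤ) + 400)) (by simp) (by simp [add_comm]) rfl
  have p1 := (hline 0 0 2 (by norm_num)).toNN
  have p2 := (hline 0 400 2 (by norm_num)).symm.toNN
  have p3 := (vline 0 400 (401 * k - 400) (by omega)).toNN
  have p4 := (hline 0 (401 * (k : ℤ)) 2 (by norm_num)).toNN
  have p5 := (hline 0 (401 * (k : ℤ) + 400) 2 (by norm_num)).symm.toNN
  have q1 := nx.series_right (p1.cast rfl (b' := (2, 0)) (by simp) rfl)
    (by intro a b; simp only; omega)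
  have q2 := q1.series_left (p2.cast (a' := (2, 400)) (by simp) rfl rfl)
    (by intro a b; simp only; omega)
  have q3 := q2.series_left (p3.cast (b' := (0, 401 * (k : ℤ))) rfl
    (by rw [Nat.cast_sub (by omega)]; push_cast; ring_nf) rfl)
    (by intro a b; simp only; omega)
  have q4 := q3.series_left (p4.cast (b' := (2, 401 * (k : ℤ))) rfl (by simp) rfl)
    (by intro a b; simp only; omega)
  have q5 := q4.series_left ny (by intro a b; simp only; omega)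
  have q6 := q5.series_left (p5.cast (a' := (2, 401 * (k : ℤ) + 400)) (by simp) rfl rfl)
    (by intro a b; simp only; omega)
  obtain ⟨E, S, hN, hF, hS⟩ := (q6.cast (x' := ((401 * k + 33208 : ℕ) : ℚ)) rfl rfl (by
    push_cast at hwx3 hwy3 ⊢
    rw [hwx3, hwy3, Nat.cast_sub (by omega)]
    push_cast
    ring)).mono (R' := fun x y => 0 ≤ x ∧ x ≤ 798 * (J : ℤ) + 3 ∧ 0 ≤ y ∧ y < 802 * (k : ℤ))
    (by
      intro a b h
      omega)
  exact ⟨E, S, hN, hF, hS⟩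

open Lad in
theorem core_path (k : ℕ) (hk : 1 ≤ k) :
    ∃ (E : Finset (Sym2 (ℤ × ℤ))) (S : Finset (ℤ × ℤ)),
      PathNet grid2 E S (0, 0) (0, 401 * (k : ℤ) + 400) (401 * k + 33208) ∧
      ∀ v ∈ S, 0 ≤ v.1 ∧ v.1 ≤ 16404 ∧ 0 ≤ v.2 ∧ v.2 < 802 * (k : ℤ) := by
  have p1 := hline 0 0 16404 (by norm_num)
  have p2 : PN (16404, 0) (16404, 1) 1 _ := PN.single (by simp [grid2])
  have p3 := (hline 0 1 16404 (by norm_num)).symm
  have p4 := vline 0 1 (401 * k + 399) (by omega)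
  have q1 := (p1.cast (b' := (16404, 0)) rfl (by simp) rfl).series p2
    (by intro a b; simp only; omega)
  have q2 := q1.series (p3.cast (a' := (16404, 1)) (by simp) rfl rfl)
    (by intro a b; simp only; omega)
  have q3 := q2.series p4 (by intro a b; simp only; omega)
  have q4 := (q3.cast (b' := (0, 401 * (k : ℤ) + 400)) (L' := 401 * k + 33208) rfl
    (by push_cast; ring_nf) (by omega)).mono
    (R' := fun x y => 0 ≤ x ∧ x ≤ 16404 ∧ 0 ≤ y ∧ y < 802 * (k : ℤ)) (by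
      intro a b h
      push_cast at h
      omega)
  exact q4

end Pool.Agent.Lib.MP_79dc3a_pr
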