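import Pool.Agent.Lib.MP_79dc3a_pr.Geo

namespace Pool.Agent.Lib.MP_79dc3a_pr

namespace Corr

open SimpleGraph

/-- joined by a walk inside `A` -/
def Conn {D : ℕ} (A : Set (V D)) (u v : V D) : Prop :=
  ∃ w : (zd D).Walk u v, ∀ x ∈ w.support, x ∈ A

section general
variable {D : ℕ} {A : Set (V D)} {u v w : V D}

theorem Conn.refl (hu : u ∈ A) : Conn A u u := ⟨Walk.nil, by simpa using hu⟩

theorem Conn.symm (h : Conn A u v) : Conn A v u := by
  obtain ⟨p, hp⟩ := h
  exact ⟨p.reverse, fun x hx => hp x (by simpa using hx)⟩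

theorem Conn.trans (h : Conn A u v) (h' : Conn A v w) : Conn A u w := by
  obtain ⟨p, hp⟩ := h
  obtain ⟨q, hq⟩ := h'
  refine ⟨p.append q, fun x hx => ?_⟩
  rw [Walk.mem_support_append_iff] at hx
  rcases hx with hx | hx
  · exact hp x hx
  · exact hq x hx

theorem Conn.step (h : (zd D).Adj u v) (hu : u ∈ A) (hv : v ∈ A) : Conn A u v := by
  refine ⟨Walk.cons h Walk.nil, fun x hx => ?_⟩
  simp only [Walk.support_cons, Walk.support_nil, List.mem_cons, List.not_mem_nil, or_false] at hx
  rcases hx with rfl | rfl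
  · exact hu
  · exact hv

theorem update_succ (v : V D) (j : Fin D) (s : ℤ) :
    Function.update v j (s + 1) = Function.update v j s + bv j := by
  funext k
  by_cases h : k = j
  · subst h
    simp [bv]
  · simp [bv, h]

theorem line (v : V D) (j : Fin D) {a b : ℤ} (hab : a ≤ b)
    (h : ∀ s, a ≤ s → s ≤ b → Function.update v j s ∈ A) :
    Conn A (Function.update v j a) (Function.update v j b) := by
  induction b, hab using Int.leInduction with
  | base => exact Conn.refl (h a le_rfl le_rfl)
  | succ b hb ih =>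
    refine (ih fun s h1 h2 => h s h1 (by omega)).trans ?_
    refine Conn.step ⟨j, Or.inl (update_succ v j b)⟩ (h b hb (by omega))
      (h (b + 1) (by omega) le_rfl)

/-- if the whole box between `v` and `w` is in `A` then they are joined in `A` -/
theorem box (h : ∀ x : V D, (∀ k, min (v k) (w k) ≤ x k ∧ x k ≤ max (v k) (w k)) → x ∈ A) :
    Conn A v w := by
  classical
  have key : ∀ s : Finset (Fin D), Conn A v (fun i => if i ∈ s then w i else v i) := by
    intro s
    induction s using Finset.induction_on with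
    | empty =>
      have : v ∈ A := h v fun k => ⟨min_le_left _ _, le_max_left _ _⟩
      simpa using Conn.refl this
    | insert j s hj ih =>
      refine ih.trans ?_
      set x : V D := fun i => if i ∈ s then w i else v i with hx
      have e1 : x = Function.update x j (v j) := by
        rw [eq_comm, Function.update_eq_self_iff]
        simp [hx, hj]
      have e2 : (fun i => if i ∈ insert j s then w i else v i) = Function.update x j (w j) := by
        funext k
        by_cases hk : k = j
        · subst hk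
          simp
        · simp [hx, hk]
      rw [e2]
      have hbox : ∀ t, min (v j) (w j) ≤ t → t ≤ max (v j) (w j) →
          Function.update x j t ∈ A := by
        intro t h1 h2
        apply h
        intro k
        by_cases hk : k = j
        · subst hk
          rw [Function.update_self]
          exact ⟨h1, h2⟩
        · rw [Function.update_of_ne hk, hx]
          by_cases hks : k ∈ s
          · simp only [hks, if_true]
            exact ⟨min_le_right _ _, le_max_right _ _⟩
          · simp only [hks, if_false]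
            exact ⟨min_le_left _ _, le_max_left _ _⟩
      rcases le_total (v j) (w j) with hvw | hvw
      · have := line (A := A) x j hvw fun t h1 h2 =>
          hbox t (by rw [min_eq_left hvw]; exact h1) (by rw [max_eq_right hvw]; exact h2)
        rwa [← e1] at this
      · have := line (A := A) x j hvw fun t h1 h2 =>
          hbox t (by rw [min_eq_right hvw]; exact h1) (by rw [max_eq_left hvw]; exact h2)
        rw [← e1] at this
        exact this.symm
  simpa using key Finset.univ

end general

/-- the corridor -/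
def C (d n : ℕ) (r : ℤ) : Set (V (d + 2)) :=
  {v | v ∈ (Free (n + 2) : Set (V (d + 2))) ∧ (∀ i, 0 ≤ v i) ∧ v ≠ p1 d n r + bv 1 ∧
    (v ≠ p0 d n → ∃ i, v i ≤ 1 ∨ v i = n + 2)}

section corr
variable {d n : ℕ} {r : ℤ}

theorem one_ne_zero' : (1 : Fin (d + 2)) ≠ 0 := by
  intro h
  have := congrArg Fin.val h
  simp at this

theorem tt_zero : (p1 d n r + bv 1 : V (d + 2)) 0 = 2 + r := by
  simp [p1, bv, one_ne_zero'.symm]

theorem tt_one : (p1 d n r + bv 1 : V (d + 2)) 1 = n + 2 := by
  simp only [p1, bv, Pi.add_apply, Pi.single_eq_same]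
  rw [if_neg one_ne_zero']
  ring

theorem tt_other {i : Fin (d + 2)} (h0 : i ≠ 0) (h1 : i ≠ 1) : (p1 d n r + bv 1 : V (d + 2)) i = n + 1 := by
  simp only [p1, bv, Pi.add_apply, Pi.single_eq_of_ne h1, if_neg h0]
  ring

theorem tt_ge (hn : 1 ≤ n) (hr : 0 ≤ r) (i : Fin (d + 2)) : 2 ≤ (p1 d n r + bv 1 : V (d + 2)) i := by
  by_cases h0 : i = 0
  · rw [h0, tt_zero]
    omega
  · by_cases h1 : i = 1
    · rw [h1, tt_one]
      omega
    · rw [tt_other h0 h1]
      omega

theorem tt_lt (hr' : r < n) {i : Fin (d + 2)} (h1 : i ≠ 1) : (p1 d n r + bv 1 : V (d + 2)) i ≤ n + 1 := by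
  by_cases h0 : i = 0
  · rw [h0, tt_zero]
    omega
  · rw [tt_other h0 h1]

theorem mem_C {v : V (d + 2)} (h0 : ∀ i, 0 ≤ v i) (h1 : ∀ i, v i ≤ n + 2)
    (h2 : ∃ i j, i ≠ j ∧ v i ≠ 0 ∧ v j ≠ 0) (h3 : v ≠ p1 d n r + bv 1)
    (h4 : v = p0 d n ∨ ∃ i, v i ≤ 1 ∨ v i = n + 2) : v ∈ C d n r := by
  have habs : ∀ i, |v i| = v i := fun i => abs_of_nonneg (h0 i)
  have hlt : ∀ i, |v i| ≠ ((n + 2 : ℕ) : ℤ) + 1 := fun i => by
    rw [habs]
    have := h1 i
    push_cast
    omega
  refine ⟨⟨⟨fun i => ?_, fun i j hi _ => absurd hi (hlt i)⟩, ?_⟩, h0, h3, fun hne => ?_⟩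
  · rw [habs]
    have := h1 i
    push_cast
    omega
  · rintro (⟨k, hk⟩ | ⟨k, hk⟩)
    · obtain ⟨i, j, hij, hi, hj⟩ := h2
      by_cases hik : i = k
      · exact hj (hk j (by rw [← hik]; exact hij.symm))
      · exact hi (hk i hik)
    · exact hlt k hk
  · rcases h4 with h4 | h4
    · exact absurd h4 hne
    · exact h4

/-- vertices of the corridor have coordinates at most `n + 2` -/
theorem C_le {v : V (d + 2)} (hv : v ∈ C d n r) (i : Fin (d + 2)) : v i ≤ n + 2 := by
  obtain ⟨⟨⟨h1, _⟩, h2⟩, h0, _, _⟩ := hv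
  have h3 := h1 i
  have h4 : |v i| ≠ ((n + 2 : ℕ) : ℤ) + 1 := fun h => h2 (Or.inr ⟨i, h⟩)
  rw [abs_of_nonneg (h0 i)] at h3 h4
  push_cast at h3 h4
  omega

theorem C_two {v : V (d + 2)} (hv : v ∈ C d n r) : ∃ i j, i ≠ j ∧ v i ≠ 0 ∧ v j ≠ 0 := by
  obtain ⟨⟨_, h2⟩, _⟩ := hv
  by_contra hcon
  push Not at hcon
  apply h2
  left
  by_cases hz : ∀ i, v i = 0
  · exact ⟨0, fun i _ => hz i⟩
  · push Not at hz
    obtain ⟨j, hj⟩ := hz
    exact ⟨j, fun i hi => hcon j i (Ne.symm hi) hj⟩

theorem two_of_pos {v : V (d + 2)} (h : ∀ i, 1 ≤ v i) : ∃ i j, i ≠ j ∧ v i ≠ 0 ∧ v j ≠ 0 :=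
  ⟨0, 1, one_ne_zero'.symm, by have := h 0; omega, by have := h 1; omega⟩

/-- the point `(1, …, 1)` -/
def ones (d : ℕ) : V (d + 2) := fun _ => 1

/-- a positive vertex with a coordinate `1` is joined to `(1, …, 1)` -/
theorem conn_of_one (hn : 1 ≤ n) (hr : 0 ≤ r) {v : V (d + 2)} (h1 : ∀ i, 1 ≤ v i)
    (h2 : ∀ i, v i ≤ n + 2) {j : Fin (d + 2)} (hj : v j = 1) : Conn (C d n r) v (ones d) := by
  apply box
  intro x hx
  have hx1 : ∀ i, 1 ≤ x i := fun i => by
    have h3 := (hx i).1
    have h4 : 1 ≤ min (v i) (ones d i) := le_min (h1 i) le_rfl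
    omega
  have hx2 : ∀ i, x i ≤ n + 2 := fun i => by
    have h3 := (hx i).2
    have h4 : max (v i) (ones d i) ≤ n + 2 := max_le (h2 i) (by simp only [ones]; omega)
    omega
  have hxj : x j = 1 := by
    have h3 := (hx j).2
    rw [hj] at h3
    simp only [ones, max_self] at h3
    have := hx1 j
    omega
  refine mem_C (fun i => by have := hx1 i; omega) hx2 (two_of_pos hx1) ?_ (Or.inr ⟨j, Or.inl hxj.le⟩)
  intro h
  have := tt_ge (d := d) hn hr j
  rw [← h, hxj] at this
  omega

/-- lowering one coordinate to `1` -/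
theorem conn_lower (hn : 1 ≤ n) (hr : 0 ≤ r) {v : V (d + 2)} (h1 : ∀ i, 1 ≤ v i)
    (h2 : ∀ i, v i ≤ n + 2) {i j : Fin (d + 2)} (hij : i ≠ j) (hi : v i = n + 2)
    (hlow : ∀ t, 1 ≤ t → t ≤ v j → Function.update v j t ≠ p1 d n r + bv 1) :
    Conn (C d n r) v (ones d) := by
  have hup1 : ∀ t : ℤ, 1 ≤ t → ∀ k, 1 ≤ Function.update v j t k := by
    intro t ht k
    by_cases hk : k = j
    · subst hk
      rw [Function.update_self]
      exact ht
    · rw [Function.update_of_ne hk]
      exact h1 k
  have hup2 : ∀ t : ℤ, t ≤ n + 2 → ∀ k, Function.update v j t k ≤ n + 2 := by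
    intro t ht k
    by_cases hk : k = j
    · subst hk
      rw [Function.update_self]
      exact ht
    · rw [Function.update_of_ne hk]
      exact h2 k
  have e : v = Function.update v j (v j) := by simp
  have hl : Conn (C d n r) (Function.update v j 1) (Function.update v j (v j)) := by
    apply line _ _ (h1 j)
    intro t h3 h4
    refine mem_C (fun k => by have := hup1 t h3 k; omega) (hup2 t (h4.trans (h2 j)))
      (two_of_pos (hup1 t h3)) (hlow t h3 h4) (Or.inr ⟨i, Or.inr ?_⟩)
    rw [Function.update_of_ne hij]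
    exact hi
  rw [← e] at hl
  refine hl.symm.trans (conn_of_one hn hr (hup1 1 le_rfl) (hup2 1 (by omega)) (j := j) ?_)
  simp

/-- positive vertices with a coordinate in `{1, n+2}`, different from the forbidden one -/
theorem conn_pos (hn : 1 ≤ n) (hr : 0 ≤ r) (hr' : r < n) {v : V (d + 2)} (h1 : ∀ i, 1 ≤ v i)
    (h2 : ∀ i, v i ≤ n + 2) (h3 : v ≠ p1 d n r + bv 1) {i : Fin (d + 2)}
    (hi : v i ≤ 1 ∨ v i = n + 2) : Conn (C d n r) v (ones d) := by
  rcases hi with hi | hi
  · exact conn_of_one hn hr h1 h2 (j := i) (le_antisymm hi (h1 i))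
  -- a coordinate different from `1` equal to `n + 2`
  have caseA : ∀ {v : V (d + 2)}, (∀ i, 1 ≤ v i) → (∀ i, v i ≤ n + 2) → ∀ i, i ≠ 1 →
      v i = n + 2 → Conn (C d n r) v (ones d) := by
    intro v h1 h2 i hi1 hi
    refine conn_lower hn hr h1 h2 hi1 hi fun t _ _ h => ?_
    have h4 := congrFun h i
    rw [Function.update_of_ne hi1, hi] at h4
    have := tt_lt (d := d) hr' hi1
    omega
  by_cases hi1 : i = 1
  · subst hi1
    have hex : ∃ j, v j ≠ (p1 d n r + bv 1 : V (d + 2)) j := by
      by_contra hcon
      push Not at hcon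
      exact h3 (funext hcon)
    obtain ⟨j, hj⟩ := hex
    have hj1 : j ≠ 1 := by
      rintro rfl
      rw [tt_one] at hj
      exact hj hi
    rcases lt_or_gt_of_ne hj with hlt | hgt
    · -- lower coordinate `j`
      refine conn_lower hn hr h1 h2 hj1.symm hi fun t _ ht h => ?_
      have h4 := congrFun h j
      rw [Function.update_self] at h4
      omega
    · -- raise coordinate `j` to `n + 2`
      have e : v = Function.update v j (v j) := by simp
      have hup1 : ∀ t : ℤ, v j ≤ t → ∀ k, 1 ≤ Function.update v j t k := by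
        intro t ht k
        by_cases hk : k = j
        · subst hk
          rw [Function.update_self]
          have := h1 k
          omega
        · rw [Function.update_of_ne hk]
          exact h1 k
      have hup2 : ∀ t : ℤ, t ≤ n + 2 → ∀ k, Function.update v j t k ≤ n + 2 := by
        intro t ht k
        by_cases hk : k = j
        · subst hk
          rw [Function.update_self]
          exact ht
        · rw [Function.update_of_ne hk]
          exact h2 k
      have hl : Conn (C d n r) (Function.update v j (v j)) (Function.update v j (n + 2)) := by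
        apply line _ _ (h2 j)
        intro t h4 h5
        refine mem_C (fun k => by have := hup1 t h4 k; omega) (hup2 t h5)
          (two_of_pos (hup1 t h4)) (fun h => ?_) (Or.inr ⟨1, Or.inr ?_⟩)
        · have h6 := congrFun h j
          rw [Function.update_self] at h6
          omega
        · rw [Function.update_of_ne hj1.symm]
          exact hi
      rw [← e] at hl
      refine hl.trans (caseA (hup1 _ (h2 j)) (hup2 _ le_rfl) j hj1 ?_)
      simp
  · exact caseA h1 h2 i hi1 hi

/-- every vertex of the corridor is joined to `(1, …, 1)` -/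
theorem conn_ones (hn : 1 ≤ n) (hr : 0 ≤ r) (hr' : r < n) {v : V (d + 2)} (hv : v ∈ C d n r) :
    Conn (C d n r) v (ones d) := by
  by_cases hp : v = p0 d n
  · -- `p0` is adjacent to `p0 - bv 0`
    subst hp
    have hd : (p0 d n - bv 0 : V (d + 2)) 0 = 1 := by simp [p0, bv]
    have hd' : ∀ i, i ≠ 0 → (p0 d n - bv 0 : V (d + 2)) i = n + 1 := by
      intro i hi
      simp [p0, bv, hi]
    have h1 : ∀ i, 1 ≤ (p0 d n - bv 0 : V (d + 2)) i := by
      intro i
      by_cases hi : i = 0
      · rw [hi, hd]
      · rw [hd' i hi]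
        omega
    have h2 : ∀ i, (p0 d n - bv 0 : V (d + 2)) i ≤ n + 2 := by
      intro i
      by_cases hi : i = 0
      · rw [hi, hd]
        omega
      · rw [hd' i hi]
        omega
    have hc := conn_of_one (r := r) hn hr h1 h2 hd
    have hmem : (p0 d n - bv 0 : V (d + 2)) ∈ C d n r := by
      obtain ⟨w, hw⟩ := hc
      exact hw _ (by simp)
    refine (Conn.step (v := (p0 d n - bv 0 : V (d + 2))) ?_ hv hmem).trans hc
    exact ⟨0, Or.inr (by simp)⟩
  · have hB := hv.2.2.2 hp
    obtain ⟨i, hi⟩ := hB
    have h0 := hv.2.1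
    have hle := fun i => C_le hv i
    -- raise the zero coordinates
    set w : V (d + 2) := fun i => max (v i) 1 with hw
    have hvw : Conn (C d n r) v w := by
      apply box
      intro x hx
      have hxl : ∀ k, v k ≤ x k := fun k => by
        have h3 := (hx k).1
        have h4 : v k ≤ min (v k) (w k) := le_min le_rfl (le_max_left _ _)
        omega
      have hxr : ∀ k, x k ≤ max (v k) 1 := fun k => by
        have h3 := (hx k).2
        have h4 : max (v k) (w k) ≤ max (v k) 1 := max_le (le_max_left _ _) le_rfl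
        omega
      refine mem_C (fun k => (h0 k).trans (hxl k)) (fun k => ?_) ?_ ?_ (Or.inr ⟨i, ?_⟩)
      · have h3 := hxr k
        have h4 : max (v k) 1 ≤ n + 2 := max_le (hle k) (by omega)
        omega
      · obtain ⟨a, b, hab, ha, hb⟩ := C_two hv
        refine ⟨a, b, hab, ?_, ?_⟩
        · have := h0 a
          have := hxl a
          omega
        · have := h0 b
          have := hxl b
          omega
      · intro h
        apply hv.2.2.1
        funext k
        have h3 := tt_ge (d := d) hn hr k
        rw [← h] at h3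
        have h4 := hxr k
        have h5 := hxl k
        have h6 := congrFun h k
        have h7 : max (v k) 1 = v k := by
          apply max_eq_left
          by_contra hcon
          rw [max_eq_right (by omega)] at h4
          omega
        omega
      · rcases hi with hi | hi
        · left
          have := hxr i
          rwa [max_eq_right hi] at this
        · right
          have h3 := hxr i
          have h4 := hxl i
          rw [max_eq_left (by omega)] at h3
          omega
    have hwC : w ∈ C d n r := by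
      obtain ⟨p, hp⟩ := hvw
      exact hp _ (by simp)
    refine hvw.trans (conn_pos hn hr hr' (i := i) (fun k => le_max_right _ _) (fun k => C_le hwC k)
      hwC.2.2.1 ?_)
    rcases hi with hi | hi
    · left
      simp only [hw]
      rw [max_eq_right hi]
    · right
      simp only [hw]
      rw [max_eq_left (by omega), hi]

/-! ### cardinality -/

open Classical in
/-- a finite set containing the corridor -/
noncomputable def F (d n : ℕ) : Finset (V (d + 2)) :=
  insert (p0 d n) (Finset.univ.biUnion fun i : Fin (d + 2) =>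
    ({0, 1, (n : ℤ) + 2} : Finset ℤ).biUnion fun c =>
      Fintype.piFinset fun k => if k = i then {c} else Finset.Icc 0 ((n : ℤ) + 2))

theorem C_sub_F {v : V (d + 2)} (hv : v ∈ C d n r) : v ∈ F d n := by
  classical
  unfold F
  rw [Finset.mem_insert]
  by_cases hp : v = p0 d n
  · exact Or.inl hp
  · right
    obtain ⟨i, hi⟩ := hv.2.2.2 hp
    rw [Finset.mem_biUnion]
    refine ⟨i, Finset.mem_univ _, ?_⟩
    rw [Finset.mem_biUnion]
    refine ⟨v i, ?_, ?_⟩
    · have := hv.2.1 i
      simp only [Finset.mem_insert, Finset.mem_singleton]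
      omega
    · rw [Fintype.mem_piFinset]
      intro k
      by_cases hk : k = i
      · rw [if_pos hk, hk, Finset.mem_singleton]
      · rw [if_neg hk, Finset.mem_Icc]
        exact ⟨hv.2.1 k, C_le hv k⟩

theorem card_F (d n : ℕ) : (F d n).card ≤ 3 * (d + 2) * (n + 3) ^ (d + 1) + 1 := by
  classical
  unfold F
  refine (Finset.card_insert_le _ _).trans ?_
  apply Nat.add_le_add_right
  refine Finset.card_biUnion_le.trans ?_
  have h1 : ∀ i : Fin (d + 2), (({0, 1, (n : ℤ) + 2} : Finset ℤ).biUnion fun c =>
      Fintype.piFinset fun k => if k = i then {c} else Finset.Icc 0 ((n : ℤ) + 2)).card ≤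
      3 * (n + 3) ^ (d + 1) := by
    intro i
    refine Finset.card_biUnion_le.trans ?_
    have h2 : ∀ c ∈ ({0, 1, (n : ℤ) + 2} : Finset ℤ),
        (Fintype.piFinset fun k => if k = i then {c} else Finset.Icc 0 ((n : ℤ) + 2)).card =
          (n + 3) ^ (d + 1) := by
      intro c _
      rw [Fintype.card_piFinset, Fin.prod_univ_succAbove _ i]
      simp only [if_true, Finset.card_singleton, one_mul]
      have : ∀ k : Fin (d + 1), (if i.succAbove k = i then ({c} : Finset ℤ)
          else Finset.Icc 0 ((n : ℤ) + 2)).card = n + 3 := by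
        intro k
        rw [if_neg (Fin.succAbove_ne i k), Int.card_Icc]
        omega
      simp only [this, Finset.prod_const, Finset.card_univ, Fintype.card_fin]
    rw [Finset.sum_congr rfl h2, Finset.sum_const, smul_eq_mul]
    exact Nat.mul_le_mul_right _ Finset.card_le_three
  refine (Finset.sum_le_sum fun i _ => h1 i).trans ?_
  rw [Finset.sum_const, Finset.card_univ, Fintype.card_fin, smul_eq_mul]
  apply le_of_eq
  ring

end corr
end Corr

open SimpleGraph in
theorem corridor (d n : ℕ) (hn : 1 ≤ n) (r : ℤ) (hr : 0 ≤ r) (hr' : r < n) (a : V (d + 2))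
    (ha : a ∈ (Kill (n + 2) : Set (V (d + 2)))) (hne : a ≠ p1 d n r + bv 1 + bv 1) :
    ∃ p : (zd (d + 2)).Walk a (p0 d n), p.IsPath ∧
      (∀ v ∈ p.support, v ≠ a → v ∈ (Free (n + 2) : Set (V (d + 2))) ∧ (∀ i, 0 ≤ v i) ∧
        v ≠ p1 d n r + bv 1 ∧ (v ≠ p0 d n → ∃ i, v i ≤ 1 ∨ v i = n + 2)) ∧
      p.support.length ≤ 3 * (d + 2) * (n + 3) ^ (d + 1) + 2 := by
  classical
  -- a neighbour in the corridor
  have hnb : ∃ b ∈ Corr.C d n r, (zd (d + 2)).Adj a b := by
    obtain ⟨h0, ⟨j, s, hs1, hs2, rfl⟩ | ⟨⟨hQ, _⟩, ⟨j, hj⟩, hL⟩⟩ := ha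
    · -- axis vertex
      obtain ⟨i, hij⟩ : ∃ i : Fin (d + 2), i ≠ j := by
        by_cases h : j = 0
        · exact ⟨1, by rw [h]; exact Corr.one_ne_zero'⟩
        · exact ⟨0, Ne.symm h⟩
      have hval : ∀ k, (s • bv j + bv i : V (d + 2)) k =
          if k = j then s else if k = i then 1 else 0 := by
        intro k
        by_cases h1 : k = j
        · subst h1
          simp [bv, hij.symm]
        · by_cases h2 : k = i
          · subst h2
            simp [bv, h1]
          · simp [bv, h1, h2]
      have hi : (s • bv j + bv i : V (d + 2)) i = 1 := by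
        rw [hval, if_neg hij, if_pos rfl]
      have hj' : (s • bv j + bv i : V (d + 2)) j = s := by
        rw [hval, if_pos rfl]
      refine ⟨s • bv j + bv i, ?_, ⟨i, Or.inl rfl⟩⟩
      push_cast at hs2
      refine Corr.mem_C (fun k => ?_) (fun k => ?_) ⟨i, j, hij, by rw [hi]; norm_num,
        by rw [hj']; omega⟩ (fun h => ?_) (Or.inr ⟨i, Or.inl hi.le⟩)
      · rw [hval]
        split_ifs <;> omega
      · rw [hval]
        split_ifs <;> omega
      · have h3 := Corr.tt_ge (d := d) hn hr i
        rw [← h, hi] at h3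
        omega
    · -- face vertex
      have hj' : a j = n + 3 := by
        rw [abs_of_nonneg (h0 j)] at hj
        push_cast at hj
        omega
      have hvj : (a - bv j : V (d + 2)) j = n + 2 := by
        simp only [Pi.sub_apply, bv, Pi.single_eq_same]
        omega
      have hvk : ∀ k, k ≠ j → (a - bv j : V (d + 2)) k = a k := by
        intro k hk
        simp [bv, hk]
      have hak : ∀ k, k ≠ j → a k ≤ n + 2 := by
        intro k hk
        have h1 := hQ.1 k
        have h2 : |a k| ≠ ((n + 2 : ℕ) : ℤ) + 1 := fun h => hk (hQ.2 k j h hj)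
        rw [abs_of_nonneg (h0 k)] at h1 h2
        push_cast at h1 h2
        omega
      have hex : ∃ k, k ≠ j ∧ a k ≠ 0 := by
        by_contra hcon
        push Not at hcon
        exact hL ⟨j, hcon⟩
      obtain ⟨k, hkj, hk⟩ := hex
      refine ⟨a - bv j, ?_, ⟨j, Or.inr (by simp)⟩⟩
      refine Corr.mem_C (fun i => ?_) (fun i => ?_) ⟨k, j, hkj, by rw [hvk k hkj]; exact hk,
        by rw [hvj]; omega⟩ (fun h => ?_) (Or.inr ⟨j, Or.inr hvj⟩)
      · by_cases hi : i = j
        · rw [hi, hvj]
          omega
        · rw [hvk i hi]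
          exact h0 i
      · by_cases hi : i = j
        · rw [hi, hvj]
        · rw [hvk i hi]
          exact hak i hi
      · by_cases hj1 : j = 1
        · subst hj1
          apply hne
          rw [← h]
          simp
        · have h3 := Corr.tt_lt (d := d) hr' hj1
          rw [← h, hvj] at h3
          omega
  obtain ⟨b, hb, hadj⟩ := hnb
  have hp0 : p0 d n ∈ Corr.C d n r := by
    have hv : ∀ i, p0 d n i = if i = 0 then 2 else (n : ℤ) + 1 := fun i => rfl
    have h1 : ∀ i, 1 ≤ p0 d n i := by
      intro i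
      rw [hv]
      split_ifs <;> omega
    refine Corr.mem_C (fun i => by have := h1 i; omega) (fun i => ?_) (Corr.two_of_pos h1)
      (fun h => ?_) (Or.inl rfl)
    · rw [hv]
      split_ifs <;> omega
    · have h3 := congrFun h 1
      rw [Corr.tt_one, hv, if_neg Corr.one_ne_zero'] at h3
      omega
  obtain ⟨w, hw⟩ := (Corr.conn_ones hn hr hr' hb).trans (Corr.conn_ones hn hr hr' hp0).symm
  set q := w.bypass with hq
  have hqP : q.IsPath := w.bypass_isPath
  have hqC : ∀ x ∈ q.support, x ∈ Corr.C d n r := fun x hx => hw x (w.support_bypass_subset_support hx)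
  have haC : a ∉ Corr.C d n r := by
    intro h
    apply h.1.2
    obtain ⟨_, ⟨j, s, _, _, rfl⟩ | ⟨_, h2, _⟩⟩ := ha
    · left
      refine ⟨j, fun i hi => ?_⟩
      simp [bv, hi]
    · exact Or.inr h2
  refine ⟨Walk.cons hadj q, ?_, ?_, ?_⟩
  · rw [Walk.cons_isPath_iff]
    exact ⟨hqP, fun h => haC (hqC a h)⟩
  · intro v hv hva
    rw [Walk.support_cons, List.mem_cons] at hv
    rcases hv with hv | hv
    · exact absurd hv hva
    · exact hqC v hv
  · rw [Walk.support_cons, List.length_cons]
    have h1 : q.support.length = q.support.toFinset.card :=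
      (List.toFinset_card_of_nodup hqP.support_nodup).symm
    have h2 : q.support.toFinset ⊆ Corr.F d n := by
      intro x hx
      rw [List.mem_toFinset] at hx
      exact Corr.C_sub_F (hqC x hx)
    have h3 := (Finset.card_le_card h2).trans (Corr.card_F d n)
    omega

end Pool.Agent.Lib.MP_79dc3a_pr
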