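import Pool.Agent.Lib.MP_79dc3a_pr.Defs

/-!
# MP_79dc3a_pr: product measure lemmas
-/

namespace Pool.Agent.Lib.MP_79dc3a_pr

open Finset MeasureTheory ProbabilityTheory

theorem bern_prob {p : ℝ} (h0 : 0 ≤ p) (h1 : p ≤ 1) : IsProbabilityMeasure (bern p) := by
  constructor
  rw [bern, Measure.add_apply, Measure.smul_apply, Measure.smul_apply, measure_univ, measure_univ,
    smul_eq_mul, smul_eq_mul, mul_one, mul_one, ← ENNReal.ofReal_add h0 (by linarith)]
  simp

theorem mu_prob (d : ℕ) (p : ℝ) (h0 : 0 ≤ p) (h1 : p ≤ 1) : IsProbabilityMeasure (mu d p) := by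
  have := bern_prob h0 h1
  rw [mu]
  infer_instance

/-- patterns of an event on a finite set -/
def patt {d : ℕ} (T : Finset (Ed d)) (A : Set (Cfg d)) : Set (T → Bool) :=
  (fun w : Cfg d => fun e : T => w e) '' A

theorem DetBy.eq_preimage {d : ℕ} {T : Finset (Ed d)} {A : Set (Cfg d)} (h : DetBy T A) :
    A = (fun w : Cfg d => fun e : T => w e) ⁻¹' (patt T A) := by
  ext w
  constructor
  · intro hw; exact ⟨w, hw, rfl⟩
  · rintro ⟨w', hw', he⟩
    refine (h w' w fun e he' => ?_).1 hw'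
    exact congrFun he ⟨e, he'⟩

theorem DetBy.measurable {d : ℕ} {T : Finset (Ed d)} {A : Set (Cfg d)} (h : DetBy T A) :
    MeasurableSet A := by
  rw [h.eq_preimage]
  refine MeasurableSet.preimage (Set.toFinite _).measurableSet ?_
  fun_prop

theorem mu_inter {d : ℕ} {p : ℝ} (h0 : 0 ≤ p) (h1 : p ≤ 1) {T T' : Finset (Ed d)}
    {A B : Set (Cfg d)} (hA : DetBy T A) (hB : DetBy T' B) (hT : Disjoint T T') :
    (mu d p).real (A ∩ B) = (mu d p).real A * (mu d p).real B := by
  have := bern_prob h0 h1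
  have hi : iIndepFun (fun (e : Ed d) (w : Cfg d) => w e) (mu d p) :=
    iIndepFun_infinitePi (P := fun _ : Ed d => bern p) (X := fun _ w => w)
      (fun _ => measurable_id)
  have hf := hi.indepFun_finset T T' hT (fun e => measurable_pi_apply e)
  have h := hf.measure_inter_preimage_eq_mul (patt T A) (patt T' B)
    (Set.toFinite _).measurableSet (Set.toFinite _).measurableSet
  rw [measureReal_def, measureReal_def, measureReal_def, ← ENNReal.toReal_mul]
  congr 1
  rw [hA.eq_preimage, hB.eq_preimage]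
  exact h

theorem mu_cyl {d : ℕ} {p c : ℝ} (h0 : 0 ≤ p) (h1 : p ≤ 1) (hc : 0 ≤ c) (hcp : c ≤ p)
    (hcp' : c ≤ 1 - p) (T : Finset (Ed d)) (f : Cfg d) :
    c ^ T.card ≤ (mu d p).real {w | ∀ e ∈ T, w e = f e} := by
  have hprob := bern_prob h0 h1
  have hmu := mu_prob d p h0 h1
  have hset : {w : Cfg d | ∀ e ∈ T, w e = f e} = Set.pi T (fun e => {f e}) := by
    ext w; simp [Set.mem_pi]
  have hb : ∀ b : Bool, ENNReal.ofReal c ≤ bern p {b} := by
    intro b
    have hf : MeasurableSet ({b} : Set Bool) := MeasurableSet.singleton b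
    rw [bern, Measure.add_apply, Measure.smul_apply, Measure.smul_apply,
      Measure.dirac_apply' _ hf, Measure.dirac_apply' _ hf]
    cases b
    · simpa using ENNReal.ofReal_le_ofReal hcp'
    · simpa using ENNReal.ofReal_le_ofReal hcp
  have h2 : ENNReal.ofReal (c ^ T.card) ≤ mu d p {w | ∀ e ∈ T, w e = f e} := by
    rw [hset, mu, Measure.infinitePi_pi _ (fun e _ => MeasurableSet.singleton _),
      ENNReal.ofReal_pow hc]
    exact Finset.pow_card_le_prod _ _ _ (fun e _ => hb _)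
  have h3 : ENNReal.ofReal (c ^ T.card) ≤
      ENNReal.ofReal ((mu d p).real {w | ∀ e ∈ T, w e = f e}) := by
    rwa [measureReal_def, ENNReal.ofReal_toReal (measure_ne_top _ _)]
  exact (ENNReal.ofReal_le_ofReal_iff measureReal_nonneg).1 h3

theorem mu_shift {d : ℕ} {p : ℝ} (h0 : 0 ≤ p) (h1 : p ≤ 1) {T : Finset (Ed d)}
    {A : Set (Cfg d)} (hA : DetBy T A) (v : V d) :
    (mu d p).real {w | shiftC v w ∈ A} = (mu d p).real A := by
  have hprob := bern_prob h0 h1
  let e : Ed d ≃ Ed d :=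
    { toFun := fun y => (y.1 - v, y.2)
      invFun := fun y => (y.1 + v, y.2)
      left_inv := fun y => by simp
      right_inv := fun y => by simp }
  have h := Measure.infinitePi_map_piCongrLeft (fun _ : Ed d => bern p) e
  have hfun : (fun w : Cfg d => shiftC v w) =
      MeasurableEquiv.piCongrLeft (fun _ : Ed d => Bool) e := by
    funext w
    funext x
    obtain ⟨y, rfl⟩ := e.surjective x
    have h2 := MeasurableEquiv.piCongrLeft_apply_apply (β := fun _ : Ed d => Bool) e w y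
    rw [h2]
    change w ((y.1 - v) + v, y.2) = w y
    rw [sub_add_cancel]
  have h3 : (mu d p) {w | shiftC v w ∈ A} = (mu d p) A := by
    conv_rhs => rw [mu, ← h, Measure.map_apply (MeasurableEquiv.measurable _) hA.measurable]
    rw [← hfun]
    rfl
  rw [measureReal_def, measureReal_def, h3]

open Classical in
/-- decomposition of an event over the patterns on a finite set -/
theorem mu_decomp {d : ℕ} {p : ℝ} (h0 : 0 ≤ p) (h1 : p ≤ 1) (W T : Finset (Ed d))
    (A : Set (Cfg d)) (hA : DetBy T A) :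
    (mu d p).real A = ∑ g : W → Bool,
      (mu d p).real {w | ∀ e (h : e ∈ W), w e = g ⟨e, h⟩} *
      (mu d p).real {w | putC W (fun e => if h : e ∈ W then g ⟨e, h⟩ else false) w ∈ A} := by
  have hmu := mu_prob d p h0 h1
  have hcyl : ∀ g : W → Bool, DetBy W {w : Cfg d | ∀ e (h : e ∈ W), w e = g ⟨e, h⟩} := by
    intro g w w' hw
    simp only [Set.mem_ofPred_eq]
    exact ⟨fun h e he => by rw [← hw e he]; exact h e he,
      fun h e he => by rw [hw e he]; exact h e he⟩
  have hput : ∀ η : Cfg d, DetBy (T \ W) {w : Cfg d | putC W η w ∈ A} := by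
    intro η w w' hw
    refine hA _ _ fun e he => ?_
    unfold putC
    by_cases h : e ∈ W
    · simp [h]
    · simp only [h, if_false]
      exact hw e (Finset.mem_sdiff.2 ⟨he, h⟩)
  have hkey : ∀ g : W → Bool,
      {w : Cfg d | ∀ e (h : e ∈ W), w e = g ⟨e, h⟩} ∩ A =
      {w : Cfg d | ∀ e (h : e ∈ W), w e = g ⟨e, h⟩} ∩
      {w | putC W (fun e => if h : e ∈ W then g ⟨e, h⟩ else false) w ∈ A} := by
    intro g
    ext w
    simp only [Set.mem_inter_iff, Set.mem_ofPred_eq]
    refine and_congr_right fun hw => ?_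
    have : putC W (fun e => if h : e ∈ W then g ⟨e, h⟩ else false) w = w := by
      funext e
      unfold putC
      by_cases h : e ∈ W
      · simp [h, hw e h]
      · simp [h]
    rw [this]
  have hunion : A = ⋃ g : W → Bool, {w : Cfg d | ∀ e (h : e ∈ W), w e = g ⟨e, h⟩} ∩ A := by
    ext w
    simp only [Set.mem_iUnion, Set.mem_inter_iff, Set.mem_ofPred_eq]
    exact ⟨fun h => ⟨fun e => w e, fun e he => rfl, h⟩, fun ⟨g, _, h⟩ => h⟩
  have hdisj : Pairwise (Function.onFun Disjoint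
      (fun g : W → Bool => {w : Cfg d | ∀ e (h : e ∈ W), w e = g ⟨e, h⟩} ∩ A)) := by
    intro g g' hgg
    rw [Function.onFun, Set.disjoint_left]
    rintro w ⟨h1, _⟩ ⟨h2, _⟩
    apply hgg
    funext e
    rw [← h1 e.1 e.2, ← h2 e.1 e.2]
  calc (mu d p).real A = (mu d p).real
        (⋃ g : W → Bool, {w : Cfg d | ∀ e (h : e ∈ W), w e = g ⟨e, h⟩} ∩ A) := by rw [← hunion]
    _ = ∑ g : W → Bool, (mu d p).real ({w : Cfg d | ∀ e (h : e ∈ W), w e = g ⟨e, h⟩} ∩ A) :=
        measureReal_iUnion_fintype hdisj (fun g => (hcyl g).measurable.inter hA.measurable)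
    _ = _ := by
        refine Finset.sum_congr rfl fun g _ => ?_
        rw [hkey g]
        exact mu_inter h0 h1 (hcyl g) (hput _) Finset.disjoint_sdiff

theorem mu_total {d : ℕ} {p : ℝ} (h0 : 0 ≤ p) (h1 : p ≤ 1) (W T : Finset (Ed d)) (P : Finset ℕ)
    (A : ℕ → Set (Cfg d)) (hA : ∀ l ∈ P, DetBy T (A l)) (q : ℝ)
    (hq : ∀ η : Cfg d, ∑ l ∈ P, (mu d p).real {w | putC W η w ∈ A l} ≤ q) :
    ∑ l ∈ P, (mu d p).real (A l) ≤ q := by
  classical
  have hmu := mu_prob d p h0 h1
  have hone : ∑ g : W → Bool, (mu d p).real {w : Cfg d | ∀ e (h : e ∈ W), w e = g ⟨e, h⟩} = 1 := by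
    have h := mu_decomp h0 h1 W ∅ Set.univ (fun w w' _ => by simp)
    simpa using h.symm
  calc ∑ l ∈ P, (mu d p).real (A l) = ∑ l ∈ P, ∑ g : W → Bool,
      (mu d p).real {w | ∀ e (h : e ∈ W), w e = g ⟨e, h⟩} *
      (mu d p).real {w | putC W (fun e => if h : e ∈ W then g ⟨e, h⟩ else false) w ∈ A l} :=
        Finset.sum_congr rfl fun l hl => mu_decomp h0 h1 W T (A l) (hA l hl)
    _ = ∑ g : W → Bool, (mu d p).real {w | ∀ e (h : e ∈ W), w e = g ⟨e, h⟩} *
      ∑ l ∈ P, (mu d p).real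
        {w | putC W (fun e => if h : e ∈ W then g ⟨e, h⟩ else false) w ∈ A l} := by
        rw [Finset.sum_comm]
        refine Finset.sum_congr rfl fun g _ => ?_
        rw [Finset.mul_sum]
    _ ≤ ∑ g : W → Bool, (mu d p).real {w | ∀ e (h : e ∈ W), w e = g ⟨e, h⟩} * q := by
        refine Finset.sum_le_sum fun g _ => ?_
        gcongr
        exact hq _
    _ = q := by rw [← Finset.sum_mul, hone, one_mul]

theorem switch {d : ℕ} {p : ℝ} (h0 : 0 ≤ p) (h1 : p ≤ 1) {ι : Type} [DecidableEq ι]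
    (Z : Finset ι) (Q Ev : ι → Set (Cfg d)) (T T' : ι → Finset (Ed d))
    (hQ : ∀ z ∈ Z, DetBy (T z) (Q z)) (hE : ∀ z ∈ Z, DetBy (T' z) (Ev z))
    (hT : ∀ z ∈ Z, Disjoint (T z) (T' z)) (q : ℝ) (hq : ∀ z ∈ Z, q ≤ (mu d p).real (Q z))
    (D : ℕ)
    (hD : ∀ w : Cfg d, ∀ Z' ⊆ Z, (∀ z ∈ Z', w ∈ Q z ∧ w ∈ Ev z) → Z'.card ≤ D) :
    q * ∑ z ∈ Z, (mu d p).real (Ev z) ≤ D := by
  classical
  have hmu := mu_prob d p h0 h1
  have hmeas : ∀ z ∈ Z, MeasurableSet (Q z ∩ Ev z) := fun z hz =>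
    (hQ z hz).measurable.inter (hE z hz).measurable
  have hint : ∀ z ∈ Z, Integrable ((Q z ∩ Ev z).indicator (fun _ : Cfg d => (1 : ℝ))) (mu d p) :=
    fun z hz => (integrable_const 1).indicator (hmeas z hz)
  calc q * ∑ z ∈ Z, (mu d p).real (Ev z) = ∑ z ∈ Z, q * (mu d p).real (Ev z) := by
        rw [Finset.mul_sum]
    _ ≤ ∑ z ∈ Z, (mu d p).real (Q z ∩ Ev z) := by
        refine Finset.sum_le_sum fun z hz => ?_
        rw [mu_inter h0 h1 (hQ z hz) (hE z hz) (hT z hz)]
        gcongr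
        exact hq z hz
    _ = ∑ z ∈ Z, ∫ w, (Q z ∩ Ev z).indicator (fun _ => (1 : ℝ)) w ∂(mu d p) := by
        refine Finset.sum_congr rfl fun z hz => ?_
        rw [integral_indicator (hmeas z hz)]
        simp
    _ = ∫ w, ∑ z ∈ Z, (Q z ∩ Ev z).indicator (fun _ => (1 : ℝ)) w ∂(mu d p) :=
        (integral_finsetSum _ hint).symm
    _ ≤ ∫ _w, (D : ℝ) ∂(mu d p) := by
        refine integral_mono (integrable_finsetSum _ hint) (integrable_const _) fun w => ?_
        have h2 : ∑ z ∈ Z, (Q z ∩ Ev z).indicator (fun _ => (1 : ℝ)) w =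
            ((Z.filter fun z => w ∈ Q z ∩ Ev z).card : ℝ) := by
          rw [Finset.card_filter]
          push_cast
          refine Finset.sum_congr rfl fun z _ => ?_
          by_cases h : w ∈ Q z ∩ Ev z
          · rw [Set.indicator_of_mem h, if_pos h]
          · rw [Set.indicator_of_notMem h, if_neg h]
        change ∑ z ∈ Z, (Q z ∩ Ev z).indicator (fun _ => (1 : ℝ)) w ≤ (D : ℝ)
        rw [h2]
        exact_mod_cast hD w _ (Finset.filter_subset _ _)
          (fun z hz => (Finset.mem_filter.1 hz).2)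
    _ = D := by simp

end Pool.Agent.Lib.MP_79dc3a_pr
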