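import Pool.Agent.Lib.MP_79dc3a_pr.Count2
import Pool.Agent.Lib.MP_79dc3a_pr.Measure

/-! Module J12 Count1 of MP_79dc3a_pr: counting of the sites where the net forces divisibility. -/

set_option autoImplicit false

namespace Pool.Agent.Lib.MP_79dc3a_pr

open Finset

namespace Cnt1

open Cnt2

variable {d : ℕ}

theorem lapS_cast (A : Set (Sym2 (V d))) (u : V d → ℤ) (x : V d) :
    lapS A (fun y => (u y : ℚ)) x = ((lapS A u x : ℤ) : ℚ) := by
  unfold lapS
  rw [Int.cast_sum]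
  refine Finset.sum_congr rfl fun i _ => ?_
  split_ifs <;> simp

theorem ctr_add (u v : V d → ℚ) (x : V d) (e : Sym2 (V d)) :
    ctr (fun y => u y + v y) x e = ctr u x e + ctr v x e := by
  induction e using Sym2.ind with
  | _ p q =>
    rw [ctr_mk, ctr_mk, ctr_mk]
    split_ifs <;> ring

theorem ctr_smul (k : ℚ) (u : V d → ℚ) (x : V d) (e : Sym2 (V d)) :
    ctr (fun y => k * u y) x e = k * ctr u x e := by
  induction e using Sym2.ind with
  | _ p q =>
    rw [ctr_mk, ctr_mk]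
    split_ifs <;> ring

/-- the current functional as a linear map -/
noncomputable def Lam (E : Finset (Sym2 (V d))) (a c : V d) : (V d → ℚ) →ₗ[ℚ] ℚ where
  toFun v := lap E (fun y => v (y + c)) a
  map_add' u v := by
    simp only [lap, Pi.add_apply, ctr_add, Finset.sum_add_distrib]
  map_smul' k v := by
    simp only [lap, Pi.smul_apply, smul_eq_mul, ctr_smul, Finset.mul_sum, RingHom.id_apply]

theorem Lam_apply (E : Finset (Sym2 (V d))) (a c : V d) (v : V d → ℚ) :
    Lam E a c v = lap E (fun y => v (y + c)) a := rfl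

open Classical in
/-- the modified function -/
noncomputable def ut (K : ℕ) (S' : Finset (V d)) (z : V d) (g : V d → ℚ) (u : V d → ℤ) :
    V d → ℚ :=
  fun x => if x - cen K z ∈ (Free K : Set (V d)) then
    (if x - cen K z ∈ S' then g (x - cen K z) else 0) else (u x : ℚ)

theorem ut_out {K : ℕ} {S' : Finset (V d)} {z : V d} {g : V d → ℚ} {u : V d → ℤ} {x : V d}
    (h : x - cen K z ∉ (Free K : Set (V d))) : ut K S' z g u x = (u x : ℚ) := by
  unfold ut
  rw [if_neg h]

theorem ut_in {K : ℕ} {S' : Finset (V d)} {z : V d} {g : V d → ℚ} {u : V d → ℤ} {y : V d}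
    (h : y ∈ (Free K : Set (V d))) (hS : y ∈ S') : ut K S' z g u (y + cen K z) = g y := by
  unfold ut
  rw [add_sub_cancel_right, if_pos h, if_pos hS]

theorem ut_free {K : ℕ} {S' : Finset (V d)} {z : V d} {g : V d → ℚ} {u : V d → ℤ} {y : V d}
    (h : y ∈ (Free K : Set (V d))) (hS : y ∉ S') : ut K S' z g u (y + cen K z) = 0 := by
  unfold ut
  rw [add_sub_cancel_right, if_pos h, if_neg hS]

theorem ut_str {K : ℕ} {S' : Finset (V d)} {z : V d} {g : V d → ℚ} {u : V d → ℤ} {y : V d}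
    (h : y ∈ (Str K : Set (V d))) : ut K S' z g u (y + cen K z) = (u (y + cen K z) : ℚ) := by
  apply ut_out
  rw [add_sub_cancel_right]
  exact not_free_of_str h

section
variable (Sc : Scale d) (t : Fin Sc.T) (E' : Finset (Sym2 (V d))) (S' : Finset (V d))
    (hN : Net (zd d) E' S' (Sc.a t) (Sc.b t) (Sc.L t : ℚ))
    (hin : ∀ v ∈ S', v ≠ Sc.a t → v ≠ Sc.b t → v ∈ (Free Sc.K : Set (V d)))
    (hef : ∀ e ∈ E', ∃ v ∈ e, v ∈ (Free Sc.K : Set (V d)))

include hN hin hef

theorem inReg_net : InReg Sc.K E' S' where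
  edge := hN.edge
  sub := hN.sub
  efree := hef
  inr := fun v hv => by
    by_cases h1 : v = Sc.a t
    · exact Or.inl (h1 ▸ Sc.ha t)
    · by_cases h2 : v = Sc.b t
      · exact Or.inl (h2 ▸ Sc.hb t)
      · exact Or.inr (hin v hv h1 h2)

theorem inQ_net {v : V d} (hv : v ∈ S') : inQ Sc.K v := by
  rcases (inReg_net Sc t E' S' hN hin hef).inr v hv with h | h
  · exact h.1
  · exact h.1

/-- the modified function on the net -/
theorem ut_net {z : V d} {g : V d → ℚ} {u : V d → ℤ}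
    (hga : g (Sc.a t) = (u (Sc.a t + cen Sc.K z) : ℚ))
    (hgb : g (Sc.b t) = (u (Sc.b t + cen Sc.K z) : ℚ)) {v : V d} (hv : v ∈ S') :
    ut Sc.K S' z g u (v + cen Sc.K z) = g v := by
  by_cases h1 : v = Sc.a t
  · rw [h1, ut_str (Sc.ha t), hga]
  · by_cases h2 : v = Sc.b t
    · rw [h2, ut_str (Sc.hb t), hgb]
    · exact ut_in (hin v hv h1 h2) hv

theorem lap_net {z : V d} {g : V d → ℚ} {u : V d → ℤ}
    (hga : g (Sc.a t) = (u (Sc.a t + cen Sc.K z) : ℚ))
    (hgb : g (Sc.b t) = (u (Sc.b t + cen Sc.K z) : ℚ)) (x : V d) :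
    lap E' (fun y => ut Sc.K S' z g u (y + cen Sc.K z)) x = lap E' g x := by
  apply lap_congr
  intro e he v hv
  exact ut_net Sc t E' S' hN hin hef hga hgb (hN.sub e he v hv)

/-- the currents agree -/
theorem cur_eq {z : V d} {g : V d → ℚ} {u : V d → ℤ}
    (hga : g (Sc.a t) = (u (Sc.a t + cen Sc.K z) : ℚ))
    (hgb : g (Sc.b t) = (u (Sc.b t + cen Sc.K z) : ℚ))
    (hg : Harm E' S' (Sc.a t) (Sc.b t) g)
    (hu : Harm (Sc.E t) (Sc.S t) (Sc.a t) (Sc.b t) (fun y => (u (y + cen Sc.K z) : ℚ))) :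
    lap E' g (Sc.a t) = lap (Sc.E t) (fun y => (u (y + cen Sc.K z) : ℚ)) (Sc.a t) := by
  have h1 := hN.resp g hg
  have h2 := (Sc.thread t).toNet.resp _ hu
  have h3 : (0:ℚ) < (Sc.L t : ℚ) := hN.pos
  rw [hga, hgb, h2] at h1
  exact (mul_left_cancel₀ h3.ne' h1).symm

theorem lap_str {z : V d} {g : V d → ℚ} {u : V d → ℤ}
    (hga : g (Sc.a t) = (u (Sc.a t + cen Sc.K z) : ℚ))
    (hgb : g (Sc.b t) = (u (Sc.b t + cen Sc.K z) : ℚ))
    (hg : Harm E' S' (Sc.a t) (Sc.b t) g)
    (hu : Harm (Sc.E t) (Sc.S t) (Sc.a t) (Sc.b t) (fun y => (u (y + cen Sc.K z) : ℚ)))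
    {x : V d} (hx : x ∈ (Str Sc.K : Set (V d))) :
    lap (Sc.E t) (fun y => (u (y + cen Sc.K z) : ℚ)) x = lap E' g x := by
  by_cases h1 : x = Sc.a t
  · rw [h1, cur_eq Sc t E' S' hN hin hef hga hgb hg hu]
  · by_cases h2 : x = Sc.b t
    · rw [h2, (Sc.thread t).toNet.toSub.cons _ hu, hN.toSub.cons _ hg,
        cur_eq Sc t E' S' hN hin hef hga hgb hg hu]
    · rw [hN.toSub.lap_zero g (fun h => not_free_of_str hx (hin x h h1 h2)),
        (Sc.thread t).toNet.toSub.lap_zero _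
          (fun h => not_free_of_str hx (Sc.inner t x h h1 h2))]

/-- harmonicity of the modified function -/
theorem harm_ut {m : ℕ} {z : V d} {w w' : Cfg d}
    (hP : Pat Sc.K (cen Sc.K z) E' S' (opn w))
    (hw : ∀ f, f ∉ Wd Sc.K z → w' f = w f)
    (hP' : Pat Sc.K (cen Sc.K z) (Sc.E t) (Sc.S t) (opn w'))
    {u : V d → ℤ} (huB : HarmB (opn w') (cen Sc.K 0) (rad Sc.K m) u) {g : V d → ℚ}
    (hga : g (Sc.a t) = (u (Sc.a t + cen Sc.K z) : ℚ))
    (hgb : g (Sc.b t) = (u (Sc.b t + cen Sc.K z) : ℚ))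
    (hg : Harm E' S' (Sc.a t) (Sc.b t) g)
    (hu : Harm (Sc.E t) (Sc.S t) (Sc.a t) (Sc.b t) (fun y => (u (y + cen Sc.K z) : ℚ))) :
    ∀ x ∈ Bx (cen Sc.K (0 : V d)) (rad Sc.K m), lapS (opn w) (ut Sc.K S' z g u) x = 0 := by
  intro x hx
  have huB' : lapS (opn w') (fun y => (u y : ℚ)) x = 0 := by
    rw [lapS_cast, huB x hx]; simp
  have hR := inReg_net Sc t E' S' hN hin hef
  by_cases hQ : inQ Sc.K (x - cen Sc.K z)
  · obtain ⟨x0, rfl⟩ : ∃ x0, x = x0 + cen Sc.K z := ⟨x - cen Sc.K z, by rw [sub_add_cancel]⟩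
    rw [add_sub_cancel_right] at hQ
    rcases str_or_free hQ with hs | hf
    · have hout : ∀ i, ¬ inQ Sc.K (x0 + stp i) →
          ((s(x0 + cen Sc.K z, x0 + stp i + cen Sc.K z) ∈ opn w' ↔
            s(x0 + cen Sc.K z, x0 + stp i + cen Sc.K z) ∈ opn w) ∧
          ut Sc.K S' z g u (x0 + stp i + cen Sc.K z) = (u (x0 + stp i + cen Sc.K z) : ℚ)) := by
        intro i hi
        constructor
        · apply opn_iff hw
          intro hk
          have h2 := reg_vertex hk (Sym2.mem_mk_right _ _)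
          rw [add_sub_cancel_right] at h2
          exact hi h2
        · apply ut_out
          rw [add_sub_cancel_right]
          exact fun h => hi h.1
      have h1 := surg_str (inReg_thread Sc t) hR hP' hP hs (fun y => (u y : ℚ))
        (ut Sc.K S' z g u) hout (fun y hy => ut_str hy)
      rw [huB', lap_str Sc t E' S' hN hin hef hga hgb hg hu hs,
        lap_net Sc t E' S' hN hin hef hga hgb] at h1
      linarith
    · by_cases hS : x0 ∈ S'
      · rw [surg_in hR hP hf hS, lap_net Sc t E' S' hN hin hef hga hgb]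
        refine hg x0 hS ?_ ?_
        · rintro rfl; exact not_free_of_str (Sc.ha t) hf
        · rintro rfl; exact not_free_of_str (Sc.hb t) hf
      · exact surg_out hR hP hf hS _ 0 (fun y hy hyS => ut_free hy hyS)
  · have h0 : ut Sc.K S' z g u x = (u x : ℚ) := ut_out (fun h => hQ h.1)
    rw [← huB']
    unfold lapS
    refine Finset.sum_congr rfl fun i _ => ?_
    have h2 : ut Sc.K S' z g u (x + stp i) = (u (x + stp i) : ℚ) :=
      ut_out (not_free_nbr hQ (adj_stp x i))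
    have h3 : s(x, x + stp i) ∈ opn w' ↔ s(x, x + stp i) ∈ opn w := by
      apply opn_iff hw
      intro h
      exact hQ (reg_vertex h (Sym2.mem_mk_left _ _))
    rw [h0, h2]
    by_cases h4 : s(x, x + stp i) ∈ opn w
    · rw [if_pos h4, if_pos (h3.2 h4)]
    · rw [if_neg h4, if_neg (fun h5 => h4 (h3.1 h5))]

/-- the functional kills cluster-constant functions -/
theorem lam_kill {m : ℕ} {k : V d} (hkB : k ∈ Bx (0 : V d) m) {w : Cfg d}
    (hP : Pat Sc.K (cen Sc.K k) E' S' (opn w)) (v : V d → ℚ)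
    (hv : ∀ x ∈ Bx (0 : V d) (rad Sc.K m + 1), ∀ i, x + stp i ∈ Bx (0 : V d) (rad Sc.K m + 1) →
      s(x, x + stp i) ∈ opn w → v (x + stp i) = v x) :
    Lam E' (Sc.a t) (cen Sc.K k) v = 0 := by
  have hR := inReg_net Sc t E' S' hN hin hef
  have hbox : ∀ x ∈ S', x + cen Sc.K k ∈ Bx (0 : V d) (rad Sc.K m + 1) := by
    intro x hx
    refine Bx_sub ?_
    have := site_in_box (v := 0) (x := x + cen Sc.K k) hkB
      (by rw [add_sub_cancel_right]; exact inQ_net Sc t E' S' hN hin hef hx)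
    rwa [cen_zero] at this
  have hedge : ∀ p q : V d, s(p, q) ∈ E' → v (p + cen Sc.K k) = v (q + cen Sc.K k) := by
    intro p q hpq
    have hp := hN.sub _ hpq p (Sym2.mem_mk_left _ _)
    have hq := hN.sub _ hpq q (Sym2.mem_mk_right _ _)
    have hadj : (zd d).Adj p q := hN.edge _ hpq
    have hA : s(p + cen Sc.K k, q + cen Sc.K k) ∈ opn w :=
      (hP p q (inQ_net Sc t E' S' hN hin hef hp) (inQ_net Sc t E' S' hN hin hef hq) hadj
        (Or.inr hp)).2 (Or.inr hpq)
    obtain ⟨j, h | h⟩ := hadj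
    · have h1 : q + cen Sc.K k = p + cen Sc.K k + stp (j, true) := by
        rw [h]; simp [stp]; abel
      rw [h1]
      refine (hv _ (hbox p hp) (j, true) (h1 ▸ hbox q hq) ?_).symm
      rw [← h1]
      exact hA
    · have h1 : p + cen Sc.K k = q + cen Sc.K k + stp (j, true) := by
        rw [h]; simp [stp]; abel
      rw [h1]
      refine hv _ (hbox q hq) (j, true) (h1 ▸ hbox p hp) ?_
      rw [← h1, Sym2.eq_swap]
      exact hA
  rw [Lam_apply]
  unfold lap
  refine Finset.sum_eq_zero fun e he => ?_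
  induction e using Sym2.ind with
  | _ p q =>
    rw [ctr_mk, hedge p q he]
    simp

end

end Cnt1

open Cnt1 Cnt2 in
theorem count1 {d : ℕ} (Sc : Scale d) (l : ℕ) (hl : l.Prime) (t : Fin Sc.T)
    (E' : Finset (Sym2 (V d))) (S' : Finset (V d))
    (hN : Net (zd d) E' S' (Sc.a t) (Sc.b t) (Sc.L t : ℚ))
    (hF : Forces E' S' (Sc.a t) (Sc.b t) l)
    (hin : ∀ v ∈ S', v ≠ Sc.a t → v ≠ Sc.b t → v ∈ (Free Sc.K : Set (V d)))
    (hef : ∀ e ∈ E', ∃ v ∈ e, v ∈ (Free Sc.K : Set (V d))) (m : ℕ) (w : Cfg d)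
    (Z : Finset (V d)) (hZ : Z ⊆ Bx 0 m)
    (h : ∀ z ∈ Z, Pat Sc.K (cen Sc.K z) E' S' (opn w) ∧
      w ∈ Mod (Wd Sc.K z) (F1 Sc l t z 0 m)) :
    Z.card ≤ bd d Sc.K m := by
  have hR := inReg_net Sc t E' S' hN hin hef
  have hex : ∀ z ∈ Z, ∃ (v : V d → ℚ) (c : V d → ℤ),
      (∀ x ∈ Bx (0 : V d) (rad Sc.K m), lapS (opn w) v x = 0) ∧
      (∀ k ∈ Z, Lam E' (Sc.a t) (cen Sc.K k) v = (c k : ℚ)) ∧
      (∀ k ∈ Z, k ≠ z → (l : ℤ) ∣ c k) ∧ ¬ (l : ℤ) ∣ c z := by
    classical
    intro z hz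
    obtain ⟨hP, w', ⟨hPz, u, huB, hnd⟩, hw⟩ := h z hz
    have hzB := hZ hz
    obtain ⟨g, hga, hgb, hg⟩ := hN.ext (u (Sc.a t + cen Sc.K z) : ℚ) (u (Sc.b t + cen Sc.K z) : ℚ)
    have huZ := thread_harm Sc t hzB hPz huB
    have hu : Harm (Sc.E t) (Sc.S t) (Sc.a t) (Sc.b t)
        (fun y => (u (y + cen Sc.K z) : ℚ)) := by
      intro v hv h1 h2
      have := huZ v hv h1 h2
      rw [lap_cast (Sc.E t) (fun y => u (y + cen Sc.K z)) v, this]
      simp
    refine ⟨ut Sc.K S' z g u, fun k => if k = z then cur (Sc.E t) (Sc.a t) (cen Sc.K z) u else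
      lap E' (fun y => u (y + cen Sc.K k)) (Sc.a t), ?_, ?_, ?_, ?_⟩
    · have := harm_ut Sc t E' S' hN hin hef hP hw hPz huB hga hgb hg hu
      rwa [cen_zero] at this
    · intro k hk
      beta_reduce
      by_cases hkz : k = z
      · subst hkz
        rw [if_pos rfl, Lam_apply, lap_net Sc t E' S' hN hin hef hga hgb,
          cur_eq Sc t E' S' hN hin hef hga hgb hg hu,
          lap_cast (Sc.E t) (fun y => u (y + cen Sc.K k))]
        rfl
      · rw [if_neg hkz, Lam_apply, ← lap_cast E' (fun y => u (y + cen Sc.K k))]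
        apply lap_congr
        intro e he v hv
        apply ut_out
        intro hfr
        have h1 : inQ Sc.K (v + cen Sc.K k - cen Sc.K k) := by
          rw [add_sub_cancel_right]
          exact inQ_net Sc t E' S' hN hin hef (hN.sub e he v hv)
        exact hkz (site_unique h1 hfr.1)
    · intro k hk hkz
      beta_reduce
      rw [if_neg hkz]
      apply hF
      intro v hv h1 h2
      have hPk := pat_other hkz hw (h k hk).1
      have hfr := hin v hv h1 h2
      rw [← surg_in hR hPk hfr hv u]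
      refine huB _ (site_in_box (hZ hk) ?_)
      rw [add_sub_cancel_right]
      exact hfr.1
    · beta_reduce
      rw [if_pos rfl]
      exact hnd
  choose! U C hU1 hU2 hU3 hU4 using hex
  let e : Fin Z.card ≃ Z := Z.equivFin.symm
  refine dimQ (opn w) (Bx (0 : V d) (rad Sc.K m + 1)) (Bx (0 : V d) (rad Sc.K m))
    Bx_sub (fun x hx i => Bx_nb hx i) Z.card (fun i => U (e i)) (fun i x hx => hU1 _ (e i).2 x hx)
    (fun i => Lam E' (Sc.a t) (cen Sc.K (e i).1)) ?_ ?_
  · intro i v hv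
    exact lam_kill Sc t E' S' hN hin hef (hZ (e i).2) (h _ (e i).2).1 v hv
  · have hlin := linInd_of_mod Z.card l hl (fun i j => C (e i).1 (e j).1) (by
      intro i j hij
      refine hU3 _ (e i).2 _ (e j).2 ?_
      intro hcon
      exact hij (e.injective (Subtype.ext hcon))) (fun i => hU4 _ (e i).2)
    have heq : (fun i : Fin Z.card => fun j : Fin Z.card =>
        Lam E' (Sc.a t) (cen Sc.K (e j).1) (U (e i).1)) =
        fun i => fun j => (C (e i).1 (e j).1 : ℚ) := by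
      funext i j
      exact hU2 _ (e i).2 _ (e j).2
    rw [heq]
    exact hlin

end Pool.Agent.Lib.MP_79dc3a_pr
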