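import Pool.Agent.Lib.MP_79dc3a_pr.Defs

/-!
J9: linear algebra (dimension counts for spaces of harmonic functions).
-/

namespace Pool.Agent.Lib.MP_79dc3a_pr

open Finset

/-! ### Determinants of integer matrices -/

/-- the determinant is bounded by the product of the l1 norms of the rows -/
theorem dim_abs_det_le {m : Type*} [Fintype m] [DecidableEq m] (M : Matrix m m ℤ) :
    |M.det| ≤ ∏ i, ∑ j, |M i j| := by
  have h1 : |M.det| ≤ ∑ σ : Equiv.Perm m, ∏ i, |M i (σ i)| := by
    rw [← Matrix.det_transpose, Matrix.det_apply]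
    refine (Finset.abs_sum_le_sum_abs _ _).trans (Finset.sum_le_sum fun σ _ => ?_)
    rw [Units.smul_def, smul_eq_mul, abs_mul, Finset.abs_prod]
    have : |((Equiv.Perm.sign σ : ℤˣ) : ℤ)| = 1 := by
      rcases Int.units_eq_one_or (Equiv.Perm.sign σ) with h | h <;> rw [h] <;> simp
    rw [this, one_mul]
    simp [Matrix.transpose_apply]
  refine h1.trans ?_
  rw [Finset.prod_univ_sum]
  have h2 : ∑ σ : Equiv.Perm m, ∏ i, |M i (σ i)| =
      ∑ f ∈ (Finset.univ : Finset (Equiv.Perm m)).image (fun (σ : Equiv.Perm m) (i : m) => σ i),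
        ∏ i, |M i (f i)| := by
    rw [Finset.sum_image]
    intro σ _ τ _ h
    exact Equiv.coe_fn_injective h
  rw [h2]
  refine Finset.sum_le_sum_of_subset_of_nonneg ?_ ?_
  · intro f _
    simp
  · intro f _ _
    exact Finset.prod_nonneg fun i _ => abs_nonneg _

/-- the nullity modulo a prime bounds the valuation of the determinant from below -/
theorem dim_pow_dvd_det {m : Type*} [Fintype m] [DecidableEq m] (l : ℕ) (hl : l.Prime)
    (M : Matrix m m ℤ) :
    (l : ℤ) ^ (Fintype.card m - (M.map (Int.castRingHom (ZMod l))).rank) ∣ M.det := by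
  have := Fact.mk hl
  obtain ⟨r, hr, V, U, e, hV, hU, h⟩ : ∃ r, r = (M.map (Int.castRingHom (ZMod l))).rank ∧
      ∃ (V U : Matrix m m (ZMod l)) (e : m ≃ Fin r ⊕ Fin (Fintype.card m - r)),
        IsUnit V ∧ IsUnit U ∧ V * M.map (Int.castRingHom (ZMod l)) * U =
          (Matrix.fromBlocks 1 0 0 0).submatrix e e :=
    ⟨_, rfl, Matrix.exists_rank_normal_form _⟩
  rw [← hr]
  have hlift : ∀ W : Matrix m m (ZMod l), ∃ W' : Matrix m m ℤ,
      W'.map (Int.castRingHom (ZMod l)) = W := fun W =>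
    ⟨Matrix.of fun i j => ((W i j).val : ℤ), by ext i j; simp⟩
  obtain ⟨V', hV'⟩ := hlift V
  obtain ⟨U', hU'⟩ := hlift U
  have hdet : ∀ (W : Matrix m m (ZMod l)) (W' : Matrix m m ℤ),
      W'.map (Int.castRingHom (ZMod l)) = W → IsUnit W → ¬ (l : ℤ) ∣ W'.det := by
    intro W W' h1 h2 h3
    rw [Matrix.isUnit_iff_isUnit_det] at h2
    have h4 : W.det = ((W'.det : ℤ) : ZMod l) := by
      have h5 := (Int.castRingHom (ZMod l)).map_det W'
      rw [RingHom.mapMatrix_apply, h1] at h5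
      rw [← h5]
      simp
    rw [(ZMod.intCast_zmod_eq_zero_iff_dvd _ _).2 h3] at h4
    exact h2.ne_zero h4
  have hV1 := hdet V V' hV' hV
  have hU1 := hdet U U' hU' hU
  set N := V' * M * U' with hN
  have hNmod : N.map (Int.castRingHom (ZMod l)) = V * M.map (Int.castRingHom (ZMod l)) * U := by
    rw [hN, Matrix.map_mul, Matrix.map_mul, hV', hU']
  -- rows of the second block are divisible by l
  have hrow : ∀ i : m, (∃ k, e i = Sum.inr k) → ∀ j, (l : ℤ) ∣ N i j := by
    rintro i ⟨k, hk⟩ j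
    rw [← ZMod.intCast_zmod_eq_zero_iff_dvd]
    have h1 : (N.map (Int.castRingHom (ZMod l))) i j = ((N i j : ℤ) : ZMod l) := by simp
    rw [← h1, hNmod, h, Matrix.submatrix_apply, hk]
    rcases e j with k' | k' <;> simp
  set v : m → ℤ := fun i => if (∃ k, e i = Sum.inr k) then (l : ℤ) else 1 with hv
  have hN2 : ∃ N' : Matrix m m ℤ, N = Matrix.of fun i j => v i * N' i j := by
    refine ⟨fun i j => if (∃ k, e i = Sum.inr k) then N i j / l else N i j, ?_⟩
    ext i j
    simp only [Matrix.of_apply, hv]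
    split_ifs with h1
    · exact (Int.mul_ediv_cancel' (hrow i h1 j)).symm
    · rw [one_mul]
  obtain ⟨N', hN'⟩ := hN2
  have hprod : ∏ i, v i = (l : ℤ) ^ (Fintype.card m - r) := by
    rw [← Equiv.prod_comp e.symm, Fintype.prod_sum_type]
    have h1 : ∀ a : Fin r, v (e.symm (Sum.inl a)) = 1 := by
      intro a
      simp [hv]
    have h2 : ∀ a : Fin (Fintype.card m - r), v (e.symm (Sum.inr a)) = l := by
      intro a
      simp [hv]
    simp [h1, h2]
  have h3 : (l : ℤ) ^ (Fintype.card m - r) ∣ N.det := by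
    rw [hN', Matrix.det_mul_column, hprod]
    exact Dvd.intro _ rfl
  rw [hN, Matrix.det_mul, Matrix.det_mul] at h3
  have hlp : Prime (l : ℤ) := Nat.prime_iff_prime_int.1 hl
  have hcop : ∀ a : ℤ, ¬ (l : ℤ) ∣ a → IsCoprime ((l : ℤ) ^ (Fintype.card m - r)) a := by
    intro a ha
    exact ((Prime.coprime_iff_not_dvd hlp).2 ha).pow_left
  have h4 := (hcop _ hU1).dvd_of_dvd_mul_right h3
  exact (hcop _ hV1).dvd_of_dvd_mul_left h4

/-- a rational matrix with integer entries which is diagonal and invertible modulo a prime has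
linearly independent rows -/
theorem linInd_of_mod (n l : ℕ) (hl : l.Prime) (c : Fin n → Fin n → ℤ)
    (h0 : ∀ k k', k' ≠ k → (l : ℤ) ∣ c k k') (h1 : ∀ k, ¬ (l : ℤ) ∣ c k k) :
    LinearIndependent ℚ (fun k : Fin n => fun k' : Fin n => (c k k' : ℚ)) := by
  have := Fact.mk hl
  set M : Matrix (Fin n) (Fin n) ℤ := Matrix.of c with hM
  have h2 : M.map (Int.castRingHom (ZMod l)) = Matrix.diagonal fun k => ((c k k : ℤ) : ZMod l) := by
    ext i j
    rw [Matrix.map_apply, hM, Matrix.of_apply]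
    by_cases hij : i = j
    · subst hij
      simp
    · rw [Matrix.diagonal_apply_ne _ hij]
      have := (ZMod.intCast_zmod_eq_zero_iff_dvd _ _).2 (h0 i j (Ne.symm hij))
      simpa using this
  have h3 : ((M.det : ℤ) : ZMod l) ≠ 0 := by
    have h4 := (Int.castRingHom (ZMod l)).map_det M
    rw [RingHom.mapMatrix_apply, h2, Matrix.det_diagonal] at h4
    have h5 : ((M.det : ℤ) : ZMod l) = ∏ k, ((c k k : ℤ) : ZMod l) := by
      rw [← h4]; simp
    rw [h5]
    refine Finset.prod_ne_zero_iff.2 fun k _ h6 => h1 k ?_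
    exact (ZMod.intCast_zmod_eq_zero_iff_dvd _ _).1 h6
  have h4 : M.det ≠ 0 := by
    intro h5
    rw [h5] at h3
    simp at h3
  have h5 : (M.map (Int.castRingHom ℚ)).det ≠ 0 := by
    have h6 := (Int.castRingHom ℚ).map_det M
    rw [RingHom.mapMatrix_apply] at h6
    rw [← h6]
    simpa using h4
  have h6 := Matrix.linearIndependent_rows_of_det_ne_zero h5
  exact h6

/-! ### Energy -/

/-- the opposite step -/
def dimFlip {d : ℕ} (i : Fin d × Bool) : Fin d × Bool := (i.1, !i.2)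

theorem dim_stp_flip {d : ℕ} (i : Fin d × Bool) : stp (dimFlip i) = - stp i := by
  rcases i with ⟨j, b⟩
  cases b <;> simp [stp, dimFlip]

theorem dim_stp_ne {d : ℕ} (i : Fin d × Bool) : stp i ≠ 0 := by
  rcases i with ⟨j, b⟩
  intro h
  have h1 := congrFun h j
  cases b <;> simp [stp, bv] at h1

theorem dim_flip_flip {d : ℕ} (i : Fin d × Bool) : dimFlip (dimFlip i) = i := by
  simp [dimFlip]

open Classical in
/-- a function harmonic on `I` and zero on `B \ I` is constant along open edges -/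
theorem dim_energy {d : ℕ} (A : Set (Sym2 (V d))) (B I : Finset (V d))
    (hnb : ∀ x ∈ I, ∀ i, x + stp i ∈ B) (w : V d → ℚ)
    (hw : ∀ x ∈ I, lapS A w x = 0) (hw0 : ∀ x ∈ B, x ∉ I → w x = 0) :
    ∀ x ∈ B, ∀ i, x + stp i ∈ B → s(x, x + stp i) ∈ A → w (x + stp i) = w x := by
  set P : Finset (V d × (Fin d × Bool)) := (B ×ˢ Finset.univ).filter fun p =>
    p.1 + stp p.2 ∈ B ∧ s(p.1, p.1 + stp p.2) ∈ A with hP
  have hmem : ∀ p : V d × (Fin d × Bool), p ∈ P ↔
      p.1 ∈ B ∧ p.1 + stp p.2 ∈ B ∧ s(p.1, p.1 + stp p.2) ∈ A := by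
    intro p
    simp [hP]
  -- the involution
  have hinv : ∑ p ∈ P, (w (p.1 + stp p.2) - w p.1) * w p.1 =
      ∑ p ∈ P, (w p.1 - w (p.1 + stp p.2)) * w (p.1 + stp p.2) := by
    refine Finset.sum_nbij' (fun p => (p.1 + stp p.2, dimFlip p.2))
      (fun p => (p.1 + stp p.2, dimFlip p.2)) ?_ ?_ ?_ ?_ ?_
    · intro p hp
      rw [hmem] at hp ⊢
      simp only [dim_stp_flip, add_neg_cancel_right]
      exact ⟨hp.2.1, hp.1, by rw [Sym2.eq_swap]; exact hp.2.2⟩
    · intro p hp
      rw [hmem] at hp ⊢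
      simp only [dim_stp_flip, add_neg_cancel_right]
      exact ⟨hp.2.1, hp.1, by rw [Sym2.eq_swap]; exact hp.2.2⟩
    · intro p _
      ext1
      · simp [dim_stp_flip]
      · simp [dim_flip_flip]
    · intro p _
      ext1
      · simp [dim_stp_flip]
      · simp [dim_flip_flip]
    · intro p _
      simp [dim_stp_flip]
  have hzero : ∑ p ∈ P, (w (p.1 + stp p.2) - w p.1) * w p.1 = 0 := by
    rw [hP, Finset.sum_filter, Finset.sum_product]
    refine Finset.sum_eq_zero fun x hx => ?_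
    by_cases hxI : x ∈ I
    · have h1 := hw x hxI
      have h2 : ∑ i : Fin d × Bool, (if x + stp i ∈ B ∧ s(x, x + stp i) ∈ A then
          (w (x + stp i) - w x) * w x else 0) = lapS A w x * w x := by
        rw [lapS, Finset.sum_mul]
        refine Finset.sum_congr rfl fun i _ => ?_
        by_cases h3 : s(x, x + stp i) ∈ A
        · rw [if_pos ⟨hnb x hxI i, h3⟩, if_pos h3]
        · rw [if_neg (fun h => h3 h.2), if_neg h3, zero_mul]
      rw [h2, h1, zero_mul]
    · simp [hw0 x hx hxI]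
  have hsq : ∑ p ∈ P, (w (p.1 + stp p.2) - w p.1) ^ 2 = 0 := by
    have h1 : ∑ p ∈ P, (w (p.1 + stp p.2) - w p.1) ^ 2 =
        - (∑ p ∈ P, (w (p.1 + stp p.2) - w p.1) * w p.1) -
        ∑ p ∈ P, (w p.1 - w (p.1 + stp p.2)) * w (p.1 + stp p.2) := by
      rw [← Finset.sum_neg_distrib, ← Finset.sum_sub_distrib]
      exact Finset.sum_congr rfl fun p _ => by ring
    rw [h1, ← hinv, hzero]
    simp
  intro x hx i hxi hA
  have h1 := (Finset.sum_eq_zero_iff_of_nonneg (fun p _ => sq_nonneg _)).1 hsq (x, i)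
    ((hmem _).2 ⟨hx, hxi, hA⟩)
  have h2 := pow_eq_zero_iff (two_ne_zero) |>.1 h1
  exact sub_eq_zero.1 h2

theorem dim_lapS_sum {d : ℕ} {F ι : Type*} [CommRing F] (A : Set (Sym2 (V d))) (s : Finset ι)
    (c : ι → F) (u : ι → V d → F) (x : V d) :
    lapS A (fun y => ∑ k ∈ s, c k * u k y) x = ∑ k ∈ s, c k * lapS A (u k) x := by
  classical
  simp only [lapS]
  simp_rw [Finset.mul_sum]
  rw [Finset.sum_comm]
  refine Finset.sum_congr rfl fun i _ => ?_
  split_ifs with h
  · rw [← Finset.sum_sub_distrib]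
    exact Finset.sum_congr rfl fun k _ => by ring
  · simp

theorem dimQ {d : ℕ} (A : Set (Sym2 (V d))) (B I : Finset (V d)) (hI : I ⊆ B)
    (hnb : ∀ x ∈ I, ∀ i, x + stp i ∈ B) (n : ℕ) (u : Fin n → V d → ℚ)
    (hu : ∀ k, ∀ x ∈ I, lapS A (u k) x = 0) (Λ : Fin n → (V d → ℚ) →ₗ[ℚ] ℚ)
    (hΛ : ∀ k (v : V d → ℚ), (∀ x ∈ B, ∀ i, x + stp i ∈ B → s(x, x + stp i) ∈ A →
      v (x + stp i) = v x) → Λ k v = 0)
    (hdet : LinearIndependent ℚ (fun k : Fin n => fun k' : Fin n => Λ k' (u k))) :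
    n ≤ (B \ I).card := by
  classical
  set T : (Fin n → ℚ) →ₗ[ℚ] ({x // x ∈ B \ I} → ℚ) :=
    { toFun := fun c x => ∑ k, c k * u k x
      map_add' := fun c c' => by
        ext x
        simp only [Pi.add_apply, add_mul, Finset.sum_add_distrib]
      map_smul' := fun a c => by
        ext x
        simp only [Pi.smul_apply, smul_eq_mul, RingHom.id_apply, Finset.mul_sum, mul_assoc] }
    with hT
  have hinj : Function.Injective T := by
    rw [← LinearMap.ker_eq_bot, LinearMap.ker_eq_bot']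
    intro c hc
    have h1 : ∀ x ∈ B, x ∉ I → ∑ k, c k * u k x = 0 := fun x hx hxI =>
      congrFun hc ⟨x, Finset.mem_sdiff.2 ⟨hx, hxI⟩⟩
    have h2 : ∀ x ∈ I, lapS A (fun y => ∑ k, c k * u k y) x = 0 := by
      intro x hx
      rw [dim_lapS_sum]
      exact Finset.sum_eq_zero fun k _ => by rw [hu k x hx, mul_zero]
    have h3 := dim_energy A B I hnb _ h2 h1
    have h4 : ∀ k', ∑ k, c k * Λ k' (u k) = 0 := by
      intro k'
      have h5 := hΛ k' (fun y => ∑ k, c k * u k y) h3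
      have h6 : (fun y => ∑ k, c k * u k y) = ∑ k, c k • u k := by
        ext y
        simp [Finset.sum_apply]
      rw [h6, map_sum] at h5
      simpa [map_smul] using h5
    have h7 := (Fintype.linearIndependent_iff.1 hdet) c (by
      ext k'
      simpa [Finset.sum_apply] using h4 k')
    ext k
    exact h7 k
  have h := LinearMap.finrank_le_finrank_of_injective hinj
  simpa using h

/-! ### Roots of the open components -/

/-- the relation of being joined by an open edge inside `B` -/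
def dimRel {d : ℕ} (A : Set (Sym2 (V d))) (B : Finset (V d)) (x y : V d) : Prop :=
  x ∈ B ∧ y ∈ B ∧ ∃ i, y = x + stp i ∧ s(x, x + stp i) ∈ A

theorem dim_roots {d : ℕ} (A : Set (Sym2 (V d))) (B : Finset (V d)) : ∃ ρ : V d → V d,
    (∀ x ∈ B, ∀ i, x + stp i ∈ B → s(x, x + stp i) ∈ A → ρ (x + stp i) = ρ x) ∧
    (∀ x, ρ (ρ x) = ρ x) ∧
    (∀ (M : Type) (v : V d → M), (∀ x ∈ B, ∀ i, x + stp i ∈ B → s(x, x + stp i) ∈ A →
      v (x + stp i) = v x) → ∀ x, v (ρ x) = v x) := by
  classical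
  set S : Setoid (V d) := Relation.EqvGen.setoid (dimRel A B) with hS
  refine ⟨fun x => (Quotient.mk S x).out, ?_, ?_, ?_⟩
  · intro x hx i hxi hA
    have h : Quotient.mk S (x + stp i) = Quotient.mk S x := Quotient.sound
      (Relation.EqvGen.symm _ _ (Relation.EqvGen.rel _ _ ⟨hx, hxi, i, rfl, hA⟩))
    simp only [h]
  · intro x
    simp only [Quotient.out_eq]
  · intro M v hv x
    have h1 : Relation.EqvGen (dimRel A B) (Quotient.mk S x).out x := Quotient.mk_out (s := S) x
    have h2 : ∀ a b, Relation.EqvGen (dimRel A B) a b → v a = v b := by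
      intro a b h
      induction h with
      | rel a b h =>
        obtain ⟨ha, hb, i, hi, hA⟩ := h
        subst hi
        exact (hv a ha i hb hA).symm
      | refl a => rfl
      | symm a b _ ih => exact ih.symm
      | trans a b c _ _ ih1 ih2 => exact ih1.trans ih2
    exact h2 _ _ h1

/-! ### The Dirichlet matrix -/

open Classical in
/-- entries of the Laplacian -/
noncomputable def dimMat {d : ℕ} (A : Set (Sym2 (V d))) (x y : V d) : ℤ :=
  ∑ i : Fin d × Bool, if s(x, x + stp i) ∈ A then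
    ((if x + stp i = y then 1 else 0) - (if x = y then 1 else 0)) else 0

theorem dim_lap_mat {d : ℕ} {F : Type*} [CommRing F] (A : Set (Sym2 (V d))) (J : Finset (V d))
    (w : V d → F) {x : V d} (hx : x ∈ J) (h0 : ∀ i, x + stp i ∉ J → w (x + stp i) = 0) :
    ∑ y : {y // y ∈ J}, ((dimMat A x y : ℤ) : F) * w y = lapS A w x := by
  classical
  have h1 : ∀ z, (z ∉ J → w z = 0) →
      ∑ y : {y // y ∈ J}, (((if z = (y : V d) then 1 else 0 : ℤ)) : F) * w y = w z := by
    intro z hz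
    by_cases hzJ : z ∈ J
    · rw [Finset.sum_eq_single (⟨z, hzJ⟩ : {y // y ∈ J})]
      · simp
      · intro y _ hy
        rw [if_neg (fun h => hy (Subtype.ext h.symm))]
        simp
      · intro h; exact absurd (Finset.mem_univ _) h
    · rw [hz hzJ]
      refine Finset.sum_eq_zero fun y _ => ?_
      rw [if_neg (fun h : z = (y : V d) => hzJ (by rw [h]; exact y.2))]
      simp
  unfold dimMat lapS
  push_cast
  simp_rw [Finset.sum_mul]
  rw [Finset.sum_comm]
  refine Finset.sum_congr rfl fun i _ => ?_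
  split_ifs with h
  · have h2 := h1 (x + stp i) (h0 i)
    have h3 := h1 x (fun h => absurd hx h)
    rw [← h2, ← h3, ← Finset.sum_sub_distrib]
    refine Finset.sum_congr rfl fun y _ => ?_
    push_cast
    ring
  · simp

theorem dim_row_le {d : ℕ} (A : Set (Sym2 (V d))) (J : Finset (V d)) (x : V d) :
    ∑ y : {y // y ∈ J}, |dimMat A x y| ≤ 4 * d := by
  classical
  have h1 : ∀ z : V d, ∑ y : {y // y ∈ J}, (if z = (y : V d) then (1 : ℤ) else 0) ≤ 1 := by
    intro z
    by_cases hzJ : z ∈ J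
    · rw [Finset.sum_eq_single (⟨z, hzJ⟩ : {y // y ∈ J})]
      · simp
      · intro y _ hy
        rw [if_neg (fun h => hy (Subtype.ext h.symm))]
      · intro h; exact absurd (Finset.mem_univ _) h
    · rw [Finset.sum_eq_zero]
      · norm_num
      · intro y _
        rw [if_neg (fun h : z = (y : V d) => hzJ (by rw [h]; exact y.2))]
  have h2 : ∀ y : {y // y ∈ J}, |dimMat A x y| ≤ ∑ i : Fin d × Bool,
      ((if x + stp i = (y : V d) then (1 : ℤ) else 0) + (if x = (y : V d) then 1 else 0)) := by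
    intro y
    unfold dimMat
    refine (Finset.abs_sum_le_sum_abs _ _).trans (Finset.sum_le_sum fun i _ => ?_)
    split_ifs <;> norm_num
  refine (Finset.sum_le_sum fun y _ => h2 y).trans ?_
  rw [Finset.sum_comm]
  have h3 : ∀ i ∈ (Finset.univ : Finset (Fin d × Bool)), ∑ y : {y // y ∈ J},
      ((if x + stp i = (y : V d) then (1 : ℤ) else 0) + (if x = (y : V d) then 1 else 0)) ≤ 2 := by
    intro i _
    rw [Finset.sum_add_distrib]
    have := h1 (x + stp i)
    have := h1 x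
    linarith
  refine (Finset.sum_le_sum h3).trans ?_
  simp
  ring_nf
  exact le_refl _

/-- the vertices of `I` which are not roots -/
noncomputable def dimJ {d : ℕ} (I : Finset (V d)) (ρ : V d → V d) : Finset (V d) :=
  by classical exact I.filter fun x => ρ x ≠ x

theorem mem_dimJ {d : ℕ} {I : Finset (V d)} {ρ : V d → V d} {x : V d} :
    x ∈ dimJ I ρ ↔ x ∈ I ∧ ρ x ≠ x := by
  classical
  simp [dimJ]

/-- the Dirichlet matrix -/
noncomputable def dimM {d : ℕ} (A : Set (Sym2 (V d))) (I : Finset (V d)) (ρ : V d → V d) :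
    Matrix {y // y ∈ dimJ I ρ} {y // y ∈ dimJ I ρ} ℤ := Matrix.of fun x y => dimMat A x y

theorem dim_det_ne {d : ℕ} (A : Set (Sym2 (V d))) (B I : Finset (V d))
    (hnb : ∀ x ∈ I, ∀ i, x + stp i ∈ B) (ρ : V d → V d)
    (h2 : ∀ x, ρ (ρ x) = ρ x)
    (h3 : ∀ (M : Type) (v : V d → M), (∀ x ∈ B, ∀ i, x + stp i ∈ B → s(x, x + stp i) ∈ A →
      v (x + stp i) = v x) → ∀ x, v (ρ x) = v x) : (dimM A I ρ).det ≠ 0 := by
  classical
  intro hdet
  have h4 : ((dimM A I ρ).map (Int.castRingHom ℚ)).det = 0 := by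
    have h6 := (Int.castRingHom ℚ).map_det (dimM A I ρ)
    rw [RingHom.mapMatrix_apply, hdet] at h6
    rw [← h6]; simp
  obtain ⟨v, hv0, hv⟩ := Matrix.exists_mulVec_eq_zero_iff.2 h4
  set w : V d → ℚ := fun x => if h : x ∈ dimJ I ρ then v ⟨x, h⟩ else 0 with hw
  have hwJ : ∀ y : {y // y ∈ dimJ I ρ}, w y = v y := by
    intro y
    simp only [hw]
    rw [dif_pos y.2]
  have hw0 : ∀ x, x ∉ dimJ I ρ → w x = 0 := by
    intro x hx
    simp only [hw]
    rw [dif_neg hx]
  have hlap : ∀ x ∈ dimJ I ρ, lapS A w x = 0 := by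
    intro x hx
    rw [← dim_lap_mat A (dimJ I ρ) w hx (fun i h => hw0 _ h)]
    have h5 := congrFun hv ⟨x, hx⟩
    simp only [Matrix.mulVec, dotProduct, Pi.zero_apply] at h5
    rw [← h5]
    refine Finset.sum_congr rfl fun y _ => ?_
    rw [hwJ y]
    simp [dimM]
  have h5 := dim_energy A B (dimJ I ρ) (fun x hx => hnb x (mem_dimJ.1 hx).1) w hlap
    (fun x _ hx => hw0 x hx)
  have h6 := h3 ℚ w h5
  apply hv0
  ext y
  rw [← hwJ y, ← h6 y, hw0]
  · rfl
  · rw [mem_dimJ, not_and_not_right]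
    intro _
    exact h2 _

theorem dim_one {d : ℕ} (A : Set (Sym2 (V d))) (B I : Finset (V d)) (hI : I ⊆ B)
    (hnb : ∀ x ∈ I, ∀ i, x + stp i ∈ B) (ρ : V d → V d)
    (h1 : ∀ x ∈ B, ∀ i, x + stp i ∈ B → s(x, x + stp i) ∈ A → ρ (x + stp i) = ρ x)
    (l : ℕ) (hl : l.Prime) (n : ℕ) (u : Fin n → V d → ZMod l)
    (Λ : Fin n → (V d → ZMod l) →ₗ[ZMod l] ZMod l)
    (hu : ∀ k, ∀ x ∈ I, lapS A (u k) x = 0)
    (hΛ : ∀ k (v : V d → ZMod l), (∀ x ∈ B, ∀ i, x + stp i ∈ B → s(x, x + stp i) ∈ A →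
        v (x + stp i) = v x) → Λ k v = 0)
    (hoff : ∀ k k', k' ≠ k → Λ k' (u k) = 0) (hdiag : ∀ k, Λ k (u k) ≠ 0) :
    n ≤ (B \ I).card + (Fintype.card {y // y ∈ dimJ I ρ} -
      ((dimM A I ρ).map (Int.castRingHom (ZMod l))).rank) := by
  classical
  have := Fact.mk hl
  set Mb : Matrix {y // y ∈ dimJ I ρ} {y // y ∈ dimJ I ρ} (ZMod l) :=
    (dimM A I ρ).map (Int.castRingHom (ZMod l)) with hMb
  set W : (Fin n → (ZMod l)) → V d → (ZMod l) := fun c x => ∑ k, c k * (u k x - u k (ρ x)) with hW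
  have hWadd : ∀ c c' x, W (c + c') x = W c x + W c' x := by
    intro c c' x
    simp only [hW, Pi.add_apply, add_mul, Finset.sum_add_distrib]
  have hWsmul : ∀ (a : ZMod l) c x, W (a • c) x = a * W c x := by
    intro a c x
    simp only [hW]
    rw [Finset.mul_sum]
    refine Finset.sum_congr rfl fun k _ => ?_
    rw [Pi.smul_apply, smul_eq_mul, mul_assoc]
  set T : (Fin n → (ZMod l)) →ₗ[(ZMod l)] ({x // x ∈ B \ I} → (ZMod l)) :=
    { toFun := fun c x => W c x
      map_add' := fun c c' => by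
        ext x
        exact hWadd c c' x
      map_smul' := fun a c => by
        ext x
        exact hWsmul a c x }
    with hT
  set R : (Fin n → (ZMod l)) →ₗ[(ZMod l)] ({x // x ∈ dimJ I ρ} → (ZMod l)) :=
    { toFun := fun c x => W c x
      map_add' := fun c c' => by
        ext x
        exact hWadd c c' x
      map_smul' := fun a c => by
        ext x
        exact hWsmul a c x }
    with hR
  have hlapW : ∀ c, ∀ x ∈ I, lapS A (W c) x = 0 := by
    intro c x hx
    simp only [hW]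
    rw [dim_lapS_sum A Finset.univ c (fun k y => u k y - u k (ρ y)) x]
    refine Finset.sum_eq_zero fun k _ => ?_
    have h5 : lapS A (fun y => u k y - u k (ρ y)) x = lapS A (u k) x := by
      unfold lapS
      refine Finset.sum_congr rfl fun i _ => ?_
      split_ifs with h6
      · simp only []
        rw [h1 x (hI hx) i (hnb x hx i) h6]
        ring
      · rfl
    rw [h5, hu k x hx, mul_zero]
  have hzero : ∀ c, T c = 0 → ∀ x ∈ B, x ∉ dimJ I ρ → W c x = 0 := by
    intro c hc x hx hxJ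
    by_cases hxI : x ∈ I
    · have hρ : ρ x = x := by
        by_contra h
        exact hxJ (mem_dimJ.2 ⟨hxI, h⟩)
      simp only [hW]
      refine Finset.sum_eq_zero fun k _ => ?_
      rw [hρ, sub_self, mul_zero]
    · exact congrFun hc ⟨x, Finset.mem_sdiff.2 ⟨hx, hxI⟩⟩
  have hker : ∀ c, T c = 0 → Mb.mulVecLin (R c) = 0 := by
    intro c hc
    ext x
    rw [Matrix.mulVecLin_apply]
    simp only [Matrix.mulVec, dotProduct, Pi.zero_apply]
    have hxI : (x : V d) ∈ I := (mem_dimJ.1 x.2).1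
    rw [← hlapW c x hxI, ← dim_lap_mat A (dimJ I ρ) (W c) x.2
      (fun i h => hzero c hc _ (hnb x hxI i) h)]
    refine Finset.sum_congr rfl fun y _ => ?_
    simp [hMb, dimM, hR]
  have hinj : ∀ c, T c = 0 → R c = 0 → c = 0 := by
    intro c hc hRc
    have h5 : ∀ x ∈ B, W c x = 0 := by
      intro x hx
      by_cases hxJ : x ∈ dimJ I ρ
      · exact congrFun hRc ⟨x, hxJ⟩
      · exact hzero c hc x hx hxJ
    have h6 : ∀ x ∈ B, ∑ k, c k * u k x = ∑ k, c k * u k (ρ x) := by
      intro x hx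
      have h7 := h5 x hx
      simp only [hW, mul_sub, Finset.sum_sub_distrib] at h7
      exact sub_eq_zero.1 h7
    have h8 : ∀ x ∈ B, ∀ i, x + stp i ∈ B → s(x, x + stp i) ∈ A →
        (fun y => ∑ k, c k * u k y) (x + stp i) = (fun y => ∑ k, c k * u k y) x := by
      intro x hx i hxi hA
      show ∑ k, c k * u k (x + stp i) = ∑ k, c k * u k x
      rw [h6 _ hxi, h6 x hx, h1 x hx i hxi hA]
    ext k'
    have h9 := hΛ k' (fun y => ∑ k, c k * u k y) h8
    have h10 : (fun y => ∑ k, c k * u k y) = ∑ k, c k • u k := by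
      ext y
      simp [Finset.sum_apply]
    rw [h10, map_sum, Finset.sum_eq_single k'] at h9
    · rw [map_smul, smul_eq_mul] at h9
      exact (mul_eq_zero.1 h9).resolve_right (hdiag k')
    · intro k _ hk
      rw [map_smul, hoff k k' hk.symm, smul_zero]
    · intro h; exact absurd (Finset.mem_univ _) h
  -- dimension count
  have hd1 := LinearMap.finrank_range_add_finrank_ker T
  have hd2 : Module.finrank (ZMod l) (LinearMap.range T) ≤ (B \ I).card := by
    refine (Submodule.finrank_le _).trans ?_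
    simp
  have hd3 : Module.finrank (ZMod l) (LinearMap.ker T) ≤ Module.finrank (ZMod l) (LinearMap.ker Mb.mulVecLin) := by
    set Φ : LinearMap.ker T →ₗ[(ZMod l)] LinearMap.ker Mb.mulVecLin :=
      LinearMap.codRestrict _ (R.comp (LinearMap.ker T).subtype) (fun c => by
        rw [LinearMap.mem_ker]
        exact hker _ c.2) with hΦ
    have hΦinj : Function.Injective Φ := by
      rw [← LinearMap.ker_eq_bot, LinearMap.ker_eq_bot']
      intro c hc
      have h5 : R c = 0 := by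
        have := congrArg Subtype.val hc
        simpa [hΦ] using this
      exact Subtype.ext (hinj c c.2 h5)
    exact LinearMap.finrank_le_finrank_of_injective hΦinj
  have hd4 := LinearMap.finrank_range_add_finrank_ker Mb.mulVecLin
  have hd5 : Module.finrank (ZMod l) (LinearMap.range Mb.mulVecLin) = Mb.rank := rfl
  simp only [Module.finrank_fintype_fun_eq_card, Fintype.card_fin] at hd1 hd4
  omega

theorem dimP {d : ℕ} (A : Set (Sym2 (V d))) (B I : Finset (V d)) (hI : I ⊆ B)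
    (hnb : ∀ x ∈ I, ∀ i, x + stp i ∈ B) (P : Finset ℕ) (hP : ∀ l ∈ P, l.Prime) (n : ℕ → ℕ)
    (h : ∀ l ∈ P, ∃ (u : Fin (n l) → V d → ZMod l)
      (Λ : Fin (n l) → (V d → ZMod l) →ₗ[ZMod l] ZMod l),
      (∀ k, ∀ x ∈ I, lapS A (u k) x = 0) ∧
      (∀ k (v : V d → ZMod l), (∀ x ∈ B, ∀ i, x + stp i ∈ B → s(x, x + stp i) ∈ A →
        v (x + stp i) = v x) → Λ k v = 0) ∧
      (∀ k k', k' ≠ k → Λ k' (u k) = 0) ∧ (∀ k, Λ k (u k) ≠ 0)) :
    ∑ l ∈ P, n l ≤ P.card * (B \ I).card + 4 * d * B.card := by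
  classical
  obtain ⟨ρ, h1, h2, h3⟩ := dim_roots A B
  set ν : ℕ → ℕ := fun l => Fintype.card {y // y ∈ dimJ I ρ} -
      ((dimM A I ρ).map (Int.castRingHom (ZMod l))).rank with hν
  have hn : ∀ l ∈ P, n l ≤ (B \ I).card + ν l := by
    intro l hl
    obtain ⟨u, Λ, hu, hΛ, hoff, hdiag⟩ := h l hl
    exact dim_one A B I hI hnb ρ h1 l (hP l hl) (n l) u Λ hu hΛ hoff hdiag
  have hdet := dim_det_ne A B I hnb ρ h2 h3
  have hdvd : ∏ l ∈ P, (l : ℤ) ^ ν l ∣ (dimM A I ρ).det := by
    refine Finset.prod_dvd_of_coprime ?_ (fun l hl => dim_pow_dvd_det l (hP l hl) _)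
    intro l hl l' hl' hne
    show IsCoprime ((l : ℤ) ^ ν l) ((l' : ℤ) ^ ν l')
    refine IsCoprime.pow ?_
    rw [Nat.isCoprime_iff_coprime]
    exact (Nat.coprime_primes (hP l hl) (hP l' hl')).2 hne
  have hle : ∏ l ∈ P, (l : ℤ) ^ ν l ≤ |(dimM A I ρ).det| :=
    Int.le_of_dvd (abs_pos.2 hdet) ((dvd_abs _ _).2 hdvd)
  have hub : |(dimM A I ρ).det| ≤ (4 * d : ℤ) ^ (dimJ I ρ).card := by
    refine (dim_abs_det_le _).trans ?_
    calc ∏ i : {y // y ∈ dimJ I ρ}, ∑ j, |dimM A I ρ i j| ≤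
          ∏ i : {y // y ∈ dimJ I ρ}, (4 * d : ℤ) := by
          refine Finset.prod_le_prod (fun i _ => Finset.sum_nonneg fun j _ => abs_nonneg _)
            (fun i _ => ?_)
          exact dim_row_le A (dimJ I ρ) i
      _ = _ := by simp
  have hpow : (2 : ℤ) ^ (∑ l ∈ P, ν l) ≤ 2 ^ (4 * d * B.card) := by
    have e1 : (2 : ℤ) ^ (∑ l ∈ P, ν l) ≤ ∏ l ∈ P, (l : ℤ) ^ ν l := by
      rw [← Finset.prod_pow_eq_pow_sum]
      refine Finset.prod_le_prod (fun l _ => by positivity) (fun l hl => ?_)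
      exact pow_le_pow_left₀ (by norm_num) (by exact_mod_cast (hP l hl).two_le) _
    have e2 : ((4 * d : ℤ)) ^ (dimJ I ρ).card ≤ (2 : ℤ) ^ (4 * d * B.card) := by
      have e3 : (4 * d : ℤ) ≤ 2 ^ (4 * d) := by
        have := (Nat.lt_two_pow_self (n := 4 * d)).le
        exact_mod_cast this
      calc ((4 * d : ℤ)) ^ (dimJ I ρ).card ≤ (2 ^ (4 * d)) ^ (dimJ I ρ).card :=
            pow_le_pow_left₀ (by positivity) e3 _
        _ = 2 ^ (4 * d * (dimJ I ρ).card) := by rw [← pow_mul]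
        _ ≤ 2 ^ (4 * d * B.card) := by
            refine pow_le_pow_right₀ (by norm_num) (Nat.mul_le_mul_left _ ?_)
            exact Finset.card_le_card fun x hx => hI (mem_dimJ.1 hx).1
    exact e1.trans (hle.trans (hub.trans e2))
  have hsum : ∑ l ∈ P, ν l ≤ 4 * d * B.card :=
    (pow_le_pow_iff_right₀ (by norm_num : (1 : ℤ) < 2)).1 hpow
  calc ∑ l ∈ P, n l ≤ ∑ l ∈ P, ((B \ I).card + ν l) := Finset.sum_le_sum hn
    _ = P.card * (B \ I).card + ∑ l ∈ P, ν l := by
        rw [Finset.sum_add_distrib, Finset.sum_const, smul_eq_mul]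
    _ ≤ _ := Nat.add_le_add_left hsum _

end Pool.Agent.Lib.MP_79dc3a_pr
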