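import Pool.Agent.Lib.MP_79dc3a_pr.Geo

/-! Constancy on the structure, connectivity of the structure, cardinality. -/

namespace Pool.Agent.Lib.MP_79dc3a_pr

open Finset

namespace KillC

theorem refl_bv {d : ℕ} (ε : Fin d → Bool) (j : Fin d) (s : ℤ) :
    refl ε (s • bv j) = (if ε j then -s else s) • bv j := by
  funext i
  unfold refl bv
  by_cases hij : i = j
  · subst hij
    simp only [Pi.smul_apply, Pi.single_eq_same, smul_eq_mul, mul_one]
  · simp [Pi.single_eq_of_ne hij]

theorem mem_kill_line {d K : ℕ} (j : Fin d) {s : ℤ} (h1 : 1 ≤ s) (h2 : s ≤ K) :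
    s • bv j ∈ (Kill K : Set (V d)) := by
  refine ⟨fun i => ?_, Or.inl ⟨j, s, h1, h2, rfl⟩⟩
  unfold bv
  by_cases hij : i = j
  · subst hij
    simp; omega
  · simp [Pi.single_eq_of_ne hij]

theorem line_eq {d : ℕ} {x : V d} {j : Fin d} (h : ∀ i, i ≠ j → x i = 0) : x = x j • bv j := by
  funext i
  unfold bv
  by_cases hij : i = j
  · subst hij; simp
  · simp [Pi.single_eq_of_ne hij, h i hij]

theorem eps_const {d K : ℕ} {M : Type} (u : V (d + 2) → M) (hK : 1 ≤ K) (z : V (d + 2))
    (hkill : ∀ (ε : Fin (d + 2) → Bool) (a : V (d + 2)), a ∈ (Kill K : Set (V (d + 2))) →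
      u (refl ε a) = u (refl ε z)) (ε ε' : Fin (d + 2) → Bool) :
    u (refl ε z) = u (refl ε' z) := by
  have key : ∀ ε ε' : Fin (d + 2) → Bool, ∀ j, ε j = ε' j → u (refl ε z) = u (refl ε' z) := by
    intro ε ε' j hj
    have hb : (1 : ℤ) • bv j ∈ (Kill K : Set (V (d + 2))) :=
      mem_kill_line j le_rfl (by exact_mod_cast hK)
    rw [← hkill ε _ hb, ← hkill ε' _ hb, refl_bv, refl_bv, hj]
  have h01 : (0 : Fin (d + 2)) ≠ 1 := by
    intro h
    have := congrArg Fin.val h
    simp at this
  rw [key ε (fun i => if i = 0 then ε 0 else ε' i) 0 (by simp),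
    key (fun i => if i = 0 then ε 0 else ε' i) ε' 1 (by simp [h01.symm])]

theorem abs_step_le {a : ℤ} (h : a ≠ 0) : |a - a.sign| ≤ |a| := by
  rcases lt_or_gt_of_ne h with h | h
  · rw [Int.sign_eq_neg_one_of_neg h]; rw [abs_of_neg h, abs_of_nonpos (by omega)]; omega
  · rw [Int.sign_eq_one_of_pos h]; rw [abs_of_pos h, abs_of_nonneg (by omega)]; omega

theorem natAbs_step_lt {a : ℤ} (h : a ≠ 0) : (a - a.sign).natAbs < a.natAbs := by
  rcases lt_or_gt_of_ne h with h | h
  · rw [Int.sign_eq_neg_one_of_neg h]; omega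
  · rw [Int.sign_eq_one_of_pos h]; omega

end KillC

open KillC

theorem kill_const (d n : ℕ) (r : ℤ) (hn : 1 ≤ n) (M : Type) [AddCommGroup M]
    (u : V (d + 2) → M)
    (hkill : ∀ (ε : Fin (d + 2) → Bool) (a : V (d + 2)), a ∈ (Kill (n + 2) : Set (V (d + 2))) →
      u (refl ε a) = u (refl ε (p1 d n r + bv 1 + bv 1)))
    (hline : ∀ (j : Fin (d + 2)) (s : ℤ), s ≠ 0 → |s| ≤ ((n + 2 : ℕ) : ℤ) →
      (u ((s + 1) • bv j) - u (s • bv j)) + (u ((s - 1) • bv j) - u (s • bv j)) = 0) :
    ∀ x ∈ (Str (n + 2) : Set (V (d + 2))), u x = u 0 := by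
  set c := u (refl (fun _ => false) (p1 d n r + bv 1 + bv 1)) with hc
  have hk : ∀ (ε : Fin (d + 2) → Bool) (a : V (d + 2)), a ∈ (Kill (n + 2) : Set (V (d + 2))) →
      u (refl ε a) = c := by
    intro ε a ha
    rw [hkill ε a ha]
    exact eps_const u (by omega) _ hkill ε _
  have hpos : ∀ (j : Fin (d + 2)) (s : ℤ), s ≠ 0 → |s| ≤ ((n + 2 : ℕ) : ℤ) → u (s • bv j) = c := by
    intro j s h0 h1
    rcases lt_or_gt_of_ne h0 with h | h
    · have h2 := hk (fun _ => true) ((-s) • bv j) (mem_kill_line j (by omega)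
        (by rw [abs_of_neg h] at h1; exact h1))
      rw [refl_bv] at h2
      simpa using h2
    · have h2 := hk (fun _ => false) (s • bv j) (mem_kill_line j (by omega)
        (by rw [abs_of_pos h] at h1; exact h1))
      rw [refl_bv] at h2
      simpa using h2
  have hzero : u 0 = c := by
    have h1 := hline 0 1 one_ne_zero (by simp; omega)
    have h2 := hpos 0 1 one_ne_zero (by simp; omega)
    have h3 := hpos 0 (1 + 1) (by norm_num) (by
      rw [abs_of_pos (by norm_num)]; push_cast; omega)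
    rw [h2, h3, sub_self, zero_add, sub_self, zero_smul, sub_eq_zero] at h1
    exact h1
  have hend : ∀ j : Fin (d + 2), u (((n + 2 : ℕ) + 1 : ℤ) • bv j) = c ∧
      u ((-((n + 2 : ℕ) + 1 : ℤ)) • bv j) = c := by
    intro j
    constructor
    · have h1 := hline j ((n + 2 : ℕ) : ℤ) (by push_cast; omega) (by
        rw [abs_of_nonneg (by positivity)])
      have h2 := hpos j ((n + 2 : ℕ) : ℤ) (by push_cast; omega) (by
        rw [abs_of_nonneg (by positivity)])
      have h3 := hpos j (((n + 2 : ℕ) : ℤ) - 1) (by push_cast; omega) (by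
        rw [abs_of_nonneg (by push_cast; omega)]; omega)
      rw [h2, h3, sub_self, add_zero, sub_eq_zero] at h1
      exact h1
    · have h1 := hline j (-((n + 2 : ℕ) : ℤ)) (by push_cast; omega) (by
        rw [abs_neg, abs_of_nonneg (by positivity)])
      have h2 := hpos j (-((n + 2 : ℕ) : ℤ)) (by push_cast; omega) (by
        rw [abs_neg, abs_of_nonneg (by positivity)])
      have h3 := hpos j (-((n + 2 : ℕ) : ℤ) + 1) (by push_cast; omega) (by
        rw [abs_of_nonpos (by push_cast; omega)]; push_cast; omega)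
      rw [h2, h3, sub_self, zero_add, sub_eq_zero] at h1
      rw [← h1]
      congr 2
      try ring
  intro x hx
  rw [hzero]
  obtain ⟨hQ, hx'⟩ := hx
  by_cases hl : isLine x
  · obtain ⟨j, hj⟩ := hl
    rw [line_eq hj]
    have hxj := hQ.1 j
    by_cases h0 : x j = 0
    · rw [h0, zero_smul]; exact hzero
    by_cases h1 : |x j| ≤ ((n + 2 : ℕ) : ℤ)
    · exact hpos j _ h0 h1
    · have h2 : |x j| = ((n + 2 : ℕ) : ℤ) + 1 := by push_cast at h1 hxj ⊢; omega
      rcases abs_cases (x j) with ⟨h3, _⟩ | ⟨h3, _⟩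
      · rw [← h3, h2]; exact (hend j).1
      · have h4 : x j = -(((n + 2 : ℕ) : ℤ) + 1) := by omega
        rw [h4]; exact (hend j).2
  · have hf := hx'.resolve_left hl
    have hr : refl (fun i => decide (x i < 0)) (fun i => |x i|) = x := by
      funext i
      unfold refl
      by_cases h : x i < 0
      · simp [h, abs_of_neg h]
      · simp [h, abs_of_nonneg (not_lt.1 h)]
    rw [← hr]
    apply hk
    refine ⟨fun i => abs_nonneg _, Or.inr ⟨⟨⟨fun i => ?_, fun i j hi hj => ?_⟩, Or.inr ?_⟩, ?_, ?_⟩⟩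
    · rw [abs_abs]; exact hQ.1 i
    · rw [abs_abs] at hi hj; exact hQ.2 i j hi hj
    · obtain ⟨j, hj⟩ := hf
      exact ⟨j, by rw [abs_abs]; exact hj⟩
    · obtain ⟨j, hj⟩ := hf
      exact ⟨j, by rw [abs_abs]; exact hj⟩
    · rintro ⟨j, hj⟩
      exact hl ⟨j, fun i hi => abs_eq_zero.1 (hj i hi)⟩

/-- the structure is connected: a function which agrees on adjacent vertices of the structure is
constant on it -/
theorem str_const {d : ℕ} (K : ℕ) {M : Type} (v : V d → M)
    (h : ∀ x ∈ (Str K : Set (V d)), ∀ y ∈ (Str K : Set (V d)), (zd d).Adj x y → v x = v y) :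
    ∀ x ∈ (Str K : Set (V d)), v x = v 0 := by
  have key : ∀ (m : ℕ) (x : V d), x ∈ (Str K : Set (V d)) → ∑ i, (x i).natAbs = m →
      v x = v 0 := by
    intro m
    induction m using Nat.strong_induction_on with
    | _ m ih =>
      intro x hx hm
      by_cases h0 : x = 0
      · rw [h0]
      -- choose a coordinate to move
      have hi : ∃ i, x i ≠ 0 ∧ ((∀ k, k ≠ i → x k = 0) ∨ ∃ j, j ≠ i ∧ |x j| = K + 1) := by
        obtain ⟨hQ, hx'⟩ := hx
        by_cases hl : isLine x
        · obtain ⟨j, hj⟩ := hl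
          refine ⟨j, fun hxj => h0 ?_, Or.inl hj⟩
          funext i
          by_cases hij : i = j
          · rw [hij, hxj]; rfl
          · rw [hj i hij]; rfl
        · obtain ⟨j, hj⟩ := hx'.resolve_left hl
          have : ∃ i, i ≠ j ∧ x i ≠ 0 := by
            by_contra hc
            push Not at hc
            exact hl ⟨j, hc⟩
          obtain ⟨i, hij, hxi⟩ := this
          exact ⟨i, hxi, Or.inr ⟨j, hij.symm, hj⟩⟩
      obtain ⟨i, hxi, hcase⟩ := hi
      set x' : V d := x - (x i).sign • bv i with hx'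
      have e1 : x' i = x i - (x i).sign := by
        rw [hx']; simp [bv]
      have e2 : ∀ k, k ≠ i → x' k = x k := by
        intro k hk
        rw [hx']; simp [bv, Pi.single_eq_of_ne hk]
      have hle : ∀ k, |x' k| ≤ |x k| := by
        intro k
        by_cases hk : k = i
        · subst hk; rw [e1]; exact abs_step_le hxi
        · rw [e2 k hk]
      have hmem : x' ∈ (Str K : Set (V d)) := by
        obtain ⟨hQ, _⟩ := hx
        refine ⟨⟨fun k => (hle k).trans (hQ.1 k), fun k l hk hl => ?_⟩, ?_⟩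
        · exact hQ.2 k l (le_antisymm (hQ.1 k) (hk ▸ hle k)) (le_antisymm (hQ.1 l) (hl ▸ hle l))
        · rcases hcase with hc | ⟨j, hji, hj⟩
          · left
            exact ⟨i, fun k hk => by rw [e2 k hk]; exact hc k hk⟩
          · right
            exact ⟨j, by rw [e2 j hji]; exact hj⟩
      have hadj : (zd d).Adj x x' := by
        refine ⟨i, ?_⟩
        rcases lt_or_gt_of_ne hxi with hs | hs
        · left
          rw [hx', Int.sign_eq_neg_one_of_neg hs]
          simp
        · right
          rw [hx', Int.sign_eq_one_of_pos hs]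
          simp
      have hlt : ∑ k, (x' k).natAbs < m := by
        rw [← hm]
        apply Finset.sum_lt_sum
        · intro k _
          have := hle k
          rw [← Int.natCast_natAbs, ← Int.natCast_natAbs] at this
          exact_mod_cast this
        · exact ⟨i, Finset.mem_univ _, by rw [e1]; exact natAbs_step_lt hxi⟩
      rw [h x hx x' hmem hadj]
      exact ih _ hlt x' hmem rfl
  intro x hx
  exact key _ x hx rfl

theorem card_StrF (d K : ℕ) :
    (StrF (d + 2) K).card ≤ 3 * (d + 2) * (2 * K + 3) ^ (d + 1) := by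
  classical
  set C : Finset ℤ := {0, (K : ℤ) + 1, -((K : ℤ) + 1)} with hC
  set I : Finset ℤ := Finset.Icc (-((K : ℤ) + 1)) ((K : ℤ) + 1) with hI
  have hsub : StrF (d + 2) K ⊆ (Finset.univ : Finset (Fin (d + 2))).biUnion fun j =>
      C.biUnion fun c => Fintype.piFinset fun i => if i = j then {c} else I := by
    intro x hx
    unfold StrF at hx
    rw [Finset.mem_filter, Finset.mem_Icc] at hx
    obtain ⟨⟨h1, h2⟩, hQ, hx'⟩ := hx
    have hIi : ∀ i, x i ∈ I := fun i => Finset.mem_Icc.2 ⟨h1 i, h2 i⟩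
    have main : ∃ j, ∃ c ∈ C, x j = c := by
      rcases hx' with ⟨j, hj⟩ | ⟨j, hj⟩
      · by_cases h0 : j = 0
        · refine ⟨1, 0, by simp [hC], hj 1 ?_⟩
          rw [h0]
          intro h
          have := congrArg Fin.val h
          simp at this
        · exact ⟨0, 0, by simp [hC], hj 0 (Ne.symm h0)⟩
      · rcases abs_cases (x j) with ⟨h3, _⟩ | ⟨h3, _⟩
        · exact ⟨j, (K : ℤ) + 1, by simp [hC], by omega⟩
        · exact ⟨j, -((K : ℤ) + 1), by simp [hC], by omega⟩
    obtain ⟨j, c, hc, hj⟩ := main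
    rw [Finset.mem_biUnion]
    refine ⟨j, Finset.mem_univ _, ?_⟩
    rw [Finset.mem_biUnion]
    refine ⟨c, hc, ?_⟩
    rw [Fintype.mem_piFinset]
    intro i
    split_ifs with hij
    · rw [Finset.mem_singleton, hij, hj]
    · exact hIi i
  refine (Finset.card_le_card hsub).trans ?_
  refine Finset.card_biUnion_le.trans ?_
  have hcard : ∀ (j : Fin (d + 2)) (c : ℤ),
      (Fintype.piFinset fun i => if i = j then ({c} : Finset ℤ) else I).card =
        (2 * K + 3) ^ (d + 1) := by
    intro j c
    rw [Fintype.card_piFinset, Fin.prod_univ_succAbove _ j]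
    simp only [if_true, Finset.card_singleton, one_mul]
    have : ∀ i : Fin (d + 1), (if j.succAbove i = j then ({c} : Finset ℤ) else I).card =
        2 * K + 3 := by
      intro i
      rw [if_neg (Fin.succAbove_ne j i), hI, Int.card_Icc]
      omega
    rw [Finset.prod_congr rfl fun i _ => this i]
    simp
  have hC3 : C.card ≤ 3 := by
    rw [hC]
    exact (Finset.card_insert_le _ _).trans (by
      have := Finset.card_insert_le ((K : ℤ) + 1) {-((K : ℤ) + 1)}
      simp only [Finset.card_singleton] at this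
      omega)
  calc ∑ j : Fin (d + 2), (C.biUnion fun c =>
        Fintype.piFinset fun i => if i = j then ({c} : Finset ℤ) else I).card
      ≤ ∑ _j : Fin (d + 2), 3 * (2 * K + 3) ^ (d + 1) := by
        refine Finset.sum_le_sum fun j _ => Finset.card_biUnion_le.trans ?_
        rw [Finset.sum_congr rfl fun c _ => hcard j c, Finset.sum_const, smul_eq_mul]
        exact Nat.mul_le_mul_right _ hC3
    _ = _ := by
        rw [Finset.sum_const, Finset.card_univ, Fintype.card_fin, smul_eq_mul]; ring

end Pool.Agent.Lib.MP_79dc3a_pr
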