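import Pool.Agent.Lib.MP_79dc3a_pr.Surg
import Pool.Agent.Lib.MP_79dc3a_pr.Dim
import Pool.Agent.Lib.MP_79dc3a_pr.KillC

/-! Module J13 Count2 of MP_79dc3a_pr: counting of the sites where the thread can be removed. -/

namespace Pool.Agent.Lib.MP_79dc3a_pr

open Finset

namespace Cnt2

variable {d : ℕ}

/-- edges of the region of the site `z` -/
def Reg (K : ℕ) (z : V d) : Set (Sym2 (V d)) :=
  {e | ∃ x y, inQ K x ∧ inQ K y ∧ e = s(x + cen K z, y + cen K z)}

/-- the open edges with the regions of the sites in `W` replaced by the empty pattern -/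
def Am (K : ℕ) (W : Set (V d)) (A : Set (Sym2 (V d))) : Set (Sym2 (V d)) :=
  {e | (e ∈ A ∧ ∀ z ∈ W, e ∉ Reg K z) ∨ ∃ z ∈ W, ∃ x ∈ (Str K : Set (V d)),
    ∃ y ∈ (Str K : Set (V d)), (zd d).Adj x y ∧ e = s(x + cen K z, y + cen K z)}

theorem inQ_of_str {K : ℕ} {x : V d} (h : x ∈ (Str K : Set (V d))) : inQ K x := h.1

theorem inQ_of_free {K : ℕ} {x : V d} (h : x ∈ (Free K : Set (V d))) : inQ K x := h.1

theorem str_or_free {K : ℕ} {x : V d} (h : inQ K x) :
    x ∈ (Str K : Set (V d)) ∨ x ∈ (Free K : Set (V d)) := by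
  by_cases h' : isLine x ∨ isFace K x
  · exact Or.inl ⟨h, h'⟩
  · exact Or.inr ⟨h, h'⟩

theorem not_free_of_str {K : ℕ} {x : V d} (h : x ∈ (Str K : Set (V d))) :
    x ∉ (Free K : Set (V d)) := fun h' => h'.2 h.2

/-- a vertex of an edge of the region lies in the region -/
theorem reg_vertex {K : ℕ} {z : V d} {e : Sym2 (V d)} (h : e ∈ Reg K z) {v : V d} (hv : v ∈ e) :
    inQ K (v - cen K z) := by
  obtain ⟨x, y, hx, hy, rfl⟩ := h
  rcases Sym2.mem_iff.1 hv with rfl | rfl
  · rwa [add_sub_cancel_right]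
  · rwa [add_sub_cancel_right]

theorem mem_reg {K : ℕ} {z x y : V d} (hx : inQ K (x - cen K z)) (hy : inQ K (y - cen K z)) :
    s(x, y) ∈ Reg K z :=
  ⟨x - cen K z, y - cen K z, hx, hy, by rw [sub_add_cancel, sub_add_cancel]⟩

theorem mem_Am_out {K : ℕ} {W : Set (V d)} {A : Set (Sym2 (V d))} {e : Sym2 (V d)}
    (h : ∀ z ∈ W, e ∉ Reg K z) : e ∈ Am K W A ↔ e ∈ A := by
  constructor
  · rintro (⟨h1, _⟩ | ⟨z, hz, x, hx, y, hy, _, rfl⟩)
    · exact h1
    · exact absurd ⟨x, y, hx.1, hy.1, rfl⟩ (h z hz)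
  · intro h1
    exact Or.inl ⟨h1, h⟩

theorem mem_Am_in {K : ℕ} {W : Set (V d)} {A : Set (Sym2 (V d))} {z : V d} (hz : z ∈ W)
    {x y : V d} (hx : inQ K x) (hy : inQ K y) (hadj : (zd d).Adj x y) :
    s(x + cen K z, y + cen K z) ∈ Am K W A ↔
      x ∈ (Str K : Set (V d)) ∧ y ∈ (Str K : Set (V d)) := by
  constructor
  · rintro (⟨_, h1⟩ | ⟨z', hz', x', hx', y', hy', _, he⟩)
    · exact absurd ⟨x, y, hx, hy, rfl⟩ (h1 z hz)
    · have h2 : x + cen K z ∈ s(x' + cen K z', y' + cen K z') := he ▸ Sym2.mem_mk_left _ _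
      have h3 : inQ K (x + cen K z - cen K z') := reg_vertex ⟨x', y', hx'.1, hy'.1, rfl⟩ h2
      have h4 : inQ K (x + cen K z - cen K z) := by rwa [add_sub_cancel_right]
      obtain rfl : z = z' := site_unique h4 h3
      rw [Sym2.eq_iff] at he
      rcases he with ⟨h5, h6⟩ | ⟨h5, h6⟩
      · rw [add_right_cancel h5, add_right_cancel h6]
        exact ⟨hx', hy'⟩
      · rw [add_right_cancel h5, add_right_cancel h6]
        exact ⟨hy', hx'⟩
  · rintro ⟨h1, h2⟩
    exact Or.inr ⟨z, hz, x, h1, y, h2, hadj, rfl⟩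

theorem pat_Am {K : ℕ} {W : Set (V d)} {A : Set (Sym2 (V d))} {z : V d} (hz : z ∈ W) :
    Pat K (cen K z) ∅ ∅ (Am K W A) := by
  intro x y hx hy hadj _
  rw [mem_Am_in hz hx hy hadj]
  simp

/-- modifying the configuration on the region of `z` only changes edges of the region -/
theorem opn_iff {K : ℕ} {z : V d} {w w' : Cfg d} (h : ∀ f, f ∉ Wd K z → w' f = w f)
    {e : Sym2 (V d)} (he : e ∉ Reg K z) : e ∈ opn w' ↔ e ∈ opn w := by
  have key : ∀ f : Ed d, e = s(f.1, f.1 + bv f.2) → w' f = w f := by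
    intro f hf
    refine h f fun hW => he ?_
    rw [mem_Wd] at hW
    rw [hf]
    exact mem_reg hW.1 hW.2
  constructor
  · rintro ⟨f, hf, rfl⟩
    exact ⟨f, (key f rfl) ▸ hf, rfl⟩
  · rintro ⟨f, hf, rfl⟩
    exact ⟨f, (key f rfl).trans hf, rfl⟩

/-- an edge of another region is not in the region of `z` -/
theorem not_reg_of_ne {K : ℕ} {z k : V d} (hne : k ≠ z) {x : V d} (hx : inQ K x)
    (y' : V d) : s(x + cen K k, y') ∉ Reg K z := by
  intro h
  have h1 := reg_vertex h (Sym2.mem_mk_left _ _)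
  have h2 : inQ K (x + cen K k - cen K k) := by rwa [add_sub_cancel_right]
  exact hne (site_unique h2 h1)

theorem pat_other {K : ℕ} {z k : V d} (hne : k ≠ z) {w w' : Cfg d}
    (h : ∀ f, f ∉ Wd K z → w' f = w f) {E : Finset (Sym2 (V d))} {S : Finset (V d)}
    (hP : Pat K (cen K k) E S (opn w)) : Pat K (cen K k) E S (opn w') := by
  intro x y hx hy hadj hor
  rw [opn_iff h (not_reg_of_ne hne hx _)]
  exact hP x y hx hy hadj hor

open Classical in
/-- the function `u` with the free vertices of the sites in `W` put to zero -/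
noncomputable def um (K : ℕ) (W : Set (V d)) {M : Type} [Zero M] (u : V d → M) : V d → M :=
  fun x => if ∃ z ∈ W, x - cen K z ∈ (Free K : Set (V d)) then 0 else u x

theorem um_free {K : ℕ} {W : Set (V d)} {M : Type} [Zero M] (u : V d → M) {z : V d} (hz : z ∈ W)
    {x : V d} (hx : x ∈ (Free K : Set (V d))) : um K W u (x + cen K z) = 0 := by
  unfold um
  rw [if_pos]
  exact ⟨z, hz, by rwa [add_sub_cancel_right]⟩

theorem um_str {K : ℕ} {W : Set (V d)} {M : Type} [Zero M] (u : V d → M) {z : V d}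
    {x : V d} (hx : x ∈ (Str K : Set (V d))) : um K W u (x + cen K z) = u (x + cen K z) := by
  unfold um
  rw [if_neg]
  rintro ⟨k, _, hk⟩
  have h1 : inQ K (x + cen K z - cen K z) := by rw [add_sub_cancel_right]; exact hx.1
  obtain rfl : k = z := site_unique hk.1 h1
  rw [add_sub_cancel_right] at hk
  exact not_free_of_str hx hk

theorem um_out {K : ℕ} {W : Set (V d)} {M : Type} [Zero M] (u : V d → M) {x : V d}
    (hx : ∀ z ∈ W, x - cen K z ∉ (Free K : Set (V d))) : um K W u x = u x := by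
  unfold um
  rw [if_neg]
  rintro ⟨k, hk, hk'⟩
  exact hx k hk hk'

theorem adj_stp (x : V d) (i : Fin d × Bool) : (zd d).Adj x (x + stp i) := by
  obtain ⟨j, b⟩ := i
  cases b
  · exact ⟨j, Or.inr (by simp [stp])⟩
  · exact ⟨j, Or.inl (by simp [stp])⟩

theorem adj_add {x y : V d} (c : V d) (h : (zd d).Adj x y) : (zd d).Adj (x + c) (y + c) := by
  obtain ⟨j, h | h⟩ := h
  · exact ⟨j, Or.inl (by rw [h]; abel)⟩
  · exact ⟨j, Or.inr (by rw [h]; abel)⟩

theorem adj_sub {x y : V d} (c : V d) (h : (zd d).Adj x y) : (zd d).Adj (x - c) (y - c) := by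
  rw [sub_eq_add_neg, sub_eq_add_neg]
  exact adj_add _ h

/-- a neighbour of a vertex outside the region of `k` is not a free vertex of the site `k` -/
theorem not_free_nbr {K : ℕ} {k x y : V d} (h : ¬ inQ K (x - cen K k)) (hadj : (zd d).Adj x y) :
    y - cen K k ∉ (Free K : Set (V d)) := fun hy =>
  h (free_nbr hy (adj_sub _ hadj))

theorem inReg_empty (K : ℕ) : InReg K (∅ : Finset (Sym2 (V d))) ∅ where
  edge := fun e he => absurd he (Finset.notMem_empty e)
  sub := fun e he => absurd he (Finset.notMem_empty e)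
  efree := fun e he => absurd he (Finset.notMem_empty e)
  inr := fun e he => absurd he (Finset.notMem_empty e)

theorem inReg_thread (Sc : Scale d) (t : Fin Sc.T) : InReg Sc.K (Sc.E t) (Sc.S t) where
  edge := (Sc.thread t).edge
  sub := (Sc.thread t).sub
  efree := Sc.efree t
  inr := fun v hv => by
    by_cases h1 : v = Sc.a t
    · exact Or.inl (h1 ▸ Sc.ha t)
    · by_cases h2 : v = Sc.b t
      · exact Or.inl (h2 ▸ Sc.hb t)
      · exact Or.inr (Sc.inner t v hv h1 h2)

/-- harmonicity of the thread function -/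
theorem thread_harm (Sc : Scale d) (t : Fin Sc.T) {M : Type} [AddCommGroup M] {m : ℕ} {k : V d}
    (hk : k ∈ Bx (0 : V d) m) {A : Set (Sym2 (V d))}
    (hP : Pat Sc.K (cen Sc.K k) (Sc.E t) (Sc.S t) A) {u : V d → M}
    (hu : HarmB A (cen Sc.K 0) (rad Sc.K m) u) :
    Harm (Sc.E t) (Sc.S t) (Sc.a t) (Sc.b t) (fun y => u (y + cen Sc.K k)) := by
  intro v hv hva hvb
  have hf := Sc.inner t v hv hva hvb
  rw [← surg_in (inReg_thread Sc t) hP hf hv u]
  refine hu _ (site_in_box hk ?_)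
  rw [add_sub_cancel_right]
  exact hf.1

/-- if the current is zero, the thread gives no contribution on the structure and the terminals
have equal values -/
theorem thread_zero (Sc : Scale d) (t : Fin Sc.T) {M : Type} [AddCommGroup M] {m : ℕ} {k : V d}
    (hk : k ∈ Bx (0 : V d) m) {A : Set (Sym2 (V d))}
    (hP : Pat Sc.K (cen Sc.K k) (Sc.E t) (Sc.S t) A) {u : V d → M}
    (hu : HarmB A (cen Sc.K 0) (rad Sc.K m) u)
    (hc : cur (Sc.E t) (Sc.a t) (cen Sc.K k) u = 0) :
    (∀ x ∈ (Str Sc.K : Set (V d)), lap (Sc.E t) (fun y => u (y + cen Sc.K k)) x = 0) ∧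
      u (Sc.b t + cen Sc.K k) = u (Sc.a t + cen Sc.K k) := by
  have hH := thread_harm Sc t hk hP hu
  have hcons := (Sc.thread t).toNet.toSub.cons _ hH
  have hresp := (Sc.thread t).respM M _ hH
  unfold cur at hc
  constructor
  · intro x hx
    by_cases hxS : x ∈ Sc.S t
    · by_cases h1 : x = Sc.a t
      · rw [h1]; exact hc
      · by_cases h2 : x = Sc.b t
        · rw [h2, hcons, hc, neg_zero]
        · exact absurd (Sc.inner t x hxS h1 h2) (not_free_of_str hx)
    · exact (Sc.thread t).toNet.toSub.lap_zero _ hxS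
  · rw [hc, smul_zero] at hresp
    exact sub_eq_zero.1 hresp

theorem lap_empty {M : Type} [AddCommGroup M] (u : V d → M) (x : V d) :
    lap (∅ : Finset (Sym2 (V d))) u x = 0 := by
  simp [lap]

theorem harm_um (Sc : Scale d) (t : Fin Sc.T) {M : Type} [AddCommGroup M] {m : ℕ} {z : V d}
    {W : Set (V d)} {w w' : Cfg d} (hzW : z ∈ W) (hWB : ∀ k ∈ W, k ∈ Bx (0 : V d) m)
    (hWP : ∀ k ∈ W, Pat Sc.K (cen Sc.K k) (Sc.E t) (Sc.S t) (opn w))
    (hw : ∀ f, f ∉ Wd Sc.K z → w' f = w f) (hPz : Pat Sc.K (cen Sc.K z) ∅ ∅ (opn w'))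
    {u : V d → M} (hu : HarmB (opn w') (cen Sc.K 0) (rad Sc.K m) u)
    (hcur : ∀ k ∈ W, k ≠ z → cur (Sc.E t) (Sc.a t) (cen Sc.K k) u = 0) :
    ∀ x ∈ Bx (cen Sc.K (0 : V d)) (rad Sc.K m),
      lapS (Am Sc.K W (opn w)) (um Sc.K W u) x = 0 := by
  intro x hx
  by_cases hQ : ∃ k ∈ W, inQ Sc.K (x - cen Sc.K k)
  · obtain ⟨k, hk, hxk⟩ := hQ
    obtain ⟨x0, rfl⟩ : ∃ x0, x = x0 + cen Sc.K k := ⟨x - cen Sc.K k, by rw [sub_add_cancel]⟩
    rw [add_sub_cancel_right] at hxk
    rcases str_or_free hxk with hs | hf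
    · -- structure vertex
      have hout : ∀ i, ¬ inQ Sc.K (x0 + stp i) →
          ((s(x0 + cen Sc.K k, x0 + stp i + cen Sc.K k) ∈ opn w' ↔
            s(x0 + cen Sc.K k, x0 + stp i + cen Sc.K k) ∈ Am Sc.K W (opn w)) ∧
          um Sc.K W u (x0 + stp i + cen Sc.K k) = u (x0 + stp i + cen Sc.K k)) := by
        intro i hi
        have hnr : ∀ k' : V d, s(x0 + cen Sc.K k, x0 + stp i + cen Sc.K k) ∉ Reg Sc.K k' := by
          intro k' hk'
          have h1 := reg_vertex hk' (Sym2.mem_mk_left _ _)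
          have h2 := reg_vertex hk' (Sym2.mem_mk_right _ _)
          have h3 : inQ Sc.K (x0 + cen Sc.K k - cen Sc.K k) := by
            rwa [add_sub_cancel_right]
          obtain rfl : k = k' := site_unique h3 h1
          rw [add_sub_cancel_right] at h2
          exact hi h2
        refine ⟨?_, um_out u ?_⟩
        · rw [mem_Am_out (fun k' _ => hnr k'), opn_iff hw (hnr z)]
        · intro k' hk' hfr
          by_cases hkk : k = k'
          · subst hkk
            rw [add_sub_cancel_right] at hfr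
            exact hi hfr.1
          · have hnq : ¬ inQ Sc.K (x0 + cen Sc.K k - cen Sc.K k') := by
              intro h1
              have h3 : inQ Sc.K (x0 + cen Sc.K k - cen Sc.K k) := by
                rwa [add_sub_cancel_right]
              exact hkk (site_unique h3 h1)
            refine not_free_nbr hnq ?_ hfr
            exact adj_add _ (adj_stp x0 i)
      have hstr : ∀ y ∈ (Str Sc.K : Set (V d)), um Sc.K W u (y + cen Sc.K k) =
          u (y + cen Sc.K k) := fun y hy => um_str u hy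
      by_cases hkz : k = z
      · subst hkz
        have h1 := surg_str (inReg_empty Sc.K) (inReg_empty Sc.K) hPz
          (pat_Am (A := opn w) hk) hs u (um Sc.K W u) hout hstr
        rw [lap_empty, lap_empty, add_zero, add_zero] at h1
        rw [h1]
        exact hu _ hx
      · have hP' := pat_other hkz hw (hWP k hk)
        have h1 := surg_str (inReg_thread Sc t) (inReg_empty Sc.K) hP'
          (pat_Am (A := opn w) hk) hs u (um Sc.K W u) hout hstr
        have h2 := (thread_zero Sc t (hWB k hk) hP' hu (hcur k hk hkz)).1 x0 hs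
        rw [lap_empty, h2, add_zero, add_zero] at h1
        rw [h1]
        exact hu _ hx
    · -- free vertex
      exact surg_out (inReg_empty Sc.K) (pat_Am (A := opn w) hk) hf (Finset.notMem_empty _) _ 0
        (fun y hy _ => um_free u hk hy)
  · push Not at hQ
    have hnr : ∀ k ∈ W, ∀ i, s(x, x + stp i) ∉ Reg Sc.K k := by
      intro k hk i h
      exact hQ k hk (reg_vertex h (Sym2.mem_mk_left _ _))
    have h0 : um Sc.K W u x = u x := um_out u (fun k hk h => hQ k hk h.1)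
    have h1 : lapS (Am Sc.K W (opn w)) (um Sc.K W u) x = lapS (opn w') u x := by
      unfold lapS
      refine Finset.sum_congr rfl fun i _ => ?_
      have h2 : um Sc.K W u (x + stp i) = u (x + stp i) :=
        um_out u (fun k hk => not_free_nbr (hQ k hk) (adj_stp x i))
      have h3 : s(x, x + stp i) ∈ Am Sc.K W (opn w) ↔ s(x, x + stp i) ∈ opn w' := by
        rw [mem_Am_out (fun k hk => hnr k hk i), opn_iff hw (hnr z hzW i)]
      rw [h0, h2]
      by_cases h4 : s(x, x + stp i) ∈ opn w'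
      · rw [if_pos h4, if_pos (h3.2 h4)]
      · rw [if_neg h4, if_neg (fun h5 => h4 (h3.1 h5))]
    rw [h1]
    exact hu _ hx

theorem Bx_nb {r : ℕ} {c x : V d} (hx : x ∈ Bx c r) (i : Fin d × Bool) :
    x + stp i ∈ Bx c (r + 1) := by
  unfold Bx at *
  rw [Finset.mem_Icc] at *
  have hst : ∀ j, -1 ≤ (stp i : V d) j ∧ (stp i : V d) j ≤ 1 := by
    intro j
    obtain ⟨j0, b⟩ := i
    by_cases hj : j = j0
    · subst hj
      cases b <;> simp [stp, bv]
    · cases b <;> simp [stp, bv, hj]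
  constructor
  · intro j
    have h1 := hx.1 j
    have h2 := hst j
    have h3 : (x + stp i) j = x j + (stp i : V d) j := rfl
    rw [h3]
    push_cast at *
    omega
  · intro j
    have h1 := hx.2 j
    have h2 := hst j
    have h3 : (x + stp i) j = x j + (stp i : V d) j := rfl
    rw [h3]
    push_cast at *
    omega

theorem Bx_sub {r : ℕ} {c : V d} : Bx c r ⊆ Bx c (r + 1) := by
  intro x hx
  unfold Bx at *
  rw [Finset.mem_Icc] at *
  constructor
  · intro j
    have h1 := hx.1 j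
    push_cast at *
    omega
  · intro j
    have h1 := hx.2 j
    push_cast at *
    omega

theorem cen_zero {K : ℕ} : cen K (0 : V d) = 0 := by
  unfold cen
  rw [smul_zero]

/-- an edge between structure vertices of a site in `W`, as a step -/
theorem const_of_am {K m : ℕ} {W : Set (V d)} {A : Set (Sym2 (V d))} {k : V d} (hk : k ∈ W)
    (hkB : k ∈ Bx (0 : V d) m) {M : Type} (v : V d → M)
    (hv : ∀ x ∈ Bx (0 : V d) (rad K m + 1), ∀ i, x + stp i ∈ Bx (0 : V d) (rad K m + 1) →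
      s(x, x + stp i) ∈ Am K W A → v (x + stp i) = v x) :
    ∀ x ∈ (Str K : Set (V d)), v (x + cen K k) = v (0 + cen K k) := by
  refine str_const K (fun x => v (x + cen K k)) ?_
  intro x hx y hy hadj
  have hbox : ∀ x ∈ (Str K : Set (V d)), x + cen K k ∈ Bx (0 : V d) (rad K m + 1) := by
    intro x hx
    refine Bx_sub ?_
    have := site_in_box (v := 0) (x := x + cen K k) hkB (by rw [add_sub_cancel_right]; exact hx.1)
    rwa [cen_zero] at this
  obtain ⟨j, h | h⟩ := hadj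
  · have hy' : y + cen K k = x + cen K k + stp (j, true) := by
      rw [h]; simp [stp]; abel
    have h1 := hv (x + cen K k) (hbox x hx) (j, true) (hy' ▸ hbox y hy) (by
      rw [← hy', mem_Am_in hk hx.1 hy.1 ⟨j, Or.inl h⟩]
      exact ⟨hx, hy⟩)
    show v (x + cen K k) = v (y + cen K k)
    rw [hy', h1]
  · have hx' : x + cen K k = y + cen K k + stp (j, true) := by
      rw [h]; simp [stp]; abel
    have h1 := hv (y + cen K k) (hbox y hy) (j, true) (hx' ▸ hbox x hx) (by
      rw [← hx', mem_Am_in hk hy.1 hx.1 ⟨j, Or.inl h⟩]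
      exact ⟨hy, hx⟩)
    show v (x + cen K k) = v (y + cen K k)
    rw [hx', h1]

end Cnt2

open Cnt2 in
theorem count2 {d : ℕ} (Sc : Scale d) (t : Fin Sc.T) (m : ℕ) (w : Cfg d)
    (Z : ℕ → Finset (V d)) (hZ : ∀ l ∈ Sc.P, Z l ⊆ Bx 0 m)
    (h : ∀ l ∈ Sc.P, ∀ z ∈ Z l, Pat Sc.K (cen Sc.K z) (Sc.E t) (Sc.S t) (opn w) ∧
      w ∈ Mod (Wd Sc.K z) (F2 Sc l t z 0 m)) :
    ∑ l ∈ Sc.P, (Z l).card ≤ Sc.P.card * bd d Sc.K m + 4 * d * vol d Sc.K m := by
  set W : Set (V d) := {z | z ∈ Bx (0 : V d) m ∧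
    Pat Sc.K (cen Sc.K z) (Sc.E t) (Sc.S t) (opn w)} with hW
  refine dimP (Am Sc.K W (opn w)) (Bx (0 : V d) (rad Sc.K m + 1)) (Bx (0 : V d) (rad Sc.K m))
    Bx_sub (fun x hx i => Bx_nb hx i) Sc.P Sc.hP (fun l => (Z l).card) ?_
  intro l hl
  have hZW : ∀ z ∈ Z l, z ∈ W := fun z hz => ⟨hZ l hl hz, (h l hl z hz).1⟩
  have hex : ∀ z ∈ Z l, ∃ u : V d → ZMod l,
      (∀ x ∈ Bx (0 : V d) (rad Sc.K m), lapS (Am Sc.K W (opn w)) u x = 0) ∧
      (∀ k ∈ Z l, k ≠ z → u (Sc.a t + cen Sc.K k) = u (Sc.b t + cen Sc.K k)) ∧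
      u (Sc.a t + cen Sc.K z) ≠ u (Sc.b t + cen Sc.K z) := by
    intro z hz
    obtain ⟨w', ⟨hPz, u, ⟨hu, hcur⟩, hne⟩, hw⟩ := (h l hl z hz).2
    refine ⟨um Sc.K W u, ?_, ?_, ?_⟩
    · have := harm_um Sc t (hZW z hz) (fun k hk => hk.1) (fun k hk => hk.2) hw hPz hu
        (fun k hk hkz => hcur k hk.1 t (pat_other hkz hw hk.2))
      rwa [cen_zero] at this
    · intro k hk hkz
      rw [um_str u (Sc.ha t), um_str u (Sc.hb t)]
      have hP' := pat_other hkz hw (hZW k hk).2
      exact (thread_zero Sc t (hZW k hk).1 hP' hu (hcur k (hZW k hk).1 t hP')).2.symm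
    · rw [um_str u (Sc.ha t), um_str u (Sc.hb t)]
      exact hne
  choose! U hU1 hU2 hU3 using hex
  let e : Fin (Z l).card ≃ Z l := (Z l).equivFin.symm
  refine ⟨fun i => U (e i), fun i =>
    (LinearMap.proj (R := ZMod l) (φ := fun _ : V d => ZMod l) (Sc.a t + cen Sc.K (e i).1)) -
      LinearMap.proj (R := ZMod l) (φ := fun _ : V d => ZMod l) (Sc.b t + cen Sc.K (e i).1),
    ?_, ?_, ?_, ?_⟩
  · intro i x hx
    exact hU1 _ (e i).2 x hx
  · intro i v hv
    have h1 := const_of_am (hZW _ (e i).2) (hZW _ (e i).2).1 v hv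
    show v (Sc.a t + cen Sc.K (e i).1) - v (Sc.b t + cen Sc.K (e i).1) = 0
    rw [h1 _ (Sc.ha t), h1 _ (Sc.hb t), sub_self]
  · intro i j hij
    show U (e i).1 (Sc.a t + cen Sc.K (e j).1) - U (e i).1 (Sc.b t + cen Sc.K (e j).1) = 0
    rw [hU2 _ (e i).2 _ (e j).2, sub_self]
    intro hcon
    exact hij (e.injective (Subtype.ext hcon))
  · intro i
    show U (e i).1 (Sc.a t + cen Sc.K (e i).1) - U (e i).1 (Sc.b t + cen Sc.K (e i).1) ≠ 0
    exact sub_ne_zero.2 (hU3 _ (e i).2)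

end Pool.Agent.Lib.MP_79dc3a_pr
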