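import Pool.Agent.Lib.MP_79dc3a_pr.Count2

/-! Module J14 Count3 of MP_79dc3a_pr: counting of the sites with a non-zero gradient. -/

set_option autoImplicit false

namespace Pool.Agent.Lib.MP_79dc3a_pr

open Finset

namespace Cnt3

open Cnt2

variable {d : ℕ}

open Classical in
/-- the configuration `w` with the pattern `η` put on the regions of the sites in `W` -/
noncomputable def wp (K : ℕ) (W : Set (V d)) (η w : Cfg d) : Cfg d :=
  fun f => if h : ∃ k ∈ W, f ∈ Wd K k then shiftC (- cen K h.choose) η f else w f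

theorem wd_unique {K : ℕ} {f : Ed d} {k k' : V d} (h : f ∈ Wd K k) (h' : f ∈ Wd K k') :
    k = k' :=
  site_unique (mem_Wd.1 h).1 (mem_Wd.1 h').1

theorem wp_in {K : ℕ} {W : Set (V d)} {η w : Cfg d} {k : V d} (hk : k ∈ W) {f : Ed d}
    (hf : f ∈ Wd K k) : wp K W η w f = shiftC (- cen K k) η f := by
  have h : ∃ k ∈ W, f ∈ Wd K k := ⟨k, hk, hf⟩
  unfold wp
  rw [dif_pos h, wd_unique h.choose_spec.2 hf]

theorem wp_out {K : ℕ} {W : Set (V d)} {η w : Cfg d} {f : Ed d}
    (hf : ∀ k ∈ W, f ∉ Wd K k) : wp K W η w f = w f := by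
  unfold wp
  rw [dif_neg]
  rintro ⟨k, hk, hk'⟩
  exact hf k hk hk'

theorem opn_congr {w w' : Cfg d} {e : Sym2 (V d)}
    (h : ∀ f : Ed d, e = s(f.1, f.1 + bv f.2) → w f = w' f) : e ∈ opn w ↔ e ∈ opn w' := by
  constructor
  · rintro ⟨f, hf, rfl⟩
    exact ⟨f, (h f rfl) ▸ hf, rfl⟩
  · rintro ⟨f, hf, rfl⟩
    exact ⟨f, (h f rfl).trans hf, rfl⟩

/-- edges which are in no region of a site of `W` different from `z` -/
theorem opn_wp {K : ℕ} {W : Set (V d)} {η w : Cfg d} {z : V d} (hz : z ∈ W) {e : Sym2 (V d)}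
    (he : ∀ k ∈ W, k ≠ z → e ∉ Reg K k) :
    e ∈ opn (putC (Wd K z) (shiftC (- cen K z) η) w) ↔ e ∈ opn (wp K W η w) := by
  apply opn_congr
  intro f hf
  by_cases h : f ∈ Wd K z
  · rw [wp_in hz h]
    simp only [putC, if_pos h]
  · rw [wp_out]
    · simp only [putC, if_neg h]
    · intro k hk hfk
      by_cases hkz : k = z
      · exact h (hkz ▸ hfk)
      · refine he k hk hkz ?_
        rw [hf]
        exact mem_reg (mem_Wd.1 hfk).1 (mem_Wd.1 hfk).2

open Classical in
/-- the function `u`, constant on the regions of the sites of `W` different from `z` -/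
noncomputable def up (K : ℕ) (W : Set (V d)) (z : V d) {M : Type} (u : V d → M) : V d → M :=
  fun x => if h : ∃ k ∈ W, k ≠ z ∧ x - cen K k ∈ (Free K : Set (V d)) then u (cen K h.choose)
    else u x

theorem up_free {K : ℕ} {W : Set (V d)} {z : V d} {M : Type} (u : V d → M) {k : V d}
    (hk : k ∈ W) (hkz : k ≠ z) {x : V d} (hx : x ∈ (Free K : Set (V d))) :
    up K W z u (x + cen K k) = u (cen K k) := by
  have h : ∃ k' ∈ W, k' ≠ z ∧ x + cen K k - cen K k' ∈ (Free K : Set (V d)) :=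
    ⟨k, hk, hkz, by rwa [add_sub_cancel_right]⟩
  unfold up
  rw [dif_pos h]
  have h1 := h.choose_spec.2.2
  have h2 : inQ K (x + cen K k - cen K k) := by rw [add_sub_cancel_right]; exact hx.1
  rw [site_unique h1.1 h2]

theorem up_out {K : ℕ} {W : Set (V d)} {z : V d} {M : Type} (u : V d → M) {x : V d}
    (hx : ∀ k ∈ W, k ≠ z → x - cen K k ∉ (Free K : Set (V d))) : up K W z u x = u x := by
  unfold up
  rw [dif_neg]
  rintro ⟨k, hk, hkz, hk'⟩
  exact hx k hk hkz hk'

theorem up_str {K : ℕ} {W : Set (V d)} {z : V d} {M : Type} (u : V d → M) {k : V d}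
    {x : V d} (hx : x ∈ (Str K : Set (V d))) : up K W z u (x + cen K k) = u (x + cen K k) := by
  apply up_out
  intro k' _ _ hk'
  have h1 : inQ K (x + cen K k - cen K k) := by rw [add_sub_cancel_right]; exact hx.1
  obtain rfl : k' = k := site_unique hk'.1 h1
  rw [add_sub_cancel_right] at hk'
  exact not_free_of_str hx hk'

/-- on the region of `z` nothing is changed -/
theorem up_self {K : ℕ} {W : Set (V d)} {z : V d} {M : Type} (u : V d → M)
    {x : V d} (hx : inQ K (x - cen K z)) : up K W z u x = u x := by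
  apply up_out
  intro k' _ hne hk'
  exact hne (site_unique hk'.1 hx)

/-- on the region of a site `k ≠ z` the function is constant -/
theorem up_const {K : ℕ} {W : Set (V d)} {z : V d} {M : Type} {u : V d → M} {k : V d}
    (hk : k ∈ W) (hkz : k ≠ z)
    (hu : ∀ y ∈ (Str K : Set (V d)), u (y + cen K k) = u (cen K k)) {y : V d} (hy : inQ K y) :
    up K W z u (y + cen K k) = u (cen K k) := by
  rcases str_or_free hy with hs | hf
  · rw [up_str u hs, hu y hs]
  · exact up_free u hk hkz hf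

theorem harm_up {K m : ℕ} {M : Type} [AddCommGroup M] {z : V d} {W : Set (V d)} {η w : Cfg d}
    (hzW : z ∈ W) (hWP : ∀ k ∈ W, Pat K (cen K k) ∅ ∅ (opn w))
    {u : V d → M}
    (hu : HarmB (opn (putC (Wd K z) (shiftC (- cen K z) η) w)) (cen K 0) (rad K m) u)
    (hc : ∀ k ∈ W, k ≠ z → ∀ x ∈ (Str K : Set (V d)), u (x + cen K k) = u (cen K k)) :
    ∀ x ∈ Bx (cen K (0 : V d)) (rad K m), lapS (opn (wp K W η w)) (up K W z u) x = 0 := by
  have hw : ∀ f, f ∉ Wd K z → putC (Wd K z) (shiftC (- cen K z) η) w f = w f := by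
    intro f hf
    simp only [putC, if_neg hf]
  intro x hx
  by_cases hQ : ∃ k ∈ W, k ≠ z ∧ inQ K (x - cen K k)
  · obtain ⟨k, hk, hkz, hxk⟩ := hQ
    obtain ⟨x0, rfl⟩ : ∃ x0, x = x0 + cen K k := ⟨x - cen K k, by rw [sub_add_cancel]⟩
    rw [add_sub_cancel_right] at hxk
    have hcst : ∀ y, inQ K y → up K W z u (y + cen K k) = u (cen K k) :=
      fun y hy => up_const hk hkz (hc k hk hkz) hy
    rcases str_or_free hxk with hs | hf
    · have hout : ∀ i, ¬ inQ K (x0 + stp i) →
          ((s(x0 + cen K k, x0 + stp i + cen K k) ∈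
              opn (putC (Wd K z) (shiftC (- cen K z) η) w) ↔
            s(x0 + cen K k, x0 + stp i + cen K k) ∈ opn (wp K W η w)) ∧
          up K W z u (x0 + stp i + cen K k) = u (x0 + stp i + cen K k)) := by
        intro i hi
        have hnr : ∀ k' : V d, s(x0 + cen K k, x0 + stp i + cen K k) ∉ Reg K k' := by
          intro k' hk'
          have h1 := reg_vertex hk' (Sym2.mem_mk_left _ _)
          have h2 := reg_vertex hk' (Sym2.mem_mk_right _ _)
          have h3 : inQ K (x0 + cen K k - cen K k) := by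
            rwa [add_sub_cancel_right]
          obtain rfl : k = k' := site_unique h3 h1
          rw [add_sub_cancel_right] at h2
          exact hi h2
        refine ⟨opn_wp hzW (fun k' _ _ => hnr k'), up_out u ?_⟩
        intro k' hk' _ hfr
        by_cases hkk : k = k'
        · subst hkk
          rw [add_sub_cancel_right] at hfr
          exact hi hfr.1
        · have hnq : ¬ inQ K (x0 + cen K k - cen K k') := by
            intro h1
            have h3 : inQ K (x0 + cen K k - cen K k) := by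
              rwa [add_sub_cancel_right]
            exact hkk (site_unique h3 h1)
          refine not_free_nbr hnq ?_ hfr
          exact adj_add _ (adj_stp x0 i)
      rw [surg_eta (pat_other hkz hw (hWP k hk)) hs u (up K W z u) (u (cen K k)) hout
        (hc k hk hkz) hcst]
      exact hu _ hx
    · exact surg_eta_free hf _ (u (cen K k)) hcst
  · push Not at hQ
    have hnr : ∀ k ∈ W, k ≠ z → ∀ i, s(x, x + stp i) ∉ Reg K k := by
      intro k hk hkz i h
      exact hQ k hk hkz (reg_vertex h (Sym2.mem_mk_left _ _))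
    have h0 : up K W z u x = u x := up_out u (fun k hk hkz h => hQ k hk hkz h.1)
    have h1 : lapS (opn (wp K W η w)) (up K W z u) x =
        lapS (opn (putC (Wd K z) (shiftC (- cen K z) η) w)) u x := by
      unfold lapS
      refine Finset.sum_congr rfl fun i _ => ?_
      have h2 : up K W z u (x + stp i) = u (x + stp i) :=
        up_out u (fun k hk hkz => not_free_nbr (hQ k hk hkz) (adj_stp x i))
      have h3 := opn_wp (η := η) (w := w) hzW (fun k hk hkz => hnr k hk hkz i)
      rw [h0, h2]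
      by_cases h4 : s(x, x + stp i) ∈ opn (putC (Wd K z) (shiftC (- cen K z) η) w)
      · rw [if_pos h4, if_pos (h3.1 h4)]
      · rw [if_neg h4, if_neg (fun h5 => h4 (h3.2 h5))]
    rw [h1]
    exact hu _ hx

end Cnt3

open Cnt2 Cnt3 in
theorem count3 {d : ℕ} (Sc : Scale d) (m : ℕ) (η w : Cfg d)
    (Z : ℕ → Finset (V d)) (hZ : ∀ l ∈ Sc.P, Z l ⊆ Bx 0 m)
    (h : ∀ l ∈ Sc.P, ∀ z ∈ Z l, Pat Sc.K (cen Sc.K z) ∅ ∅ (opn w) ∧
      putC (Wd Sc.K z) (shiftC (- cen Sc.K z) η) w ∈ F3 Sc l z 0 m) :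
    ∑ l ∈ Sc.P, (Z l).card ≤ Sc.P.card * bd d Sc.K m + 4 * d * vol d Sc.K m := by
  set W : Set (V d) := {z | z ∈ Bx (0 : V d) m ∧ Pat Sc.K (cen Sc.K z) ∅ ∅ (opn w)} with hW
  refine dimP (opn (wp Sc.K W η w)) (Bx (0 : V d) (rad Sc.K m + 1)) (Bx (0 : V d) (rad Sc.K m))
    Bx_sub (fun x hx i => Bx_nb hx i) Sc.P Sc.hP (fun l => (Z l).card) ?_
  intro l hl
  have hZW : ∀ z ∈ Z l, z ∈ W := fun z hz => ⟨hZ l hl hz, (h l hl z hz).1⟩
  have hex : ∀ z ∈ Z l, ∃ (u : V d → ZMod l) (f : Ed d),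
      (∀ x ∈ Bx (0 : V d) (rad Sc.K m), lapS (opn (wp Sc.K W η w)) u x = 0) ∧
      (∀ k ∈ Z l, k ≠ z → ∀ y, inQ Sc.K (y - cen Sc.K k) → u y = u (cen Sc.K k)) ∧
      f ∈ Wd Sc.K z ∧ wp Sc.K W η w f = true ∧
      u (f.1 + bv f.2) ≠ u f.1 := by
    intro z hz
    obtain ⟨u, ⟨hu, hst⟩, f, hf, hft, hne⟩ := (h l hl z hz).2
    have hw : ∀ f, f ∉ Wd Sc.K z →
        putC (Wd Sc.K z) (shiftC (- cen Sc.K z) η) w f = w f := by
      intro f hf
      simp only [putC, if_neg hf]
    have hc : ∀ k ∈ W, k ≠ z → ∀ x ∈ (Str Sc.K : Set (V d)),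
        u (x + cen Sc.K k) = u (cen Sc.K k) := fun k hk hkz =>
      hst k hk.1 (pat_other hkz hw hk.2)
    refine ⟨up Sc.K W z u, f, ?_, ?_, hf, ?_, ?_⟩
    · have := harm_up (hZW z hz) (fun k hk => hk.2) hu hc
      rwa [cen_zero] at this
    · intro k hk hkz y hy
      have h1 := up_const (hZW k hk) hkz (hc k (hZW k hk) hkz) hy
      rw [sub_add_cancel] at h1
      have h2 : inQ Sc.K ((0 : V d) - 0) := by
        rw [sub_zero]
        refine ⟨fun i => ?_, fun i j h1 _ => ?_⟩
        · simp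
          positivity
        · simp at h1
          exfalso
          linarith [show (0 : ℤ) ≤ (Sc.K : ℤ) from Int.natCast_nonneg _]
      have h3 := up_const (hZW k hk) hkz (hc k (hZW k hk) hkz) h2
      rw [sub_zero, zero_add] at h3
      rw [h1, h3]
    · rw [wp_in (hZW z hz) hf]
      simpa only [putC, if_pos hf] using hft
    · rw [up_self u (mem_Wd.1 hf).1, up_self u (mem_Wd.1 hf).2]
      exact hne
  choose U F hU1 hU2 hF1 hF2 hF3 using hex
  let e : Fin (Z l).card ≃ Z l := (Z l).equivFin.symm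
  refine ⟨fun i => U (e i).1 (e i).2, fun i =>
    (LinearMap.proj (R := ZMod l) (φ := fun _ : V d => ZMod l)
      ((F (e i).1 (e i).2).1 + bv (F (e i).1 (e i).2).2)) -
      LinearMap.proj (R := ZMod l) (φ := fun _ : V d => ZMod l) (F (e i).1 (e i).2).1,
    ?_, ?_, ?_, ?_⟩
  · intro i x hx
    exact hU1 _ (e i).2 x hx
  · intro i v hv
    have hf := hF1 _ (e i).2
    have hb : ∀ x : V d, inQ Sc.K (x - cen Sc.K (e i).1) →
        x ∈ Bx (0 : V d) (rad Sc.K m + 1) := by
      intro x hx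
      refine Bx_sub ?_
      have := site_in_box (v := 0) (x := x) (hZ l hl (e i).2) hx
      rwa [cen_zero] at this
    show v ((F (e i).1 (e i).2).1 + bv (F (e i).1 (e i).2).2) - v (F (e i).1 (e i).2).1 = 0
    have h1 := hv (F (e i).1 (e i).2).1 (hb _ (mem_Wd.1 hf).1) ((F (e i).1 (e i).2).2, true)
      (by simpa [stp] using hb _ (mem_Wd.1 hf).2)
      (by simpa [stp] using mem_opn.2 (hF2 _ (e i).2))
    simp only [stp, if_true] at h1
    rw [h1, sub_self]
  · intro i j hij
    have hf := hF1 _ (e j).2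
    have hne : (e j).1 ≠ (e i).1 := by
      intro hcon
      exact hij (e.injective (Subtype.ext hcon))
    show U (e i).1 (e i).2 ((F (e j).1 (e j).2).1 + bv (F (e j).1 (e j).2).2) - U (e i).1 (e i).2 (F (e j).1 (e j).2).1 = 0
    rw [hU2 _ (e i).2 _ (e j).2 hne _ (mem_Wd.1 hf).1, hU2 _ (e i).2 _ (e j).2 hne _
      (mem_Wd.1 hf).2, sub_self]
  · intro i
    show U (e i).1 (e i).2 ((F (e i).1 (e i).2).1 + bv (F (e i).1 (e i).2).2) - U (e i).1 (e i).2 (F (e i).1 (e i).2).1 ≠ 0
    exact sub_ne_zero.2 (hF3 _ (e i).2)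

end Pool.Agent.Lib.MP_79dc3a_pr
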