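import Mathlib

/-!
Basic definitions for MP_79dc3a_pr (integer-valued harmonic functions on percolation clusters).
-/

namespace Pool.Agent.Lib.MP_79dc3a_pr

open Finset

/-! ### Finite electrical networks on a simple graph -/

section Net

variable {V : Type*} [DecidableEq V]

/-- contribution of an edge to the Laplacian of `u` at `x` -/
def ctr {M : Type*} [AddCommGroup M] (u : V → M) (x : V) : Sym2 V → M :=
  Sym2.lift ⟨fun a b => (if a = x then u b - u a else 0) + (if b = x then u a - u b else 0),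
    fun _ _ => add_comm _ _⟩

/-- Laplacian of `u` at `x` along a finite set of edges: sum of `u y - u x` over the
neighbours `y` of `x` along edges of `E`. -/
def lap {M : Type*} [AddCommGroup M] (E : Finset (Sym2 V)) (u : V → M) (x : V) : M :=
  ∑ e ∈ E, ctr u x e

/-- `u` is harmonic at the inner vertices of the network `(E, S)` with terminals `a`, `b`. -/
def Harm {M : Type*} [AddCommGroup M] (E : Finset (Sym2 V)) (S : Finset V) (a b : V)
    (u : V → M) : Prop :=
  ∀ v ∈ S, v ≠ a → v ≠ b → lap E u v = 0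

/-- a finite network inside the graph `G`, with edge set `E`, vertex set `S` and distinct
terminals `a`, `b`. -/
structure Sub (G : SimpleGraph V) (E : Finset (Sym2 V)) (S : Finset V) (a b : V) : Prop where
  edge : ∀ e ∈ E, e ∈ G.edgeSet
  sub : ∀ e ∈ E, ∀ v ∈ e, v ∈ S
  ma : a ∈ S
  mb : b ∈ S
  ne : a ≠ b

/-- a two-terminal network with effective resistance `x` (unit resistors). The current through
the network is `lap E u a`. -/
structure Net (G : SimpleGraph V) (E : Finset (Sym2 V)) (S : Finset V) (a b : V) (x : ℚ) : Prop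
    extends Sub G E S a b where
  pos : 0 < x
  resp : ∀ u : V → ℚ, Harm E S a b u → u b - u a = x * lap E u a
  ext : ∀ α β : ℚ, ∃ u : V → ℚ, u a = α ∧ u b = β ∧ Harm E S a b u

/-- a simple path of length `L` from `a` to `b` (as a network) -/
structure PathNet (G : SimpleGraph V) (E : Finset (Sym2 V)) (S : Finset V) (a b : V) (L : ℕ) :
    Prop extends Net G E S a b (L : ℚ) where
  respM : ∀ (M : Type) [AddCommGroup M] (u : V → M), Harm E S a b u → u b - u a = L • lap E u a
  card : S.card = L + 1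

/-- every integer-valued function harmonic at the inner vertices has current divisible by `l` -/
def Forces (E : Finset (Sym2 V)) (S : Finset V) (a b : V) (l : ℕ) : Prop :=
  ∀ u : V → ℤ, Harm E S a b u → (l : ℤ) ∣ lap E u a

end Net

/-! ### The planar grid and the lattice -/

/-- the planar grid graph -/
def grid2 : SimpleGraph (ℤ × ℤ) where
  Adj p q := (p.1 = q.1 ∧ (p.2 = q.2 + 1 ∨ q.2 = p.2 + 1)) ∨
    (p.2 = q.2 ∧ (p.1 = q.1 + 1 ∨ q.1 = p.1 + 1))
  symm := ⟨fun p q h => by
    rcases h with ⟨h, h'⟩ | ⟨h, h'⟩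
    · exact Or.inl ⟨h.symm, h'.symm⟩
    · exact Or.inr ⟨h.symm, h'.symm⟩⟩
  loopless := ⟨fun p h => by
    rcases h with ⟨_, h | h⟩ | ⟨_, h | h⟩ <;> omega⟩

/-- vertices of the lattice -/
abbrev V (d : ℕ) : Type := Fin d → ℤ

/-- unit vectors -/
def bv {d : ℕ} (j : Fin d) : V d := Pi.single j 1

/-- the lattice graph -/
def zd (d : ℕ) : SimpleGraph (V d) where
  Adj x y := ∃ j, y = x + bv j ∨ x = y + bv j
  symm := ⟨fun x y h => by
    obtain ⟨j, h⟩ := h
    exact ⟨j, h.symm⟩⟩
  loopless := ⟨fun x h => by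
    obtain ⟨j, h | h⟩ := h <;>
    · have := congrFun h j
      simp [bv] at this⟩

/-! ### The local region -/

/-- the region: sup norm at most `K+1`, at most one coordinate of absolute value `K+1` -/
def inQ {d : ℕ} (K : ℕ) (y : V d) : Prop :=
  (∀ i, |y i| ≤ K + 1) ∧ ∀ i j, |y i| = K + 1 → |y j| = K + 1 → i = j

/-- at most one coordinate is non-zero -/
def isLine {d : ℕ} (y : V d) : Prop := ∃ j, ∀ i, i ≠ j → y i = 0

/-- some coordinate has absolute value `K+1` -/
def isFace {d : ℕ} (K : ℕ) (y : V d) : Prop := ∃ j, |y j| = K + 1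

/-- the structure: faces and axis lines -/
def Str {d : ℕ} (K : ℕ) : Set (V d) := {y | inQ K y ∧ (isLine y ∨ isFace K y)}

/-- the free vertices -/
def Free {d : ℕ} (K : ℕ) : Set (V d) := {y | inQ K y ∧ ¬ (isLine y ∨ isFace K y)}

open Classical in
/-- the structure as a finite set -/
noncomputable def StrF (d K : ℕ) : Finset (V d) :=
  (Finset.Icc (fun _ => -((K : ℤ) + 1)) (fun _ => (K : ℤ) + 1)).filter (· ∈ Str K)

/-- All combinatorial data of one scale of the construction. -/
structure Scale (d : ℕ) where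
  /-- half side of the region -/
  K : ℕ
  hK : 2 ≤ K
  /-- number of threads -/
  T : ℕ
  /-- terminals of the threads -/
  a : Fin T → V d
  b : Fin T → V d
  /-- length, edges and vertices of the threads -/
  L : Fin T → ℕ
  E : Fin T → Finset (Sym2 (V d))
  S : Fin T → Finset (V d)
  thread : ∀ t, PathNet (zd d) (E t) (S t) (a t) (b t) (L t)
  ha : ∀ t, a t ∈ Str K
  hb : ∀ t, b t ∈ Str K
  inner : ∀ t, ∀ v ∈ S t, v ≠ a t → v ≠ b t → v ∈ Free K
  efree : ∀ t, ∀ e ∈ E t, ∃ v ∈ e, v ∈ Free K
  /-- the set of primes -/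
  P : Finset ℕ
  hP : ∀ l ∈ P, l.Prime
  gadget : ∀ t, ∀ l ∈ P, ∃ (E' : Finset (Sym2 (V d))) (S' : Finset (V d)),
    Net (zd d) E' S' (a t) (b t) (L t : ℚ) ∧ Forces E' S' (a t) (b t) l ∧
    (∀ v ∈ S', v ≠ a t → v ≠ b t → v ∈ Free K) ∧ (∀ e ∈ E', ∃ v ∈ e, v ∈ Free K)
  /-- killing all threads makes a harmonic function constant on the structure -/
  kill : ∀ (M : Type) [AddCommGroup M] (u : V d → M), (∀ t, u (a t) = u (b t)) →
    (∀ (j : Fin d) (s : ℤ), s ≠ 0 → |s| ≤ K →
      (u ((s + 1) • bv j) - u (s • bv j)) + (u ((s - 1) • bv j) - u (s • bv j)) = 0) →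
    ∀ x ∈ (Str K : Set (V d)), u x = u 0
  /-- the size parameter -/
  sz : ℕ
  hsz : 1 ≤ sz
  szK : 2 * K + 4 ≤ 2 ^ sz
  szT : T ≤ 2 ^ sz
  szS : ∀ t, (StrF d K).card + (S t).card ≤ sz

/-! ### Letters of the ladder networks -/

/-- admissible letters: `e` is the total length of the two rails, `c` the length of the rung -/
def LetterOK (l : ℕ × ℕ) : Prop :=
  l.1 % 2 = 0 ∧ 2400 ≤ l.1 ∧ l.1 ≤ 10080 ∧ l.2 % 2 = 0 ∧ 400 ≤ l.2 ∧ l.2 ≤ 134400

/-- resistance of a ladder: the head of the list is the outermost letter -/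
def res (b : ℚ) : List (ℕ × ℕ) → ℚ
  | [] => b
  | l :: w => ((l.2 : ℚ) * (res b w + l.1)) / (l.2 + (res b w + l.1))

/-- `(4^m - 1) / 3` -/
def S4 (m : ℕ) : ℕ := (4 ^ m - 1) / 3

/-! ### The lattice Laplacian along an arbitrary set of open edges -/

/-- the `2d` unit steps -/
def stp {d : ℕ} (i : Fin d × Bool) : V d := if i.2 then bv i.1 else - bv i.1

open Classical in
/-- Laplacian of `u` at `x` on the lattice with set of open edges `A` -/
noncomputable def lapS {d : ℕ} {M : Type*} [AddCommGroup M] (A : Set (Sym2 (V d))) (u : V d → M)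
    (x : V d) : M :=
  ∑ i : Fin d × Bool, if s(x, x + stp i) ∈ A then u (x + stp i) - u x else 0

/-! ### Configurations and the product measure -/

/-- edges: `(x, j)` is the edge from `x` to `x + bv j` -/
abbrev Ed (d : ℕ) : Type := V d × Fin d

/-- configurations -/
abbrev Cfg (d : ℕ) : Type := Ed d → Bool

/-- Bernoulli law with parameter `p` -/
noncomputable def bern (p : ℝ) : MeasureTheory.Measure Bool :=
  ENNReal.ofReal p • MeasureTheory.Measure.dirac true +
    ENNReal.ofReal (1 - p) • MeasureTheory.Measure.dirac false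

/-- Bernoulli percolation measure -/
noncomputable def mu (d : ℕ) (p : ℝ) : MeasureTheory.Measure (Cfg d) :=
  MeasureTheory.Measure.infinitePi (fun _ => bern p)

/-- the event `A` depends only on the edges of `T` -/
def DetBy {d : ℕ} (T : Finset (Ed d)) (A : Set (Cfg d)) : Prop :=
  ∀ w w' : Cfg d, (∀ e ∈ T, w e = w' e) → (w ∈ A ↔ w' ∈ A)

/-- shifted configuration -/
def shiftC {d : ℕ} (v : V d) (w : Cfg d) : Cfg d := fun e => w (e.1 + v, e.2)

/-- replace the configuration `w` by `η` on `W` -/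
def putC {d : ℕ} (W : Finset (Ed d)) (η w : Cfg d) : Cfg d := fun e => if e ∈ W then η e else w e

end Pool.Agent.Lib.MP_79dc3a_pr
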