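import Pool.Agent.Lib.MP_79dc3a_pr.NetCalc

/-! Sites, patterns and events (second half of MP_79dc3a_pr). -/

namespace Pool.Agent.Lib.MP_79dc3a_pr

open Finset

/-- the set of open edges of a configuration -/
def opn {d : ℕ} (w : Cfg d) : Set (Sym2 (V d)) :=
  {e | ∃ f : Ed d, w f = true ∧ e = s(f.1, f.1 + bv f.2)}

/-- centre of the site `z` -/
def cen {d : ℕ} (K : ℕ) (z : V d) : V d := ((2 * K + 4 : ℕ) : ℤ) • z

open Classical in
/-- the edges of the region of the site `z` -/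
noncomputable def Wd {d : ℕ} (K : ℕ) (z : V d) : Finset (Ed d) :=
  ((Finset.Icc (fun i => cen K z i - (K + 1)) (fun i => cen K z i + (K + 1))) ×ˢ
    (Finset.univ : Finset (Fin d))).filter
    (fun f => inQ K (f.1 - cen K z) ∧ inQ K (f.1 + bv f.2 - cen K z))

/-- pattern at the site with centre `c`: all edges touching the structure or `S` are open exactly
if they join two vertices of the structure or belong to `E` (local coordinates) -/
def Pat {d : ℕ} (K : ℕ) (c : V d) (E : Finset (Sym2 (V d))) (S : Finset (V d))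
    (A : Set (Sym2 (V d))) : Prop :=
  ∀ x y : V d, inQ K x → inQ K y → (zd d).Adj x y → (x ∈ (Str K : Set (V d)) ∨ x ∈ S) →
    (s(x + c, y + c) ∈ A ↔
      ((x ∈ (Str K : Set (V d)) ∧ y ∈ (Str K : Set (V d))) ∨ s(x, y) ∈ E))

/-- the box of radius `r` around `c` -/
noncomputable def Bx {d : ℕ} (c : V d) (r : ℕ) : Finset (V d) :=
  Finset.Icc (fun i => c i - (r : ℤ)) (fun i => c i + (r : ℤ))

/-- radius of the interior of the box containing the sites `z` with `|z| ≤ m` -/
def rad (K m : ℕ) : ℕ := (2 * K + 4) * (m + 1) - 1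

/-- `u` is harmonic on the box of radius `r` around `c` -/
def HarmB {d : ℕ} {M : Type} [AddCommGroup M] (A : Set (Sym2 (V d))) (c : V d) (r : ℕ)
    (u : V d → M) : Prop :=
  ∀ x ∈ Bx c r, lapS A u x = 0

/-- the current of `u` at the terminal `a` of the network `E` placed at the centre `c` -/
def cur {d : ℕ} {M : Type} [AddCommGroup M] (E : Finset (Sym2 (V d))) (a c : V d)
    (u : V d → M) : M :=
  lap E (fun y => u (y + c)) a

/-- harmonic functions modulo `l` without current in the threads; sites `z` with `|z - v| ≤ m` -/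
def X2 {d : ℕ} (Sc : Scale d) (l : ℕ) (v : V d) (m : ℕ) (w : Cfg d) (u : V d → ZMod l) : Prop :=
  HarmB (opn w) (cen Sc.K v) (rad Sc.K m) u ∧
  ∀ z ∈ Bx v m, ∀ t, Pat Sc.K (cen Sc.K z) (Sc.E t) (Sc.S t) (opn w) →
    cur (Sc.E t) (Sc.a t) (cen Sc.K z) u = 0

/-- harmonic functions modulo `l` which are constant on the structure of the sites with
empty pattern -/
def X3 {d : ℕ} (Sc : Scale d) (l : ℕ) (v : V d) (m : ℕ) (w : Cfg d) (u : V d → ZMod l) : Prop :=
  HarmB (opn w) (cen Sc.K v) (rad Sc.K m) u ∧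
  ∀ z ∈ Bx v m, Pat Sc.K (cen Sc.K z) ∅ ∅ (opn w) →
    ∀ x ∈ (Str Sc.K : Set (V d)), u (x + cen Sc.K z) = u (cen Sc.K z)

/-- the thread `t` at the site `z` carries a current not divisible by `l` -/
def F1 {d : ℕ} (Sc : Scale d) (l : ℕ) (t : Fin Sc.T) (z v : V d) (m : ℕ) : Set (Cfg d) :=
  {w | Pat Sc.K (cen Sc.K z) (Sc.E t) (Sc.S t) (opn w) ∧
    ∃ u : V d → ℤ, HarmB (opn w) (cen Sc.K v) (rad Sc.K m) u ∧
      ¬ (l : ℤ) ∣ cur (Sc.E t) (Sc.a t) (cen Sc.K z) u}

/-- at the site `z` with empty pattern the two terminals of the thread `t` are not equal -/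
def F2 {d : ℕ} (Sc : Scale d) (l : ℕ) (t : Fin Sc.T) (z v : V d) (m : ℕ) : Set (Cfg d) :=
  {w | Pat Sc.K (cen Sc.K z) ∅ ∅ (opn w) ∧
    ∃ u : V d → ZMod l, X2 Sc l v m w u ∧ u (Sc.a t + cen Sc.K z) ≠ u (Sc.b t + cen Sc.K z)}

/-- some open edge of the region of the site `z` has a non-zero gradient -/
def F3 {d : ℕ} (Sc : Scale d) (l : ℕ) (z v : V d) (m : ℕ) : Set (Cfg d) :=
  {w | ∃ u : V d → ZMod l, X3 Sc l v m w u ∧
    ∃ f ∈ Wd Sc.K z, w f = true ∧ u (f.1 + bv f.2) ≠ u f.1}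

/-- configurations which can be modified on `W` so as to lie in `F` -/
def Mod {d : ℕ} (W : Finset (Ed d)) (F : Set (Cfg d)) : Set (Cfg d) :=
  {w | ∃ w' ∈ F, ∀ f, f ∉ W → w' f = w f}

/-- number of boundary points of the box of the sites `|z| ≤ m` -/
noncomputable def bd (d K m : ℕ) : ℕ := ((Bx (0 : V d) (rad K m + 1)) \ (Bx (0 : V d) (rad K m))).card

/-- number of points of the box of the sites `|z| ≤ m` -/
noncomputable def vol (d K m : ℕ) : ℕ := (Bx (0 : V d) (rad K m + 1)).card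

end Pool.Agent.Lib.MP_79dc3a_pr
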