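import Pool.Agent.Lib.MP_79dc3a_pr.Surg
import Pool.Agent.Lib.MP_79dc3a_pr.Measure

/-!
J15 Det: determination of the events by finitely many edges, probability of a pattern,
shifts and monotonicity for MP_79dc3a_pr.
-/

namespace Pool.Agent.Lib.MP_79dc3a_pr

open Finset MeasureTheory

/-! ### Congruence -/

/-- an edge of the lattice, seen as an unordered pair -/
theorem det_opn_iff {d : ℕ} {w : Cfg d} (x : V d) (j : Fin d) :
    s(x, x + bv j) ∈ opn w ↔ w (x, j) = true := mem_opn (f := (x, j))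

theorem det_opn_iff' {d : ℕ} {w : Cfg d} (x : V d) (j : Fin d) :
    s(x + bv j, x) ∈ opn w ↔ w (x, j) = true := by
  rw [Sym2.eq_swap]; exact det_opn_iff x j

theorem det_opn_stp {d : ℕ} {w : Cfg d} (x : V d) (i : Fin d × Bool) :
    s(x, x + stp i) ∈ opn w ↔ w (if i.2 then x else x - bv i.1, i.1) = true := by
  rcases i with ⟨j, b⟩
  cases b
  · have h := det_opn_iff' (w := w) (x - bv j) j
    rw [sub_add_cancel] at h
    simpa [stp, sub_eq_add_neg] using h
  · simpa [stp] using det_opn_iff (w := w) x j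

theorem det_Pat_congr {d K : ℕ} {z : V d} {E : Finset (Sym2 (V d))} {S : Finset (V d)}
    {w w' : Cfg d} (h : ∀ f ∈ Wd K z, w f = w' f) :
    Pat K (cen K z) E S (opn w) → Pat K (cen K z) E S (opn w') := by
  intro hP x y hx hy hadj hxS
  rw [← hP x y hx hy hadj hxS]
  obtain ⟨j, h1 | h1⟩ := hadj.symm
  · have h2 : x + cen K z = y + cen K z + bv j := by rw [h1]; abel
    rw [h2, det_opn_iff', det_opn_iff', h]
    rw [mem_Wd]
    constructor
    · simpa using hy
    · have h3 : y + cen K z + bv j - cen K z = x := by rw [h1]; abel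
      simpa [h3] using hx
  · have h2 : y + cen K z = x + cen K z + bv j := by rw [h1]; abel
    rw [h2, det_opn_iff, det_opn_iff, h]
    rw [mem_Wd]
    constructor
    · simpa using hx
    · have h3 : x + cen K z + bv j - cen K z = y := by rw [h1]; abel
      simpa [h3] using hy

/-- the edges starting in a box -/
noncomputable def EB {d : ℕ} (c : V d) (r : ℕ) : Finset (Ed d) := Bx c (r + 1) ×ˢ Finset.univ

theorem det_mem_EB {d : ℕ} {c : V d} {r : ℕ} {f : Ed d} : f ∈ EB c r ↔ f.1 ∈ Bx c (r + 1) := by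
  simp [EB]

theorem det_HarmB_congr {d : ℕ} {M : Type} [AddCommGroup M] {c : V d} {r : ℕ} {w w' : Cfg d}
    (h : ∀ f ∈ EB c r, w f = w' f) {u : V d → M} :
    HarmB (opn w) c r u → HarmB (opn w') c r u := by
  intro hu x hx
  rw [← hu x hx]
  unfold lapS
  refine Finset.sum_congr rfl fun i _ => ?_
  rw [mem_Bx] at hx
  have h1 : s(x, x + stp i) ∈ opn w ↔ s(x, x + stp i) ∈ opn w' := by
    rw [det_opn_stp, det_opn_stp, h]
    rw [det_mem_EB, mem_Bx]
    intro k
    have h2 := hx k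
    rw [abs_le] at h2 ⊢
    push_cast
    split
    · constructor <;> omega
    · have h3 : (bv i.1 : V d) k = 0 ∨ (bv i.1 : V d) k = 1 := by
        rw [surg_abs_bv]; split
        · exact Or.inr rfl
        · exact Or.inl rfl
      simp only [Pi.sub_apply]
      constructor <;> omega
  by_cases h2 : s(x, x + stp i) ∈ opn w
  · rw [if_pos h2, if_pos (h1.1 h2)]
  · rw [if_neg h2, if_neg (fun h3 => h2 (h1.2 h3))]

theorem det_F1_congr {d : ℕ} (Sc : Scale d) (l : ℕ) (t : Fin Sc.T) (z v : V d) (m : ℕ)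
    {w w' : Cfg d} (h : ∀ f ∈ Wd Sc.K z, w f = w' f)
    (h' : ∀ f ∈ EB (cen Sc.K v) (rad Sc.K m), w f = w' f) :
    w ∈ F1 Sc l t z v m → w' ∈ F1 Sc l t z v m := by
  rintro ⟨h1, u, h2, h3⟩
  exact ⟨det_Pat_congr h h1, u, det_HarmB_congr h' h2, h3⟩

theorem det_X2_congr {d : ℕ} (Sc : Scale d) (l : ℕ) (v : V d) (m : ℕ) {w w' : Cfg d}
    (h : ∀ z ∈ Bx v m, ∀ f ∈ Wd Sc.K z, w f = w' f)
    (h' : ∀ f ∈ EB (cen Sc.K v) (rad Sc.K m), w f = w' f) {u : V d → ZMod l} :
    X2 Sc l v m w u → X2 Sc l v m w' u := by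
  rintro ⟨h1, h2⟩
  refine ⟨det_HarmB_congr h' h1, fun z hz t hP => h2 z hz t ?_⟩
  exact det_Pat_congr (fun f hf => (h z hz f hf).symm) hP

theorem det_X3_congr {d : ℕ} (Sc : Scale d) (l : ℕ) (v : V d) (m : ℕ) {w w' : Cfg d}
    (h : ∀ z ∈ Bx v m, ∀ f ∈ Wd Sc.K z, w f = w' f)
    (h' : ∀ f ∈ EB (cen Sc.K v) (rad Sc.K m), w f = w' f) {u : V d → ZMod l} :
    X3 Sc l v m w u → X3 Sc l v m w' u := by
  rintro ⟨h1, h2⟩
  refine ⟨det_HarmB_congr h' h1, fun z hz hP => h2 z hz ?_⟩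
  exact det_Pat_congr (fun f hf => (h z hz f hf).symm) hP

open Classical in
/-- all the edges which matter for the three events -/
noncomputable def detT {d : ℕ} (Sc : Scale d) (z v : V d) (m : ℕ) : Finset (Ed d) :=
  Wd Sc.K z ∪ EB (cen Sc.K v) (rad Sc.K m) ∪ (Bx v m).biUnion (fun z' => Wd Sc.K z')

theorem det_T1 {d : ℕ} {Sc : Scale d} {z v : V d} {m : ℕ} {w w' : Cfg d}
    (h : ∀ f ∈ detT Sc z v m, w f = w' f) : ∀ f ∈ Wd Sc.K z, w f = w' f := by
  classical
  intro f hf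
  exact h f (Finset.mem_union_left _ (Finset.mem_union_left _ hf))

theorem det_T2 {d : ℕ} {Sc : Scale d} {z v : V d} {m : ℕ} {w w' : Cfg d}
    (h : ∀ f ∈ detT Sc z v m, w f = w' f) :
    ∀ f ∈ EB (cen Sc.K v) (rad Sc.K m), w f = w' f := by
  classical
  intro f hf
  exact h f (Finset.mem_union_left _ (Finset.mem_union_right _ hf))

theorem det_T3 {d : ℕ} {Sc : Scale d} {z v : V d} {m : ℕ} {w w' : Cfg d}
    (h : ∀ f ∈ detT Sc z v m, w f = w' f) :
    ∀ z' ∈ Bx v m, ∀ f ∈ Wd Sc.K z', w f = w' f := by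
  classical
  intro z' hz' f hf
  exact h f (Finset.mem_union_right _ (Finset.mem_biUnion.2 ⟨z', hz', hf⟩))

theorem det_F2_congr {d : ℕ} (Sc : Scale d) (l : ℕ) (t : Fin Sc.T) (z v : V d) (m : ℕ)
    {w w' : Cfg d} (h : ∀ f ∈ detT Sc z v m, w f = w' f) :
    w ∈ F2 Sc l t z v m → w' ∈ F2 Sc l t z v m := by
  rintro ⟨h1, u, h2, h3⟩
  exact ⟨det_Pat_congr (det_T1 h) h1, u, det_X2_congr Sc l v m (det_T3 h) (det_T2 h) h2, h3⟩

theorem det_F3_congr {d : ℕ} (Sc : Scale d) (l : ℕ) (z v : V d) (m : ℕ)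
    {w w' : Cfg d} (h : ∀ f ∈ detT Sc z v m, w f = w' f) :
    w ∈ F3 Sc l z v m → w' ∈ F3 Sc l z v m := by
  rintro ⟨u, h2, f, hf, hw, h3⟩
  exact ⟨u, det_X3_congr Sc l v m (det_T3 h) (det_T2 h) h2, f, hf, (det_T1 h f hf) ▸ hw, h3⟩

theorem det_F1 {d : ℕ} (Sc : Scale d) (l : ℕ) (t : Fin Sc.T) (z v : V d) (m : ℕ) :
    ∃ T, DetBy T (F1 Sc l t z v m) :=
  ⟨detT Sc z v m, fun _ _ h => ⟨det_F1_congr Sc l t z v m (det_T1 h) (det_T2 h),
    det_F1_congr Sc l t z v m (fun f hf => (det_T1 h f hf).symm)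
      (fun f hf => (det_T2 h f hf).symm)⟩⟩

theorem det_F2 {d : ℕ} (Sc : Scale d) (l : ℕ) (t : Fin Sc.T) (z v : V d) (m : ℕ) :
    ∃ T, DetBy T (F2 Sc l t z v m) :=
  ⟨detT Sc z v m, fun _ _ h => ⟨det_F2_congr Sc l t z v m h,
    det_F2_congr Sc l t z v m (fun f hf => (h f hf).symm)⟩⟩

theorem det_F3 {d : ℕ} (Sc : Scale d) (l : ℕ) (z v : V d) (m : ℕ) :
    ∃ T, DetBy T (F3 Sc l z v m) :=
  ⟨detT Sc z v m, fun _ _ h => ⟨det_F3_congr Sc l z v m h,
    det_F3_congr Sc l z v m (fun f hf => (h f hf).symm)⟩⟩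

theorem det_Mod {d : ℕ} {T W : Finset (Ed d)} {F : Set (Cfg d)} (h : DetBy T F) :
    DetBy (T \ W) (Mod W F) := by
  have key : ∀ w w2 : Cfg d, (∀ e ∈ T \ W, w e = w2 e) → w ∈ Mod W F → w2 ∈ Mod W F := by
    rintro w w2 hw ⟨w', hw', hoff⟩
    refine ⟨fun f => if f ∈ W then w' f else w2 f, ?_, fun f hf => if_neg hf⟩
    refine (h w' _ fun f hf => ?_).1 hw'
    by_cases hfW : f ∈ W
    · simp [hfW]
    · simp only [hfW, if_false]
      rw [hoff f hfW]
      exact hw f (Finset.mem_sdiff.2 ⟨hf, hfW⟩)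
  intro w w2 hw
  exact ⟨key w w2 hw, key w2 w fun e he => (hw e he).symm⟩

theorem det_put {d : ℕ} {T W : Finset (Ed d)} {F : Set (Cfg d)} (η : Cfg d) (h : DetBy T F) :
    DetBy (T \ W) {w | putC W η w ∈ F} := by
  intro w w' hw
  refine h _ _ fun e he => ?_
  unfold putC
  by_cases heW : e ∈ W
  · simp [heW]
  · simp only [heW, if_false]
    exact hw e (Finset.mem_sdiff.2 ⟨he, heW⟩)

theorem det_Pat {d K : ℕ} (z : V d) (E : Finset (Sym2 (V d))) (S : Finset (V d)) :
    DetBy (Wd K z) {w | Pat K (cen K z) E S (opn w)} := by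
  intro w w' hw
  exact ⟨det_Pat_congr hw, det_Pat_congr fun f hf => (hw f hf).symm⟩

/-! ### Probability of a pattern -/

theorem det_mem_StrF {d K : ℕ} {x : V d} (hx : x ∈ (Str K : Set (V d))) : x ∈ StrF d K := by
  classical
  unfold StrF
  rw [Finset.mem_filter]
  refine ⟨?_, hx⟩
  rw [Finset.mem_Icc]
  refine ⟨fun i => ?_, fun i => ?_⟩
  · exact (abs_le.1 (hx.1.1 i)).1
  · exact (abs_le.1 (hx.1.1 i)).2

open Classical in
/-- the edges touching the structure or `S` at the site `z` -/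
noncomputable def patT {d : ℕ} (K : ℕ) (z : V d) (S : Finset (V d)) : Finset (Ed d) :=
  ((StrF d K ∪ S) ×ˢ (Finset.univ : Finset (Fin d × Bool))).image
    (fun q => (if q.2.2 then q.1 + cen K z else q.1 + cen K z - bv q.2.1, q.2.1))

theorem det_card_patT {d : ℕ} (K : ℕ) (z : V d) (S : Finset (V d)) :
    (patT K z S).card ≤ 2 * d * ((StrF d K).card + S.card) := by
  classical
  unfold patT
  refine Finset.card_image_le.trans ?_
  rw [Finset.card_product, Finset.card_univ, Fintype.card_prod, Fintype.card_fin,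
    Fintype.card_bool]
  have := Finset.card_union_le (StrF d K) S
  calc (StrF d K ∪ S).card * (d * 2) ≤ ((StrF d K).card + S.card) * (d * 2) := by gcongr
    _ = _ := by ring

open Classical in
/-- the configuration realising the pattern -/
noncomputable def patC {d : ℕ} (K : ℕ) (z : V d) (E : Finset (Sym2 (V d))) : Cfg d := fun f =>
  decide ((f.1 - cen K z ∈ (Str K : Set (V d)) ∧ f.1 + bv f.2 - cen K z ∈ (Str K : Set (V d))) ∨
    s(f.1 - cen K z, f.1 + bv f.2 - cen K z) ∈ E)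

theorem det_patC {d K : ℕ} (z : V d) (E : Finset (Sym2 (V d))) (S : Finset (V d)) {w : Cfg d}
    (hw : ∀ e ∈ patT K z S, w e = patC K z E e) : Pat K (cen K z) E S (opn w) := by
  classical
  intro x y hx hy hadj hxS
  have hxm : x ∈ StrF d K ∪ S := by
    rw [Finset.mem_union]
    exact hxS.imp det_mem_StrF id
  obtain ⟨j, h1 | h1⟩ := hadj.symm
  · have h2 : x + cen K z = y + cen K z + bv j := by rw [h1]; abel
    have hmem : ((y + cen K z, j) : Ed d) ∈ patT K z S := by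
      unfold patT
      rw [Finset.mem_image]
      refine ⟨(x, (j, false)), Finset.mem_product.2 ⟨hxm, Finset.mem_univ _⟩, ?_⟩
      simp [h2]
    rw [h2, det_opn_iff', hw _ hmem]
    unfold patC
    rw [decide_eq_true_iff]
    have h3 : y + cen K z - cen K z = y := by abel
    have h4 : y + cen K z + bv j - cen K z = x := by rw [h1]; abel
    simp only [h3, h4]
    rw [Sym2.eq_swap (a := y), and_comm]
  · have h2 : y + cen K z = x + cen K z + bv j := by rw [h1]; abel
    have hmem : ((x + cen K z, j) : Ed d) ∈ patT K z S := by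
      unfold patT
      rw [Finset.mem_image]
      refine ⟨(x, (j, true)), Finset.mem_product.2 ⟨hxm, Finset.mem_univ _⟩, ?_⟩
      simp
    rw [h2, det_opn_iff, hw _ hmem]
    unfold patC
    rw [decide_eq_true_iff]
    have h3 : x + cen K z - cen K z = x := by abel
    have h4 : x + cen K z + bv j - cen K z = y := by rw [h1]; abel
    simp only [h3, h4]

theorem pat_prob {d K : ℕ} {p c : ℝ} (h0 : 0 ≤ p) (h1 : p ≤ 1) (hc : 0 ≤ c) (hcp : c ≤ p)
    (hcp' : c ≤ 1 - p) (z : V d) (E : Finset (Sym2 (V d))) (S : Finset (V d)) :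
    c ^ (2 * d * ((StrF d K).card + S.card)) ≤
      (mu d p).real {w | Pat K (cen K z) E S (opn w)} := by
  have hmu := mu_prob d p h0 h1
  calc c ^ (2 * d * ((StrF d K).card + S.card)) ≤ c ^ (patT K z S).card :=
        pow_le_pow_of_le_one hc (hcp.trans h1) (det_card_patT K z S)
    _ ≤ (mu d p).real {w | ∀ e ∈ patT K z S, w e = patC K z E e} :=
        mu_cyl h0 h1 hc hcp hcp' _ _
    _ ≤ (mu d p).real {w | Pat K (cen K z) E S (opn w)} := by
        refine measureReal_mono ?_ (measure_ne_top _ _)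
        intro w hw
        exact det_patC z E S hw

/-! ### Shifts -/

theorem det_cen_add {d : ℕ} (K : ℕ) (z v : V d) : cen K (z + v) = cen K z + cen K v := by
  unfold cen; rw [smul_add]

theorem det_opn_shift {d : ℕ} (w : Cfg d) (v x y : V d) :
    s(x + v, y + v) ∈ opn w ↔ s(x, y) ∈ opn (shiftC v w) := by
  constructor
  · rintro ⟨f, hf, he⟩
    refine ⟨(f.1 - v, f.2), ?_, ?_⟩
    · unfold shiftC
      simpa using hf
    · rw [Sym2.eq_iff] at he ⊢
      rcases he with ⟨h1, h2⟩ | ⟨h1, h2⟩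
      · left
        constructor
        · exact eq_sub_of_add_eq h1
        · have := eq_sub_of_add_eq h2
          rw [this]; dsimp only; abel
      · right
        constructor
        · have := eq_sub_of_add_eq h1
          rw [this]; dsimp only; abel
        · exact eq_sub_of_add_eq h2
  · rintro ⟨f, hf, he⟩
    refine ⟨(f.1 + v, f.2), hf, ?_⟩
    rw [Sym2.eq_iff] at he ⊢
    rcases he with ⟨h1, h2⟩ | ⟨h1, h2⟩
    · left
      refine ⟨by rw [h1], by rw [h2]; dsimp only; abel⟩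
    · right
      refine ⟨by rw [h1]; dsimp only; abel, by rw [h2]⟩

theorem det_Pat_shift {d K : ℕ} (c v : V d) (E : Finset (Sym2 (V d))) (S : Finset (V d))
    (w : Cfg d) : Pat K c E S (opn (shiftC v w)) ↔ Pat K (c + v) E S (opn w) := by
  unfold Pat
  refine forall_congr' fun x => forall_congr' fun y => forall_congr' fun _ =>
    forall_congr' fun _ => forall_congr' fun _ => forall_congr' fun _ => ?_
  rw [← add_assoc x, ← add_assoc y, det_opn_shift w v]

theorem det_Bx_shift {d : ℕ} (c v x : V d) (r : ℕ) : x + v ∈ Bx (c + v) r ↔ x ∈ Bx c r := by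
  rw [mem_Bx, mem_Bx]
  refine forall_congr' fun i => ?_
  simp

theorem det_lapS_shift {d : ℕ} {M : Type} [AddCommGroup M] (w : Cfg d) (u : V d → M)
    (v x : V d) : lapS (opn (shiftC v w)) (fun y => u (y + v)) x = lapS (opn w) u (x + v) := by
  unfold lapS
  refine Finset.sum_congr rfl fun i _ => ?_
  have h : x + v + stp i = x + stp i + v := by abel
  rw [h]
  by_cases h2 : s(x, x + stp i) ∈ opn (shiftC v w)
  · rw [if_pos h2, if_pos ((det_opn_shift w v _ _).2 h2)]
  · rw [if_neg h2, if_neg (fun h3 => h2 ((det_opn_shift w v _ _).1 h3))]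

theorem det_HarmB_shift {d : ℕ} {M : Type} [AddCommGroup M] (w : Cfg d) (u : V d → M)
    (c v : V d) (r : ℕ) :
    HarmB (opn (shiftC v w)) c r (fun y => u (y + v)) ↔ HarmB (opn w) (c + v) r u := by
  unfold HarmB
  constructor
  · intro h x hx
    have h1 := h (x - v) (by rw [← det_Bx_shift c v]; simpa using hx)
    rw [det_lapS_shift] at h1
    simpa using h1
  · intro h x hx
    rw [det_lapS_shift]
    exact h _ ((det_Bx_shift c v x r).2 hx)

theorem det_cur_shift {d : ℕ} {M : Type} [AddCommGroup M] (E : Finset (Sym2 (V d)))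
    (a c v : V d) (u : V d → M) :
    cur E a c (fun y => u (y + v)) = cur E a (c + v) u := by
  unfold cur
  simp only [add_assoc]

theorem det_X2_shift {d : ℕ} (Sc : Scale d) (l : ℕ) (v v' : V d) (m : ℕ) (w : Cfg d)
    (u : V d → ZMod l) :
    X2 Sc l v m (shiftC (cen Sc.K v') w) (fun y => u (y + cen Sc.K v')) ↔
      X2 Sc l (v + v') m w u := by
  unfold X2
  rw [det_HarmB_shift, ← det_cen_add]
  refine and_congr_right fun _ => ?_
  constructor
  · intro h z hz t hP
    have h1 := h (z - v') (by rw [← det_Bx_shift v v']; simpa using hz) t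
    rw [det_Pat_shift, det_cur_shift, ← det_cen_add, sub_add_cancel] at h1
    exact h1 hP
  · intro h z hz t hP
    rw [det_Pat_shift, ← det_cen_add] at hP
    rw [det_cur_shift, ← det_cen_add]
    exact h _ ((det_Bx_shift v v' z m).2 hz) t hP

theorem det_X3_shift {d : ℕ} (Sc : Scale d) (l : ℕ) (v v' : V d) (m : ℕ) (w : Cfg d)
    (u : V d → ZMod l) :
    X3 Sc l v m (shiftC (cen Sc.K v') w) (fun y => u (y + cen Sc.K v')) ↔
      X3 Sc l (v + v') m w u := by
  unfold X3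
  rw [det_HarmB_shift, ← det_cen_add]
  refine and_congr_right fun _ => ?_
  constructor
  · intro h z hz hP x hx
    have h1 := h (z - v') (by rw [← det_Bx_shift v v']; simpa using hz)
    rw [det_Pat_shift, ← det_cen_add, sub_add_cancel] at h1
    have h2 := h1 hP x hx
    simp only [add_assoc] at h2
    rwa [← det_cen_add, sub_add_cancel] at h2
  · intro h z hz hP x hx
    rw [det_Pat_shift, ← det_cen_add] at hP
    have h2 := h _ ((det_Bx_shift v v' z m).2 hz) hP x hx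
    simp only [add_assoc, ← det_cen_add]
    exact h2

theorem det_unshift {d : ℕ} {M : Type} (u : V d → M) (v : V d) :
    (fun y => (fun x => u (x - v)) (y + v)) = u := by
  funext y
  simp

theorem shift_F1 {d : ℕ} (Sc : Scale d) (l : ℕ) (t : Fin Sc.T) (z v v' : V d) (m : ℕ)
    (w : Cfg d) : shiftC (cen Sc.K v') w ∈ F1 Sc l t z v m ↔
      w ∈ F1 Sc l t (z + v') (v + v') m := by
  unfold F1
  simp only [Set.mem_ofPred_eq]
  rw [det_Pat_shift, ← det_cen_add]
  refine and_congr_right fun _ => ?_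
  constructor
  · rintro ⟨u, h1, h2⟩
    refine ⟨fun x => u (x - cen Sc.K v'), ?_, ?_⟩
    · rw [det_cen_add, ← det_HarmB_shift, det_unshift]
      exact h1
    · rw [det_cen_add, ← det_cur_shift, det_unshift]
      exact h2
  · rintro ⟨u, h1, h2⟩
    refine ⟨fun x => u (x + cen Sc.K v'), ?_, ?_⟩
    · rw [det_HarmB_shift, ← det_cen_add]
      exact h1
    · rw [det_cur_shift, ← det_cen_add]
      exact h2

theorem shift_F2 {d : ℕ} (Sc : Scale d) (l : ℕ) (t : Fin Sc.T) (z v v' : V d) (m : ℕ)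
    (w : Cfg d) : shiftC (cen Sc.K v') w ∈ F2 Sc l t z v m ↔
      w ∈ F2 Sc l t (z + v') (v + v') m := by
  unfold F2
  simp only [Set.mem_ofPred_eq]
  rw [det_Pat_shift, ← det_cen_add]
  refine and_congr_right fun _ => ?_
  constructor
  · rintro ⟨u, h1, h2⟩
    refine ⟨fun x => u (x - cen Sc.K v'), ?_, ?_⟩
    · rw [← det_X2_shift, det_unshift]
      exact h1
    · rw [det_cen_add]
      have e1 : Sc.a t + (cen Sc.K z + cen Sc.K v') - cen Sc.K v' = Sc.a t + cen Sc.K z := by abel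
      have e2 : Sc.b t + (cen Sc.K z + cen Sc.K v') - cen Sc.K v' = Sc.b t + cen Sc.K z := by abel
      simp only [e1, e2]
      exact h2
  · rintro ⟨u, h1, h2⟩
    refine ⟨fun x => u (x + cen Sc.K v'), ?_, ?_⟩
    · rw [det_X2_shift]
      exact h1
    · simp only [add_assoc, ← det_cen_add]
      exact h2

theorem det_mem_Wd_shift {d K : ℕ} {z v : V d} {f : Ed d} :
    f ∈ Wd K (z + v) ↔ ((f.1 - cen K v, f.2) : Ed d) ∈ Wd K z := by
  rw [mem_Wd, mem_Wd, det_cen_add]
  have e1 : f.1 - (cen K z + cen K v) = f.1 - cen K v - cen K z := by abel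
  have e2 : f.1 + bv f.2 - (cen K z + cen K v) = f.1 - cen K v + bv f.2 - cen K z := by abel
  rw [e1, e2]

theorem det_mem_Wd_shift' {d K : ℕ} {z v : V d} {f : Ed d} :
    ((f.1 + cen K v, f.2) : Ed d) ∈ Wd K (z + v) ↔ f ∈ Wd K z := by
  rw [det_mem_Wd_shift]
  simp

theorem shift_F3 {d : ℕ} (Sc : Scale d) (l : ℕ) (z v v' : V d) (m : ℕ)
    (w : Cfg d) : shiftC (cen Sc.K v') w ∈ F3 Sc l z v m ↔
      w ∈ F3 Sc l (z + v') (v + v') m := by
  unfold F3
  simp only [Set.mem_ofPred_eq]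
  constructor
  · rintro ⟨u, h1, f, hf, hw, h2⟩
    refine ⟨fun x => u (x - cen Sc.K v'), ?_, (f.1 + cen Sc.K v', f.2),
      det_mem_Wd_shift'.2 hf, hw, ?_⟩
    · rw [← det_X3_shift, det_unshift]
      exact h1
    · have e1 : f.1 + cen Sc.K v' + bv f.2 - cen Sc.K v' = f.1 + bv f.2 := by abel
      simp only [e1, add_sub_cancel_right]
      exact h2
  · rintro ⟨u, h1, f, hf, hw, h2⟩
    refine ⟨fun x => u (x + cen Sc.K v'), ?_, (f.1 - cen Sc.K v', f.2),
      det_mem_Wd_shift.1 hf, ?_, ?_⟩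
    · rw [det_X3_shift]
      exact h1
    · unfold shiftC
      simpa using hw
    · have e1 : f.1 - cen Sc.K v' + bv f.2 + cen Sc.K v' = f.1 + bv f.2 := by abel
      simp only [e1, sub_add_cancel]
      exact h2

theorem shift_Mod {d K : ℕ} (z v' : V d) (F F' : Set (Cfg d))
    (h : ∀ w, shiftC (cen K v') w ∈ F ↔ w ∈ F') (w : Cfg d) :
    shiftC (cen K v') w ∈ Mod (Wd K z) F ↔ w ∈ Mod (Wd K (z + v')) F' := by
  constructor
  · rintro ⟨w', hw', hoff⟩
    refine ⟨fun f => w' (f.1 - cen K v', f.2), ?_, ?_⟩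
    · rw [← h]
      have e : shiftC (cen K v') (fun f : Ed d => w' (f.1 - cen K v', f.2)) = w' := by
        funext f
        unfold shiftC
        simp
      rw [e]
      exact hw'
    · intro f hf
      have h1 := hoff (f.1 - cen K v', f.2) (fun h2 => hf (det_mem_Wd_shift.2 h2))
      change w' (f.1 - cen K v', f.2) = w f
      rw [h1]
      unfold shiftC
      simp
  · rintro ⟨w', hw', hoff⟩
    refine ⟨shiftC (cen K v') w', (h w').2 hw', fun f hf => ?_⟩
    unfold shiftC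
    exact hoff _ (fun h2 => hf (det_mem_Wd_shift'.1 h2))

theorem shift_put {d K : ℕ} (z v' : V d) (η w : Cfg d) :
    shiftC (cen K v') (putC (Wd K (z + v')) (shiftC (- cen K (z + v')) η) w) =
      putC (Wd K z) (shiftC (- cen K z) η) (shiftC (cen K v') w) := by
  funext f
  unfold shiftC putC
  by_cases hf : f ∈ Wd K z
  · rw [if_pos hf, if_pos (det_mem_Wd_shift'.2 hf)]
    rw [det_cen_add]
    have e : f.1 + cen K v' + -(cen K z + cen K v') = f.1 + -cen K z := by abel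
    simp only [e]
  · rw [if_neg hf, if_neg (fun h => hf (det_mem_Wd_shift'.1 h))]

/-! ### Monotonicity -/

theorem det_Bx_mono {d : ℕ} {v v' : V d} {m m' : ℕ} (h : ∀ i, |v i - v' i| + m ≤ m') :
    ∀ z ∈ Bx v m, z ∈ Bx v' m' := by
  intro z hz
  rw [mem_Bx] at hz ⊢
  intro i
  have h1 := hz i
  have h2 := h i
  have h3 : |z i - v' i| ≤ |z i - v i| + |v i - v' i| := abs_sub_le _ _ _
  omega

theorem det_rad_mono {d : ℕ} (K : ℕ) {v v' : V d} {m m' : ℕ}
    (h : ∀ i, |v i - v' i| + m ≤ m') :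
    ∀ i, |cen K v i - cen K v' i| + (rad K m : ℕ) ≤ (rad K m' : ℕ) := by
  intro i
  have h1 := h i
  have e1 : |cen K v i - cen K v' i| = ((2 * K + 4 : ℕ) : ℤ) * |v i - v' i| := by
    unfold cen
    rw [Pi.smul_apply, Pi.smul_apply, smul_eq_mul, smul_eq_mul, ← mul_sub, abs_mul,
      Nat.abs_cast]
  have e2 : ∀ n : ℕ, ((rad K n : ℕ) : ℤ) = ((2 * K + 4 : ℕ) : ℤ) * (n + 1) - 1 := by
    intro n
    unfold rad
    have : 1 ≤ (2 * K + 4) * (n + 1) := Nat.mul_pos (by omega) (by omega)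
    push_cast [Nat.cast_sub this]
    ring
  rw [e1, e2, e2]
  have h2 : ((2 * K + 4 : ℕ) : ℤ) * (|v i - v' i| + m) ≤ ((2 * K + 4 : ℕ) : ℤ) * m' := by
    gcongr
  nlinarith [h2]

theorem det_HarmB_mono {d : ℕ} {M : Type} [AddCommGroup M] {A : Set (Sym2 (V d))} {K : ℕ}
    {v v' : V d} {m m' : ℕ} (h : ∀ i, |v i - v' i| + m ≤ m') {u : V d → M}
    (hu : HarmB A (cen K v') (rad K m') u) : HarmB A (cen K v) (rad K m) u :=
  fun x hx => hu x (det_Bx_mono (det_rad_mono K h) x hx)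

theorem mono_F1 {d : ℕ} (Sc : Scale d) (l : ℕ) (t : Fin Sc.T) (z v v' : V d) (m m' : ℕ)
    (h : ∀ i, |v i - v' i| + m ≤ m') : F1 Sc l t z v' m' ⊆ F1 Sc l t z v m := by
  rintro w ⟨h1, u, h2, h3⟩
  exact ⟨h1, u, det_HarmB_mono h h2, h3⟩

theorem mono_F2 {d : ℕ} (Sc : Scale d) (l : ℕ) (t : Fin Sc.T) (z v v' : V d) (m m' : ℕ)
    (h : ∀ i, |v i - v' i| + m ≤ m') : F2 Sc l t z v' m' ⊆ F2 Sc l t z v m := by
  rintro w ⟨h1, u, ⟨h2, h3⟩, h4⟩
  exact ⟨h1, u, ⟨det_HarmB_mono h h2, fun z' hz' => h3 z' (det_Bx_mono h z' hz')⟩, h4⟩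

theorem mono_F3 {d : ℕ} (Sc : Scale d) (l : ℕ) (z v v' : V d) (m m' : ℕ)
    (h : ∀ i, |v i - v' i| + m ≤ m') : F3 Sc l z v' m' ⊆ F3 Sc l z v m := by
  rintro w ⟨u, ⟨h2, h3⟩, h4⟩
  exact ⟨u, ⟨det_HarmB_mono h h2, fun z' hz' => h3 z' (det_Bx_mono h z' hz')⟩, h4⟩

end Pool.Agent.Lib.MP_79dc3a_pr
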