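import Pool.Agent.Lib.MP_79dc3a_pr.MainFV

/-! Almost sure constancy (J18). -/

namespace Pool.Agent.Lib.MP_79dc3a_pr

open Finset MeasureTheory

/-- the edge from `x` in direction `j` is open and carries a non-zero gradient of some
integer-valued function harmonic everywhere -/
def BadAt {d : ℕ} (x : V d) (j : Fin d) : Set (Cfg d) :=
  {w | ∃ u : V d → ℤ, (∀ y, lapS (opn w) u y = 0) ∧ w (x, j) = true ∧ u (x + bv j) ≠ u x}

theorem badAt_zero (d : ℕ) {p : ℝ} (h0 : 0 < p) (h1 : p < 1) (j : Fin (d + 2)) :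
    mu (d + 2) p (BadAt 0 j) = 0 := by
  have := mu_prob (d + 2) p h0.le h1.le
  let N : ℕ → Set (Cfg (d + 2)) := fun n =>
    {w | ∃ u : V (d + 2) → ℤ, (∀ y, lapS (opn w) u y = 0) ∧ w (0, j) = true ∧
      u (bv j) - u 0 ≠ 0 ∧ (u (bv j) - u 0).natAbs ≤ n}
  have hN : ∀ n, mu (d + 2) p (N n) = 0 := by
    intro n
    have hle : ∀ ε : ℝ, 0 < ε → mu (d + 2) p (N n) ≤ ENNReal.ofReal ε := by
      intro ε hε
      obtain ⟨l, hl, hln, R, F, hFm, hF, hmain⟩ := mainFV d h0 h1 hε n
      have hsub : N n ⊆ F := by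
        intro w hw
        by_contra hwF
        obtain ⟨u, hu, hop, hne, hle⟩ := hw
        have hdvd := hmain w hwF u (fun x _ => hu x) j hop
        have := Int.natAbs_le_of_dvd_ne_zero hdvd hne
        rw [Int.natAbs_natCast] at this
        omega
      calc mu (d + 2) p (N n) ≤ mu (d + 2) p F := measure_mono hsub
        _ = ENNReal.ofReal ((mu (d + 2) p).real F) := by
            rw [measureReal_def, ENNReal.ofReal_toReal (measure_ne_top _ _)]
        _ ≤ ENNReal.ofReal ε := ENNReal.ofReal_le_ofReal hF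
    by_contra hne
    have hpos : 0 < mu (d + 2) p (N n) := pos_iff_ne_zero.2 hne
    have hfin : mu (d + 2) p (N n) ≠ ⊤ := measure_ne_top _ _
    have htp : 0 < (mu (d + 2) p (N n)).toReal := ENNReal.toReal_pos hne hfin
    have := hle ((mu (d + 2) p (N n)).toReal / 2) (by positivity)
    have h2 : (mu (d + 2) p (N n)).toReal ≤ (mu (d + 2) p (N n)).toReal / 2 := by
      have h3 := ENNReal.toReal_mono ENNReal.ofReal_ne_top this
      rwa [ENNReal.toReal_ofReal (by positivity)] at h3
    linarith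
  have hsub : BadAt (0 : V (d + 2)) j ⊆ ⋃ n, N n := by
    rintro w ⟨u, hu, hop, hne⟩
    rw [Set.mem_iUnion]
    refine ⟨(u (bv j) - u 0).natAbs, u, hu, hop, ?_, le_rfl⟩
    rw [zero_add] at hne
    exact sub_ne_zero.2 hne
  exact measure_mono_null hsub (measure_iUnion_null hN)

theorem bern_prob' {p : ℝ} (h0 : 0 ≤ p) (h1 : p ≤ 1) : IsProbabilityMeasure (bern p) := by
  constructor
  unfold bern
  simp only [Measure.coe_add, Measure.coe_smul, Pi.add_apply, Pi.smul_apply, measure_univ,
    smul_eq_mul, mul_one]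
  rw [← ENNReal.ofReal_add h0 (by linarith)]
  simp

/-- shift of the vertex set -/
theorem opn_shift {d : ℕ} (v : V d) (w : Cfg d) (x y : V d) :
    s(x, y) ∈ opn (shiftC v w) ↔ s(x + v, y + v) ∈ opn w := by
  constructor
  · rintro ⟨f, hf, he⟩
    refine ⟨(f.1 + v, f.2), hf, ?_⟩
    rw [Sym2.eq_iff] at he ⊢
    rcases he with ⟨rfl, rfl⟩ | ⟨rfl, rfl⟩
    · exact Or.inl ⟨rfl, by simp only; abel⟩
    · exact Or.inr ⟨by simp only; abel, rfl⟩
  · rintro ⟨f, hf, he⟩
    refine ⟨(f.1 - v, f.2), ?_, ?_⟩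
    · unfold shiftC
      simp only [sub_add_cancel]
      exact hf
    · rw [Sym2.eq_iff] at he ⊢
      rcases he with ⟨h, h'⟩ | ⟨h, h'⟩
      · refine Or.inl ⟨by simp only; rw [← h]; abel, ?_⟩
        simp only
        have : y = f.1 + bv f.2 - v := by rw [← h']; abel
        rw [this]; abel
      · refine Or.inr ⟨?_, by simp only; rw [← h']; abel⟩
        simp only
        have : x = f.1 + bv f.2 - v := by rw [← h]; abel
        rw [this]; abel

theorem lapS_shift {d : ℕ} {M : Type} [AddCommGroup M] (v : V d) (w : Cfg d) (u : V d → M)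
    (x : V d) : lapS (opn (shiftC v w)) (fun y => u (y + v)) x = lapS (opn w) u (x + v) := by
  unfold lapS
  refine Finset.sum_congr rfl (fun i _ => ?_)
  have h1 : (s(x, x + stp i) ∈ opn (shiftC v w)) ↔ (s(x + v, x + v + stp i) ∈ opn w) := by
    rw [opn_shift]
    have : x + stp i + v = x + v + stp i := by abel
    rw [this]
  have h2 : x + stp i + v = x + v + stp i := by abel
  simp only [h2]
  by_cases h : s(x + v, x + v + stp i) ∈ opn w
  · rw [if_pos (h1.2 h), if_pos h]
  · rw [if_neg (fun h' => h (h1.1 h')), if_neg h]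

theorem mu_shift_measurePreserving {d : ℕ} {p : ℝ} (h0 : 0 ≤ p) (h1 : p ≤ 1) (v : V d) :
    MeasurePreserving (shiftC v) (mu d p) (mu d p) := by
  have hprob := bern_prob' h0 h1
  let e : Ed d ≃ Ed d :=
    { toFun := fun y => (y.1 - v, y.2)
      invFun := fun y => (y.1 + v, y.2)
      left_inv := fun y => by simp
      right_inv := fun y => by simp }
  have h := Measure.infinitePi_map_piCongrLeft (fun _ : Ed d => bern p) e
  have hfun : (shiftC v : Cfg d → Cfg d) =
      MeasurableEquiv.piCongrLeft (fun _ : Ed d => Bool) e := by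
    funext w
    funext x
    obtain ⟨y, rfl⟩ := e.surjective x
    have h2 := MeasurableEquiv.piCongrLeft_apply_apply (β := fun _ : Ed d => Bool) e w y
    rw [h2]
    change w ((y.1 - v) + v, y.2) = w y
    rw [sub_add_cancel]
  refine ⟨?_, ?_⟩
  · rw [hfun]
    exact MeasurableEquiv.measurable _
  · rw [hfun]
    exact h

theorem badAt_null (d : ℕ) {p : ℝ} (h0 : 0 < p) (h1 : p < 1) (x : V (d + 2)) (j : Fin (d + 2)) :
    mu (d + 2) p (BadAt x j) = 0 := by
  have := mu_prob (d + 2) p h0.le h1.le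
  have hz := badAt_zero d h0 h1 j
  have hsub : BadAt x j ⊆ {w | shiftC x w ∈ BadAt (0 : V (d + 2)) j} := by
    rintro w ⟨u, hu, hop, hne⟩
    refine ⟨fun y => u (y + x), ?_, ?_, ?_⟩
    · intro y
      rw [lapS_shift]
      exact hu _
    · unfold shiftC
      simp only [zero_add]
      exact hop
    · simp only [zero_add]
      rw [add_comm (bv j) x]
      exact hne
  refine measure_mono_null hsub ?_
  exact (mu_shift_measurePreserving h0.le h1.le x).quasiMeasurePreserving.preimage_null hz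

theorem ae_const (d : ℕ) {p : ℝ} (h0 : 0 < p) (h1 : p < 1) :
    ∀ᵐ w ∂(mu (d + 2) p), ∀ u : V (d + 2) → ℤ, (∀ y, lapS (opn w) u y = 0) →
      ∀ f : Ed (d + 2), w f = true → u (f.1 + bv f.2) = u f.1 := by
  have h : ∀ᵐ w ∂(mu (d + 2) p), ∀ f : Ed (d + 2), w ∉ BadAt f.1 f.2 := by
    rw [ae_all_iff]
    intro f
    rw [ae_iff]
    simpa using badAt_null d h0 h1 f.1 f.2
  filter_upwards [h] with w hw u hu f hf
  by_contra hne
  exact hw f ⟨u, hu, hf, hne⟩

end Pool.Agent.Lib.MP_79dc3a_pr
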