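import Pool.Agent.Lib.MP_79dc3a_pr.NetCalc

/-! Definitions for the geometry of the cells. -/

namespace Pool.Agent.Lib.MP_79dc3a_pr

/-- the rectangle -/
def Rect (d n : ℕ) : Set (ℤ × ℤ) := {p | 0 ≤ p.1 ∧ p.1 < (n : ℤ) ^ (d + 1) ∧ 0 ≤ p.2 ∧ p.2 < n}

/-- first port of the core -/
def p0 (d n : ℕ) : V (d + 2) := fun i => if i = 0 then 2 else n + 1

/-- second port of the core -/
def p1 (d n : ℕ) (r : ℤ) : V (d + 2) := fun i => if i = 0 then 2 + r else n + 1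

/-- vertices of the positive orthant killed by threads -/
def Kill {d : ℕ} (K : ℕ) : Set (V d) :=
  {a | (∀ i, 0 ≤ a i) ∧ ((∃ (j : Fin d) (s : ℤ), 1 ≤ s ∧ s ≤ K ∧ a = s • bv j) ∨
    (a ∈ (Str K : Set (V d)) ∧ isFace K a ∧ ¬ isLine a))}

/-- reflection in some coordinate hyperplanes -/
def refl {d : ℕ} (ε : Fin d → Bool) (x : V d) : V d := fun i => if ε i then - x i else x i

end Pool.Agent.Lib.MP_79dc3a_pr
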