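import Pool.Agent.Lib.MP_79dc3a_pr.Geo

/-! Module J5 (Theta) of MP_79dc3a_pr: folding a rectangle into a cube along a boustrophedon
Hamiltonian path. -/

namespace Pool.Agent.Lib.MP_79dc3a_pr

open Finset

namespace ThetaAux

/-- boustrophedon path of the cube `[2, n+1]^m` -/
def path (n : ℕ) : (m : ℕ) → ℤ → (Fin m → ℤ)
  | 0, _ => fun i => i.elim0
  | m + 1, x => Fin.cons ((n : ℤ) + 1 - x / (n : ℤ) ^ m)
      (path n m (if (x / (n : ℤ) ^ m) % 2 = 0 then x % (n : ℤ) ^ m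
        else (n : ℤ) ^ m - 1 - x % (n : ℤ) ^ m))

theorem cons_add_bv_zero {m : ℕ} (a : ℤ) (v : V m) :
    (Fin.cons a v : V (m + 1)) + bv 0 = Fin.cons (a + 1) v := by
  funext i
  refine Fin.cases ?_ (fun j => ?_) i
  · simp [bv]
  · simp [bv, Fin.succ_ne_zero]

theorem cons_add_bv_succ {m : ℕ} (a : ℤ) (v : V m) (j : Fin m) :
    (Fin.cons a v : V (m + 1)) + bv j.succ = Fin.cons a (v + bv j) := by
  funext i
  refine Fin.cases ?_ (fun k => ?_) i
  · simp [bv, (Fin.succ_ne_zero j).symm]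
  · simp only [Pi.add_apply, Fin.cons_succ, bv]
    congr 1
    by_cases h : k = j
    · subst h; simp
    · rw [Pi.single_eq_of_ne (fun h' => h (Fin.succ_injective _ h')), Pi.single_eq_of_ne h]

theorem adj_cons_zero {m : ℕ} (a b : ℤ) (v : V m) (h : b = a + 1 ∨ a = b + 1) :
    (zd (m + 1)).Adj (Fin.cons a v) (Fin.cons b v) := by
  refine ⟨0, ?_⟩
  rw [cons_add_bv_zero, cons_add_bv_zero]
  rcases h with h | h
  · left; rw [h]
  · right; rw [h]

theorem adj_cons_succ {m : ℕ} (a : ℤ) (v w : V m) (h : (zd m).Adj v w) :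
    (zd (m + 1)).Adj (Fin.cons a v) (Fin.cons a w) := by
  obtain ⟨j, h⟩ := h
  refine ⟨j.succ, ?_⟩
  rw [cons_add_bv_succ, cons_add_bv_succ]
  rcases h with h | h
  · left; rw [h]
  · right; rw [h]

variable {n : ℕ}

theorem div_bounds (hn : 1 ≤ n) (m : ℕ) (x : ℤ) (h0 : 0 ≤ x) (h1 : x < (n : ℤ) ^ (m + 1)) :
    0 ≤ x / (n : ℤ) ^ m ∧ x / (n : ℤ) ^ m < n ∧ 0 ≤ x % (n : ℤ) ^ m ∧
      x % (n : ℤ) ^ m < (n : ℤ) ^ m := by
  have hp : (0 : ℤ) < (n : ℤ) ^ m := by positivity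
  refine ⟨Int.ediv_nonneg h0 hp.le, ?_, Int.emod_nonneg _ hp.ne', Int.emod_lt_of_pos _ hp⟩
  rw [Int.ediv_lt_iff_lt_mul hp]
  rw [pow_succ] at h1
  linarith [mul_comm ((n : ℤ) ^ m) (n : ℤ)]

theorem path_bounds (hn : 1 ≤ n) : ∀ (m : ℕ) (x : ℤ), 0 ≤ x → x < (n : ℤ) ^ m →
    ∀ j, 2 ≤ path n m x j ∧ path n m x j ≤ n + 1
  | 0, _, _, _ => fun j => j.elim0
  | m + 1, x, h0, h1 => by
    obtain ⟨a1, a2, a3, a4⟩ := div_bounds hn m x h0 h1
    intro j
    refine Fin.cases ?_ (fun k => ?_) j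
    · simp only [path, Fin.cons_zero]
      constructor <;> linarith
    · simp only [path, Fin.cons_succ]
      split_ifs with h
      · exact path_bounds hn m _ a3 a4 k
      · exact path_bounds hn m _ (by linarith) (by linarith) k

theorem path_inj (hn : 1 ≤ n) : ∀ (m : ℕ) (x y : ℤ), 0 ≤ x → x < (n : ℤ) ^ m →
    0 ≤ y → y < (n : ℤ) ^ m → path n m x = path n m y → x = y
  | 0, x, y, h0, h1, h2, h3, _ => by
    simp only [pow_zero] at h1 h3
    omega
  | m + 1, x, y, h0, h1, h2, h3, h => by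
    obtain ⟨a1, a2, a3, a4⟩ := div_bounds hn m x h0 h1
    obtain ⟨b1, b2, b3, b4⟩ := div_bounds hn m y h2 h3
    simp only [path] at h
    have hq : x / (n : ℤ) ^ m = y / (n : ℤ) ^ m := by
      have := congrFun h 0
      simp only [Fin.cons_zero] at this
      linarith
    have ht := congrArg Fin.tail h
    simp only [Fin.tail_cons] at ht
    have hr : x % (n : ℤ) ^ m = y % (n : ℤ) ^ m := by
      rw [← hq] at ht
      split_ifs at ht with hc
      · exact path_inj hn m _ _ a3 a4 b3 b4 ht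
      · have := path_inj hn m _ _ (by linarith) (by linarith) (by linarith) (by linarith) ht
        linarith
    rw [← Int.mul_ediv_add_emod x ((n : ℤ) ^ m), ← Int.mul_ediv_add_emod y ((n : ℤ) ^ m), hq, hr]

theorem path_zero (hn : 1 ≤ n) : ∀ (m : ℕ) (j : Fin m), path n m 0 j = n + 1
  | 0, j => j.elim0
  | m + 1, j => by
    refine Fin.cases ?_ (fun k => ?_) j
    · simp [path]
    · simp only [path, Fin.cons_succ, Int.zero_ediv, Int.zero_emod, if_true]
      exact path_zero hn m k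

theorem path_adj (hn : 1 ≤ n) : ∀ (m : ℕ) (x : ℤ), 0 ≤ x → x + 1 < (n : ℤ) ^ m →
    (zd m).Adj (path n m x) (path n m (x + 1))
  | 0, x, h0, h1 => by
    simp only [pow_zero] at h1
    omega
  | m + 1, x, h0, h1 => by
    have hp : (0 : ℤ) < (n : ℤ) ^ m := by positivity
    obtain ⟨a1, a2, a3, a4⟩ := div_bounds hn m x h0 (by linarith)
    obtain ⟨b1, b2, b3, b4⟩ := div_bounds hn m (x + 1) (by linarith) h1
    have ex := Int.mul_ediv_add_emod x ((n : ℤ) ^ m)
    simp only [path]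
    by_cases hc : x % (n : ℤ) ^ m + 1 < (n : ℤ) ^ m
    · have hq : (x + 1) / (n : ℤ) ^ m = x / (n : ℤ) ^ m := by
        rw [Int.ediv_eq_iff_of_pos hp]
        constructor <;> linarith [mul_comm ((n : ℤ) ^ m) (x / (n : ℤ) ^ m)]
      have hr : (x + 1) % (n : ℤ) ^ m = x % (n : ℤ) ^ m + 1 := by
        have := Int.mul_ediv_add_emod (x + 1) ((n : ℤ) ^ m)
        rw [hq] at this
        linarith
      rw [hq, hr]
      apply adj_cons_succ
      split_ifs with hd
      · exact path_adj hn m _ a3 hc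
      · have := path_adj hn m ((n : ℤ) ^ m - 1 - (x % (n : ℤ) ^ m + 1)) (by linarith) (by linarith)
        have e : (n : ℤ) ^ m - 1 - (x % (n : ℤ) ^ m + 1) + 1 = (n : ℤ) ^ m - 1 - x % (n : ℤ) ^ m := by
          ring
        rw [e] at this
        exact this.symm
    · have hr' : x % (n : ℤ) ^ m = (n : ℤ) ^ m - 1 := by linarith [not_lt.1 hc, Int.lt_iff_add_one_le.1 a4]
      have hx1 : x + 1 = (x / (n : ℤ) ^ m + 1) * (n : ℤ) ^ m := by
        rw [hr'] at ex
        linarith [mul_comm ((n : ℤ) ^ m) (x / (n : ℤ) ^ m), add_mul (x / (n : ℤ) ^ m) 1 ((n : ℤ) ^ m)]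
      have hq : (x + 1) / (n : ℤ) ^ m = x / (n : ℤ) ^ m + 1 := by
        rw [hx1, Int.mul_ediv_cancel _ hp.ne']
      have hr : (x + 1) % (n : ℤ) ^ m = 0 := by
        rw [hx1, Int.mul_emod_left]
      rw [hq, hr, hr']
      have e1 : (if x / (n : ℤ) ^ m % 2 = 0 then (n : ℤ) ^ m - 1 else (n : ℤ) ^ m - 1 - ((n : ℤ) ^ m - 1)) =
          (if (x / (n : ℤ) ^ m + 1) % 2 = 0 then (0 : ℤ) else (n : ℤ) ^ m - 1 - 0) := by
        split_ifs <;> omega
      rw [e1]
      apply adj_cons_zero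
      right
      ring

end ThetaAux

open ThetaAux in
theorem theta (d n : ℕ) (hn : 1 ≤ n) : ∃ Θ : ℤ × ℤ → V (d + 2),
    (∀ p ∈ Rect d n, Θ p 0 = 2 + p.2 ∧ ∀ j, j ≠ 0 → 2 ≤ Θ p j ∧ Θ p j ≤ n + 1) ∧
    Set.InjOn Θ (Rect d n) ∧
    (∀ p ∈ Rect d n, ∀ q ∈ Rect d n, grid2.Adj p q → (zd (d + 2)).Adj (Θ p) (Θ q)) ∧
    (∀ y : ℤ, 0 ≤ y → y < n → ∀ j, j ≠ 0 → Θ (0, y) j = n + 1) := by
  refine ⟨fun p => Fin.cons (2 + p.2) (path n (d + 1) p.1), ?_, ?_, ?_, ?_⟩
  · rintro p ⟨h1, h2, h3, h4⟩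
    refine ⟨by simp, ?_⟩
    intro j
    refine Fin.cases (fun h => absurd rfl h) (fun k _ => ?_) j
    simp only [Fin.cons_succ]
    exact path_bounds hn _ _ h1 h2 k
  · rintro p ⟨h1, h2, h3, h4⟩ q ⟨g1, g2, g3, g4⟩ h
    simp only at h
    have e0 : p.2 = q.2 := by
      have := congrFun h 0
      simp only [Fin.cons_zero] at this
      linarith
    have ht := congrArg Fin.tail h
    simp only [Fin.tail_cons] at ht
    exact Prod.ext (path_inj hn _ _ _ h1 h2 g1 g2 ht) e0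
  · rintro p ⟨h1, h2, h3, h4⟩ q ⟨g1, g2, g3, g4⟩ h
    simp only
    rcases h with ⟨h, h'⟩ | ⟨h, h'⟩
    · rw [h]
      apply adj_cons_zero
      rcases h' with h' | h'
      · right; linarith
      · left; linarith
    · rw [h]
      apply adj_cons_succ
      rcases h' with h' | h'
      · rw [h']
        exact (path_adj hn _ _ g1 (by rw [← h']; exact h2)).symm
      · rw [h']
        exact path_adj hn _ _ h1 (by rw [← h']; exact g2)
  · intro y h1 h2 j
    refine Fin.cases (fun h => absurd rfl h) (fun k _ => ?_) j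
    simp only [Fin.cons_succ]
    exact path_zero hn _ k

end Pool.Agent.Lib.MP_79dc3a_pr
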