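import Pool.Agent.Lib.MP_79dc3a_pr.Core
import Pool.Agent.Lib.MP_79dc3a_pr.Theta
import Pool.Agent.Lib.MP_79dc3a_pr.Corridor
import Pool.Agent.Lib.MP_79dc3a_pr.KillC

/-! GeomMain, part A: reflections, the folded core, threads. -/

namespace Pool.Agent.Lib.MP_79dc3a_pr

open Finset

namespace Geom

/-! ### reflections -/

section refl
variable {d : ℕ} (ε : Fin d → Bool)

lemma refl_refl (x : V d) : refl ε (refl ε x) = x := by
  ext i
  unfold refl
  split_ifs <;> simp

lemma refl_inj : Function.Injective (refl ε) := fun x y h => by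
  rw [← refl_refl ε x, h, refl_refl]

lemma abs_refl (x : V d) (i : Fin d) : |refl ε x i| = |x i| := by
  unfold refl
  split_ifs <;> simp

lemma refl_zero_iff (x : V d) (i : Fin d) : refl ε x i = 0 ↔ x i = 0 := by
  rw [← abs_eq_zero, abs_refl, abs_eq_zero]

lemma inQ_refl (K : ℕ) (x : V d) : inQ K (refl ε x) ↔ inQ K x := by
  unfold inQ
  simp only [abs_refl]

lemma isLine_refl (x : V d) : isLine (refl ε x) ↔ isLine x := by
  unfold isLine
  simp only [refl_zero_iff]

lemma isFace_refl (K : ℕ) (x : V d) : isFace K (refl ε x) ↔ isFace K x := by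
  unfold isFace
  simp only [abs_refl]

lemma Str_refl (K : ℕ) (x : V d) : refl ε x ∈ (Str K : Set (V d)) ↔ x ∈ (Str K : Set (V d)) := by
  change (inQ K (refl ε x) ∧ (isLine (refl ε x) ∨ isFace K (refl ε x))) ↔
    (inQ K x ∧ (isLine x ∨ isFace K x))
  rw [inQ_refl, isLine_refl, isFace_refl]

lemma Free_refl (K : ℕ) (x : V d) :
    refl ε x ∈ (Free K : Set (V d)) ↔ x ∈ (Free K : Set (V d)) := by
  change (inQ K (refl ε x) ∧ ¬ (isLine (refl ε x) ∨ isFace K (refl ε x))) ↔
    (inQ K x ∧ ¬ (isLine x ∨ isFace K x))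
  rw [inQ_refl, isLine_refl, isFace_refl]

lemma refl_add (x y : V d) : refl ε (x + y) = refl ε x + refl ε y := by
  ext i
  unfold refl
  simp only [Pi.add_apply]
  split_ifs <;> ring

lemma refl_bv (j : Fin d) : refl ε (bv j) = bv j ∨ refl ε (bv j) = - bv j := by
  by_cases h : ε j = true
  · right
    ext i
    unfold refl bv
    by_cases hi : i = j
    · subst hi; simp [h]
    · simp [Pi.single_eq_of_ne hi]
  · left
    ext i
    unfold refl bv
    by_cases hi : i = j
    · subst hi; simp [h]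
    · simp [Pi.single_eq_of_ne hi]

lemma adj_refl {x y : V d} (h : (zd d).Adj x y) : (zd d).Adj (refl ε x) (refl ε y) := by
  obtain ⟨j, h | h⟩ := h
  · rw [h, refl_add]
    rcases refl_bv ε j with h1 | h1
    · exact ⟨j, Or.inl (by rw [h1])⟩
    · exact ⟨j, Or.inr (by rw [h1]; abel)⟩
  · rw [h, refl_add]
    rcases refl_bv ε j with h1 | h1
    · exact ⟨j, Or.inr (by rw [h1])⟩
    · exact ⟨j, Or.inl (by rw [h1]; abel)⟩

end refl

/-! ### free vertices -/

lemma exists_ne_idx {d : ℕ} (j : Fin (d + 2)) : ∃ i : Fin (d + 2), i ≠ j := exists_ne j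

lemma free_of {d K : ℕ} {y : V (d + 2)} (h : ∀ i, 1 ≤ y i ∧ y i ≤ K) :
    y ∈ (Free K : Set (V (d + 2))) := by
  refine ⟨⟨fun i => ?_, fun i j hi _ => ?_⟩, ?_⟩
  · have := h i
    rw [abs_of_nonneg (by omega)]
    omega
  · exfalso
    have := h i
    rw [abs_of_nonneg (by omega)] at hi
    omega
  · rintro (⟨j, hj⟩ | ⟨j, hj⟩)
    · obtain ⟨i, hi⟩ := exists_ne_idx j
      have h1 := hj i hi
      have h2 := h i
      omega
    · have := h j
      rw [abs_of_nonneg (by omega)] at hj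
      omega

lemma not_free_of_str {d K : ℕ} {y : V d} (h : y ∈ (Str K : Set (V d))) :
    y ∉ (Free K : Set (V d)) := fun h1 => h1.2 h.2

lemma kill_str {d K : ℕ} {y : V d} (h : y ∈ (Kill K : Set (V d))) : y ∈ (Str K : Set (V d)) := by
  obtain ⟨_, ⟨j, s, h1, h2, rfl⟩ | ⟨h1, _⟩⟩ := h
  · have hc : ∀ i, i ≠ j → (s • bv j : V d) i = 0 := by
      intro i hi
      simp [bv, Pi.single_eq_of_ne hi]
    have hj : (s • bv j : V d) j = s := by simp [bv]
    refine ⟨⟨fun i => ?_, fun i i' hi hi' => ?_⟩, Or.inl ⟨j, hc⟩⟩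
    · by_cases hij : i = j
      · subst hij; rw [hj, abs_of_nonneg (by omega)]; omega
      · rw [hc i hij]; simp; omega
    · exfalso
      by_cases hij : i = j
      · subst hij; rw [hj, abs_of_nonneg (by omega)] at hi; omega
      · rw [hc i hij] at hi; simp at hi; omega
  · exact h1

section ports
variable (d n : ℕ) (r : ℤ)

/-- the vertex next to the second port -/
def tt : V (d + 2) := p1 d n r + bv 1
/-- the common end point of all threads -/
def a0 : V (d + 2) := p1 d n r + bv 1 + bv 1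

lemma p0_zero : p0 d n 0 = 2 := by simp [p0]
lemma p0_ne {i : Fin (d + 2)} (hi : i ≠ 0) : p0 d n i = n + 1 := by simp [p0, hi]
lemma p1_zero : p1 d n r 0 = 2 + r := by simp [p1]
lemma p1_ne {i : Fin (d + 2)} (hi : i ≠ 0) : p1 d n r i = n + 1 := by simp [p1, hi]

lemma bv_self {m : ℕ} (j : Fin m) : bv j j = 1 := by simp [bv]
lemma bv_ne {m : ℕ} {i j : Fin m} (h : i ≠ j) : bv j i = 0 := by simp [bv, Pi.single_eq_of_ne h]

lemma one_ne_zero' : (1 : Fin (d + 2)) ≠ 0 := by
  simp

lemma tt_zero : tt d n r 0 = 2 + r := by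
  unfold tt
  rw [Pi.add_apply, p1_zero, bv_ne (one_ne_zero' d).symm]
  ring
lemma tt_one : tt d n r 1 = n + 2 := by
  unfold tt
  rw [Pi.add_apply, p1_ne d n r (one_ne_zero' d), bv_self]
  ring
lemma tt_ne {i : Fin (d + 2)} (h0 : i ≠ 0) (h1 : i ≠ 1) : tt d n r i = n + 1 := by
  unfold tt
  rw [Pi.add_apply, p1_ne d n r h0, bv_ne h1]
  ring
lemma a0_zero : a0 d n r 0 = 2 + r := by
  change tt d n r 0 + bv 1 0 = _
  rw [tt_zero, bv_ne (one_ne_zero' d).symm]
  ring
lemma a0_one : a0 d n r 1 = n + 3 := by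
  change tt d n r 1 + bv 1 1 = _
  rw [tt_one, bv_self]
  ring
lemma a0_ne {i : Fin (d + 2)} (h0 : i ≠ 0) (h1 : i ≠ 1) : a0 d n r i = n + 1 := by
  change tt d n r i + bv 1 i = _
  rw [tt_ne d n r h0 h1, bv_ne h1]
  ring

variable {d n r}

lemma p0_free (hn : 1 ≤ n) : p0 d n ∈ (Free (n + 2) : Set (V (d + 2))) := by
  refine free_of fun i => ?_
  by_cases h : i = 0
  · subst h; rw [p0_zero]; exact ⟨by norm_num, by push_cast; omega⟩
  · rw [p0_ne d n h]; push_cast; omega

lemma p1_free (hr : 0 ≤ r) (hr' : r < n) : p1 d n r ∈ (Free (n + 2) : Set (V (d + 2))) := by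
  refine free_of fun i => ?_
  by_cases h : i = 0
  · subst h; rw [p1_zero]; push_cast; omega
  · rw [p1_ne d n r h]; push_cast; omega

lemma tt_free (hr : 0 ≤ r) (hr' : r < n) : tt d n r ∈ (Free (n + 2) : Set (V (d + 2))) := by
  refine free_of fun i => ?_
  by_cases h : i = 0
  · subst h; rw [tt_zero]; push_cast; omega
  · by_cases h1 : i = 1
    · subst h1; rw [tt_one]; push_cast; omega
    · rw [tt_ne d n r h h1]; push_cast; omega

lemma a0_str (hr : 0 ≤ r) (hr' : r < n) : a0 d n r ∈ (Str (n + 2) : Set (V (d + 2))) := by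
  have key : ∀ i, |a0 d n r i| ≤ n + 3 ∧ (|a0 d n r i| = n + 3 → i = 1) := by
    intro i
    by_cases h : i = 0
    · subst h; rw [a0_zero, abs_of_nonneg (by omega)]; constructor <;> omega
    · by_cases h1 : i = 1
      · subst h1; rw [a0_one, abs_of_nonneg (by omega)]; simp
      · rw [a0_ne d n r h h1, abs_of_nonneg (by omega)]; constructor <;> omega
  refine ⟨⟨fun i => ?_, fun i j hi hj => ?_⟩, Or.inr ⟨1, ?_⟩⟩
  · have := (key i).1; push_cast; omega
  · rw [(key i).2 (by push_cast at hi; omega), (key j).2 (by push_cast at hj; omega)]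
  · rw [a0_one, abs_of_nonneg (by omega)]; push_cast; omega

lemma adj_p1_tt : (zd (d + 2)).Adj (p1 d n r) (tt d n r) := ⟨1, Or.inl rfl⟩
lemma adj_tt_a0 : (zd (d + 2)).Adj (tt d n r) (a0 d n r) := ⟨1, Or.inl rfl⟩

end ports

end Geom

end Pool.Agent.Lib.MP_79dc3a_pr
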