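import Pool.Agent.Lib.MP_79dc3a_pr.GeomA

/-! GeomMain, part B: threads and gadgets. -/

namespace Pool.Agent.Lib.MP_79dc3a_pr

open Finset

namespace Geom

set_option linter.unusedSectionVars false

/-- the set-theoretic requirements on a thread or gadget -/
def Good {d : ℕ} (K : ℕ) (E : Finset (Sym2 (V d))) (S : Finset (V d)) (a b : V d) : Prop :=
  (∀ v ∈ S, v ≠ a → v ≠ b → v ∈ (Free K : Set (V d))) ∧
  (∀ e ∈ E, ∃ v ∈ e, v ∈ (Free K : Set (V d)))

lemma Good.map_refl {d K : ℕ} {E : Finset (Sym2 (V d))} {S : Finset (V d)} {a b : V d}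
    (h : Good K E S a b) (ε : Fin d → Bool) :
    Good K (E.image (Sym2.map (refl ε))) (S.image (refl ε)) (refl ε a) (refl ε b) := by
  constructor
  · intro v hv ha hb
    obtain ⟨w, hw, rfl⟩ := Finset.mem_image.1 hv
    rw [Free_refl]
    exact h.1 w hw (fun h1 => ha (by rw [h1])) (fun h1 => hb (by rw [h1]))
  · intro e he
    obtain ⟨f, hf, rfl⟩ := Finset.mem_image.1 he
    obtain ⟨v, hv, hv'⟩ := h.2 f hf
    exact ⟨refl ε v, Sym2.mem_map.2 ⟨v, hv, rfl⟩, (Free_refl ε K v).2 hv'⟩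

section assemble

variable {d n : ℕ} {r : ℤ} {a : V (d + 2)}
  (hn : 1 ≤ n) (hr : 0 < r) (hr' : r < n)
  (ha : a ∈ (Kill (n + 2) : Set (V (d + 2)))) (hne : a ≠ a0 d n r)
  (p : (zd (d + 2)).Walk a (p0 d n)) (hp : p.IsPath)
  (hp1 : ∀ v ∈ p.support, v ≠ a → v ∈ (Free (n + 2) : Set (V (d + 2))) ∧ (∀ i, 0 ≤ v i) ∧
    v ≠ tt d n r ∧ (v ≠ p0 d n → ∃ i, v i ≤ 1 ∨ v i = n + 2))
  {Θ : ℤ × ℤ → V (d + 2)}
  (hΘ1 : ∀ q ∈ Rect d n, Θ q 0 = 2 + q.2 ∧ ∀ j, j ≠ 0 → 2 ≤ Θ q j ∧ Θ q j ≤ n + 1)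
  (hΘ2 : Set.InjOn Θ (Rect d n))
  (hΘ3 : ∀ q ∈ Rect d n, ∀ q' ∈ Rect d n, grid2.Adj q q' → (zd (d + 2)).Adj (Θ q) (Θ q'))
  (hΘ4 : ∀ y : ℤ, 0 ≤ y → y < n → ∀ j, j ≠ 0 → Θ (0, y) j = n + 1)
  {Ec : Finset (Sym2 (ℤ × ℤ))} {Sc : Finset (ℤ × ℤ)}
  (hSc : ∀ v ∈ Sc, v ∈ Rect d n)

/-- edges of the assembled network -/
def AE (d n : ℕ) (r : ℤ) {a : V (d + 2)} (p : (zd (d + 2)).Walk a (p0 d n))
    (Θ : ℤ × ℤ → V (d + 2)) (Ec : Finset (Sym2 (ℤ × ℤ))) : Finset (Sym2 (V (d + 2))) :=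
  p.edges.toFinset ∪ Ec.image (Sym2.map Θ) ∪ {s(p1 d n r, tt d n r)} ∪ {s(tt d n r, a0 d n r)}

/-- vertices of the assembled network -/
def AS (d n : ℕ) (r : ℤ) {a : V (d + 2)} (p : (zd (d + 2)).Walk a (p0 d n))
    (Θ : ℤ × ℤ → V (d + 2)) (Sc : Finset (ℤ × ℤ)) : Finset (V (d + 2)) :=
  p.support.toFinset ∪ Sc.image Θ ∪ {p1 d n r, tt d n r} ∪ {tt d n r, a0 d n r}

include hn hΘ1 hΘ4 in
lemma Θ_p0 : Θ (0, 0) = p0 d n := by
  ext i
  by_cases h : i = 0
  · subst h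
    rw [p0_zero, (hΘ1 (0, 0) ⟨le_refl _, by positivity, le_refl _, by
      change (0 : ℤ) < n; omega⟩).1]
    ring
  · rw [p0_ne d n h, hΘ4 0 le_rfl (by omega) i h]

include hn hr hr' hΘ1 hΘ4 in
lemma Θ_p1 : Θ (0, r) = p1 d n r := by
  ext i
  by_cases h : i = 0
  · subst h
    rw [p1_zero, (hΘ1 (0, r) ⟨le_refl _, by positivity, hr.le, hr'⟩).1]
  · rw [p1_ne d n r h, hΘ4 r hr.le hr' i h]

include hΘ1 in
lemma Θ_range {q : ℤ × ℤ} (hq : q ∈ Rect d n) (i : Fin (d + 2)) :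
    2 ≤ Θ q i ∧ Θ q i ≤ n + 1 := by
  by_cases h : i = 0
  · subst h
    rw [(hΘ1 q hq).1]
    have := hq.2.2.1
    have := hq.2.2.2
    constructor <;> omega
  · exact (hΘ1 q hq).2 i h

include hΘ1 in
lemma Θ_free {q : ℤ × ℤ} (hq : q ∈ Rect d n) : Θ q ∈ (Free (n + 2) : Set (V (d + 2))) := by
  refine free_of fun i => ?_
  have := Θ_range hΘ1 hq i
  push_cast
  constructor <;> omega

include hn hr hr' ha hp1 hΘ1 hSc in
lemma assemble_good (hEc : ∀ e ∈ Ec, ∃ v ∈ e, v ∈ Sc) :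
    Good (n + 2) (AE d n r p Θ Ec) (AS d n r p Θ Sc) a (a0 d n r) := by
  have hnf := not_free_of_str (kill_str ha)
  constructor
  · intro v hv hva hvb
    unfold AS at hv
    simp only [Finset.mem_union, List.mem_toFinset, Finset.mem_image, Finset.mem_insert,
      Finset.mem_singleton] at hv
    rcases hv with ((hv | ⟨q, hq, rfl⟩) | (rfl | rfl)) | (rfl | rfl)
    · exact (hp1 v hv hva).1
    · exact Θ_free hΘ1 (hSc q hq)
    · exact p1_free hr.le hr'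
    · exact tt_free hr.le hr'
    · exact tt_free hr.le hr'
    · exact absurd rfl hvb
  · intro e he
    unfold AE at he
    simp only [Finset.mem_union, List.mem_toFinset, Finset.mem_image,
      Finset.mem_singleton] at he
    rcases he with ((he | ⟨f, hf, rfl⟩) | rfl) | rfl
    · induction e using Sym2.ind with
      | _ x y =>
        have hx := p.fst_mem_support_of_mem_edges he
        have hy := p.snd_mem_support_of_mem_edges he
        have hadj := p.adj_of_mem_edges he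
        by_cases hxa : x = a
        · have hya : y ≠ a := fun h => hadj.ne (hxa.trans h.symm)
          exact ⟨y, Sym2.mem_mk_right x y, (hp1 y hy hya).1⟩
        · exact ⟨x, Sym2.mem_mk_left x y, (hp1 x hx hxa).1⟩
    · obtain ⟨v, hv, hv'⟩ := hEc f hf
      exact ⟨Θ v, Sym2.mem_map.2 ⟨v, hv, rfl⟩, Θ_free hΘ1 (hSc v hv')⟩
    · exact ⟨_, Sym2.mem_mk_left _ _, p1_free hr.le hr'⟩
    · exact ⟨_, Sym2.mem_mk_left _ _, tt_free hr.le hr'⟩

include hn hr hr' ha hp1 hΘ1 hSc in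
lemma dis1 : ∀ v ∈ p.support.toFinset, v ∈ Sc.image Θ → v = p0 d n := by
  intro v hv hv2
  obtain ⟨q, hq, rfl⟩ := Finset.mem_image.1 hv2
  by_contra hne0
  have hva : Θ q ≠ a := by
    intro h
    exact not_free_of_str (kill_str ha) (h ▸ Θ_free hΘ1 (hSc q hq))
  obtain ⟨i, hi⟩ := (hp1 _ (List.mem_toFinset.1 hv) hva).2.2.2 hne0
  have := Θ_range hΘ1 (hSc q hq) i
  omega

include hn hr hr' ha hp1 hΘ1 hSc in
lemma dis2 : ∀ v ∈ p.support.toFinset ∪ Sc.image Θ, v ∈ ({p1 d n r, tt d n r} : Finset _) →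
    v = p1 d n r := by
  intro v hv hv2
  simp only [Finset.mem_insert, Finset.mem_singleton] at hv2
  rcases hv2 with h | h
  · exact h
  · exfalso
    subst h
    rcases Finset.mem_union.1 hv with hv | hv
    · have hva : tt d n r ≠ a := by
        intro h
        exact not_free_of_str (kill_str ha) (h ▸ tt_free hr.le hr')
      exact (hp1 _ (List.mem_toFinset.1 hv) hva).2.2.1 rfl
    · obtain ⟨q, hq, h⟩ := Finset.mem_image.1 hv
      have h1 := (Θ_range hΘ1 (hSc q hq) 1).2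
      rw [h, tt_one] at h1
      omega

include hn hr hr' ha hne hp1 hΘ1 hSc in
lemma dis3 : ∀ v ∈ p.support.toFinset ∪ Sc.image Θ ∪ {p1 d n r, tt d n r},
    v ∈ ({tt d n r, a0 d n r} : Finset _) → v = tt d n r := by
  intro v hv hv2
  simp only [Finset.mem_insert, Finset.mem_singleton] at hv2
  rcases hv2 with h | h
  · exact h
  · exfalso
    subst h
    have hnf := not_free_of_str (a0_str (d := d) (n := n) hr.le hr')
    rcases Finset.mem_union.1 hv with hv | hv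
    · rcases Finset.mem_union.1 hv with hv | hv
      · exact hnf (hp1 _ (List.mem_toFinset.1 hv) hne.symm).1
      · obtain ⟨q, hq, h⟩ := Finset.mem_image.1 hv
        exact hnf (h ▸ Θ_free hΘ1 (hSc q hq))
    · simp only [Finset.mem_insert, Finset.mem_singleton] at hv
      rcases hv with h | h
      · exact hnf (h ▸ p1_free hr.le hr')
      · exact hnf (h ▸ tt_free hr.le hr')

include hn ha in
lemma a_ne_p0 : a ≠ p0 d n := by
  intro h
  exact not_free_of_str (kill_str ha) (h ▸ p0_free hn)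

include hn hr hr' ha hne hp hp1 hΘ1 hΘ2 hΘ3 hΘ4 hSc in
lemma assemble_path {L : ℕ} (hc : PathNet grid2 Ec Sc (0, 0) (0, r) L) :
    PathNet (zd (d + 2)) (AE d n r p Θ Ec) (AS d n r p Θ Sc) a (a0 d n r)
      (p.length + L + 1 + 1) := by
  have h1 := PathNet.of_walk p hp (a_ne_p0 hn ha)
  have h2 := hc.map (G' := zd (d + 2)) Θ (fun x hx y hy h => hΘ2 (hSc x hx) (hSc y hy) h)
    (fun u hu v hv h => hΘ3 u (hSc u hu) v (hSc v hv) h)
  rw [Θ_p0 hn hΘ1 hΘ4, Θ_p1 hn hr hr' hΘ1 hΘ4] at h2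
  have h3 := h1.series h2 (dis1 hn hr hr' ha p hp1 hΘ1 hSc)
  have h4 := h3.series (PathNet.single adj_p1_tt) (dis2 hn hr hr' ha p hp1 hΘ1 hSc)
  exact h4.series (PathNet.single adj_tt_a0) (dis3 hn hr hr' ha hne p hp1 hΘ1 hSc)

include hn hr hr' ha hne hp hp1 hΘ1 hΘ2 hΘ3 hΘ4 hSc in
lemma assemble_net {x : ℚ} {l : ℕ} (hc : Net grid2 Ec Sc (0, 0) (0, r) x)
    (hF : Forces Ec Sc (0, 0) (0, r) l) :
    Net (zd (d + 2)) (AE d n r p Θ Ec) (AS d n r p Θ Sc) a (a0 d n r)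
      (p.length + x + 1 + 1) ∧ Forces (AE d n r p Θ Ec) (AS d n r p Θ Sc) a (a0 d n r) l := by
  have h1 := PathNet.of_walk p hp (a_ne_p0 hn ha)
  have hinj : Set.InjOn Θ Sc := fun x hx y hy h => hΘ2 (hSc x hx) (hSc y hy) h
  have h2 := hc.map (G' := zd (d + 2)) Θ hinj
    (fun u hu v hv h => hΘ3 u (hSc u hu) v (hSc v hv) h)
  have hF2 := Forces.map Θ hc.toSub hF hinj
  rw [Θ_p0 hn hΘ1 hΘ4, Θ_p1 hn hr hr' hΘ1 hΘ4] at h2 hF2
  have d1 := dis1 hn hr hr' ha p hp1 hΘ1 hSc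
  have d2 := dis2 hn hr hr' ha p hp1 hΘ1 hSc
  have d3 := dis3 hn hr hr' ha hne p hp1 hΘ1 hSc
  have h3 := h1.toNet.series h2 d1
  have hF3 := Forces.series_right h1.toSub h2.toSub d1 hF2
  have e1 := (PathNet.single (adj_p1_tt (d := d) (n := n) (r := r)))
  have e2 := (PathNet.single (adj_tt_a0 (d := d) (n := n) (r := r)))
  have h4 := h3.series e1.toNet d2
  have hF4 := Forces.series_left h3.toSub e1.toSub d2 hF3
  have h5 := h4.series e2.toNet d3
  have hF5 := Forces.series_left h4.toSub e2.toSub d3 hF4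
  refine ⟨?_, hF5⟩
  rw [Nat.cast_one] at h5
  exact h5

lemma card_AS {L : ℕ} (hSc : Sc.card = L + 1) :
    (AS d n r p Θ Sc).card ≤ p.support.length + (L + 1) + 2 + 2 := by
  unfold AS
  refine (card_union_le _ _).trans (add_le_add ?_ (card_le_two))
  refine (card_union_le _ _).trans (add_le_add ?_ (card_le_two))
  refine (card_union_le _ _).trans (add_le_add (List.toFinset_card_le _) ?_)
  exact card_image_le.trans hSc.le

end assemble

end Geom

end Pool.Agent.Lib.MP_79dc3a_pr
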