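import Pool.Agent.Lib.MP_79dc3a_pr.GeomB

/-! GeomMain, part C: all threads with their gadgets. -/

namespace Pool.Agent.Lib.MP_79dc3a_pr

open Finset

namespace Geom

set_option linter.unusedSectionVars false

lemma Sub.exists_mem {V : Type*} [DecidableEq V] {G : SimpleGraph V} {E : Finset (Sym2 V)}
    {S : Finset V} {a b : V} (h : Sub G E S a b) : ∀ e ∈ E, ∃ v ∈ e, v ∈ S := by
  intro e he
  exact ⟨e.out.1, Sym2.out_fst_mem e, h.sub e he _ (Sym2.out_fst_mem e)⟩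

lemma thread_all (d k J m : ℕ) (hk : 21 ≤ k) (hJ : 1 ≤ J)
    (hJn : 798 * J + 4 ≤ (802 * k) ^ (d + 1)) (hm : 4 * m + 1 ≤ k * J)
    (ε : Fin (d + 2) → Bool) (a : V (d + 2)) (ha : a ∈ (Kill (802 * k + 2) : Set (V (d + 2))))
    (hne : a ≠ a0 d (802 * k) (401 * (k : ℤ) + 400)) :
    ∃ (L : ℕ) (E : Finset (Sym2 (V (d + 2)))) (S : Finset (V (d + 2))),
      PathNet (zd (d + 2)) E S (refl ε a) (refl ε (a0 d (802 * k) (401 * (k : ℤ) + 400))) L ∧
      Good (802 * k + 2) E S (refl ε a) (refl ε (a0 d (802 * k) (401 * (k : ℤ) + 400))) ∧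
      S.card ≤ 3 * (d + 2) * (802 * k + 3) ^ (d + 1) + 2 + (401 * k + 33208 + 1) + 2 + 2 ∧
      ∀ l : ℕ, l.Prime → 268800 < l → l ≤ 2 * S4 m - 14 →
        ∃ (E' : Finset (Sym2 (V (d + 2)))) (S' : Finset (V (d + 2))),
          Net (zd (d + 2)) E' S' (refl ε a) (refl ε (a0 d (802 * k) (401 * (k : ℤ) + 400)))
            (L : ℚ) ∧
          Forces E' S' (refl ε a) (refl ε (a0 d (802 * k) (401 * (k : ℤ) + 400))) l ∧
          Good (802 * k + 2) E' S' (refl ε a)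
            (refl ε (a0 d (802 * k) (401 * (k : ℤ) + 400))) := by
  set n := 802 * k with hn_def
  set r : ℤ := 401 * (k : ℤ) + 400 with hr_def
  have hn : 1 ≤ n := by omega
  have hr : 0 < r := by omega
  have hr' : r < n := by rw [hn_def]; push_cast; omega
  obtain ⟨p, hp, hp1, hp2⟩ := corridor d n hn r hr.le hr' a ha hne
  obtain ⟨Θ, hΘ1, hΘ2, hΘ3, hΘ4⟩ := theta d n hn
  obtain ⟨Ec, Sc, hc, hcS⟩ := core_path k (by omega)
  have hpow : (n : ℤ) ≤ (n : ℤ) ^ (d + 1) := by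
    exact_mod_cast Nat.le_self_pow (by omega) n
  have hSc : ∀ v ∈ Sc, v ∈ Rect d n := by
    intro v hv
    obtain ⟨h1, h2, h3, h4⟩ := hcS v hv
    refine ⟨h1, ?_, h3, ?_⟩
    · have : (n : ℤ) = 802 * k := by rw [hn_def]; push_cast; ring
      omega
    · rw [hn_def]; push_cast; omega
  have hinj := refl_inj ε
  have hadj : ∀ (S : Finset (V (d + 2))), ∀ u ∈ S, ∀ v ∈ S, (zd (d + 2)).Adj u v →
      (zd (d + 2)).Adj (refl ε u) (refl ε v) := fun S u _ v _ h => adj_refl ε h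
  have hpath := assemble_path hn hr hr' ha hne p hp hp1 hΘ1 hΘ2 hΘ3 hΘ4 hSc hc
  have hgood := assemble_good hn hr hr' ha p hp1 hΘ1 hSc
    (Sub.exists_mem hc.toSub)
  refine ⟨p.length + (401 * k + 33208) + 1 + 1, _, _,
    hpath.map (refl ε) hinj.injOn (hadj _), hgood.map_refl ε, ?_, ?_⟩
  · refine card_image_le.trans ((card_AS p hc.card).trans ?_)
    have := hp2
    omega
  · intro l hl h1 h2
    obtain ⟨Eg, Sg, hg, hgF, hgS⟩ := core_net k J m l (by omega) hJ hm hl h1 h2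
    have hSg : ∀ v ∈ Sg, v ∈ Rect d n := by
      intro v hv
      obtain ⟨h1, h2, h3, h4⟩ := hgS v hv
      refine ⟨h1, ?_, h3, ?_⟩
      · have h5 : (798 * (J : ℤ) + 4) ≤ (n : ℤ) ^ (d + 1) := by exact_mod_cast hJn
        omega
      · rw [hn_def]; push_cast; omega
    obtain ⟨hnet, hforces⟩ := assemble_net hn hr hr' ha hne p hp hp1 hΘ1 hΘ2 hΘ3 hΘ4 hSg hg hgF
    have hgood' := assemble_good hn hr hr' ha p hp1 hΘ1 hSg (Sub.exists_mem hg.toSub)
    refine ⟨_, _, ?_, hforces.map (refl ε) hnet.toSub hinj.injOn, hgood'.map_refl ε⟩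
    have h3 := hnet.map (refl ε) hinj.injOn (hadj _)
    have e : ((p.length + (401 * k + 33208) + 1 + 1 : ℕ) : ℚ) =
        (p.length : ℚ) + ((401 * k + 33208 : ℕ) : ℚ) + 1 + 1 := by push_cast; ring
    rw [e]
    exact h3

end Geom

end Pool.Agent.Lib.MP_79dc3a_pr
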