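import Pool.Agent.Lib.MP_79dc3a_pr.GeomC

/-! GeomMain: the final assembly of a scale. -/

namespace Pool.Agent.Lib.MP_79dc3a_pr

open Finset

namespace Geom

set_option linter.unusedSectionVars false

open Classical in
/-- the killable vertices as a finite set -/
noncomputable def KillF (d n : ℕ) : Finset (V (d + 2)) :=
  (Finset.Icc (fun _ => (0 : ℤ)) (fun _ => (n : ℤ) + 3)).filter
    (· ∈ (Kill (n + 2) : Set (V (d + 2))))

lemma mem_KillF {d n : ℕ} {a : V (d + 2)} :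
    a ∈ KillF d n ↔ a ∈ (Kill (n + 2) : Set (V (d + 2))) := by
  classical
  unfold KillF
  rw [Finset.mem_filter, and_iff_right_iff_imp]
  intro h
  rw [Finset.mem_Icc]
  refine ⟨fun i => h.1 i, fun i => ?_⟩
  have h1 := (kill_str h).1.1 i
  rw [abs_of_nonneg (h.1 i)] at h1
  push_cast at h1
  change a i ≤ (n : ℤ) + 3
  omega

lemma card_KillF (d n : ℕ) : (KillF d n).card ≤ (n + 4) ^ (d + 2) := by
  classical
  unfold KillF
  refine (Finset.card_filter_le _ _).trans ?_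
  rw [Pi.card_Icc]
  simp only [Int.card_Icc, Finset.prod_const, Finset.card_univ, Fintype.card_fin]
  have h : ((n : ℤ) + 3 + 1 - 0).toNat = n + 4 := by omega
  rw [h]

open Classical in
/-- the index set of the threads -/
noncomputable def Idx (d n : ℕ) (r : ℤ) : Finset ((Fin (d + 2) → Bool) × V (d + 2)) :=
  ((Finset.univ : Finset (Fin (d + 2) → Bool)) ×ˢ KillF d n).filter (fun q => q.2 ≠ a0 d n r)

lemma mem_Idx {d n : ℕ} {r : ℤ} {q : (Fin (d + 2) → Bool) × V (d + 2)} :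
    q ∈ Idx d n r ↔ q.2 ∈ (Kill (n + 2) : Set (V (d + 2))) ∧ q.2 ≠ a0 d n r := by
  unfold Idx
  rw [Finset.mem_filter, Finset.mem_product, mem_KillF]
  simp

lemma card_Idx (d n : ℕ) (r : ℤ) : (Idx d n r).card ≤ (2 * (n + 4)) ^ (d + 2) := by
  unfold Idx
  refine (Finset.card_filter_le _ _).trans ?_
  rw [Finset.card_product, mul_pow]
  refine Nat.mul_le_mul ?_ (card_KillF d n)
  simp

/-- the size parameter -/
def szz (d k : ℕ) : ℕ :=
  3 * (d + 2) * (2 * (802 * k) + 7) ^ (d + 1) +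
    (3 * (d + 2) * (802 * k + 3) ^ (d + 1) + 2 + (401 * k + 33208 + 1) + 2 + 2)

/-- constant in the size estimate -/
def AA (d : ℕ) : ℕ := 3 * (d + 2) * 9 ^ (d + 1) + 3 * (d + 2) * 4 ^ (d + 1) + 33700

lemma szz_le (d k : ℕ) (hk : 1 ≤ k) : szz d k ≤ AA d * (802 * k) ^ (d + 1) := by
  unfold szz AA
  set n := 802 * k with hn
  have h1 : (2 * n + 7) ^ (d + 1) ≤ 9 ^ (d + 1) * n ^ (d + 1) := by
    rw [← mul_pow]
    exact Nat.pow_le_pow_left (by omega) _
  have h2 : (n + 3) ^ (d + 1) ≤ 4 ^ (d + 1) * n ^ (d + 1) := by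
    rw [← mul_pow]
    exact Nat.pow_le_pow_left (by omega) _
  have h3 : n ≤ n ^ (d + 1) := Nat.le_self_pow (by omega) n
  have h4 : 2 + (401 * k + 33208 + 1) + 2 + 2 ≤ 33700 * n ^ (d + 1) := by omega
  calc 3 * (d + 2) * (2 * n + 7) ^ (d + 1) +
      (3 * (d + 2) * (n + 3) ^ (d + 1) + 2 + (401 * k + 33208 + 1) + 2 + 2)
      = 3 * (d + 2) * (2 * n + 7) ^ (d + 1) + 3 * (d + 2) * (n + 3) ^ (d + 1) +
        (2 + (401 * k + 33208 + 1) + 2 + 2) := by ring
    _ ≤ 3 * (d + 2) * (9 ^ (d + 1) * n ^ (d + 1)) + 3 * (d + 2) * (4 ^ (d + 1) * n ^ (d + 1)) +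
        33700 * n ^ (d + 1) := by gcongr
    _ = _ := by ring

lemma szz_ge (d k : ℕ) : 3 * (d + 2) * (2 * (802 * k) + 7) ≤ szz d k := by
  unfold szz
  have h : 2 * (802 * k) + 7 ≤ (2 * (802 * k) + 7) ^ (d + 1) := Nat.le_self_pow (by omega) _
  calc 3 * (d + 2) * (2 * (802 * k) + 7) ≤ 3 * (d + 2) * (2 * (802 * k) + 7) ^ (d + 1) :=
        Nat.mul_le_mul_left _ h
    _ ≤ _ := Nat.le_add_right _ _

lemma aux1 (D n z : ℕ) (h : 3 * (D + 2) * (2 * n + 7) ≤ z) :
    1 ≤ z ∧ 2 * (n + 2) + 4 ≤ z ∧ 2 * (n + 4) * (D + 2) ≤ z := by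
  have h1 : 2 * (2 * n + 7) ≤ (D + 2) * (2 * n + 7) := Nat.mul_le_mul_right _ (by omega)
  have h2 : 3 * (D + 2) * (2 * n + 7) = 3 * ((D + 2) * (2 * n + 7)) := by ring
  have h3 : 2 * (n + 4) * (D + 2) ≤ 3 * (D + 2) * (2 * n + 7) := by
    calc 2 * (n + 4) * (D + 2) = (D + 2) * (2 * (n + 4)) := by ring
      _ ≤ (D + 2) * (3 * (2 * n + 7)) := Nat.mul_le_mul_left _ (by omega)
      _ = _ := by ring
  refine ⟨by omega, by omega, by omega⟩

/-- the arithmetic of the parameters -/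
lemma arith (d C Y : ℕ) : ∃ k J m : ℕ, 21 ≤ k ∧ 1 ≤ J ∧ 798 * J + 4 ≤ (802 * k) ^ (d + 1) ∧
    4 * m + 1 ≤ k * J ∧ 20 ≤ m ∧ C ^ szz d k + Y ≤ 2 ^ m := by
  set Q := C * AA d + Y + 2 with hQ
  set k := 12768 * Q with hk
  have hk1 : 21 ≤ k := by omega
  set R := (802 * k) ^ (d + 1) with hR
  have hR1 : 802 * k ≤ R := Nat.le_self_pow (by omega) _
  set J := (R - 4) / 798 with hJ
  have hJ1 : 798 * J + 4 ≤ R := by omega
  have hJ2 : 1 ≤ J := by omega
  have hJ3 : R ≤ 1596 * J := by omega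
  set m := (k * J - 1) / 4 with hm
  have hkJ : 1 ≤ k * J := Nat.mul_pos (by omega) (by omega)
  have hm1 : 4 * m + 1 ≤ k * J := by omega
  have hm2 : k * J ≤ 4 * m + 4 := by omega
  have hm3 : Q * R ≤ m := by
    have h1 : k * R ≤ 1596 * (4 * m + 4) := by
      calc k * R ≤ k * (1596 * J) := Nat.mul_le_mul_left _ hJ3
        _ = 1596 * (k * J) := by ring
        _ ≤ _ := Nat.mul_le_mul_left _ hm2
    have h2 : k * R = 12768 * (Q * R) := by rw [hk]; ring
    have h3 : 1 ≤ Q * R := Nat.mul_pos (by omega) (by omega)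
    omega
  have hQR : C * AA d * R + Y + 2 ≤ Q * R := by
    have h1 : 1 ≤ R := by omega
    calc C * AA d * R + Y + 2 = C * AA d * R + (Y + 2) * 1 := by ring
      _ ≤ C * AA d * R + (Y + 2) * R := by gcongr
      _ = Q * R := by rw [hQ]; ring
  have hm4 : 20 ≤ m := by
    have h1 : 2 * R ≤ Q * R := Nat.mul_le_mul_right _ (by omega)
    omega
  refine ⟨k, J, m, hk1, hJ2, hJ1, hm1, hm4, ?_⟩
  have hC : C ^ szz d k ≤ 2 ^ (C * AA d * R) := by
    calc C ^ szz d k ≤ (2 ^ C) ^ szz d k := Nat.pow_le_pow_left Nat.lt_two_pow_self.le _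
      _ = 2 ^ (C * szz d k) := by rw [← pow_mul]
      _ ≤ 2 ^ (C * (AA d * R)) :=
          Nat.pow_le_pow_right (by norm_num) (Nat.mul_le_mul_left _ (szz_le d k (by omega)))
      _ = _ := by rw [mul_assoc]
  have hY : Y + 1 ≤ 2 ^ Y := Nat.lt_two_pow_self
  have h1 : 1 ≤ 2 ^ (C * AA d * R) := Nat.one_le_two_pow
  calc C ^ szz d k + Y ≤ 2 ^ (C * AA d * R) + 2 ^ (C * AA d * R) * Y := by
        refine add_le_add hC ?_
        calc Y = 1 * Y := (one_mul _).symm
          _ ≤ _ := Nat.mul_le_mul_right _ h1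
    _ = 2 ^ (C * AA d * R) * (Y + 1) := by ring
    _ ≤ 2 ^ (C * AA d * R) * 2 ^ Y := Nat.mul_le_mul_left _ hY
    _ = 2 ^ (C * AA d * R + Y) := by rw [← pow_add]
    _ ≤ 2 ^ m := Nat.pow_le_pow_right (by norm_num) (by omega)

end Geom

open Geom

theorem geomMain (d C Y : ℕ) : ∃ Sc : Scale (d + 2), (∀ l ∈ Sc.P, Y < l) ∧
    C ^ Sc.sz ≤ Sc.P.card := by
  classical
  obtain ⟨k, J, m, hk, hJ, hJn, hm, hm20, hbig⟩ := arith d C (max Y 268800)
  set n := 802 * k with hn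
  set r : ℤ := 401 * (k : ℤ) + 400 with hr
  have hn1 : 1 ≤ n := by omega
  have hr0 : 0 ≤ r := by omega
  have hrn : r < n := by rw [hn]; push_cast; omega
  set e := (Idx d n r).equivFin with he
  set q : Fin (Idx d n r).card → (Fin (d + 2) → Bool) × V (d + 2) := fun t => (e.symm t).1
    with hq
  have hqm : ∀ t, q t ∈ Idx d n r := fun t => (e.symm t).2
  choose L E S hPath hGood hCard hGad using fun t : Fin (Idx d n r).card =>
    thread_all d k J m hk hJ hJn hm (q t).1 (q t).2 (mem_Idx.1 (hqm t)).1 (mem_Idx.1 (hqm t)).2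
  set P : Finset ℕ := ((Finset.Icc 1 (2 * S4 m - 14)).filter Nat.Prime).filter
    (fun l => max Y 268800 < l) with hP
  have hPm : ∀ l ∈ P, l.Prime ∧ Y < l ∧ 268800 < l ∧ l ≤ 2 * S4 m - 14 := by
    intro l hl
    rw [hP, Finset.mem_filter, Finset.mem_filter, Finset.mem_Icc] at hl
    exact ⟨hl.1.2, (le_max_left _ _).trans_lt hl.2, (le_max_right _ _).trans_lt hl.2, hl.1.1.2⟩
  have hPc : 2 ^ m ≤ P.card + max Y 268800 := by
    have h1 := primes_lower m hm20
    have h2 : ((Finset.Icc 1 (2 * S4 m - 14)).filter Nat.Prime) ⊆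
        P ∪ Finset.Icc 1 (max Y 268800) := by
      intro l hl
      by_cases h : max Y 268800 < l
      · exact Finset.mem_union_left _ (Finset.mem_filter.2 ⟨hl, h⟩)
      · refine Finset.mem_union_right _ (Finset.mem_Icc.2 ⟨?_, not_lt.1 h⟩)
        exact (Finset.mem_Icc.1 (Finset.mem_filter.1 hl).1).1
    have h3 := (Finset.card_le_card h2).trans (Finset.card_union_le _ _)
    rw [Nat.card_Icc, Nat.add_sub_cancel] at h3
    exact h1.trans h3
  obtain ⟨hz1, hz2, hz3⟩ := aux1 d (802 * k) (szz d k) (szz_ge d k)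
  refine ⟨{
    K := n + 2
    hK := by omega
    T := (Idx d n r).card
    a := fun t => refl (q t).1 (q t).2
    b := fun t => refl (q t).1 (a0 d n r)
    L := L
    E := E
    S := S
    thread := hPath
    ha := fun t => (Str_refl _ _ _).2 (kill_str (mem_Idx.1 (hqm t)).1)
    hb := fun t => (Str_refl _ _ _).2 (a0_str hr0 hrn)
    inner := fun t => (hGood t).1
    efree := fun t => (hGood t).2
    P := P
    hP := fun l hl => (hPm l hl).1
    gadget := fun t l hl => by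
      obtain ⟨h1, h2, h3, h4⟩ := hPm l hl
      obtain ⟨E', S', hN, hF, hG⟩ := hGad t l h1 h3 h4
      exact ⟨E', S', hN, hF, hG.1, hG.2⟩
    kill := fun M _ u hu hline => by
      refine kill_const d n r hn1 M u (fun ε a ha => ?_) hline
      by_cases h : a = a0 d n r
      · rw [h]; rfl
      · have hmem : ((ε, a) : (Fin (d + 2) → Bool) × V (d + 2)) ∈ Idx d n r :=
          mem_Idx.2 ⟨ha, h⟩
        have h1 := hu (e ⟨(ε, a), hmem⟩)
        have h2 : q (e ⟨(ε, a), hmem⟩) = (ε, a) := by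
          rw [hq]; simp
        simp only [h2] at h1
        exact h1
    sz := szz d k
    hsz := ?_
    szK := ?_
    szT := ?_
    szS := ?_ }, ?_, ?_⟩
  · exact hz1
  · exact hz2.trans Nat.lt_two_pow_self.le
  · refine (card_Idx d n r).trans ?_
    have h1 : 2 * (n + 4) * (d + 2) ≤ szz d k := hz3
    calc (2 * (n + 4)) ^ (d + 2) ≤ (2 ^ (2 * (n + 4))) ^ (d + 2) :=
          Nat.pow_le_pow_left Nat.lt_two_pow_self.le _
      _ = 2 ^ (2 * (n + 4) * (d + 2)) := by rw [← pow_mul]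
      _ ≤ _ := Nat.pow_le_pow_right (by norm_num) h1
  · intro t
    have h1 := card_StrF d (n + 2)
    have h2 := hCard t
    have h3 : 2 * (n + 2) + 3 = 2 * (802 * k) + 7 := by omega
    rw [h3] at h1
    unfold szz
    exact add_le_add h1 h2
  · exact fun l hl => (hPm l hl).2.1
  · change C ^ szz d k ≤ P.card
    omega

end Pool.Agent.Lib.MP_79dc3a_pr
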