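import Pool.Agent.Lib.MP_79dc3a_pr.NetCalc

/-!
# Planar ladder networks inside the grid

`ladder`: the ladder network with a given list of letters, folded into a `401 k × 798 J` box.
-/

set_option autoImplicit false

namespace Pool.Agent.Lib.MP_79dc3a_pr

open Finset

namespace Lad

/-- there is a path network from `a` to `b` of length `L` with all vertices in the region `R` -/
def PN (a b : ℤ × ℤ) (L : ℕ) (R : ℤ → ℤ → Prop) : Prop :=
  ∃ (E : Finset (Sym2 (ℤ × ℤ))) (S : Finset (ℤ × ℤ)), PathNet grid2 E S a b L ∧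
    ∀ v ∈ S, R v.1 v.2

/-- there is a network from `a` to `b` of resistance `x` with all vertices in the region `R` -/
def NN (a b : ℤ × ℤ) (x : ℚ) (R : ℤ → ℤ → Prop) : Prop :=
  ∃ (E : Finset (Sym2 (ℤ × ℤ))) (S : Finset (ℤ × ℤ)), Net grid2 E S a b x ∧
    ∀ v ∈ S, R v.1 v.2

section
variable {a b a' b' m : ℤ × ℤ} {L L' L1 L2 : ℕ} {x x' x1 x2 : ℚ} {R R' R1 R2 : ℤ → ℤ → Prop}

lemma PN.mono (h : PN a b L R) (hR : ∀ x y, R x y → R' x y) : PN a b L R' := by
  obtain ⟨E, S, h1, h2⟩ := h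
  exact ⟨E, S, h1, fun v hv => hR _ _ (h2 v hv)⟩

lemma NN.mono (h : NN a b x R) (hR : ∀ x y, R x y → R' x y) : NN a b x R' := by
  obtain ⟨E, S, h1, h2⟩ := h
  exact ⟨E, S, h1, fun v hv => hR _ _ (h2 v hv)⟩

lemma PN.cast (h : PN a b L R) (ha : a = a') (hb : b = b') (hL : L = L') : PN a' b' L' R := by
  subst ha hb hL; exact h

lemma NN.cast (h : NN a b x R) (ha : a = a') (hb : b = b') (hL : x = x') : NN a' b' x' R := by
  subst ha hb hL; exact h

lemma PN.symm (h : PN a b L R) : PN b a L R := by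
  obtain ⟨E, S, h1, h2⟩ := h
  exact ⟨E, S, h1.symm, h2⟩

lemma NN.symm (h : NN a b x R) : NN b a x R := by
  obtain ⟨E, S, h1, h2⟩ := h
  exact ⟨E, S, h1.symm, h2⟩

lemma PN.toNN (h : PN a b L R) : NN a b (L : ℚ) R := by
  obtain ⟨E, S, h1, h2⟩ := h
  exact ⟨E, S, h1.toNet, h2⟩

lemma PN.series (h1 : PN a m L1 R1) (h2 : PN m b L2 R2)
    (h : ∀ x y, R1 x y → R2 x y → x = m.1 ∧ y = m.2) :
    PN a b (L1 + L2) (fun x y => R1 x y ∨ R2 x y) := by
  obtain ⟨E1, S1, h1, g1⟩ := h1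
  obtain ⟨E2, S2, h2, g2⟩ := h2
  refine ⟨E1 ∪ E2, S1 ∪ S2, h1.series h2 ?_, ?_⟩
  · intro v hv1 hv2
    have := h _ _ (g1 v hv1) (g2 v hv2)
    exact Prod.ext this.1 this.2
  · intro v hv
    rcases Finset.mem_union.mp hv with hv | hv
    · exact Or.inl (g1 v hv)
    · exact Or.inr (g2 v hv)

lemma NN.series (h1 : NN a m x1 R1) (h2 : NN m b x2 R2)
    (h : ∀ x y, R1 x y → R2 x y → x = m.1 ∧ y = m.2) :
    NN a b (x1 + x2) (fun x y => R1 x y ∨ R2 x y) := by
  obtain ⟨E1, S1, h1, g1⟩ := h1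
  obtain ⟨E2, S2, h2, g2⟩ := h2
  refine ⟨E1 ∪ E2, S1 ∪ S2, h1.series h2 ?_, ?_⟩
  · intro v hv1 hv2
    have := h _ _ (g1 v hv1) (g2 v hv2)
    exact Prod.ext this.1 this.2
  · intro v hv
    rcases Finset.mem_union.mp hv with hv | hv
    · exact Or.inl (g1 v hv)
    · exact Or.inr (g2 v hv)

lemma NN.parallel (h1 : NN a b x1 R1) (h2 : NN a b x2 R2)
    (h : ∀ x y, R1 x y → R2 x y → (x = a.1 ∧ y = a.2) ∨ (x = b.1 ∧ y = b.2))
    (hab : ¬ grid2.Adj a b) :
    NN a b (x1 * x2 / (x1 + x2)) (fun x y => R1 x y ∨ R2 x y) := by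
  obtain ⟨E1, S1, h1, g1⟩ := h1
  obtain ⟨E2, S2, h2, g2⟩ := h2
  refine ⟨E1 ∪ E2, S1 ∪ S2, h1.parallel h2 ?_ hab, ?_⟩
  · intro v hv1 hv2
    rcases h _ _ (g1 v hv1) (g2 v hv2) with this | this
    · exact Or.inl (Prod.ext this.1 this.2)
    · exact Or.inr (Prod.ext this.1 this.2)
  · intro v hv
    rcases Finset.mem_union.mp hv with hv | hv
    · exact Or.inl (g1 v hv)
    · exact Or.inr (g2 v hv)

/-- transposition -/
lemma PN.swap (h : PN a b L R) : PN (a.2, a.1) (b.2, b.1) L (fun x y => R y x) := by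
  obtain ⟨E, S, h1, h2⟩ := h
  refine ⟨_, _, h1.map (G' := grid2) (fun v : ℤ × ℤ => (v.2, v.1)) ?_ ?_, ?_⟩
  · intro u _ v _ huv
    simp only [Prod.mk.injEq] at huv
    exact Prod.ext huv.2 huv.1
  · intro u _ v _ huv
    simp only [grid2] at huv ⊢
    omega
  · intro v hv
    obtain ⟨u, hu, rfl⟩ := Finset.mem_image.mp hv
    exact h2 u hu

/-- reflection `x ↦ c - x` and shift up by `d` -/
lemma NN.refl (h : NN a b x R) (c d : ℤ) :
    NN (c - a.1, a.2 + d) (c - b.1, b.2 + d) x (fun x y => R (c - x) (y - d)) := by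
  obtain ⟨E, S, h1, h2⟩ := h
  refine ⟨_, _, h1.map (G' := grid2) (fun v : ℤ × ℤ => (c - v.1, v.2 + d)) ?_ ?_, ?_⟩
  · intro u _ v _ huv
    simp only [Prod.mk.injEq] at huv
    exact Prod.ext (by omega) (by omega)
  · intro u _ v _ huv
    simp only [grid2] at huv ⊢
    omega
  · intro v hv
    obtain ⟨u, hu, rfl⟩ := Finset.mem_image.mp hv
    simpa using h2 u hu

lemma PN.single (h : grid2.Adj a b) : PN a b 1 (fun x y => (x = a.1 ∧ y = a.2) ∨
    (x = b.1 ∧ y = b.2)) := by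
  refine ⟨_, _, PathNet.single h, ?_⟩
  intro v hv
  simp only [Finset.mem_insert, Finset.mem_singleton] at hv
  rcases hv with rfl | rfl
  · exact Or.inl ⟨rfl, rfl⟩
  · exact Or.inr ⟨rfl, rfl⟩

end

/-- vertical line -/
lemma vline (x y : ℤ) (n : ℕ) (hn : 1 ≤ n) :
    PN (x, y) (x, y + n) n (fun a b => a = x ∧ y ≤ b ∧ b ≤ y + n) := by
  induction n, hn using Nat.le_induction with
  | base =>
    refine (PN.single (a := (x, y)) (b := (x, y + 1)) ?_).cast rfl (by simp) rfl |>.mono ?_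
    · simp [grid2]
    · intro a b h; push_cast; simp only at h; omega
  | succ n hn ih =>
    have h1 : PN (x, y + n) (x, y + n + 1) 1 _ := PN.single (by simp [grid2])
    refine ((ih.series h1 ?_).cast rfl (by push_cast; rw [add_assoc]) rfl).mono ?_
    · intro a b h; simp only; omega
    · intro a b h; push_cast; simp only at h; omega

/-- horizontal line -/
lemma hline (x y : ℤ) (n : ℕ) (hn : 1 ≤ n) :
    PN (x, y) (x + n, y) n (fun a b => b = y ∧ x ≤ a ∧ a ≤ x + n) :=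
  (vline y x n hn).swap

/-- one wiggle -/
lemma pair (x y : ℤ) (k : ℕ) :
    PN (x, y) (x, y + 2) (2 + 2 * k) (fun a b => (x ≤ a ∧ a ≤ x + k ∧ y ≤ b ∧ b < y + 2) ∨
      (a = x ∧ b = y + 2)) := by
  rcases Nat.eq_zero_or_pos k with rfl | hk
  · refine ((vline x y 2 (by norm_num)).cast rfl (by simp) rfl).mono ?_
    intro a b h; push_cast at h ⊢; omega
  · have h1 := hline x y k hk
    have h2 : PN (x + k, y) (x + k, y + 1) 1 _ := PN.single (by simp [grid2])
    have h3 := (hline x (y + 1) k hk).symm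
    have h4 : PN (x, y + 1) (x, y + 1 + 1) 1 _ := PN.single (by simp [grid2])
    have h12 := h1.series h2 (by intro a b; simp only; omega)
    have h123 := h12.series h3 (by intro a b; simp only; omega)
    have h1234 := h123.series h4 (by intro a b; simp only; omega)
    refine (h1234.cast rfl (by ring_nf) (by ring)).mono ?_
    intro a b; simp only; omega

/-- a vertical wiggle of height `2P` and length `2P+2M` -/
lemma wiggle (w : ℕ) (P : ℕ) (hP : 1 ≤ P) : ∀ (M : ℕ) (_ : M ≤ P * w) (x y : ℤ),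
    PN (x, y) (x, y + 2 * P) (2 * P + 2 * M)
      (fun a b => (x ≤ a ∧ a ≤ x + w ∧ y ≤ b ∧ b < y + 2 * P) ∨ (a = x ∧ b = y + 2 * P)) := by
  induction P, hP using Nat.le_induction with
  | base =>
    intro M hM x y
    refine ((pair x y M).cast rfl (by simp) (by ring)).mono ?_
    intro a b; push_cast; omega
  | succ P hP ih =>
    intro M hM x y
    obtain ⟨k, M', hk, hM', hkM⟩ : ∃ k M' : ℕ, k ≤ w ∧ M' ≤ P * w ∧ k + M' = M := by
      rcases le_total M w with h | h
      · exact ⟨M, 0, h, by omega, by omega⟩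
      · refine ⟨w, M - w, le_rfl, ?_, by omega⟩
        rw [add_mul, one_mul] at hM
        omega
    have h1 := pair x y k
    have h2 := ih M' hM' x (y + 2)
    have h12 := h1.series h2 (by intro a b; simp only; omega)
    refine (h12.cast rfl (by push_cast; ring_nf) (by rw [← hkM]; ring)).mono ?_
    intro a b; push_cast; omega

/-- the rung -/
lemma rung (X : ℤ) (c : ℕ) (h2 : c % 2 = 0) (h : 400 ≤ c) (h' : c ≤ 134400) :
    PN (X, 0) (X, 400) c (fun a b => (X ≤ a ∧ a ≤ X + 340 ∧ 1 ≤ b ∧ b ≤ 399) ∨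
      (a = X ∧ (b = 0 ∨ b = 400))) := by
  obtain ⟨M, hM⟩ : ∃ M, c = 400 + 2 * M := ⟨(c - 400) / 2, by omega⟩
  have h1 : PN (X, 0) (X, 0 + 1) 1 _ := PN.single (by simp [grid2])
  have h2 := wiggle 340 199 (by norm_num) M (by omega) X (0 + 1)
  have h3 : PN (X, 0 + 1 + 2 * (199 : ℕ)) (X, 0 + 1 + 2 * (199 : ℕ) + 1) 1 _ :=
    PN.single (by simp [grid2])
  have h12 := h1.series h2 (by intro a b; simp only; omega)
  have h123 := h12.series h3 (by intro a b; simp only; omega)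
  refine (h123.cast rfl (by norm_num) (by omega)).mono ?_
  intro a b; simp only; omega

/-- bottom rail -/
lemma brail (X : ℤ) (L : ℕ) (h2 : L % 2 = 0) (h : 798 ≤ L) (h' : L ≤ 10080) :
    PN (X, 0) (X + 798, 0) L (fun a b => (X ≤ a ∧ a ≤ X + 798 ∧ b = 0) ∨
      (X + 342 ≤ a ∧ a < X + 798 ∧ 0 ≤ b ∧ b ≤ 398)) := by
  obtain ⟨M, hM⟩ : ∃ M, L = 798 + 2 * M := ⟨(L - 798) / 2, by omega⟩
  have h1 := hline X 0 342 (by norm_num)
  have h2 := (wiggle 398 228 (by norm_num) M (by omega) 0 (X + (342 : ℕ))).swap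
  have h12 := h1.series h2 (by intro a b; simp only; omega)
  refine (h12.cast rfl (by push_cast; ring_nf) (by omega)).mono ?_
  intro a b; omega

/-- one cell of the ladder -/
lemma cell (X : ℤ) (x' : ℚ) (R : ℤ → ℤ → Prop) (h : NN (X + 798, 0) (X + 798, 400) x' R)
    (hR : ∀ a b, R a b → 0 ≤ b ∧ (b < 401 → X + 798 ≤ a)) (c e : ℕ) (hc2 : c % 2 = 0)
    (hc : 400 ≤ c) (hc' : c ≤ 134400) (he2 : e % 2 = 0) (he : 1596 ≤ e) (he' : e ≤ 10080) :
    NN (X, 0) (X, 400) ((c : ℚ) * (x' + e) / (c + (x' + e)))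
      (fun a b => R a b ∨ (X ≤ a ∧ a ≤ X + 798 ∧ 0 ≤ b ∧ b ≤ 400)) := by
  have h1 := (rung X c hc2 hc hc').toNN
  have h2 := (brail X (e - 798) (by omega) (by omega) (by omega)).toNN
  have h3 := (hline X 400 798 (by norm_num)).symm.toNN
  have h2h := h2.series h (by
    intro a b h1 h2
    have := hR a b h2
    simp only
    omega)
  have h4 := h2h.series (m := (X + 798, 400)) (h3.cast (by simp) rfl rfl) (by
    intro a b h1 h2
    simp only
    rcases h1 with h1 | h1
    · omega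
    · have := hR a b h1
      omega)
  have h5 := h1.parallel h4 (by
    intro a b h1 h2
    simp only
    rcases h2 with (h2 | h2) | h2
    · omega
    · have := hR a b h2
      omega
    · omega) (by simp [grid2])
  have hcast : (((e - 798 : ℕ) : ℚ) + x' + ((798 : ℕ) : ℚ)) = x' + e := by
    rw [Nat.cast_sub (by omega)]
    push_cast
    ring
  refine (h5.cast rfl rfl (by rw [hcast])).mono ?_
  intro a b h
  rcases h with h | (h | h) | h
  · right; omega
  · right; omega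
  · left; exact h
  · right; push_cast at h; omega

/-- the turn -/
lemma turn (X : ℤ) (x' : ℚ) (R : ℤ → ℤ → Prop) (h : NN (2, 0) (2, 400) x' R)
    (hR : ∀ a b, R a b → 1 ≤ a ∧ a ≤ X + 1 ∧ 0 ≤ b ∧ (b < 401 → 2 ≤ a)) :
    NN (X, 0) (X, 400) (x' + 804)
      (fun a b => R (X + 2 - a) (b - 401) ∨ (X ≤ a ∧ a ≤ X + 1 ∧ 0 ≤ b ∧ b ≤ 801)) := by
  have h1 := ((h.refl (X + 2) 401).symm).cast (a' := (X, 801)) (b' := (X, 401))
    (by simp) (by simp) rfl
  have h2 : PN (X, 400) (X, 401) 1 _ := PN.single (by simp [grid2])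
  have h3 : PN (X, 0) (X + 1, 0) 1 _ := PN.single (by simp [grid2])
  have h4 := (vline (X + 1) 0 801 (by norm_num)).cast (b' := (X + 1, 801)) rfl (by simp) rfl
  have h5 : PN (X + 1, 801) (X, 801) 1 _ := PN.single (by simp [grid2])
  have h34 := h3.series h4 (by intro a b; simp only; omega)
  have h345 := (h34.series h5 (by intro a b; simp only; omega)).toNN
  have h6 := h345.series h1 (by
    intro a b h1 h2
    have := hR _ _ h2
    simp only at h1 ⊢
    omega)
  have h7 := h6.series h2.symm.toNN (by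
    intro a b h1 h2
    simp only at h1 h2 ⊢
    rcases h1 with h1 | h1
    · omega
    · have := hR _ _ h1
      omega)
  refine (h7.cast rfl rfl (by push_cast; ring)).mono ?_
  intro a b h
  simp only at h
  rcases h with (h | h) | h
  · right; omega
  · left; exact h
  · right; omega

/-- the main induction -/
lemma main (J : ℕ) (hJ : 1 ≤ J) (b : ℕ) (hb2 : b % 2 = 0) (hb : 400 ≤ b)
    (hb' : b ≤ 134400) (w : List (ℕ × ℕ)) : ∀ (_ : ∀ l ∈ w, LetterOK l) (k j : ℕ) (_ : 1 ≤ j)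
    (_ : j ≤ J) (_ : w.length + 1 ≤ k * J + j),
    NN (2 + 798 * ((J : ℤ) - j), 0) (2 + 798 * ((J : ℤ) - j), 400) (res b w)
      (fun x y => 1 ≤ x ∧ x ≤ 798 * (J : ℤ) + 3 ∧ 0 ≤ y ∧ y < 401 * ((k : ℤ) + 1) ∧
        (y < 401 → 2 + 798 * ((J : ℤ) - j) ≤ x)) := by
  induction w with
  | nil =>
    intro _ k j hj hjJ _
    have h1 := (rung (2 + 798 * ((J : ℤ) - j)) b hb2 hb hb').toNN
    refine h1.mono ?_
    intro x y h
    omega
  | cons l w ih =>
    intro hw k j hj hjJ hlen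
    have hl := hw l (by simp)
    have hw' : ∀ l ∈ w, LetterOK l := fun l' h' => hw l' (by simp [h'])
    obtain ⟨he2, he, he', hc2, hc, hc'⟩ := hl
    simp only [List.length_cons] at hlen
    rcases Nat.lt_or_ge 1 j with h1 | h1
    · have h2 := ih hw' k (j - 1) (by omega) (by omega) (by omega)
      have h3 := cell (2 + 798 * ((J : ℤ) - j)) (res b w) _
        (h2.cast (a' := (2 + 798 * ((J : ℤ) - j) + 798, 0))
          (b' := (2 + 798 * ((J : ℤ) - j) + 798, 400))
          (by rw [Nat.cast_sub h1.le]; push_cast; ring_nf)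
          (by rw [Nat.cast_sub h1.le]; push_cast; ring_nf) rfl)
        (by intro x y h; rw [Nat.cast_sub h1.le] at h; push_cast at h; omega)
        l.2 l.1 hc2 hc hc' he2 (by omega) he'
      refine (h3.cast rfl rfl ?_).mono ?_
      · simp [res]
      · intro x y h
        rw [Nat.cast_sub h1.le] at h
        push_cast at h
        omega
    · have hj1 : j = 1 := by omega
      subst hj1
      have hk : 1 ≤ k := by
        rcases Nat.eq_zero_or_pos k with rfl | hk
        · omega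
        · exact hk
      obtain ⟨k, rfl⟩ := Nat.exists_eq_add_of_le' hk
      rw [add_mul, one_mul] at hlen
      have h2 := ih hw' k J hJ le_rfl (by omega)
      have h3 := turn (2 + 798 * (J : ℤ)) (res b w) _
        (h2.cast (a' := (2, 0)) (b' := (2, 400)) (by simp) (by simp) rfl)
        (by intro x y h; omega)
      have h4 := cell (2 + 798 * ((J : ℤ) - 1)) (res b w + 804) _
        (h3.cast (a' := (2 + 798 * ((J : ℤ) - 1) + 798, 0))
          (b' := (2 + 798 * ((J : ℤ) - 1) + 798, 400))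
          (by ring_nf) (by ring_nf) rfl)
        (by intro x y h; omega)
        l.2 (l.1 - 804) hc2 hc hc' (by omega) (by omega) (by omega)
      refine (h4.cast (by simp) (by simp) ?_).mono ?_
      · have : (res b w + 804 + ((l.1 - 804 : ℕ) : ℚ)) = res b w + l.1 := by
          rw [Nat.cast_sub (by omega)]
          push_cast
          ring
        rw [this]
        simp [res]
      · intro x y h
        push_cast
        omega

end Lad

theorem ladder (k J : ℕ) (hk : 1 ≤ k) (hJ : 1 ≤ J) (b : ℕ) (hb2 : b % 2 = 0) (hb : 400 ≤ b)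
    (hb' : b ≤ 134400) (w : List (ℕ × ℕ)) (hw : ∀ l ∈ w, LetterOK l)
    (hlen : w.length + 1 ≤ k * J) :
    ∃ (E : Finset (Sym2 (ℤ × ℤ))) (S : Finset (ℤ × ℤ)),
      Net grid2 E S (2, 0) (2, 400) (res b w) ∧
      ∀ v ∈ S, 1 ≤ v.1 ∧ v.1 ≤ 798 * (J : ℤ) + 3 ∧ 0 ≤ v.2 ∧ v.2 < 401 * (k : ℤ) ∧
        (v.2 < 401 → 2 ≤ v.1) := by
  obtain ⟨k, rfl⟩ := Nat.exists_eq_add_of_le' hk
  have h := Lad.main J hJ b hb2 hb hb' w hw k J hJ le_rfl (by
    rw [add_mul, one_mul] at hlen; omega)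
  have h' := (h.cast (a' := (2, 0)) (b' := (2, 400)) (by simp) (by simp) rfl).mono
    (R' := fun x y => 1 ≤ x ∧ x ≤ 798 * (J : ℤ) + 3 ∧ 0 ≤ y ∧ y < 401 * ((k + 1 : ℕ) : ℤ) ∧
        (y < 401 → 2 ≤ x)) (by intro x y h; push_cast; omega)
  exact h'

end Pool.Agent.Lib.MP_79dc3a_pr
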