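import Pool.Agent.Lib.MP_79dc3a_pr.Count1
import Pool.Agent.Lib.MP_79dc3a_pr.Count2
import Pool.Agent.Lib.MP_79dc3a_pr.Count3
import Pool.Agent.Lib.MP_79dc3a_pr.Det
import Pool.Agent.Lib.MP_79dc3a_pr.Measure

/-!
# MP_79dc3a_pr: the three probability estimates
-/

namespace Pool.Agent.Lib.MP_79dc3a_pr

open Finset MeasureTheory

theorem prob_card_Bx {d : ℕ} (m : ℕ) : (Bx (0 : V d) m).card = (2 * m + 1) ^ d := by
  unfold Bx
  rw [Pi.card_Icc]
  simp only [Pi.zero_apply, Int.card_Icc, prod_const, card_univ, Fintype.card_fin]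
  congr 1
  omega

theorem prob_mem_Bx {d : ℕ} {m : ℕ} {z : V d} (h : z ∈ Bx (0 : V d) m) (i : Fin d) :
    |(0 : V d) i - z i| + (m : ℤ) ≤ ((2 * m : ℕ) : ℤ) := by
  unfold Bx at h
  rw [Finset.mem_Icc, Pi.le_def, Pi.le_def] at h
  have h1 := h.1 i
  have h2 := h.2 i
  simp only [Pi.zero_apply] at h1 h2 ⊢
  have : |0 - z i| ≤ (m : ℤ) := by
    rw [abs_le]; constructor <;> linarith
  push_cast
  linarith

theorem prob_mod_mono {d : ℕ} {W : Finset (Ed d)} {F F' : Set (Cfg d)} (h : F ⊆ F') :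
    Mod W F ⊆ Mod W F' := by
  rintro w ⟨w', hw', he⟩
  exact ⟨w', h hw', he⟩

theorem prob_det_mono {d : ℕ} {T T' : Finset (Ed d)} {F : Set (Cfg d)} (hT : T ⊆ T')
    (h : DetBy T F) : DetBy T' F :=
  fun w w' hw => h w w' fun e he => hw e (hT he)

theorem prob_pow_le {d : ℕ} (Sc : Scale d) {p c : ℝ} (h1 : p ≤ 1) (hc : 0 ≤ c)
    (hcp : c ≤ p) (n : ℕ) (hn : n ≤ Sc.sz) : c ^ (2 * d * Sc.sz) ≤ c ^ (2 * d * n) :=
  pow_le_pow_of_le_one hc (hcp.trans h1) (Nat.mul_le_mul_left _ hn)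

/-- the common part of the comparison of the modified events at different sites -/
theorem prob_shift_mod {d : ℕ} {K : ℕ} {p : ℝ} (h0 : 0 ≤ p) (h1 : p ≤ 1) (z : V d)
    (F F' F'' : Set (Cfg d)) (T : Finset (Ed d)) (hF : DetBy T F)
    (hsh : ∀ w, shiftC (cen K z) w ∈ F ↔ w ∈ F') (hsub : F' ⊆ F'') :
    (mu d p).real (Mod (Wd K 0) F) ≤ (mu d p).real (Mod (Wd K z) F'') := by
  have hmu := mu_prob d p h0 h1
  rw [← mu_shift h0 h1 (det_Mod (W := Wd K 0) hF) (cen K z)]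
  refine measureReal_mono ?_ (measure_ne_top _ _)
  intro w hw
  have h2 := (shift_Mod (K := K) 0 z F F' hsh w).1 hw
  rw [zero_add] at h2
  exact prob_mod_mono hsub h2

theorem prob1 {d : ℕ} (Sc : Scale d) {p c : ℝ} (h0 : 0 ≤ p) (h1 : p ≤ 1) (hc : 0 ≤ c)
    (hcp : c ≤ p) (hcp' : c ≤ 1 - p) (l : ℕ) (hl : l ∈ Sc.P) (t : Fin Sc.T) :
    ∃ q : ℝ, 0 ≤ q ∧ (0 < c → 0 < q) ∧ ∀ m : ℕ,
      q * (2 * m + 1) ^ d * (mu d p).real (Mod (Wd Sc.K 0) (F1 Sc l t 0 0 (2 * m))) ≤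
        bd d Sc.K m := by
  classical
  obtain ⟨E', S', hN, hF, hin, hef⟩ := Sc.gadget t l hl
  refine ⟨c ^ (2 * d * ((StrF d Sc.K).card + S'.card)), by positivity,
    fun h => by positivity, fun m => ?_⟩
  choose T hT using fun z : V d => det_F1 Sc l t z 0 m
  obtain ⟨T0, hT0⟩ := det_F1 Sc l t 0 0 (2 * m)
  have h := switch (p := p) h0 h1 (Bx (0 : V d) m)
    (fun z => {w | Pat Sc.K (cen Sc.K z) E' S' (opn w)})
    (fun z => Mod (Wd Sc.K z) (F1 Sc l t z 0 m)) (fun z => Wd Sc.K z)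
    (fun z => T z \ Wd Sc.K z) (fun z _ => det_Pat z E' S') (fun z _ => det_Mod (hT z))
    (fun z _ => disjoint_sdiff) (c ^ (2 * d * ((StrF d Sc.K).card + S'.card)))
    (fun z _ => pat_prob h0 h1 hc hcp hcp' z E' S') (bd d Sc.K m)
    (fun w Z' hZ' hw => count1 Sc l (Sc.hP l hl) t E' S' hN hF hin hef m w Z' hZ' hw)
  refine le_trans ?_ h
  rw [mul_assoc]
  refine mul_le_mul_of_nonneg_left ?_ (by positivity)
  have h3 : ((2 * m + 1 : ℝ)) ^ d = ((Bx (0 : V d) m).card : ℝ) := by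
    rw [prob_card_Bx]; push_cast; ring
  rw [h3, ← nsmul_eq_mul]
  refine Finset.card_nsmul_le_sum _ _ _ fun z hz => ?_
  refine prob_shift_mod h0 h1 z _ (F1 Sc l t (0 + z) (0 + z) (2 * m)) _ T0 hT0
    (shift_F1 Sc l t 0 0 z (2 * m)) ?_
  rw [zero_add]
  exact mono_F1 Sc l t z 0 z m (2 * m) (prob_mem_Bx hz)

/-- cardinality of a finite set of pairs -/
theorem prob_card_pairs {α : Type} [DecidableEq α] (P : Finset ℕ) (B : Finset α)
    (Z : Finset (ℕ × α)) (hZ : Z ⊆ P ×ˢ B) :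
    Z.card = ∑ l ∈ P, ((Z.filter fun x => x.1 = l).image Prod.snd).card := by
  rw [Finset.card_eq_sum_card_fiberwise (f := Prod.fst) (t := P)
    (fun x hx => (Finset.mem_product.1 (hZ hx)).1)]
  refine Finset.sum_congr rfl fun l _ => ?_
  rw [Finset.card_image_of_injOn]
  rintro ⟨a, b⟩ ha ⟨a', b'⟩ ha' hb
  simp only [coe_filter, Set.mem_ofPred_eq] at ha ha' hb
  exact Prod.ext (ha.2.trans ha'.2.symm) hb

theorem prob_count2 {d : ℕ} (Sc : Scale d) (t : Fin Sc.T) (m : ℕ) (w : Cfg d)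
    (Z' : Finset (ℕ × V d)) (hZ' : Z' ⊆ Sc.P ×ˢ Bx (0 : V d) m)
    (hw : ∀ x ∈ Z', Pat Sc.K (cen Sc.K x.2) (Sc.E t) (Sc.S t) (opn w) ∧
      w ∈ Mod (Wd Sc.K x.2) (F2 Sc x.1 t x.2 0 m)) :
    Z'.card ≤ Sc.P.card * bd d Sc.K m + 4 * d * vol d Sc.K m := by
  classical
  have h1 := prob_card_pairs Sc.P _ Z' hZ'
  have h2 := count2 Sc t m w (fun l => (Z'.filter fun x => x.1 = l).image Prod.snd) (by
      intro l hl z hz
      obtain ⟨x, hx, rfl⟩ := Finset.mem_image.1 hz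
      exact (Finset.mem_product.1 (hZ' (Finset.mem_filter.1 hx).1)).2) (by
      intro l hl z hz
      obtain ⟨x, hx, rfl⟩ := Finset.mem_image.1 hz
      obtain ⟨hx1, rfl⟩ := Finset.mem_filter.1 hx
      exact hw x hx1)
  exact h1.trans_le h2

theorem prob_count3 {d : ℕ} (Sc : Scale d) (m : ℕ) (η w : Cfg d)
    (Z' : Finset (ℕ × V d)) (hZ' : Z' ⊆ Sc.P ×ˢ Bx (0 : V d) m)
    (hw : ∀ x ∈ Z', Pat Sc.K (cen Sc.K x.2) ∅ ∅ (opn w) ∧
      putC (Wd Sc.K x.2) (shiftC (- cen Sc.K x.2) η) w ∈ F3 Sc x.1 x.2 0 m) :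
    Z'.card ≤ Sc.P.card * bd d Sc.K m + 4 * d * vol d Sc.K m := by
  classical
  have h1 := prob_card_pairs Sc.P _ Z' hZ'
  have h2 := count3 Sc m η w (fun l => (Z'.filter fun x => x.1 = l).image Prod.snd) (by
      intro l hl z hz
      obtain ⟨x, hx, rfl⟩ := Finset.mem_image.1 hz
      exact (Finset.mem_product.1 (hZ' (Finset.mem_filter.1 hx).1)).2) (by
      intro l hl z hz
      obtain ⟨x, hx, rfl⟩ := Finset.mem_image.1 hz
      obtain ⟨hx1, rfl⟩ := Finset.mem_filter.1 hx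
      exact hw x hx1)
  exact h1.trans_le h2

theorem prob2 {d : ℕ} (Sc : Scale d) {p c : ℝ} (h0 : 0 ≤ p) (h1 : p ≤ 1) (hc : 0 ≤ c)
    (hcp : c ≤ p) (hcp' : c ≤ 1 - p) (t : Fin Sc.T) (m : ℕ) :
    c ^ (2 * d * Sc.sz) * (2 * m + 1) ^ d *
      ∑ l ∈ Sc.P, (mu d p).real (Mod (Wd Sc.K 0) (F2 Sc l t 0 0 (2 * m))) ≤
        (Sc.P.card * bd d Sc.K m + 4 * d * vol d Sc.K m : ℕ) := by
  classical
  choose T hT using fun x : ℕ × V d => det_F2 Sc x.1 t x.2 0 m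
  choose T0 hT0 using fun l : ℕ => det_F2 Sc l t 0 0 (2 * m)
  have h := switch (p := p) h0 h1 (Sc.P ×ˢ Bx (0 : V d) m)
    (fun x => {w | Pat Sc.K (cen Sc.K x.2) (Sc.E t) (Sc.S t) (opn w)})
    (fun x => Mod (Wd Sc.K x.2) (F2 Sc x.1 t x.2 0 m)) (fun x => Wd Sc.K x.2)
    (fun x => T x \ Wd Sc.K x.2) (fun x _ => det_Pat x.2 (Sc.E t) (Sc.S t))
    (fun x _ => det_Mod (hT x))
    (fun x _ => disjoint_sdiff) (c ^ (2 * d * Sc.sz))
    (fun x _ => (prob_pow_le Sc h1 hc hcp _ (Sc.szS t)).trans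
      (pat_prob h0 h1 hc hcp hcp' x.2 (Sc.E t) (Sc.S t)))
    (Sc.P.card * bd d Sc.K m + 4 * d * vol d Sc.K m)
    (fun w Z' hZ' hw => prob_count2 Sc t m w Z' hZ' hw)
  refine le_trans ?_ h
  rw [mul_assoc]
  refine mul_le_mul_of_nonneg_left ?_ (by positivity)
  rw [Finset.sum_product, Finset.mul_sum]
  refine Finset.sum_le_sum fun l _ => ?_
  have h3 : ((2 * m + 1 : ℝ)) ^ d = ((Bx (0 : V d) m).card : ℝ) := by
    rw [prob_card_Bx]; push_cast; ring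
  rw [h3, ← nsmul_eq_mul]
  refine Finset.card_nsmul_le_sum _ _ _ fun z hz => ?_
  refine prob_shift_mod h0 h1 z _ (F2 Sc l t (0 + z) (0 + z) (2 * m)) _ (T0 l)
    (hT0 l) (shift_F2 Sc l t 0 0 z (2 * m)) ?_
  rw [zero_add]
  exact mono_F2 Sc l t z 0 z m (2 * m) (prob_mem_Bx hz)

theorem prob_cen_zero {d K : ℕ} : cen K (0 : V d) = 0 := by
  simp [cen]

theorem prob_shiftC_zero {d : ℕ} (w : Cfg d) : shiftC 0 w = w := by
  funext e
  simp [shiftC]

/-- the structure is small -/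
theorem prob_str_le {d : ℕ} (Sc : Scale d) : (StrF d Sc.K).card ≤ Sc.sz := by
  classical
  rcases Nat.eq_zero_or_pos Sc.T with hT | hT
  · rcases Nat.eq_zero_or_pos d with rfl | hd
    · have : StrF 0 Sc.K = ∅ := by
        rw [StrF, Finset.filter_eq_empty_iff]
        rintro x _ ⟨_, ⟨j, _⟩ | ⟨j, _⟩⟩
        · exact j.elim0
        · exact j.elim0
      rw [this]
      exact Nat.zero_le _
    · exfalso
      let j0 : Fin d := ⟨0, hd⟩
      have hK := Sc.hK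
      have hstr : bv j0 ∈ (Str Sc.K : Set (V d)) := by
        have hle : ∀ i, |bv j0 i| ≤ 1 := by
          intro i
          unfold bv
          by_cases hi : i = j0
          · subst hi; simp
          · simp [Pi.single_eq_of_ne hi]
        refine ⟨⟨fun i => ?_, fun i j hi _ => ?_⟩, Or.inl ⟨j0, fun i hi => ?_⟩⟩
        · have := hle i
          omega
        · have := hle i
          omega
        · exact Pi.single_eq_of_ne hi _
      have h := Sc.kill ℤ (fun x => x j0) (fun t => absurd t.2 (by omega)) (fun j s _ _ => by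
        simp only [Pi.smul_apply, smul_eq_mul]
        ring) (bv j0) hstr
      simp [bv] at h
  · have := Sc.szS ⟨0, hT⟩
    omega

theorem prob3 {d : ℕ} (Sc : Scale d) {p c : ℝ} (h0 : 0 ≤ p) (h1 : p ≤ 1) (hc : 0 ≤ c)
    (hcp : c ≤ p) (hcp' : c ≤ 1 - p) (m : ℕ) :
    c ^ (2 * d * Sc.sz) * (2 * m + 1) ^ d *
      ∑ l ∈ Sc.P, (mu d p).real (F3 Sc l 0 0 (2 * m)) ≤
        (Sc.P.card * bd d Sc.K m + 4 * d * vol d Sc.K m : ℕ) := by
  classical
  have hmu := mu_prob d p h0 h1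
  choose T hT using fun x : ℕ × V d => det_F3 Sc x.1 x.2 0 m
  choose T0 hT0 using fun l : ℕ => det_F3 Sc l 0 0 (2 * m)
  -- bound for a fixed configuration in the region
  have hη : ∀ η : Cfg d, c ^ (2 * d * Sc.sz) * (2 * m + 1) ^ d *
      ∑ l ∈ Sc.P, (mu d p).real {w | putC (Wd Sc.K 0) η w ∈ F3 Sc l 0 0 (2 * m)} ≤
        (Sc.P.card * bd d Sc.K m + 4 * d * vol d Sc.K m : ℕ) := by
    intro η
    have h := switch (p := p) h0 h1 (Sc.P ×ˢ Bx (0 : V d) m)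
      (fun x => {w | Pat Sc.K (cen Sc.K x.2) ∅ ∅ (opn w)})
      (fun x => {w | putC (Wd Sc.K x.2) (shiftC (- cen Sc.K x.2) η) w ∈ F3 Sc x.1 x.2 0 m})
      (fun x => Wd Sc.K x.2)
      (fun x => T x \ Wd Sc.K x.2) (fun x _ => det_Pat x.2 ∅ ∅)
      (fun x _ => det_put _ (hT x))
      (fun x _ => disjoint_sdiff) (c ^ (2 * d * Sc.sz))
      (fun x _ => (prob_pow_le Sc h1 hc hcp _ (by
        rw [card_empty, add_zero]; exact prob_str_le Sc)).trans
        (pat_prob h0 h1 hc hcp hcp' x.2 ∅ ∅))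
      (Sc.P.card * bd d Sc.K m + 4 * d * vol d Sc.K m)
      (fun w Z' hZ' hw => prob_count3 Sc m η w Z' hZ' hw)
    refine le_trans ?_ h
    rw [mul_assoc]
    refine mul_le_mul_of_nonneg_left ?_ (by positivity)
    rw [Finset.sum_product, Finset.mul_sum]
    refine Finset.sum_le_sum fun l _ => ?_
    have h3 : ((2 * m + 1 : ℝ)) ^ d = ((Bx (0 : V d) m).card : ℝ) := by
      rw [prob_card_Bx]; push_cast; ring
    rw [h3, ← nsmul_eq_mul]
    refine Finset.card_nsmul_le_sum _ _ _ fun z hz => ?_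
    rw [← mu_shift h0 h1 (det_put (W := Wd Sc.K 0) η (hT0 l)) (cen Sc.K z)]
    refine measureReal_mono ?_ (measure_ne_top _ _)
    intro w hw
    have h4 := shift_put (K := Sc.K) 0 z η w
    rw [zero_add, prob_cen_zero, neg_zero, prob_shiftC_zero] at h4
    have h5 : putC (Wd Sc.K 0) η (shiftC (cen Sc.K z) w) ∈ F3 Sc l 0 0 (2 * m) := hw
    rw [← h4, shift_F3 Sc l 0 0 z (2 * m), zero_add] at h5
    exact mono_F3 Sc l z 0 z m (2 * m) (prob_mem_Bx hz) h5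
  set κ : ℝ := c ^ (2 * d * Sc.sz) * (2 * m + 1) ^ d with hκ
  have hκ0 : 0 ≤ κ := by positivity
  rcases hκ0.eq_or_lt with h | h
  · rw [← h, zero_mul]
    positivity
  · rw [mul_comm, ← le_div_iff₀ h]
    refine mu_total h0 h1 (Wd Sc.K 0) (Sc.P.biUnion T0) Sc.P
      (fun l => F3 Sc l 0 0 (2 * m)) (fun l hl => prob_det_mono
        (Finset.subset_biUnion_of_mem T0 hl) (hT0 l)) _ fun η => ?_
    rw [le_div_iff₀ h, mul_comm]
    exact hη η

end Pool.Agent.Lib.MP_79dc3a_pr
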