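import Pool.Agent.Lib.MP_79dc3a_pr.Chain
import Pool.Agent.Lib.MP_79dc3a_pr.GeomMain
import Pool.Agent.Lib.MP_79dc3a_pr.Prob

/-! Main finite volume theorem (J17, second half). -/

namespace Pool.Agent.Lib.MP_79dc3a_pr

open Finset MeasureTheory

theorem card_Bx {d : ℕ} (c : V d) (r : ℕ) : (Bx c r).card = (2 * r + 1) ^ d := by
  unfold Bx
  rw [Pi.card_Icc]
  have : ∀ i ∈ (Finset.univ : Finset (Fin d)),
      (Finset.Icc (c i - (r : ℤ)) (c i + (r : ℤ))).card = 2 * r + 1 := by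
    intro i _
    rw [Int.card_Icc]
    have : c i + (r:ℤ) + 1 - (c i - (r:ℤ)) = ((2 * r + 1 : ℕ) : ℤ) := by push_cast; ring
    rw [this, Int.toNat_natCast]
  rw [Finset.prod_congr rfl this, Finset.prod_const, Finset.card_univ, Fintype.card_fin]

theorem pow_sub_le (n : ℕ) (a b : ℝ) (hb : 0 ≤ b) (hab : b ≤ a) :
    a ^ (n + 1) - b ^ (n + 1) ≤ (n + 1) * (a - b) * a ^ n := by
  induction n with
  | zero => simp
  | succ n ih =>
    have ha : 0 ≤ a := hb.trans hab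
    have h1 : b ^ (n + 1) ≤ a ^ (n + 1) := pow_le_pow_left₀ hb hab _
    have h2 : a * (a ^ (n + 1) - b ^ (n + 1)) ≤ a * ((n + 1) * (a - b) * a ^ n) :=
      mul_le_mul_of_nonneg_left ih ha
    have h3 : (a - b) * b ^ (n + 1) ≤ (a - b) * a ^ (n + 1) :=
      mul_le_mul_of_nonneg_left h1 (by linarith)
    have e : a ^ (n + 1 + 1) - b ^ (n + 1 + 1) =
        a * (a ^ (n + 1) - b ^ (n + 1)) + (a - b) * b ^ (n + 1) := by ring
    have e2 : ((n + 1 : ℕ) + 1 : ℝ) * (a - b) * a ^ (n + 1) =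
        a * ((n + 1) * (a - b) * a ^ n) + (a - b) * a ^ (n + 1) := by
      push_cast; ring
    rw [e, e2]
    linarith

theorem rad_succ (K m : ℕ) : rad K m + 1 = (2 * K + 4) * (m + 1) := by
  unfold rad
  have : 1 ≤ (2 * K + 4) * (m + 1) := Nat.succ_le_of_lt (Nat.mul_pos (by omega) (by omega))
  omega

theorem side_le (K m : ℕ) :
    (2 * ((rad K m + 1 : ℕ) : ℝ) + 1) ≤ 3 * (2 * K + 4) * (2 * m + 1) := by
  rw [rad_succ]
  push_cast
  have hK : (0:ℝ) ≤ K := Nat.cast_nonneg K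
  have hm : (0:ℝ) ≤ m := Nat.cast_nonneg m
  nlinarith [mul_nonneg hK hm]

theorem vol_le (d K m : ℕ) :
    (vol d K m : ℝ) ≤ (3 * (2 * K + 4)) ^ d * (2 * m + 1) ^ d := by
  unfold vol
  rw [card_Bx]
  push_cast
  rw [← mul_pow]
  have := side_le K m
  push_cast at this
  exact pow_le_pow_left₀ (by positivity) this d

theorem bd_le (d K m : ℕ) :
    (bd (d + 1) K m : ℝ) * (2 * m + 1) ≤
      2 * (d + 1) * (3 * (2 * K + 4)) ^ (d + 1) * (2 * m + 1) ^ (d + 1) := by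
  unfold bd
  have hsub : Bx (0 : V (d + 1)) (rad K m) ⊆ Bx (0 : V (d + 1)) (rad K m + 1) := by
    intro x hx
    rw [mem_Bx] at *
    intro i
    have := hx i
    push_cast
    linarith
  rw [Finset.card_sdiff_of_subset hsub, card_Bx, card_Bx]
  have hle : (2 * rad K m + 1) ^ (d + 1) ≤ (2 * (rad K m + 1) + 1) ^ (d + 1) :=
    Nat.pow_le_pow_left (by omega) _
  rw [Nat.cast_sub hle]
  have h1 := pow_sub_le d (2 * ((rad K m + 1 : ℕ) : ℝ) + 1) (2 * (rad K m : ℝ) + 1)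
    (by positivity) (by push_cast; linarith)
  have h2 := side_le K m
  have h3 : (2 * ((rad K m + 1 : ℕ) : ℝ) + 1) ^ d ≤ (3 * (2 * K + 4) * (2 * m + 1)) ^ d :=
    pow_le_pow_left₀ (by positivity) h2 d
  have h4 : (2 * ((rad K m + 1 : ℕ) : ℝ) + 1) - (2 * (rad K m : ℝ) + 1) = 2 := by
    push_cast; ring
  rw [h4] at h1
  have h5 : (((2 * (rad K m + 1) + 1) ^ (d + 1) : ℕ) : ℝ) - (((2 * rad K m + 1) ^ (d + 1) : ℕ) : ℝ)
      ≤ (d + 1) * 2 * (3 * (2 * K + 4) * (2 * m + 1)) ^ d := by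
    have : (((2 * (rad K m + 1) + 1) ^ (d + 1) : ℕ) : ℝ) - (((2 * rad K m + 1) ^ (d + 1) : ℕ) : ℝ)
      = (2 * ((rad K m + 1 : ℕ) : ℝ) + 1) ^ (d + 1) - (2 * (rad K m : ℝ) + 1) ^ (d + 1) := by
      push_cast; ring
    rw [this]
    refine h1.trans ?_
    exact mul_le_mul_of_nonneg_left h3 (by positivity)
  have hK : (1:ℝ) ≤ 3 * (2 * K + 4) := by
    have : (0:ℝ) ≤ K := Nat.cast_nonneg K
    linarith
  have h6 : (3 * (2 * (K:ℝ) + 4)) ^ d ≤ (3 * (2 * K + 4)) ^ (d + 1) :=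
    pow_le_pow_right₀ hK (by omega)
  have hm : (0:ℝ) ≤ 2 * m + 1 := by positivity
  calc _ ≤ ((d + 1) * 2 * (3 * (2 * K + 4) * (2 * m + 1)) ^ d) * (2 * (m:ℝ) + 1) :=
        mul_le_mul_of_nonneg_right h5 hm
    _ = 2 * (d + 1) * (3 * (2 * K + 4)) ^ d * (2 * m + 1) ^ (d + 1) := by
        rw [mul_pow]; ring
    _ ≤ _ := by
        refine mul_le_mul_of_nonneg_right ?_ (by positivity)
        exact mul_le_mul_of_nonneg_left h6 (by positivity)

/-- from a counting estimate to a bound on the sum of probabilities -/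
theorem est_sum {κ X W P b v m : ℝ} {D : ℕ} (hκ : 0 < κ) (hm : 0 < m) (hP : 0 ≤ P)
    (h : κ * m ^ D * X ≤ P * b + v) (hb : b * m ≤ W * m ^ D) (hv : v ≤ W * m ^ D) :
    X ≤ W / κ * (P / m + 1) := by
  have hmD : 0 < m ^ D := pow_pos hm D
  have h1 : b ≤ W * m ^ D / m := by
    rw [le_div_iff₀ hm]; exact hb
  have h2 : κ * m ^ D * X ≤ P * (W * m ^ D / m) + W * m ^ D :=
    h.trans (add_le_add (mul_le_mul_of_nonneg_left h1 hP) hv)
  have h3 : W / κ * (P / m + 1) = (P * (W * m ^ D / m) + W * m ^ D) / (κ * m ^ D) := by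
    field_simp
  rw [h3, le_div_iff₀ (mul_pos hκ hmD)]
  linarith

theorem mod_subset {d : ℕ} (W : Finset (Ed d)) (F : Set (Cfg d)) : F ⊆ Mod W F :=
  fun w hw => ⟨w, hw, fun _ _ => rfl⟩

theorem in_Wd_zero {d : ℕ} (Sc : Scale d) (j : Fin d) : ((0 : V d), j) ∈ Wd Sc.K (0 : V d) := by
  rw [mem_Wd]
  have hK := Sc.hK
  simp only [cen_zero, sub_zero, zero_add]
  constructor
  · constructor
    · intro i
      rw [Pi.zero_apply, abs_zero]
      positivity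
    · intro i i' hi _
      exfalso
      rw [Pi.zero_apply, abs_zero] at hi
      linarith [Int.natCast_nonneg Sc.K]
  · have hb : ∀ i, |(bv j : V d) i| ≤ 1 := by
      intro i
      unfold bv
      by_cases hij : i = j
      · subst hij
        rw [Pi.single_eq_same]; norm_num
      · rw [Pi.single_eq_of_ne hij, abs_zero]; norm_num
    constructor
    · intro i
      refine (hb i).trans ?_
      linarith [Int.natCast_nonneg Sc.K]
    · intro i i' hi _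
      exfalso
      have := hb i
      rw [hi] at this
      have h2 : (2:ℤ) ≤ (Sc.K : ℤ) := by exact_mod_cast hK
      linarith

theorem mainFV (d : ℕ) {p : ℝ} (h0 : 0 < p) (h1 : p < 1) {ε : ℝ} (hε : 0 < ε) (Y : ℕ) :
    ∃ l : ℕ, l.Prime ∧ Y < l ∧ ∃ (R : ℕ) (F : Set (Cfg (d + 2))), MeasurableSet F ∧
      (mu (d + 2) p).real F ≤ ε ∧ ∀ w, w ∉ F → ∀ u : V (d + 2) → ℤ, HarmB (opn w) 0 R u →
        ∀ j, w (0, j) = true → (l : ℤ) ∣ u (bv j) - u 0 := by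
  have := mu_prob (d + 2) p h0.le h1.le
  set D := d + 2 with hD
  set c := min p (1 - p) with hc
  have hc0 : 0 < c := lt_min h0 (by linarith)
  have hcp : c ≤ p := min_le_left _ _
  have hcp' : c ≤ 1 - p := min_le_right _ _
  have hc1 : c ≤ 1 := hcp.trans h1.le
  have hci : 1 ≤ c⁻¹ := (one_le_inv₀ hc0).2 hc1
  -- the base
  set B1 : ℝ := (c⁻¹) ^ (2 * D) * 3 ^ D * 2 ^ D * (4 * D) with hB1
  set B : ℝ := max B1 (8 / ε) with hB
  have hD1 : (1:ℝ) ≤ 4 * D := by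
    rw [hD]; push_cast; nlinarith [Nat.cast_nonneg (α := ℝ) d]
  have e1 : (1:ℝ) ≤ (c⁻¹) ^ (2 * D) := one_le_pow₀ hci
  have e2 : (1:ℝ) ≤ 3 ^ D := one_le_pow₀ (by norm_num)
  have e3 : (1:ℝ) ≤ 2 ^ D := one_le_pow₀ (by norm_num)
  have hB1one : 1 ≤ B1 := by
    rw [hB1]
    have a1 : (1:ℝ) ≤ (c⁻¹) ^ (2 * D) * 3 ^ D := one_le_mul_of_one_le_of_one_le e1 e2
    have a2 := one_le_mul_of_one_le_of_one_le a1 e3
    exact one_le_mul_of_one_le_of_one_le a2 hD1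
  have hBone : 1 ≤ B := hB1one.trans (le_max_left _ _)
  have hB0 : 0 < B := lt_of_lt_of_le one_pos hBone
  have hBε : 8 / ε ≤ B := le_max_right _ _
  set C0 : ℝ := 4 * 9 ^ D * B ^ (2 * D + 2) with hC0
  have hC0pos : 0 < C0 := by positivity
  obtain ⟨Sc, hY, hC⟩ := geomMain d ⌈C0⌉₊ Y
  have hCeil : C0 ≤ (⌈C0⌉₊ : ℝ) := Nat.le_ceil _
  set sz := Sc.sz with hsz
  have hsz1 : 1 ≤ sz := Sc.hsz
  have hPcard : C0 ^ sz ≤ (Sc.P.card : ℝ) := by
    calc C0 ^ sz ≤ (⌈C0⌉₊ : ℝ) ^ sz := pow_le_pow_left₀ hC0pos.le hCeil _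
      _ ≤ (Sc.P.card : ℝ) := by exact_mod_cast hC
  have hPpos : 0 < (Sc.P.card : ℝ) := lt_of_lt_of_le (pow_pos hC0pos _) hPcard
  have hPne : Sc.P.Nonempty := by
    rw [← Finset.card_pos]; exact_mod_cast hPpos
  -- Gamma
  set κ : ℝ := c ^ (2 * D * sz) with hκ
  have hκ0 : 0 < κ := pow_pos hc0 _
  set W : ℝ := 4 * D * (3 * (2 * Sc.K + 4)) ^ D with hW
  have hDpos : (0:ℝ) < D := by rw [hD]; positivity
  have hW0 : 0 < W := by rw [hW]; positivity
  set Γ : ℝ := W / κ with hΓ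
  have hΓ0 : 0 < Γ := div_pos hW0 hκ0
  have selfpow : ∀ x : ℝ, 1 ≤ x → x ≤ x ^ sz := fun x hx => le_self_pow₀ hx (by omega)
  have hΓB : Γ ≤ B ^ sz := by
    have hN : (2 * (Sc.K : ℝ) + 4) ≤ 2 ^ sz := by exact_mod_cast Sc.szK
    have hN0 : (0:ℝ) ≤ 2 * (Sc.K : ℝ) + 4 := by positivity
    have f1 : (3 * (2 * (Sc.K : ℝ) + 4)) ^ D ≤ (3 ^ D) ^ sz * (2 ^ D) ^ sz := by
      rw [mul_pow]
      have g1 : (2 * (Sc.K : ℝ) + 4) ^ D ≤ (2 ^ sz) ^ D := pow_le_pow_left₀ hN0 hN D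
      have g2 : ((2:ℝ) ^ sz) ^ D = (2 ^ D) ^ sz := by rw [← pow_mul, ← pow_mul, mul_comm]
      rw [g2] at g1
      exact mul_le_mul (selfpow _ e2) g1 (by positivity) (by positivity)
    have f2 : (4 * (D:ℝ)) ≤ (4 * D) ^ sz := selfpow _ hD1
    have f3 : κ⁻¹ = ((c⁻¹) ^ (2 * D)) ^ sz := by
      rw [hκ, ← pow_mul, inv_pow]
    calc Γ = κ⁻¹ * ((3 * (2 * (Sc.K : ℝ) + 4)) ^ D * (4 * D)) := by
          rw [hΓ, hW]; field_simp
      _ ≤ ((c⁻¹) ^ (2 * D)) ^ sz * (((3 ^ D) ^ sz * (2 ^ D) ^ sz) * (4 * D) ^ sz) := by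
          rw [f3]
          refine mul_le_mul_of_nonneg_left ?_ (by positivity)
          exact mul_le_mul f1 f2 (by positivity) (by positivity)
      _ = B1 ^ sz := by
          rw [hB1, mul_pow, mul_pow, mul_pow]; ring
      _ ≤ B ^ sz := pow_le_pow_left₀ (by linarith) (le_max_left _ _) _
  have hbd : ∀ m : ℕ, (bd D Sc.K m : ℝ) * (2 * m + 1) ≤ W * (2 * m + 1) ^ D := by
    intro m
    have := bd_le (d + 1) Sc.K m
    refine this.trans ?_
    rw [hW]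
    have hp : (0:ℝ) ≤ (3 * (2 * (Sc.K:ℝ) + 4)) ^ D * (2 * (m:ℝ) + 1) ^ D := by positivity
    have hDc : (D : ℝ) = (d:ℝ) + 2 := by rw [hD]; push_cast; ring
    have e4 : (2 * (((d + 1 : ℕ) : ℝ) + 1) * (3 * (2 * (Sc.K:ℝ) + 4)) ^ (d + 1 + 1) *
        (2 * (m:ℝ) + 1) ^ (d + 1 + 1)) = (2 * D) *
        ((3 * (2 * (Sc.K:ℝ) + 4)) ^ D * (2 * (m:ℝ) + 1) ^ D) := by
      rw [hDc, hD]; push_cast; ring
    rw [e4]
    have e5 : 4 * (D:ℝ) * (3 * (2 * (Sc.K:ℝ) + 4)) ^ D * (2 * (m:ℝ) + 1) ^ D =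
      (4 * D) * ((3 * (2 * (Sc.K:ℝ) + 4)) ^ D * (2 * (m:ℝ) + 1) ^ D) := by ring
    rw [e5]
    refine mul_le_mul_of_nonneg_right ?_ hp
    linarith
  have hvol : ∀ m : ℕ, (4 * D * vol D Sc.K m : ℝ) ≤ W * (2 * m + 1) ^ D := by
    intro m
    have := vol_le D Sc.K m
    rw [hW]
    have h4D : (0:ℝ) ≤ 4 * D := by linarith
    calc (4 * D * vol D Sc.K m : ℝ) ≤ 4 * D * ((3 * (2 * Sc.K + 4)) ^ D * (2 * m + 1) ^ D) :=
          mul_le_mul_of_nonneg_left this h4D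
      _ = _ := by ring
  have hsum : ∀ (m : ℕ) (X : ℝ),
      κ * (2 * m + 1) ^ D * X ≤ ((Sc.P.card * bd D Sc.K m + 4 * D * vol D Sc.K m : ℕ) : ℝ) →
      X ≤ Γ * ((Sc.P.card : ℝ) / (2 * m + 1) + 1) := by
    intro m X hX
    refine est_sum (m := 2 * (m:ℝ) + 1) (b := bd D Sc.K m) (v := 4 * D * vol D Sc.K m) hκ0
      (by positivity) hPpos.le ?_ (hbd m) (hvol m)
    push_cast at hX
    exact hX
  -- choice of M3
  set M3 : ℕ := ⌈B ^ (2 * sz)⌉₊ with hM3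
  have hM3le : B ^ (2 * sz) ≤ (M3 : ℝ) := Nat.le_ceil _
  have hBpow1 : 1 ≤ B ^ (2 * sz) := one_le_pow₀ hBone
  have hM3ub : 4 * (M3 : ℝ) + 1 ≤ 9 * B ^ (2 * sz) := by
    have : (M3 : ℝ) < B ^ (2 * sz) + 1 := Nat.ceil_lt_add_one (by positivity)
    linarith
  set n3 : ℝ := (4 * (M3 : ℝ) + 1) ^ D with hn3
  have hn3one : 1 ≤ n3 := one_le_pow₀ (by linarith [Nat.cast_nonneg (α := ℝ) M3])
  -- choice of M2
  set M2 : ℕ := ⌈8 * (n3 * Sc.T * Γ) / ε⌉₊ with hM2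
  have hM2le : 8 * (n3 * Sc.T * Γ) / ε ≤ (M2 : ℝ) := Nat.le_ceil _
  have hΓε : 8 / ε * Γ ≤ B ^ (2 * sz) := by
    calc 8 / ε * Γ ≤ B * B ^ sz := mul_le_mul hBε hΓB hΓ0.le hB0.le
      _ ≤ B ^ sz * B ^ sz := mul_le_mul_of_nonneg_right (selfpow B hBone) (by positivity)
      _ = B ^ (2 * sz) := by rw [← pow_add]; congr 1; ring
  have k3 : Γ / (2 * M3 + 1) ≤ ε / 8 := by
    rw [div_le_iff₀ (by positivity)]
    have : 8 / ε * Γ ≤ M3 := hΓε.trans hM3le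
    have h8 : Γ ≤ ε / 8 * M3 := by
      have := mul_le_mul_of_nonneg_left this (show 0 ≤ ε / 8 by positivity)
      calc Γ = ε / 8 * (8 / ε * Γ) := by field_simp
        _ ≤ _ := this
    have h9 : ε / 8 * (M3:ℝ) ≤ ε / 8 * (2 * M3 + 1) := by
      refine mul_le_mul_of_nonneg_left ?_ (by positivity)
      linarith [Nat.cast_nonneg (α := ℝ) M3]
    linarith
  have k2 : (n3 * Sc.T * Γ) / (2 * M2 + 1) ≤ ε / 8 := by
    rw [div_le_iff₀ (by positivity)]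
    have h8 : n3 * Sc.T * Γ ≤ ε / 8 * M2 := by
      have := mul_le_mul_of_nonneg_left hM2le (show 0 ≤ ε / 8 by positivity)
      calc n3 * Sc.T * Γ = ε / 8 * (8 * (n3 * Sc.T * Γ) / ε) := by field_simp
        _ ≤ _ := this
    have h9 : ε / 8 * (M2:ℝ) ≤ ε / 8 * (2 * M2 + 1) := by
      refine mul_le_mul_of_nonneg_left ?_ (by positivity)
      linarith [Nat.cast_nonneg (α := ℝ) M2]
    linarith
  have kP : Γ * (1 + n3 * Sc.T) ≤ Sc.P.card * (ε / 8) := by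
    have hT : (Sc.T : ℝ) ≤ 2 ^ sz := by exact_mod_cast Sc.szT
    have g1 : n3 ≤ 9 ^ D * (B ^ (2 * sz)) ^ D := by
      rw [hn3, ← mul_pow]
      exact pow_le_pow_left₀ (by positivity) hM3ub D
    have g2 : 1 + n3 * Sc.T ≤ 2 * (n3 * 2 ^ sz) := by
      have : (1:ℝ) ≤ 2 ^ sz := one_le_pow₀ (by norm_num)
      have a1 : 1 ≤ n3 * 2 ^ sz := one_le_mul_of_one_le_of_one_le hn3one this
      have a2 : n3 * Sc.T ≤ n3 * 2 ^ sz := mul_le_mul_of_nonneg_left hT (by linarith)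
      linarith
    have g3 : 8 / ε * (Γ * (1 + n3 * Sc.T)) ≤ C0 ^ sz := by
      calc 8 / ε * (Γ * (1 + n3 * Sc.T)) = (8 / ε * Γ) * (1 + n3 * Sc.T) := by ring
        _ ≤ B ^ (2 * sz) * (2 * ((9 ^ D * (B ^ (2 * sz)) ^ D) * 2 ^ sz)) := by
            refine mul_le_mul hΓε (g2.trans ?_) (by positivity) (by positivity)
            refine mul_le_mul_of_nonneg_left ?_ (by norm_num)
            exact mul_le_mul_of_nonneg_right g1 (by positivity)
        _ ≤ B ^ (2 * sz) * (2 ^ sz * (((9 ^ D) ^ sz * (B ^ (2 * sz)) ^ D) * 2 ^ sz)) := by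
            refine mul_le_mul_of_nonneg_left ?_ (by positivity)
            refine mul_le_mul (selfpow 2 (by norm_num)) ?_ (by positivity) (by positivity)
            refine mul_le_mul_of_nonneg_right ?_ (by positivity)
            refine mul_le_mul_of_nonneg_right ?_ (by positivity)
            exact selfpow _ (one_le_pow₀ (by norm_num))
        _ = C0 ^ sz := by
            rw [hC0, mul_pow, mul_pow, show (4:ℝ) = 2 * 2 by norm_num, mul_pow]
            rw [← pow_mul B (2 * sz) D, ← pow_mul B (2 * D + 2) sz]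
            have : (2 * D + 2) * sz = 2 * sz + 2 * sz * D := by ring
            rw [this, pow_add]
            ring
    have g4 := g3.trans hPcard
    have := mul_le_mul_of_nonneg_left g4 (show 0 ≤ ε / 8 by positivity)
    calc Γ * (1 + n3 * Sc.T) = ε / 8 * (8 / ε * (Γ * (1 + n3 * Sc.T))) := by field_simp
      _ ≤ ε / 8 * Sc.P.card := this
      _ = _ := by ring
  -- choice of l
  let g : ℕ → ℝ := fun l => (mu D p).real (F3 Sc l 0 0 (2 * M3)) +
    n3 * ∑ t, (mu D p).real (Mod (Wd Sc.K 0) (F2 Sc l t 0 0 (2 * M2)))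
  have hg : ∑ l ∈ Sc.P, g l ≤ ∑ _l ∈ Sc.P, ε / 2 := by
    have a3 := hsum M3 _ (prob3 Sc h0.le h1.le hc0.le hcp hcp' M3)
    have a2 : ∑ l ∈ Sc.P, ∑ t, (mu D p).real (Mod (Wd Sc.K 0) (F2 Sc l t 0 0 (2 * M2))) ≤
        Sc.T * (Γ * ((Sc.P.card : ℝ) / (2 * M2 + 1) + 1)) := by
      rw [Finset.sum_comm]
      calc _ ≤ ∑ _t : Fin Sc.T, (Γ * ((Sc.P.card : ℝ) / (2 * M2 + 1) + 1)) :=
            Finset.sum_le_sum (fun t _ => hsum M2 _ (prob2 Sc h0.le h1.le hc0.le hcp hcp' t M2))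
        _ = _ := by
            rw [Finset.sum_const, Finset.card_univ, Fintype.card_fin, nsmul_eq_mul]
    have : ∑ l ∈ Sc.P, g l = ∑ l ∈ Sc.P, (mu D p).real (F3 Sc l 0 0 (2 * M3)) +
        n3 * ∑ l ∈ Sc.P, ∑ t, (mu D p).real (Mod (Wd Sc.K 0) (F2 Sc l t 0 0 (2 * M2))) := by
      rw [Finset.mul_sum, ← Finset.sum_add_distrib]
    rw [this, Finset.sum_const, nsmul_eq_mul]
    have hn3' : 0 ≤ n3 := by linarith
    have b2 := mul_le_mul_of_nonneg_left a2 hn3'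
    have c3 : Γ * ((Sc.P.card : ℝ) / (2 * M3 + 1) + 1) =
        Sc.P.card * (Γ / (2 * M3 + 1)) + Γ := by ring
    have c2 : n3 * (Sc.T * (Γ * ((Sc.P.card : ℝ) / (2 * M2 + 1) + 1))) =
        Sc.P.card * ((n3 * Sc.T * Γ) / (2 * M2 + 1)) + n3 * Sc.T * Γ := by ring
    have d3 := mul_le_mul_of_nonneg_left k3 hPpos.le
    have d2 := mul_le_mul_of_nonneg_left k2 hPpos.le
    have d1 : Γ * (1 + n3 * Sc.T) = Γ + n3 * Sc.T * Γ := by ring
    rw [d1] at kP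
    rw [c3] at a3
    rw [c2] at b2
    have hPε : 0 ≤ (Sc.P.card : ℝ) * (ε / 8) := by positivity
    have : (Sc.P.card : ℝ) * (ε / 2) = 4 * ((Sc.P.card : ℝ) * (ε / 8)) := by ring
    rw [this]
    linarith
  obtain ⟨l, hlP, hgl⟩ := Finset.exists_le_of_sum_le hPne hg
  -- choice of M1
  have hq := fun t => prob1 Sc h0.le h1.le hc0.le hcp hcp' l hlP t
  choose q hq0 hq1 hq2 using hq
  have hqpos : ∀ t, 0 < q t := fun t => hq1 t hc0
  set n1 : ℝ := ((Bx (0 : V D) (2 * M2 + 2 * M3)).card : ℝ) with hn1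
  set A1 : ℝ := n1 * ∑ t, W / q t with hA1
  have hA10 : 0 ≤ A1 := by
    rw [hA1]
    refine mul_nonneg (Nat.cast_nonneg _) (Finset.sum_nonneg (fun t _ => ?_))
    exact div_nonneg hW0.le (hqpos t).le
  set M1 : ℕ := ⌈2 * A1 / ε⌉₊ with hM1
  have hM1le : 2 * A1 / ε ≤ (M1 : ℝ) := Nat.le_ceil _
  have k1 : A1 / (2 * M1 + 1) ≤ ε / 2 := by
    rw [div_le_iff₀ (by positivity)]
    have h8 : A1 ≤ ε / 2 * M1 := by
      have := mul_le_mul_of_nonneg_left hM1le (show 0 ≤ ε / 2 by positivity)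
      calc A1 = ε / 2 * (2 * A1 / ε) := by field_simp
        _ ≤ _ := this
    have h9 : ε / 2 * (M1:ℝ) ≤ ε / 2 * (2 * M1 + 1) := by
      refine mul_le_mul_of_nonneg_left ?_ (by positivity)
      linarith [Nat.cast_nonneg (α := ℝ) M1]
    linarith
  have p1 : ∀ t, (mu D p).real (F1 Sc l t 0 0 (2 * M1)) ≤ W / q t / (2 * M1 + 1) := by
    intro t
    have hmono : (mu D p).real (F1 Sc l t 0 0 (2 * M1)) ≤
        (mu D p).real (Mod (Wd Sc.K 0) (F1 Sc l t 0 0 (2 * M1))) :=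
      measureReal_mono (mod_subset _ _)
    refine hmono.trans ?_
    have h2 := hq2 t M1
    have hm : (0:ℝ) < 2 * M1 + 1 := by positivity
    have hmD : (0:ℝ) < (2 * M1 + 1) ^ D := by positivity
    have h3 : (bd D Sc.K M1 : ℝ) ≤ W * (2 * M1 + 1) ^ D / (2 * M1 + 1) := by
      rw [le_div_iff₀ hm]; exact hbd M1
    have h4 := h2.trans h3
    rw [div_div, le_div_iff₀ (mul_pos (hqpos t) hm)]
    rw [le_div_iff₀ hm] at h4
    have h5 : (2 * (M1:ℝ) + 1) ^ D * ((mu D p).real (Mod (Wd Sc.K 0) (F1 Sc l t 0 0 (2 * M1))) *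
        (q t * (2 * M1 + 1))) ≤ (2 * (M1:ℝ) + 1) ^ D * W := by
      calc _ = q t * (2 * ↑M1 + 1) ^ D *
          (mu D p).real (Mod (Wd Sc.K 0) (F1 Sc l t 0 0 (2 * M1))) * (2 * ↑M1 + 1) := by ring
        _ ≤ W * (2 * ↑M1 + 1) ^ D := h4
        _ = _ := by ring
    exact le_of_mul_le_mul_left h5 hmD
  -- shift invariance
  have s1 : ∀ z t, (mu D p).real (F1 Sc l t z z (2 * M1)) =
      (mu D p).real (F1 Sc l t 0 0 (2 * M1)) := by
    intro z t
    obtain ⟨T, hT⟩ := det_F1 Sc l t 0 0 (2 * M1)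
    rw [← mu_shift h0.le h1.le hT (cen Sc.K z)]
    congr 1
    ext w
    have := shift_F1 Sc l t 0 0 z (2 * M1) w
    rw [zero_add] at this
    exact this.symm
  have s2 : ∀ z t, (mu D p).real (F2 Sc l t z z (2 * M2)) =
      (mu D p).real (F2 Sc l t 0 0 (2 * M2)) := by
    intro z t
    obtain ⟨T, hT⟩ := det_F2 Sc l t 0 0 (2 * M2)
    rw [← mu_shift h0.le h1.le hT (cen Sc.K z)]
    congr 1
    ext w
    have := shift_F2 Sc l t 0 0 z (2 * M2) w
    rw [zero_add] at this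
    exact this.symm
  -- the exceptional set
  let G1 : Set (Cfg D) := ⋃ z ∈ Bx (0 : V D) (2 * M2 + 2 * M3), ⋃ t ∈ (Finset.univ : Finset (Fin Sc.T)),
    F1 Sc l t z z (2 * M1)
  let G2 : Set (Cfg D) := ⋃ z ∈ Bx (0 : V D) (2 * M3), ⋃ t ∈ (Finset.univ : Finset (Fin Sc.T)),
    F2 Sc l t z z (2 * M2)
  let G3 : Set (Cfg D) := F3 Sc l 0 0 (2 * M3)
  have m1 : MeasurableSet G1 := by
    refine Finset.measurableSet_biUnion _ (fun z _ => Finset.measurableSet_biUnion _ (fun t _ => ?_))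
    obtain ⟨T, hT⟩ := det_F1 Sc l t z z (2 * M1)
    exact hT.measurable
  have m2 : MeasurableSet G2 := by
    refine Finset.measurableSet_biUnion _ (fun z _ => Finset.measurableSet_biUnion _ (fun t _ => ?_))
    obtain ⟨T, hT⟩ := det_F2 Sc l t z z (2 * M2)
    exact hT.measurable
  have m3 : MeasurableSet G3 := by
    obtain ⟨T, hT⟩ := det_F3 Sc l 0 0 (2 * M3)
    exact hT.measurable
  have b1 : (mu D p).real G1 ≤ ε / 2 := by
    calc (mu D p).real G1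
        ≤ ∑ z ∈ Bx (0 : V D) (2 * M2 + 2 * M3), (mu D p).real
          (⋃ t ∈ (Finset.univ : Finset (Fin Sc.T)), F1 Sc l t z z (2 * M1)) :=
          measureReal_biUnion_finset_le _ _
      _ ≤ ∑ _z ∈ Bx (0 : V D) (2 * M2 + 2 * M3), ∑ t, W / q t / (2 * M1 + 1) := by
          refine Finset.sum_le_sum (fun z _ => ?_)
          refine (measureReal_biUnion_finset_le _ _).trans ?_
          refine Finset.sum_le_sum (fun t _ => ?_)
          rw [s1]
          exact p1 t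
      _ = A1 / (2 * M1 + 1) := by
          rw [Finset.sum_const, nsmul_eq_mul, ← Finset.sum_div, hA1, hn1]
          ring
      _ ≤ ε / 2 := k1
  have b2 : (mu D p).real G2 ≤
      n3 * ∑ t, (mu D p).real (Mod (Wd Sc.K 0) (F2 Sc l t 0 0 (2 * M2))) := by
    calc (mu D p).real G2
        ≤ ∑ z ∈ Bx (0 : V D) (2 * M3), (mu D p).real
          (⋃ t ∈ (Finset.univ : Finset (Fin Sc.T)), F2 Sc l t z z (2 * M2)) :=
          measureReal_biUnion_finset_le _ _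
      _ ≤ ∑ _z ∈ Bx (0 : V D) (2 * M3),
          ∑ t, (mu D p).real (Mod (Wd Sc.K 0) (F2 Sc l t 0 0 (2 * M2))) := by
          refine Finset.sum_le_sum (fun z _ => ?_)
          refine (measureReal_biUnion_finset_le _ _).trans ?_
          refine Finset.sum_le_sum (fun t _ => ?_)
          rw [s2]
          exact measureReal_mono (mod_subset _ _)
      _ = n3 * ∑ t, (mu D p).real (Mod (Wd Sc.K 0) (F2 Sc l t 0 0 (2 * M2))) := by
          rw [Finset.sum_const, nsmul_eq_mul, card_Bx, hn3]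
          congr 1
          push_cast
          ring
  refine ⟨l, Sc.hP l hlP, hY l hlP, rad Sc.K (2 * M1 + 2 * M2 + 2 * M3), G1 ∪ G2 ∪ G3,
    (m1.union m2).union m3, ?_, ?_⟩
  · have u1 := measureReal_union_le (μ := mu D p) (G1 ∪ G2) G3
    have u2 := measureReal_union_le (μ := mu D p) G1 G2
    have hgl' : (mu D p).real G3 +
      n3 * ∑ t, (mu D p).real (Mod (Wd Sc.K 0) (F2 Sc l t 0 0 (2 * M2))) ≤ ε / 2 := hgl
    linarith
  · intro w hw u hu j hj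
    have hw' : w ∉ G1 ∧ w ∉ G2 ∧ w ∉ G3 := by
      refine ⟨fun h => hw (Or.inl (Or.inl h)), fun h => hw (Or.inl (Or.inr h)),
        fun h => hw (Or.inr h)⟩
    have := chain Sc l (2 * M1) (2 * M2) (2 * M3) w ?_ ?_ hw'.2.2 u hu (0, j) (in_Wd_zero Sc j) hj
    · simpa using this
    · intro z hz t hcon
      refine hw'.1 ?_
      simp only [G1, Set.mem_iUnion]
      exact ⟨z, hz, t, Finset.mem_univ t, hcon⟩
    · intro z hz t hcon
      refine hw'.2.1 ?_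
      simp only [G2, Set.mem_iUnion]
      exact ⟨z, hz, t, Finset.mem_univ t, hcon⟩

end Pool.Agent.Lib.MP_79dc3a_pr
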