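import Pool.Agent.Lib.MP_79dc3a_pr.Defs

/-! Calculus of two-terminal networks. -/

namespace Pool.Agent.Lib.MP_79dc3a_pr

open Finset

section NetCalc
variable {V V' : Type*} [DecidableEq V] [DecidableEq V'] {G : SimpleGraph V} {G' : SimpleGraph V'}
  {E E1 E2 : Finset (Sym2 V)} {S S1 S2 : Finset V} {a b m : V} {x x1 x2 : ℚ} {L L1 L2 l : ℕ}
  {M : Type*} [AddCommGroup M]

theorem ctr_mk (u : V → M) (x a b : V) :
    ctr u x s(a, b) = (if a = x then u b - u a else 0) + (if b = x then u a - u b else 0) := rfl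

theorem ctr_eq_zero (u : V → M) (x : V) (e : Sym2 V) (h : x ∉ e) : ctr u x e = 0 := by
  induction e using Sym2.ind with
  | _ a b =>
    rw [Sym2.mem_iff, not_or] at h
    rw [ctr_mk, if_neg (fun h' => h.1 h'.symm), if_neg (fun h' => h.2 h'.symm), add_zero]

theorem ctr_congr (u u' : V → M) (x : V) (e : Sym2 V) (h : ∀ v ∈ e, u v = u' v) :
    ctr u x e = ctr u' x e := by
  induction e using Sym2.ind with
  | _ a b =>
    rw [ctr_mk, ctr_mk, h a (Sym2.mem_mk_left a b), h b (Sym2.mem_mk_right a b)]

theorem lap_union (hd : Disjoint E1 E2) (u : V → M) (x : V) :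
    lap (E1 ∪ E2) u x = lap E1 u x + lap E2 u x := by
  unfold lap
  exact Finset.sum_union hd

theorem lap_eq_zero (u : V → M) (x : V) (h : ∀ e ∈ E, x ∉ e) : lap E u x = 0 := by
  unfold lap
  exact Finset.sum_eq_zero (fun e he => ctr_eq_zero u x e (h e he))

theorem lap_congr (u u' : V → M) (x : V) (h : ∀ e ∈ E, ∀ v ∈ e, u v = u' v) :
    lap E u x = lap E u' x := by
  unfold lap
  exact Finset.sum_congr rfl (fun e he => ctr_congr u u' x e (h e he))

theorem sum_ctr (u : V → M) (e : Sym2 V) (h : ∀ v ∈ e, v ∈ S) : ∑ v ∈ S, ctr u v e = 0 := by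
  induction e using Sym2.ind with
  | _ a b =>
    have ha : a ∈ S := h a (Sym2.mem_mk_left a b)
    have hb : b ∈ S := h b (Sym2.mem_mk_right a b)
    simp only [ctr_mk]
    rw [Finset.sum_add_distrib, Finset.sum_ite_eq S a, Finset.sum_ite_eq S b, if_pos ha, if_pos hb]
    abel

theorem sum_lap (u : V → M) (h : ∀ e ∈ E, ∀ v ∈ e, v ∈ S) : ∑ v ∈ S, lap E u v = 0 := by
  unfold lap
  rw [Finset.sum_comm]
  exact Finset.sum_eq_zero (fun e he => sum_ctr u e (h e he))

theorem Sub.cons (h : Sub G E S a b) (u : V → M) (hu : Harm E S a b u) :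
    lap E u b = - lap E u a := by
  have h1 := sum_lap (S := S) u h.sub
  rw [← Finset.add_sum_erase S _ h.ma] at h1
  have hb : b ∈ S.erase a := Finset.mem_erase.2 ⟨h.ne.symm, h.mb⟩
  rw [← Finset.add_sum_erase _ _ hb] at h1
  have h2 : ∑ v ∈ (S.erase a).erase b, lap E u v = 0 := by
    refine Finset.sum_eq_zero (fun v hv => ?_)
    rw [Finset.mem_erase, Finset.mem_erase] at hv
    exact hu v hv.2.2 hv.2.1 hv.1
  rw [h2, add_zero] at h1
  exact eq_neg_of_add_eq_zero_right h1

omit [DecidableEq V] in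
theorem Sub.symm (h : Sub G E S a b) : Sub G E S b a :=
  ⟨h.edge, h.sub, h.mb, h.ma, h.ne.symm⟩

theorem Harm.symm {u : V → M} (h : Harm E S a b u) : Harm E S b a u :=
  fun v hv h1 h2 => h v hv h2 h1

theorem Sub.lap_zero (h : Sub G E S a b) (u : V → M) {v : V} (hv : v ∉ S) : lap E u v = 0 :=
  lap_eq_zero u v (fun e he hve => hv (h.sub e he v hve))

/-! series -/

omit [DecidableEq V] in
theorem Sub.disj_series (h1 : Sub G E1 S1 a m) (h2 : Sub G E2 S2 m b)
    (hS : ∀ v ∈ S1, v ∈ S2 → v = m) : Disjoint E1 E2 := by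
  rw [Finset.disjoint_left]
  intro e he1 he2
  have hG := h1.edge e he1
  have hs1 := h1.sub e he1
  have hs2 := h2.sub e he2
  induction e using Sym2.ind with
  | _ p q =>
    have hp := hS p (hs1 p (Sym2.mem_mk_left p q)) (hs2 p (Sym2.mem_mk_left p q))
    have hq := hS q (hs1 q (Sym2.mem_mk_right p q)) (hs2 q (Sym2.mem_mk_right p q))
    rw [SimpleGraph.mem_edgeSet] at hG
    exact hG.ne (hp.trans hq.symm)

theorem Sub.series (h1 : Sub G E1 S1 a m) (h2 : Sub G E2 S2 m b)
    (hS : ∀ v ∈ S1, v ∈ S2 → v = m) : Sub G (E1 ∪ E2) (S1 ∪ S2) a b where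
  edge e he := by
    rcases Finset.mem_union.1 he with he | he
    · exact h1.edge e he
    · exact h2.edge e he
  sub e he v hv := by
    rcases Finset.mem_union.1 he with he | he
    · exact Finset.mem_union_left _ (h1.sub e he v hv)
    · exact Finset.mem_union_right _ (h2.sub e he v hv)
  ma := Finset.mem_union_left _ h1.ma
  mb := Finset.mem_union_right _ h2.mb
  ne := by
    intro hab
    have := hS a h1.ma (hab ▸ h2.mb)
    exact h1.ne this

/-- decomposition of a harmonic function on a series connection -/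
theorem Harm.series (h1 : Sub G E1 S1 a m) (h2 : Sub G E2 S2 m b)
    (hS : ∀ v ∈ S1, v ∈ S2 → v = m) {u : V → M} (hu : Harm (E1 ∪ E2) (S1 ∪ S2) a b u) :
    Harm E1 S1 a m u ∧ Harm E2 S2 m b u ∧ lap E2 u m = lap E1 u a ∧
      lap (E1 ∪ E2) u a = lap E1 u a ∧ lap (E1 ∪ E2) u b = lap E2 u b := by
  have hd := h1.disj_series h2 hS
  have hH1 : Harm E1 S1 a m u := by
    intro v hv hva hvm
    have hv2 : v ∉ S2 := fun h => hvm (hS v hv h)
    have hvb : v ≠ b := fun h => hv2 (h ▸ h2.mb)
    have := hu v (Finset.mem_union_left _ hv) hva hvb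
    rwa [lap_union hd, h2.lap_zero u hv2, add_zero] at this
  have hH2 : Harm E2 S2 m b u := by
    intro v hv hvm hvb
    have hv1 : v ∉ S1 := fun h => hvm (hS v h hv)
    have hva : v ≠ a := fun h => hv1 (h ▸ h1.ma)
    have := hu v (Finset.mem_union_right _ hv) hva hvb
    rwa [lap_union hd, h1.lap_zero u hv1, zero_add] at this
  have ha2 : a ∉ S2 := fun h => h1.ne (hS a h1.ma h)
  have hb1 : b ∉ S1 := fun h => h2.ne (hS b h h2.mb).symm
  have hm := hu m (Finset.mem_union_left _ h1.mb) h1.ne.symm h2.ne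
  rw [lap_union hd, h1.cons u hH1] at hm
  refine ⟨hH1, hH2, ?_, ?_, ?_⟩
  · have := eq_neg_of_add_eq_zero_right hm
    rw [this, neg_neg]
  · rw [lap_union hd, h2.lap_zero u ha2, add_zero]
  · rw [lap_union hd, h1.lap_zero u hb1, zero_add]

theorem Net.series (h1 : Net G E1 S1 a m x1) (h2 : Net G E2 S2 m b x2)
    (hS : ∀ v ∈ S1, v ∈ S2 → v = m) : Net G (E1 ∪ E2) (S1 ∪ S2) a b (x1 + x2) where
  toSub := h1.toSub.series h2.toSub hS
  pos := add_pos h1.pos h2.pos
  resp u hu := by
    obtain ⟨hH1, hH2, hm, ha, _⟩ := Harm.series h1.toSub h2.toSub hS hu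
    have e1 := h1.resp u hH1
    have e2 := h2.resp u hH2
    rw [hm] at e2
    rw [ha]
    linear_combination e1 + e2
  ext α β := by
    have hx1 := h1.pos
    have hx2 := h2.pos
    have hx : x1 + x2 ≠ 0 := (add_pos hx1 hx2).ne'
    obtain ⟨u1, h1a, h1m, hH1⟩ := h1.ext α (α + x1 * ((β - α) / (x1 + x2)))
    obtain ⟨u2, h2m, h2b, hH2⟩ := h2.ext (α + x1 * ((β - α) / (x1 + x2))) β
    have hd := h1.toSub.disj_series h2.toSub hS
    let u : V → ℚ := fun v => if v ∈ S1 then u1 v else u2 v
    have hu1 : ∀ v ∈ S1, u v = u1 v := fun v hv => if_pos hv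
    have hu2 : ∀ v ∈ S2, u v = u2 v := by
      intro v hv
      by_cases h : v ∈ S1
      · have := hS v h hv
        subst this
        rw [hu1 v h, h1m, h2m]
      · exact if_neg h
    have l1 : ∀ v, lap E1 u v = lap E1 u1 v := fun v =>
      lap_congr u u1 v (fun e he w hw => hu1 w (h1.sub e he w hw))
    have l2 : ∀ v, lap E2 u v = lap E2 u2 v := fun v =>
      lap_congr u u2 v (fun e he w hw => hu2 w (h2.sub e he w hw))
    refine ⟨u, by rw [hu1 a h1.ma, h1a], by rw [hu2 b h2.mb, h2b], ?_⟩
    intro v hv hva hvb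
    rw [lap_union hd, l1, l2]
    by_cases hvm : v = m
    · subst hvm
      rw [h1.toSub.cons u1 hH1]
      have e1 := h1.resp u1 hH1
      have e2 := h2.resp u2 hH2
      rw [h1m, h1a] at e1
      rw [h2b, h2m] at e2
      have f1 : lap E1 u1 a = (β - α) / (x1 + x2) := by
        have : x1 * lap E1 u1 a = x1 * ((β - α) / (x1 + x2)) := by linear_combination -e1
        exact mul_left_cancel₀ hx1.ne' this
      have f2 : lap E2 u2 v = (β - α) / (x1 + x2) := by
        have : x2 * lap E2 u2 v = x2 * ((β - α) / (x1 + x2)) := by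
          have h3 : (x1 + x2) * ((β - α) / (x1 + x2)) = β - α := by
            field_simp
          linear_combination -e2 - h3
        exact mul_left_cancel₀ hx2.ne' this
      rw [f1, f2]
      ring
    · rcases Finset.mem_union.1 hv with hv1 | hv2
      · have hv2 : v ∉ S2 := fun h => hvm (hS v hv1 h)
        rw [h2.toSub.lap_zero u2 hv2, add_zero]
        exact hH1 v hv1 hva hvm
      · have hv1 : v ∉ S1 := fun h => hvm (hS v h hv2)
        rw [h1.toSub.lap_zero u1 hv1, zero_add]
        exact hH2 v hv2 hvm hvb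

/-! parallel -/

theorem Net.parallel (h1 : Net G E1 S1 a b x1) (h2 : Net G E2 S2 a b x2)
    (hS : ∀ v ∈ S1, v ∈ S2 → v = a ∨ v = b) (hab : ¬ G.Adj a b) :
    Net G (E1 ∪ E2) (S1 ∪ S2) a b (x1 * x2 / (x1 + x2)) := by
  have hd : Disjoint E1 E2 := by
    rw [Finset.disjoint_left]
    intro e he1 he2
    have hG := h1.edge e he1
    have hs1 := h1.sub e he1
    have hs2 := h2.sub e he2
    induction e using Sym2.ind with
    | _ p q =>
      have hp := hS p (hs1 p (Sym2.mem_mk_left p q)) (hs2 p (Sym2.mem_mk_left p q))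
      have hq := hS q (hs1 q (Sym2.mem_mk_right p q)) (hs2 q (Sym2.mem_mk_right p q))
      rw [SimpleGraph.mem_edgeSet] at hG
      rcases hp with hp | hp <;> rcases hq with hq | hq <;> subst hp <;> subst hq
      · exact hG.ne rfl
      · exact hab hG
      · exact hab hG.symm
      · exact hG.ne rfl
  have hx1 := h1.pos
  have hx2 := h2.pos
  have hx : x1 + x2 ≠ 0 := (add_pos hx1 hx2).ne'
  refine ⟨⟨?_, ?_, Finset.mem_union_left _ h1.ma, Finset.mem_union_left _ h1.mb, h1.ne⟩,
    by positivity, ?_, ?_⟩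
  · intro e he
    rcases Finset.mem_union.1 he with he | he
    · exact h1.edge e he
    · exact h2.edge e he
  · intro e he v hv
    rcases Finset.mem_union.1 he with he | he
    · exact Finset.mem_union_left _ (h1.sub e he v hv)
    · exact Finset.mem_union_right _ (h2.sub e he v hv)
  · intro u hu
    have hH1 : Harm E1 S1 a b u := by
      intro v hv hva hvb
      have hv2 : v ∉ S2 := fun h => by
        rcases hS v hv h with h' | h'
        · exact hva h'
        · exact hvb h'
      have := hu v (Finset.mem_union_left _ hv) hva hvb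
      rwa [lap_union hd, h2.toSub.lap_zero u hv2, add_zero] at this
    have hH2 : Harm E2 S2 a b u := by
      intro v hv hva hvb
      have hv1 : v ∉ S1 := fun h => by
        rcases hS v h hv with h' | h'
        · exact hva h'
        · exact hvb h'
      have := hu v (Finset.mem_union_right _ hv) hva hvb
      rwa [lap_union hd, h1.toSub.lap_zero u hv1, zero_add] at this
    have e1 := h1.resp u hH1
    have e2 := h2.resp u hH2
    rw [lap_union hd]
    have f1 : lap E1 u a = (u b - u a) / x1 := by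
      rw [e1]; field_simp
    have f2 : lap E2 u a = (u b - u a) / x2 := by
      rw [e2]; field_simp
    rw [f1, f2]
    field_simp
    ring
  · intro α β
    obtain ⟨u1, h1a, h1b, hH1⟩ := h1.ext α β
    obtain ⟨u2, h2a, h2b, hH2⟩ := h2.ext α β
    let u : V → ℚ := fun v => if v ∈ S1 then u1 v else u2 v
    have hu1 : ∀ v ∈ S1, u v = u1 v := fun v hv => if_pos hv
    have hu2 : ∀ v ∈ S2, u v = u2 v := by
      intro v hv
      by_cases h : v ∈ S1
      · rcases hS v h hv with h' | h'
        · subst h'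
          rw [hu1 v h, h1a, h2a]
        · subst h'
          rw [hu1 v h, h1b, h2b]
      · exact if_neg h
    have l1 : ∀ v, lap E1 u v = lap E1 u1 v := fun v =>
      lap_congr u u1 v (fun e he w hw => hu1 w (h1.sub e he w hw))
    have l2 : ∀ v, lap E2 u v = lap E2 u2 v := fun v =>
      lap_congr u u2 v (fun e he w hw => hu2 w (h2.sub e he w hw))
    refine ⟨u, by rw [hu1 a h1.ma, h1a], by rw [hu1 b h1.mb, h1b], ?_⟩
    intro v hv hva hvb
    rw [lap_union hd, l1, l2]
    rcases Finset.mem_union.1 hv with hv1 | hv2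
    · have hv2 : v ∉ S2 := fun h => by
        rcases hS v hv1 h with h' | h'
        · exact hva h'
        · exact hvb h'
      rw [h2.toSub.lap_zero u2 hv2, add_zero]
      exact hH1 v hv1 hva hvb
    · have hv1 : v ∉ S1 := fun h => by
        rcases hS v h hv2 with h' | h'
        · exact hva h'
        · exact hvb h'
      rw [h1.toSub.lap_zero u1 hv1, zero_add]
      exact hH2 v hv2 hva hvb

theorem Net.symm (h : Net G E S a b x) : Net G E S b a x where
  toSub := h.toSub.symm
  pos := h.pos
  resp u hu := by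
    have hu' : Harm E S a b u := hu.symm
    have e := h.resp u hu'
    rw [h.toSub.cons u hu']
    linear_combination -e
  ext α β := by
    obtain ⟨u, h1, h2, h3⟩ := h.ext β α
    exact ⟨u, h2, h1, h3.symm⟩

/-! paths -/

theorem PathNet.single (h : G.Adj a b) : PathNet G {s(a, b)} {a, b} a b 1 := by
  have hne : a ≠ b := h.ne
  have hlap : ∀ (M : Type) [AddCommGroup M] (u : V → M), lap {s(a, b)} u a = u b - u a := by
    intro M _ u
    unfold lap
    rw [Finset.sum_singleton, ctr_mk, if_pos rfl, if_neg hne.symm, add_zero]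
  have hH : ∀ (M : Type) [AddCommGroup M] (u : V → M), Harm {s(a, b)} {a, b} a b u := by
    intro M _ u v hv hva hvb
    rw [Finset.mem_insert, Finset.mem_singleton] at hv
    rcases hv with h | h
    · exact absurd h hva
    · exact absurd h hvb
  refine ⟨⟨⟨?_, ?_, by simp, by simp, hne⟩, by norm_num, ?_, ?_⟩, ?_, ?_⟩
  · intro e he
    rw [Finset.mem_singleton] at he
    subst he
    exact h
  · intro e he v hv
    rw [Finset.mem_singleton] at he
    subst he
    rw [Sym2.mem_iff] at hv
    rw [Finset.mem_insert, Finset.mem_singleton]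
    exact hv
  · intro u _
    rw [hlap, Nat.cast_one, one_mul]
  · intro α β
    refine ⟨fun v => if v = a then α else β, if_pos rfl, if_neg hne.symm, hH _ _⟩
  · intro M _ u _
    rw [hlap, one_smul]
  · rw [Finset.card_pair hne]

theorem PathNet.series (h1 : PathNet G E1 S1 a m L1) (h2 : PathNet G E2 S2 m b L2)
    (hS : ∀ v ∈ S1, v ∈ S2 → v = m) : PathNet G (E1 ∪ E2) (S1 ∪ S2) a b (L1 + L2) where
  toNet := by
    have := h1.toNet.series h2.toNet hS
    rwa [← Nat.cast_add] at this
  respM M _ u hu := by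
    obtain ⟨hH1, hH2, hm, ha, _⟩ := Harm.series h1.toSub h2.toSub hS hu
    have e1 := h1.respM M u hH1
    have e2 := h2.respM M u hH2
    rw [hm] at e2
    rw [ha, add_smul, ← e1, ← e2]
    abel
  card := by
    have hi : S1 ∩ S2 = {m} := by
      ext v
      rw [Finset.mem_inter, Finset.mem_singleton]
      constructor
      · rintro ⟨h, h'⟩
        exact hS v h h'
      · rintro rfl
        exact ⟨h1.mb, h2.ma⟩
    have := Finset.card_union_add_card_inter S1 S2
    rw [hi, Finset.card_singleton, h1.card, h2.card] at this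
    omega

theorem PathNet.symm (h : PathNet G E S a b L) : PathNet G E S b a L where
  toNet := h.toNet.symm
  respM M _ u hu := by
    have hu' : Harm E S a b u := hu.symm
    have e := h.respM M u hu'
    rw [h.toSub.cons u hu', smul_neg, ← e]
    abel
  card := h.card

theorem PathNet.of_walk {a b : V} (p : G.Walk a b) (hp : p.IsPath) (hne : a ≠ b) :
    PathNet G p.edges.toFinset p.support.toFinset a b p.length := by
  induction p with
  | nil => exact absurd rfl hne
  | @cons a v b h p ih =>
    rw [SimpleGraph.Walk.cons_isPath_iff] at hp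
    by_cases hvb : v = b
    · subst hvb
      have hnil : p = SimpleGraph.Walk.nil :=
        SimpleGraph.Walk.eq_nil_iff_nil.2 (SimpleGraph.Walk.isPath_iff_nil.1 hp.1)
      subst hnil
      have := PathNet.single h
      simpa using this
    · have h2 := ih hp.1 hvb
      have h1 := PathNet.single h
      have hs := h1.series h2 (by
        intro w hw hw'
        rw [Finset.mem_insert, Finset.mem_singleton] at hw
        rcases hw with hw | hw
        · subst hw
          exact absurd (List.mem_toFinset.1 hw') hp.2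
        · exact hw)
      have hE : (SimpleGraph.Walk.cons h p).edges.toFinset = {s(a, v)} ∪ p.edges.toFinset := by
        rw [SimpleGraph.Walk.edges_cons, List.toFinset_cons, Finset.insert_eq]
      have hSS : (SimpleGraph.Walk.cons h p).support.toFinset = {a, v} ∪ p.support.toFinset := by
        rw [SimpleGraph.Walk.support_cons, List.toFinset_cons]
        ext w
        simp only [Finset.mem_insert, List.mem_toFinset, Finset.mem_union, Finset.mem_singleton]
        constructor
        · rintro (h | h)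
          · exact Or.inl (Or.inl h)
          · exact Or.inr h
        · rintro ((h | h) | h)
          · exact Or.inl h
          · subst h
            exact Or.inr p.start_mem_support
          · exact Or.inr h
      have hL : (SimpleGraph.Walk.cons h p).length = 1 + p.length := by
        rw [SimpleGraph.Walk.length_cons, add_comm]
      rw [hE, hSS, hL]
      exact hs

/-! images -/

theorem ctr_map (φ : V → V') (u : V' → M) {x : V} {e : Sym2 V} (hx : x ∈ S)
    (he : ∀ v ∈ e, v ∈ S) (hinj : Set.InjOn φ S) :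
    ctr u (φ x) (Sym2.map φ e) = ctr (u ∘ φ) x e := by
  induction e using Sym2.ind with
  | _ a b =>
    have ha := he a (Sym2.mem_mk_left a b)
    have hb := he b (Sym2.mem_mk_right a b)
    have h1 : (φ a = φ x) ↔ (a = x) := ⟨fun h => hinj ha hx h, fun h => by rw [h]⟩
    have h2 : (φ b = φ x) ↔ (b = x) := ⟨fun h => hinj hb hx h, fun h => by rw [h]⟩
    rw [Sym2.map_mk]
    simp only [ctr_mk, h1, h2, Function.comp]

omit [DecidableEq V] [DecidableEq V'] in
theorem sym2map_injOn (φ : V → V') (hE : ∀ e ∈ E, ∀ v ∈ e, v ∈ S) (hinj : Set.InjOn φ S) :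
    Set.InjOn (Sym2.map φ) (E : Set (Sym2 V)) := by
  intro e he e' he' h
  have h1 := hE e he
  have h2 := hE e' he'
  clear he he'
  induction e using Sym2.ind with
  | _ a b =>
    induction e' using Sym2.ind with
    | _ c d =>
      have ha := h1 a (Sym2.mem_mk_left a b)
      have hb := h1 b (Sym2.mem_mk_right a b)
      have hc := h2 c (Sym2.mem_mk_left c d)
      have hd := h2 d (Sym2.mem_mk_right c d)
      rw [Sym2.map_mk, Sym2.map_mk, Sym2.eq_iff] at h
      rw [Sym2.eq_iff]
      rcases h with ⟨h, h'⟩ | ⟨h, h'⟩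
      · exact Or.inl ⟨hinj ha hc h, hinj hb hd h'⟩
      · exact Or.inr ⟨hinj ha hd h, hinj hb hc h'⟩

theorem lap_map (φ : V → V') (u : V' → M) {x : V} (hx : x ∈ S)
    (hE : ∀ e ∈ E, ∀ v ∈ e, v ∈ S) (hinj : Set.InjOn φ S) :
    lap (E.image (Sym2.map φ)) u (φ x) = lap E (u ∘ φ) x := by
  unfold lap
  rw [Finset.sum_image (sym2map_injOn φ hE hinj)]
  exact Finset.sum_congr rfl (fun e he => ctr_map φ u hx (hE e he) hinj)

omit [DecidableEq V] in
theorem Sub.map (φ : V → V') (h : Sub G E S a b) (hinj : Set.InjOn φ S)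
    (hadj : ∀ u ∈ S, ∀ v ∈ S, G.Adj u v → G'.Adj (φ u) (φ v)) :
    Sub G' (E.image (Sym2.map φ)) (S.image φ) (φ a) (φ b) where
  edge e he := by
    rw [Finset.mem_image] at he
    obtain ⟨e, he, rfl⟩ := he
    have h1 := h.edge e he
    have h2 := h.sub e he
    clear he
    induction e using Sym2.ind with
    | _ p q =>
      rw [Sym2.map_mk]
      exact hadj p (h2 p (Sym2.mem_mk_left p q)) q (h2 q (Sym2.mem_mk_right p q)) h1
  sub e he v hv := by
    rw [Finset.mem_image] at he
    obtain ⟨e, he, rfl⟩ := he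
    rw [Sym2.mem_map] at hv
    obtain ⟨w, hw, rfl⟩ := hv
    exact Finset.mem_image_of_mem φ (h.sub e he w hw)
  ma := Finset.mem_image_of_mem φ h.ma
  mb := Finset.mem_image_of_mem φ h.mb
  ne hab := h.ne (hinj h.ma h.mb hab)

theorem Harm.of_map (φ : V → V') (h : Sub G E S a b) (hinj : Set.InjOn φ S) {u : V' → M}
    (hu : Harm (E.image (Sym2.map φ)) (S.image φ) (φ a) (φ b) u) : Harm E S a b (u ∘ φ) := by
  intro v hv hva hvb
  rw [← lap_map φ u hv h.sub hinj]
  exact hu (φ v) (Finset.mem_image_of_mem φ hv) (fun h' => hva (hinj hv h.ma h'))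
    (fun h' => hvb (hinj hv h.mb h'))

theorem Net.map (φ : V → V') (h : Net G E S a b x) (hinj : Set.InjOn φ S)
    (hadj : ∀ u ∈ S, ∀ v ∈ S, G.Adj u v → G'.Adj (φ u) (φ v)) :
    Net G' (E.image (Sym2.map φ)) (S.image φ) (φ a) (φ b) x where
  toSub := h.toSub.map φ hinj hadj
  pos := h.pos
  resp u hu := by
    have := h.resp (u ∘ φ) (Harm.of_map φ h.toSub hinj hu)
    rw [lap_map φ u h.ma h.sub hinj]
    exact this
  ext α β := by
    obtain ⟨u, h1, h2, h3⟩ := h.ext α β
    classical
    let w : V' → ℚ := fun y => if hy : ∃ x ∈ S, φ x = y then u hy.choose else 0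
    have hw : ∀ v ∈ S, w (φ v) = u v := by
      intro v hv
      have hy : ∃ x ∈ S, φ x = φ v := ⟨v, hv, rfl⟩
      have h4 : w (φ v) = u hy.choose := dif_pos hy
      rw [h4]
      congr 1
      exact hinj hy.choose_spec.1 hv hy.choose_spec.2
    refine ⟨w, by rw [hw a h.ma, h1], by rw [hw b h.mb, h2], ?_⟩
    intro y hy hya hyb
    rw [Finset.mem_image] at hy
    obtain ⟨v, hv, rfl⟩ := hy
    rw [lap_map φ w hv h.sub hinj]
    rw [lap_congr (w ∘ φ) u v (fun e he z hz => hw z (h.sub e he z hz))]
    exact h3 v hv (fun h' => hya (by rw [h'])) (fun h' => hyb (by rw [h']))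

theorem PathNet.map (φ : V → V') (h : PathNet G E S a b L) (hinj : Set.InjOn φ S)
    (hadj : ∀ u ∈ S, ∀ v ∈ S, G.Adj u v → G'.Adj (φ u) (φ v)) :
    PathNet G' (E.image (Sym2.map φ)) (S.image φ) (φ a) (φ b) L where
  toNet := h.toNet.map φ hinj hadj
  respM M _ u hu := by
    have := h.respM M (u ∘ φ) (Harm.of_map φ h.toSub hinj hu)
    rw [lap_map φ u h.ma h.sub hinj]
    exact this
  card := by
    rw [Finset.card_image_of_injOn hinj, h.card]

/-! divisibility of currents -/

theorem Forces.map (φ : V → V') (h : Sub G E S a b) (hF : Forces E S a b l)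
    (hinj : Set.InjOn φ S) :
    Forces (E.image (Sym2.map φ)) (S.image φ) (φ a) (φ b) l := by
  intro u hu
  rw [lap_map φ u h.ma h.sub hinj]
  exact hF (u ∘ φ) (Harm.of_map φ h hinj hu)

theorem Forces.series_left (h1 : Sub G E1 S1 a m) (h2 : Sub G E2 S2 m b)
    (hS : ∀ v ∈ S1, v ∈ S2 → v = m) (hF : Forces E1 S1 a m l) :
    Forces (E1 ∪ E2) (S1 ∪ S2) a b l := by
  intro u hu
  obtain ⟨hH1, _, _, ha, _⟩ := Harm.series h1 h2 hS hu
  rw [ha]
  exact hF u hH1

theorem Forces.series_right (h1 : Sub G E1 S1 a m) (h2 : Sub G E2 S2 m b)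
    (hS : ∀ v ∈ S1, v ∈ S2 → v = m) (hF : Forces E2 S2 m b l) :
    Forces (E1 ∪ E2) (S1 ∪ S2) a b l := by
  intro u hu
  obtain ⟨_, hH2, hm, ha, _⟩ := Harm.series h1 h2 hS hu
  rw [ha, ← hm]
  exact hF u hH2

theorem Forces.symm (h : Sub G E S a b) (hF : Forces E S a b l) : Forces E S b a l := by
  intro u hu
  rw [h.cons u hu.symm]
  exact (dvd_neg).2 (hF u hu.symm)

/-- casting an integer-valued function to the rationals -/
theorem lap_cast (E : Finset (Sym2 V)) (u : V → ℤ) (x : V) :
    lap E (fun v => (u v : ℚ)) x = ((lap E u x : ℤ) : ℚ) := by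
  unfold lap
  rw [Int.cast_sum]
  refine Finset.sum_congr rfl (fun e _ => ?_)
  induction e using Sym2.ind with
  | _ a b =>
    simp only [ctr_mk]
    push_cast
    rfl

/-- if the resistance is `B / A` and the prime `l` divides `A` but not `B`, then `l` divides every
integral current -/
theorem Forces.of_res (h : Net G E S a b x) (A B : ℤ) (hx : (A : ℚ) * x = B) (hl : l.Prime)
    (hA : (l : ℤ) ∣ A) (hB : ¬ (l : ℤ) ∣ B) : Forces E S a b l := by
  intro u hu
  have hu' : Harm E S a b (fun v => (u v : ℚ)) := by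
    intro v hv hva hvb
    rw [lap_cast, hu v hv hva hvb, Int.cast_zero]
  have e := h.resp _ hu'
  rw [lap_cast] at e
  have e2 : (A : ℚ) * ((u b : ℚ) - u a) = B * ((lap E u a : ℤ) : ℚ) := by
    rw [← hx]
    rw [e]
    ring
  have e3 : A * (u b - u a) = B * lap E u a := by
    exact_mod_cast e2
  have hdvd : (l : ℤ) ∣ B * lap E u a := by
    rw [← e3]
    exact Dvd.dvd.mul_right hA _
  exact (Int.Prime.dvd_mul' hl hdvd).resolve_left hB

end NetCalc

end Pool.Agent.Lib.MP_79dc3a_pr
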