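import Pool.Agent.Lib.MP_79dc3a_pr.Defs2

/-!
J11 Surg: local surgery lemmas for MP_79dc3a_pr.
-/

namespace Pool.Agent.Lib.MP_79dc3a_pr

open Finset

/-! ### Geometry of the region -/

theorem surg_abs_bv {d : ℕ} (j i : Fin d) : (bv j : V d) i = if i = j then 1 else 0 := by
  unfold bv
  rw [Pi.single_apply]

theorem surg_stp_apply {d : ℕ} (i : Fin d × Bool) (k : Fin d) :
    (stp i : V d) k = if k = i.1 then (if i.2 then 1 else -1) else 0 := by
  unfold stp
  rcases i with ⟨j, b⟩
  cases b
  · simp only [Bool.false_eq_true, if_false, Pi.neg_apply, surg_abs_bv]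
    split <;> simp
  · simp only [if_true, surg_abs_bv]

theorem surg_bv_inj {d : ℕ} {j j' : Fin d} (h : (bv j : V d) = bv j') : j = j' := by
  have := congrFun h j
  rw [surg_abs_bv, surg_abs_bv, if_pos rfl] at this
  by_contra hne
  rw [if_neg hne] at this
  exact one_ne_zero this

theorem surg_stp_inj {d : ℕ} {i i' : Fin d × Bool} (h : (stp i : V d) = stp i') : i = i' := by
  have h1 := congrFun h i.1
  rw [surg_stp_apply, surg_stp_apply, if_pos rfl] at h1
  rcases i with ⟨j, b⟩
  rcases i' with ⟨j', b'⟩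
  simp only at h1
  by_cases hj : j = j'
  · subst hj
    rw [if_pos rfl] at h1
    cases b <;> cases b' <;> simp_all
  · rw [if_neg hj] at h1
    cases b <;> simp at h1

theorem surg_stp_ne_zero {d : ℕ} (i : Fin d × Bool) : (stp i : V d) ≠ 0 := by
  intro h
  have h1 := congrFun h i.1
  rw [surg_stp_apply, if_pos rfl] at h1
  rcases i with ⟨j, b⟩
  cases b <;> simp at h1

theorem surg_adj_stp {d : ℕ} (x : V d) (i : Fin d × Bool) : (zd d).Adj x (x + stp i) := by
  rcases i with ⟨j, b⟩
  cases b
  · refine ⟨j, Or.inr ?_⟩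
    simp [stp]
  · refine ⟨j, Or.inl ?_⟩
    simp [stp]

theorem surg_adj_iff {d : ℕ} {x y : V d} : (zd d).Adj x y ↔ ∃ i, y = x + stp i := by
  constructor
  · rintro ⟨j, h | h⟩
    · exact ⟨(j, true), by simpa [stp] using h⟩
    · refine ⟨(j, false), ?_⟩
      rw [h]
      simp [stp]
  · rintro ⟨i, rfl⟩
    exact surg_adj_stp x i

theorem surg_not_inStr_of_free {d K : ℕ} {x : V d} (h : x ∈ (Free K : Set (V d))) :
    x ∉ (Str K : Set (V d)) := fun h' => h.2 h'.2

theorem surg_free_of_not_str {d K : ℕ} {x : V d} (h : inQ K x) (h' : x ∉ (Str K : Set (V d))) :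
    x ∈ (Free K : Set (V d)) := ⟨h, fun h'' => h' ⟨h, h''⟩⟩

theorem surg_free_abs {d K : ℕ} {x : V d} (h : x ∈ (Free K : Set (V d))) (i : Fin d) :
    |x i| ≤ K := by
  have h1 := h.1.1 i
  have h2 : |x i| ≠ K + 1 := fun h3 => h.2 (Or.inr ⟨i, h3⟩)
  omega

theorem free_nbr {d K : ℕ} {x y : V d} (hy : y ∈ (Free K : Set (V d))) (h : (zd d).Adj x y) :
    inQ K x := by
  obtain ⟨i, hi⟩ := surg_adj_iff.1 h.symm
  have habs : ∀ k, k ≠ i.1 → |x k| ≤ K := by
    intro k hk
    rw [hi, Pi.add_apply, surg_stp_apply, if_neg hk, add_zero]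
    exact surg_free_abs hy k
  refine ⟨fun k => ?_, ?_⟩
  · by_cases hk : k = i.1
    · have h1 := surg_free_abs hy k
      rw [hi, Pi.add_apply, surg_stp_apply, if_pos hk]
      rw [abs_le] at h1 ⊢
      split <;> constructor <;> omega
    · have := habs k hk
      omega
  · intro k k' hk hk'
    have h1 : k = i.1 := by
      by_contra hne
      have := habs k hne
      omega
    have h2 : k' = i.1 := by
      by_contra hne
      have := habs k' hne
      omega
    rw [h1, h2]

theorem surg_free_step {d K : ℕ} {x : V d} (hx : x ∈ (Free K : Set (V d))) (i : Fin d × Bool) :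
    inQ K (x + stp i) := free_nbr hx (surg_adj_stp x i).symm

theorem site_unique {d K : ℕ} {x z z' : V d} (h : inQ K (x - cen K z))
    (h' : inQ K (x - cen K z')) : z = z' := by
  ext i
  have h1 := h.1 i
  have h2 := h'.1 i
  simp only [cen, Pi.sub_apply, Pi.smul_apply, smul_eq_mul] at h1 h2
  rw [abs_le] at h1 h2
  push_cast at h1 h2
  by_contra hne
  rcases lt_or_gt_of_ne hne with hlt | hlt
  · nlinarith [h1.1, h1.2, h2.1, h2.2]
  · nlinarith [h1.1, h1.2, h2.1, h2.2]

theorem mem_Bx {d : ℕ} {c x : V d} {r : ℕ} : x ∈ Bx c r ↔ ∀ i, |x i - c i| ≤ r := by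
  unfold Bx
  rw [Finset.mem_Icc, Pi.le_def, Pi.le_def]
  constructor
  · rintro ⟨h1, h2⟩ i
    have := h1 i
    have := h2 i
    rw [abs_le]
    constructor <;> linarith
  · intro h
    refine ⟨fun i => ?_, fun i => ?_⟩
    · have := abs_le.1 (h i)
      linarith [this.1]
    · have := abs_le.1 (h i)
      linarith [this.2]

theorem site_in_box {d K m : ℕ} {x z v : V d} (hz : z ∈ Bx v m) (h : inQ K (x - cen K z)) :
    x ∈ Bx (cen K v) (rad K m) := by
  rw [mem_Bx] at hz ⊢
  intro i
  have h1 := hz i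
  have h2 := h.1 i
  simp only [cen, Pi.sub_apply, Pi.smul_apply, smul_eq_mul] at h2 ⊢
  have h3 : ((rad K m : ℕ) : ℤ) = (2 * K + 4) * (m + 1) - 1 := by
    unfold rad
    rw [Nat.cast_sub (by nlinarith)]
    push_cast
    ring
  rw [h3]
  rw [abs_le] at h1 h2 ⊢
  push_cast at h2 ⊢
  constructor
  · nlinarith [h1.1, h2.1]
  · nlinarith [h1.2, h2.2]

/-! ### Edges -/

theorem mem_Wd {d K : ℕ} {z : V d} {f : Ed d} :
    f ∈ Wd K z ↔ inQ K (f.1 - cen K z) ∧ inQ K (f.1 + bv f.2 - cen K z) := by
  classical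
  unfold Wd
  rw [Finset.mem_filter, Finset.mem_product, Finset.mem_Icc, Pi.le_def, Pi.le_def]
  constructor
  · exact fun h => h.2
  · intro h
    refine ⟨⟨⟨fun i => ?_, fun i => ?_⟩, Finset.mem_univ _⟩, h⟩
    · have := abs_le.1 (h.1.1 i)
      rw [Pi.sub_apply] at this
      linarith [this.1]
    · have := abs_le.1 (h.1.1 i)
      rw [Pi.sub_apply] at this
      linarith [this.2]

theorem surg_edge_inj {d : ℕ} {f f' : Ed d}
    (h : s(f.1, f.1 + bv f.2) = s(f'.1, f'.1 + bv f'.2)) : f = f' := by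
  rw [Sym2.eq_iff] at h
  rcases h with ⟨h1, h2⟩ | ⟨h1, h2⟩
  · rw [h1] at h2
    have := surg_bv_inj (add_left_cancel h2)
    exact Prod.ext h1 this
  · exfalso
    rw [h1, add_assoc] at h2
    have h3 : (bv f'.2 : V d) + bv f.2 = 0 := by
      have : f'.1 + (bv f'.2 + bv f.2) = f'.1 + 0 := by rw [h2, add_zero]
      exact add_left_cancel this
    have h4 := congrFun h3 f.2
    rw [Pi.add_apply, surg_abs_bv, surg_abs_bv, if_pos rfl, Pi.zero_apply] at h4
    split at h4 <;> omega

theorem mem_opn {d : ℕ} {w : Cfg d} {f : Ed d} : s(f.1, f.1 + bv f.2) ∈ opn w ↔ w f = true := by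
  constructor
  · rintro ⟨f', hf', he⟩
    rw [surg_edge_inj he]
    exact hf'
  · intro h
    exact ⟨f, h, rfl⟩

theorem surg_ctr_mk {d : ℕ} {M : Type} [AddCommGroup M] (u : V d → M) (x : V d)
    (i : Fin d × Bool) : ctr u x s(x, x + stp i) = u (x + stp i) - u x := by
  have hne : x + stp i ≠ x := by
    intro h
    exact surg_stp_ne_zero i (by simpa using h)
  change (if x = x then u (x + stp i) - u x else 0) +
    (if x + stp i = x then u x - u (x + stp i) else 0) = _
  rw [if_pos rfl, if_neg hne, add_zero]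

theorem surg_ctr_zero {d : ℕ} {M : Type} [AddCommGroup M] (u : V d → M) (x : V d)
    (e : Sym2 (V d)) (h : x ∉ e) : ctr u x e = 0 := by
  induction e using Sym2.ind with
  | _ a b =>
    rw [Sym2.mem_iff, not_or] at h
    change (if a = x then u b - u a else 0) + (if b = x then u a - u b else 0) = 0
    rw [if_neg (fun h' => h.1 h'.symm), if_neg (fun h' => h.2 h'.symm), add_zero]

theorem surg_pair_inj {d : ℕ} (x : V d) {i i' : Fin d × Bool}
    (h : s(x, x + stp i) = s(x, x + stp i')) : i = i' := by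
  have h1 : x + stp i = x + stp i' := by
    rcases Sym2.eq_iff.1 h with ⟨_, h2⟩ | ⟨h2, h3⟩
    · exact h2
    · rw [← h2, h3]
  exact surg_stp_inj (add_left_cancel h1)

theorem lapS_net {d : ℕ} {M : Type} [AddCommGroup M] {E : Finset (Sym2 (V d))}
    (hE : ∀ e ∈ E, e ∈ (zd d).edgeSet) (u : V d → M) (x : V d) :
    lapS (E : Set (Sym2 (V d))) u x = lap E u x := by
  classical
  unfold lapS lap
  have h1 : ∑ i : Fin d × Bool, (if s(x, x + stp i) ∈ (E : Set (Sym2 (V d))) then
      u (x + stp i) - u x else 0) =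
      ∑ i ∈ (Finset.univ : Finset (Fin d × Bool)).filter (fun i => s(x, x + stp i) ∈ E),
        ctr u x s(x, x + stp i) := by
    rw [Finset.sum_filter]
    apply Finset.sum_congr rfl
    intro i _
    rw [surg_ctr_mk]
    simp only [Finset.mem_coe]
  have h2 : ∑ i ∈ (Finset.univ : Finset (Fin d × Bool)).filter (fun i => s(x, x + stp i) ∈ E),
        ctr u x s(x, x + stp i) =
      ∑ e ∈ ((Finset.univ : Finset (Fin d × Bool)).filter
        (fun i => s(x, x + stp i) ∈ E)).image (fun i => s(x, x + stp i)), ctr u x e := by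
    rw [Finset.sum_image]
    intro i _ i' _ h
    exact surg_pair_inj x h
  have h3 : ∑ e ∈ ((Finset.univ : Finset (Fin d × Bool)).filter
        (fun i => s(x, x + stp i) ∈ E)).image (fun i => s(x, x + stp i)), ctr u x e =
      ∑ e ∈ E, ctr u x e := by
    apply Finset.sum_subset
    · intro e he
      obtain ⟨i, hi, rfl⟩ := Finset.mem_image.1 he
      exact (Finset.mem_filter.1 hi).2
    · intro e heE he
      by_cases hxe : x ∈ e
      · exfalso
        apply he
        obtain ⟨y, rfl⟩ := Sym2.mem_iff_exists.1 hxe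
        have hadj : (zd d).Adj x y := hE _ heE
        obtain ⟨i, rfl⟩ := surg_adj_iff.1 hadj
        exact Finset.mem_image.2 ⟨i, Finset.mem_filter.2 ⟨Finset.mem_univ _, heE⟩, rfl⟩
      · exact surg_ctr_zero u x e hxe
  rw [← h3, ← h2, ← h1]
  apply Finset.sum_congr rfl
  intro i _
  congr

/-! ### Surgery -/

/-- data of a network placed in the region -/
structure InReg {d : ℕ} (K : ℕ) (E : Finset (Sym2 (V d))) (S : Finset (V d)) : Prop where
  edge : ∀ e ∈ E, e ∈ (zd d).edgeSet
  sub : ∀ e ∈ E, ∀ v ∈ e, v ∈ S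
  efree : ∀ e ∈ E, ∃ v ∈ e, v ∈ (Free K : Set (V d))
  inr : ∀ v ∈ S, v ∈ (Str K : Set (V d)) ∨ v ∈ (Free K : Set (V d))

theorem surg_shift {d : ℕ} (x c : V d) (i : Fin d × Bool) : x + c + stp i = x + stp i + c := by
  abel

theorem surg_lapS_shift {d : ℕ} {M : Type} [AddCommGroup M] (A : Set (Sym2 (V d))) (u : V d → M)
    (x c : V d) [∀ i : Fin d × Bool, Decidable (s(x + c, x + stp i + c) ∈ A)] :
    lapS A u (x + c) = ∑ i : Fin d × Bool,
      if s(x + c, x + stp i + c) ∈ A then u (x + stp i + c) - u (x + c) else 0 := by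
  unfold lapS
  apply Finset.sum_congr rfl
  intro i _
  simp only [surg_shift]

theorem InReg.not_mem_out {d K : ℕ} {E : Finset (Sym2 (V d))} {S : Finset (V d)}
    (h : InReg K E S) {x y : V d} (hy : ¬ inQ K y) : s(x, y) ∉ E := by
  intro hm
  have h1 := h.sub _ hm y (Sym2.mem_mk_right _ _)
  rcases h.inr y h1 with h2 | h2
  · exact hy h2.1
  · exact hy h2.1

theorem InReg.not_mem_str {d K : ℕ} {E : Finset (Sym2 (V d))} {S : Finset (V d)}
    (h : InReg K E S) {x y : V d} (hx : x ∈ (Str K : Set (V d))) (hy : y ∈ (Str K : Set (V d))) :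
    s(x, y) ∉ E := by
  intro hm
  obtain ⟨v, hv, hvf⟩ := h.efree _ hm
  rcases Sym2.mem_iff.1 hv with h1 | h1
  · exact surg_not_inStr_of_free hvf (h1 ▸ hx)
  · exact surg_not_inStr_of_free hvf (h1 ▸ hy)

theorem surg_str {d K : ℕ} {M : Type} [AddCommGroup M] {c : V d}
    {E1 E2 : Finset (Sym2 (V d))} {S1 S2 : Finset (V d)} (h1 : InReg K E1 S1)
    (h2 : InReg K E2 S2) {A A' : Set (Sym2 (V d))} (P1 : Pat K c E1 S1 A) (P2 : Pat K c E2 S2 A')
    {x : V d} (hx : x ∈ (Str K : Set (V d))) (u u' : V d → M)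
    (hout : ∀ i, ¬ inQ K (x + stp i) →
      ((s(x + c, x + stp i + c) ∈ A ↔ s(x + c, x + stp i + c) ∈ A') ∧
        u' (x + stp i + c) = u (x + stp i + c)))
    (hstr : ∀ y ∈ (Str K : Set (V d)), u' (y + c) = u (y + c)) :
    lapS A' u' (x + c) + lap E1 (fun y => u (y + c)) x =
      lapS A u (x + c) + lap E2 (fun y => u' (y + c)) x := by
  classical
  rw [← lapS_net h1.edge, ← lapS_net h2.edge, surg_lapS_shift, surg_lapS_shift]
  unfold lapS
  rw [← Finset.sum_add_distrib, ← Finset.sum_add_distrib]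
  apply Finset.sum_congr rfl
  intro i _
  have hxq := hx.1
  have hux := hstr x hx
  simp only [Finset.mem_coe]
  by_cases hq : inQ K (x + stp i)
  · have hP1 := P1 x (x + stp i) hxq hq (surg_adj_stp x i) (Or.inl hx)
    have hP2 := P2 x (x + stp i) hxq hq (surg_adj_stp x i) (Or.inl hx)
    by_cases hs : x + stp i ∈ (Str K : Set (V d))
    · have e1 := h1.not_mem_str hx hs
      have e2 := h2.not_mem_str hx hs
      have a1 : s(x + c, x + stp i + c) ∈ A := hP1.2 (Or.inl ⟨hx, hs⟩)
      have a2 : s(x + c, x + stp i + c) ∈ A' := hP2.2 (Or.inl ⟨hx, hs⟩)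
      rw [if_pos a1, if_pos a2, if_neg e1, if_neg e2, hux, hstr _ hs]
    · have b1 : s(x + c, x + stp i + c) ∈ A ↔ s(x, x + stp i) ∈ E1 := by
        rw [hP1]
        constructor
        · rintro (h | h)
          · exact absurd h.2 hs
          · exact h
        · exact fun h => Or.inr h
      have b2 : s(x + c, x + stp i + c) ∈ A' ↔ s(x, x + stp i) ∈ E2 := by
        rw [hP2]
        constructor
        · rintro (h | h)
          · exact absurd h.2 hs
          · exact h
        · exact fun h => Or.inr h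
      simp only [b1, b2]
      abel
  · obtain ⟨c1, c2⟩ := hout i hq
    have e1 : s(x, x + stp i) ∉ E1 := h1.not_mem_out hq
    have e2 : s(x, x + stp i) ∉ E2 := h2.not_mem_out hq
    rw [if_neg e1, if_neg e2, c2, hux]
    simp only [c1]

theorem surg_in {d K : ℕ} {M : Type} [AddCommGroup M] {c : V d} {E : Finset (Sym2 (V d))}
    {S : Finset (V d)} (h : InReg K E S) {A : Set (Sym2 (V d))} (P : Pat K c E S A) {x : V d}
    (hx : x ∈ (Free K : Set (V d))) (hxS : x ∈ S) (u : V d → M) :
    lapS A u (x + c) = lap E (fun y => u (y + c)) x := by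
  classical
  rw [← lapS_net h.edge, surg_lapS_shift]
  unfold lapS
  apply Finset.sum_congr rfl
  intro i _
  have hq := surg_free_step hx i
  have hP := P x (x + stp i) hx.1 hq (surg_adj_stp x i) (Or.inr hxS)
  have hns := surg_not_inStr_of_free hx
  have b : s(x + c, x + stp i + c) ∈ A ↔ s(x, x + stp i) ∈ E := by
    rw [hP]
    constructor
    · rintro (h | h)
      · exact absurd h.1 hns
      · exact h
    · exact fun h => Or.inr h
  simp only [b, Finset.mem_coe]

theorem surg_out {d K : ℕ} {M : Type} [AddCommGroup M] {c : V d} {E : Finset (Sym2 (V d))}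
    {S : Finset (V d)} (h : InReg K E S) {A : Set (Sym2 (V d))} (P : Pat K c E S A) {x : V d}
    (hx : x ∈ (Free K : Set (V d))) (hxS : x ∉ S) (u : V d → M) (k : M)
    (hu : ∀ y ∈ (Free K : Set (V d)), y ∉ S → u (y + c) = k) :
    lapS A u (x + c) = 0 := by
  classical
  rw [surg_lapS_shift]
  apply Finset.sum_eq_zero
  intro i _
  have hq := surg_free_step hx i
  have hns := surg_not_inStr_of_free hx
  by_cases hy : x + stp i ∈ (Str K : Set (V d)) ∨ x + stp i ∈ S
  · rw [if_neg]
    intro hm
    rw [Sym2.eq_swap, P (x + stp i) x hq hx.1 (surg_adj_stp x i).symm hy] at hm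
    rcases hm with h1 | h1
    · exact hns h1.2
    · exact hxS (h.sub _ h1 x (Sym2.mem_mk_right _ _))
  · rw [not_or] at hy
    have h1 := hu _ (surg_free_of_not_str hq hy.1) hy.2
    have h2 := hu x hx hxS
    rw [h1, h2, sub_self]
    simp

theorem surg_eta {d K : ℕ} {M : Type} [AddCommGroup M] {c : V d} {A A' : Set (Sym2 (V d))}
    (P : Pat K c ∅ ∅ A) {x : V d} (hx : x ∈ (Str K : Set (V d))) (u u' : V d → M) (k : M)
    (hout : ∀ i, ¬ inQ K (x + stp i) →
      ((s(x + c, x + stp i + c) ∈ A ↔ s(x + c, x + stp i + c) ∈ A') ∧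
        u' (x + stp i + c) = u (x + stp i + c)))
    (hu : ∀ y ∈ (Str K : Set (V d)), u (y + c) = k) (hu' : ∀ y, inQ K y → u' (y + c) = k) :
    lapS A' u' (x + c) = lapS A u (x + c) := by
  classical
  rw [surg_lapS_shift, surg_lapS_shift]
  apply Finset.sum_congr rfl
  intro i _
  have h1 : u' (x + c) = k := hu' x hx.1
  have h2 : u (x + c) = k := hu x hx
  by_cases hq : inQ K (x + stp i)
  · have h3 : u' (x + stp i + c) = k := hu' _ hq
    have h4 : (if s(x + c, x + stp i + c) ∈ A' then u' (x + stp i + c) - u' (x + c) else 0)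
        = 0 := by
      rw [h3, h1, sub_self]
      simp
    rw [h4]
    by_cases hs : x + stp i ∈ (Str K : Set (V d))
    · rw [hu _ hs, h2, sub_self]
      simp
    · rw [if_neg]
      intro hm
      rw [P x (x + stp i) hx.1 hq (surg_adj_stp x i) (Or.inl hx)] at hm
      rcases hm with h5 | h5
      · exact hs h5.2
      · simp at h5
  · obtain ⟨c1, c2⟩ := hout i hq
    rw [c2, h1, h2]
    simp only [c1]

theorem surg_eta_free {d K : ℕ} {M : Type} [AddCommGroup M] {c : V d} {A' : Set (Sym2 (V d))}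
    {x : V d} (hx : x ∈ (Free K : Set (V d))) (u' : V d → M) (k : M)
    (hu' : ∀ y, inQ K y → u' (y + c) = k) : lapS A' u' (x + c) = 0 := by
  classical
  rw [surg_lapS_shift]
  apply Finset.sum_eq_zero
  intro i _
  rw [hu' _ (surg_free_step hx i), hu' x hx.1, sub_self]
  simp

theorem surg_line_apply {d : ℕ} (s : ℤ) (j i : Fin d) :
    (s • (bv j : V d)) i = if i = j then s else 0 := by
  rw [Pi.smul_apply, surg_abs_bv, smul_eq_mul]
  split <;> simp

theorem surg_line_inQ {d K : ℕ} {s : ℤ} (j : Fin d) (hs : |s| ≤ K + 1) :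
    inQ K (s • (bv j : V d)) := by
  refine ⟨fun i => ?_, fun i i' hi hi' => ?_⟩
  · rw [surg_line_apply]
    split
    · exact hs
    · rw [abs_zero]; positivity
  · rw [surg_line_apply] at hi hi'
    have h1 : i = j := by
      by_contra hne
      rw [if_neg hne, abs_zero] at hi
      omega
    have h2 : i' = j := by
      by_contra hne
      rw [if_neg hne, abs_zero] at hi'
      omega
    rw [h1, h2]

theorem surg_line_str {d K : ℕ} {s : ℤ} (j : Fin d) (hs : |s| ≤ K + 1) :
    s • (bv j : V d) ∈ (Str K : Set (V d)) :=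
  ⟨surg_line_inQ j hs, Or.inl ⟨j, fun i hi => by rw [surg_line_apply, if_neg hi]⟩⟩

/-- harmonicity on the axis lines of a site with empty pattern -/
theorem hline {d K : ℕ} {M : Type} [AddCommGroup M] {c : V d} {A : Set (Sym2 (V d))}
    (P : Pat K c ∅ ∅ A) (u : V d → M) (j : Fin d) (s : ℤ) (hs : s ≠ 0) (hs' : |s| ≤ K)
    (hu : lapS A u (s • bv j + c) = 0) :
    (u ((s + 1) • bv j + c) - u (s • bv j + c)) + (u ((s - 1) • bv j + c) - u (s • bv j + c)) = 0 := by
  classical
  have hx : s • (bv j : V d) ∈ (Str K : Set (V d)) := surg_line_str j (by omega)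
  rw [surg_lapS_shift] at hu
  -- only the two steps along the line contribute
  have hK : 1 ≤ K := by
    have : 1 ≤ |s| := Int.one_le_abs hs
    omega
  have hzero : ∀ i : Fin d × Bool, i ∉ ({(j, true), (j, false)} : Finset (Fin d × Bool)) →
      (if s(s • bv j + c, s • bv j + stp i + c) ∈ A then
        u (s • bv j + stp i + c) - u (s • bv j + c) else 0) = 0 := by
    intro i hi
    have hij : i.1 ≠ j := by
      intro h
      apply hi
      rcases i with ⟨j', b⟩
      simp only at h
      subst h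
      cases b <;> simp
    have happ : ∀ k, (s • (bv j : V d) + stp i) k =
        if k = j then s else if k = i.1 then (if i.2 then 1 else -1) else 0 := by
      intro k
      rw [Pi.add_apply, surg_line_apply, surg_stp_apply]
      by_cases hk : k = j
      · subst hk
        rw [if_pos rfl, if_pos rfl, if_neg (fun h => hij h.symm), add_zero]
      · rw [if_neg hk, if_neg hk, zero_add]
    have habs : ∀ k, |(s • (bv j : V d) + stp i) k| ≤ K := by
      intro k
      rw [happ]
      split
      · exact hs'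
      · split
        · split
          · simp only [abs_one]; exact_mod_cast hK
          · simp only [abs_neg, abs_one]; exact_mod_cast hK
        · rw [abs_zero]; positivity
    have hq : inQ K (s • (bv j : V d) + stp i) := by
      refine ⟨fun k => ?_, fun k k' hk => ?_⟩
      · have := habs k
        omega
      · have := habs k
        omega
    have hns : s • (bv j : V d) + stp i ∉ (Str K : Set (V d)) := by
      rintro ⟨_, ⟨j', hj'⟩ | ⟨j', hj'⟩⟩
      · by_cases h1 : j' = j
        · have h2 := hj' i.1 (fun h => hij (h.trans h1))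
          rw [happ, if_neg hij, if_pos rfl] at h2
          split at h2 <;> omega
        · have h2 := hj' j (fun h => h1 h.symm)
          rw [happ, if_pos rfl] at h2
          exact hs h2
      · have := habs j'
        omega
    rw [if_neg]
    intro hm
    rw [P _ _ hx.1 hq (surg_adj_stp _ i) (Or.inl hx)] at hm
    rcases hm with h5 | h5
    · exact hns h5.2
    · simp at h5
  rw [← Finset.sum_subset (Finset.subset_univ ({(j, true), (j, false)} : Finset (Fin d × Bool)))
    (fun i _ hi => hzero i hi)] at hu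
  rw [Finset.sum_pair (by simp)] at hu
  have e1 : s • (bv j : V d) + stp (j, true) = (s + 1) • bv j := by
    simp only [stp, if_true]
    rw [add_smul, one_smul]
  have e2 : s • (bv j : V d) + stp (j, false) = (s - 1) • bv j := by
    simp only [stp, Bool.false_eq_true, if_false]
    rw [sub_smul, one_smul, sub_eq_add_neg]
  have a1 : s(s • bv j + c, s • bv j + stp (j, true) + c) ∈ A := by
    have hy : s • (bv j : V d) + stp (j, true) ∈ (Str K : Set (V d)) := by
      rw [e1]
      apply surg_line_str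
      rw [abs_le] at hs' ⊢
      omega
    exact (P _ _ hx.1 hy.1 (surg_adj_stp _ _) (Or.inl hx)).2 (Or.inl ⟨hx, hy⟩)
  have a2 : s(s • bv j + c, s • bv j + stp (j, false) + c) ∈ A := by
    have hy : s • (bv j : V d) + stp (j, false) ∈ (Str K : Set (V d)) := by
      rw [e2]
      apply surg_line_str
      rw [abs_le] at hs' ⊢
      omega
    exact (P _ _ hx.1 hy.1 (surg_adj_stp _ _) (Or.inl hx)).2 (Or.inl ⟨hx, hy⟩)
  rw [if_pos a1, if_pos a2, e1, e2] at hu
  exact hu

end Pool.Agent.Lib.MP_79dc3a_pr
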